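import Pool.Agent.Lib.P7ee.LenBasic

/-!
# P7ee.Angle: the 120 degree rule  (1.5 h)

Let `d = dir P v a`, `d' = dir P v b` and suppose `ip d d' > -1/2`. New network on `Option V`: old vertices, a new vertex `none` at `w = P v + ε h`, `h = d + d'`, graph: all edges of `G` except `va`, `vb`, and `none ~ a`, `none ~ b`, `none ~ v`. It is connected (adjacent vertices of `G` are still joined by a walk) and feasible with `τ' = some ∘ τ`.
The length changes by `‖w - P a‖ + ‖w - P b‖ + ε ‖h‖ - ‖P v - P a‖ - ‖P v - P b‖ ≤ - ε (ip d h + ip d' h) + ε ‖h‖ + C ε² = - ε ‖h‖ (‖h‖ - 1) + C ε²` (`‖x + ε h‖ ≤ ‖x‖ + ε ⟨x,h⟩/‖x‖ + ε²‖h‖²/(2‖x‖)`), and `‖h‖² = 2 + 2 ip d d' > 1`: negative for small `ε`, contradiction to optimality.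
-/

set_option autoImplicit false

open MeasureTheory Set Metric Filter Topology

namespace Pool.Agent.Lib.P7ee

namespace AngleAux

open Classical in
/-- the modified graph -/
def newG {V : Type} (G : SimpleGraph V) (v a b : V) : SimpleGraph (Option V) where
  Adj s t := match s, t with
    | some x, some y => G.Adj x y ∧ ¬ (x = v ∧ y = a) ∧ ¬ (x = a ∧ y = v) ∧ ¬ (x = v ∧ y = b) ∧
        ¬ (x = b ∧ y = v)
    | none, some x => x = a ∨ x = b ∨ x = v
    | some x, none => x = a ∨ x = b ∨ x = v
    | none, none => False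
  symm := ⟨by
    rintro (_ | x) (_ | y) h
    · exact h
    · exact h
    · exact h
    · obtain ⟨h1, h2, h3, h4, h5⟩ := h
      exact ⟨h1.symm, fun h => h3 ⟨h.2, h.1⟩, fun h => h2 ⟨h.2, h.1⟩, fun h => h5 ⟨h.2, h.1⟩,
        fun h => h4 ⟨h.2, h.1⟩⟩⟩
  loopless := ⟨by
    rintro (_ | x) h
    · exact h
    · exact G.loopless.irrefl x h.1⟩

/-- the new positions -/
def newP {V : Type} (P : V → ℂ) (w : ℂ) : Option V → ℂ
  | none => w
  | some x => P x

lemma connected {V : Type} {G : SimpleGraph V} (hG : G.Connected) (v a b : V) :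
    (newG G v a b).Connected := by
  have hn : ∀ x, (x = a ∨ x = b ∨ x = v) → (newG G v a b).Reachable none (some x) := by
    intro x hx
    exact SimpleGraph.Adj.reachable (show (newG G v a b).Adj none (some x) from hx)
  have hadj : ∀ x y, G.Adj x y → (newG G v a b).Reachable (some x) (some y) := by
    intro x y hxy
    by_cases hc : ¬ (x = v ∧ y = a) ∧ ¬ (x = a ∧ y = v) ∧ ¬ (x = v ∧ y = b) ∧ ¬ (x = b ∧ y = v)
    · exact SimpleGraph.Adj.reachable (show (newG G v a b).Adj (some x) (some y) from ⟨hxy, hc⟩)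
    · have hx : x = a ∨ x = b ∨ x = v := by tauto
      have hy : y = a ∨ y = b ∨ y = v := by tauto
      exact (hn x hx).symm.trans (hn y hy)
  have hr : ∀ x y, G.Reachable x y → (newG G v a b).Reachable (some x) (some y) := by
    intro x y hxy
    obtain ⟨p⟩ := hxy
    induction p with
    | nil => exact SimpleGraph.Reachable.refl _
    | cons h p ih => exact (hadj _ _ h).trans ih
  have hv : ∀ s, (newG G v a b).Reachable none s := by
    rintro (_ | x)
    · exact SimpleGraph.Reachable.refl _
    · exact (hn v (Or.inr (Or.inr rfl))).trans (hr v x (hG.preconnected v x))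
  haveI : Nonempty (Option V) := ⟨none⟩
  exact SimpleGraph.Connected.mk (fun s t => (hv s).symm.trans (hv t))

lemma len_new {V : Type} [Fintype V] {G : SimpleGraph V} (P : V → ℂ) (w : ℂ) {v a b : V}
    (ha : G.Adj v a) (hb : G.Adj v b) (hab : a ≠ b) :
    len (newG G v a b) (newP P w) = len G P - dist (P v) (P a) - dist (P v) (P b)
      + dist w (P a) + dist w (P b) + dist w (P v) := by
  classical
  have hva : v ≠ a := ha.ne
  have hvb : v ≠ b := hb.ne
  have e0 : ∀ x, (newG G v a b).Adj none (some x) ↔ (x = a ∨ x = b ∨ x = v) := fun x => Iff.rfl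
  have e1 : ∀ x, (newG G v a b).Adj (some x) none ↔ (x = a ∨ x = b ∨ x = v) := fun x => Iff.rfl
  have e2 : ∀ x y, (newG G v a b).Adj (some x) (some y) ↔ (G.Adj x y ∧ ¬ (x = v ∧ y = a) ∧
      ¬ (x = a ∧ y = v) ∧ ¬ (x = v ∧ y = b) ∧ ¬ (x = b ∧ y = v)) := fun x y => Iff.rfl
  have e3 : ¬ (newG G v a b).Adj none none := fun h => h
  have s1 : ∑ x, (if (newG G v a b).Adj none (some x) then dist w (P x) else 0)
      = dist w (P a) + dist w (P b) + dist w (P v) := by
    have : ∀ x, (if (newG G v a b).Adj none (some x) then dist w (P x) else 0)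
        = (if x = a then dist w (P a) else 0) + (if x = b then dist w (P b) else 0)
          + (if x = v then dist w (P v) else 0) := by
      intro x
      by_cases h1 : x = a
      · subst h1
        simp [e0, hab, hva.symm]
      · by_cases h2 : x = b
        · subst h2
          simp [e0, h1, hvb.symm]
        · by_cases h3 : x = v
          · subst h3
            simp [e0, h1, h2]
          · simp [e0, h1, h2, h3]
    rw [Finset.sum_congr rfl (fun x _ => this x), Finset.sum_add_distrib, Finset.sum_add_distrib]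
    simp
  have s2 : ∑ x, (if (newG G v a b).Adj (some x) none then dist (P x) w else 0)
      = dist w (P a) + dist w (P b) + dist w (P v) := by
    rw [← s1]
    refine Finset.sum_congr rfl fun x _ => ?_
    simp only [e0, e1, dist_comm]
  have s3 : ∑ x, ∑ y, (if (newG G v a b).Adj (some x) (some y) then dist (P x) (P y) else 0)
      = (∑ x, ∑ y, (if G.Adj x y then dist (P x) (P y) else 0)) - 2 * dist (P v) (P a)
        - 2 * dist (P v) (P b) := by
    have : ∀ x y, (if (newG G v a b).Adj (some x) (some y) then dist (P x) (P y) else 0)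
        = (if G.Adj x y then dist (P x) (P y) else 0)
          - (if x = v then (if y = a then dist (P v) (P a) else 0) else 0)
          - (if x = a then (if y = v then dist (P v) (P a) else 0) else 0)
          - (if x = v then (if y = b then dist (P v) (P b) else 0) else 0)
          - (if x = b then (if y = v then dist (P v) (P b) else 0) else 0) := by
      intro x y
      by_cases h1 : x = v ∧ y = a
      · obtain ⟨rfl, rfl⟩ := h1
        simp [e2, ha, hab, hva, hvb]
      · by_cases h2 : x = a ∧ y = v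
        · obtain ⟨rfl, rfl⟩ := h2
          simp [e2, ha.symm, hab, hva, hva.symm, dist_comm]
        · by_cases h3 : x = v ∧ y = b
          · obtain ⟨rfl, rfl⟩ := h3
            simp [e2, hb, hab.symm, hva, hvb]
          · by_cases h4 : x = b ∧ y = v
            · obtain ⟨rfl, rfl⟩ := h4
              simp [e2, hb.symm, hab.symm, hvb, hvb.symm, dist_comm]
            · have t1 : (if x = v then (if y = a then dist (P v) (P a) else 0) else 0) = 0 := by
                split_ifs with p q
                · exact absurd ⟨p, q⟩ h1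
                · rfl
                · rfl
              have t2 : (if x = a then (if y = v then dist (P v) (P a) else 0) else 0) = 0 := by
                split_ifs with p q
                · exact absurd ⟨p, q⟩ h2
                · rfl
                · rfl
              have t3 : (if x = v then (if y = b then dist (P v) (P b) else 0) else 0) = 0 := by
                split_ifs with p q
                · exact absurd ⟨p, q⟩ h3
                · rfl
                · rfl
              have t4 : (if x = b then (if y = v then dist (P v) (P b) else 0) else 0) = 0 := by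
                split_ifs with p q
                · exact absurd ⟨p, q⟩ h4
                · rfl
                · rfl
              rw [t1, t2, t3, t4]
              have : (newG G v a b).Adj (some x) (some y) ↔ G.Adj x y := by
                rw [e2]
                tauto
              simp [this]
    rw [Finset.sum_congr rfl (fun x _ => Finset.sum_congr rfl (fun y _ => this x y))]
    simp only [Finset.sum_sub_distrib]
    have hs : ∀ (p q : V) (c : ℝ), ∑ x : V, ∑ y : V, (if x = p then (if y = q then c else 0) else 0)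
        = c := by
      intro p q c
      rw [Finset.sum_eq_single p]
      · rw [Finset.sum_eq_single q] <;> simp +contextual
      · intro x _ hx
        simp [hx]
      · simp
    rw [hs, hs, hs, hs]
    ring
  unfold len
  rw [Fintype.sum_option, Fintype.sum_option]
  simp only [Fintype.sum_option, Finset.sum_add_distrib]
  simp only [newP, e3, if_false]
  rw [s1, s2, s3]
  ring

lemma norm_le_amgm (z : ℂ) {α : ℝ} (hα : 0 < α) :
    ‖z‖ ≤ (z.re ^ 2 + z.im ^ 2 + α ^ 2) / (2 * α) := by
  have h : ‖z‖ ^ 2 = z.re ^ 2 + z.im ^ 2 := by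
    rw [Complex.sq_norm, Complex.normSq_apply]
    ring
  rw [le_div_iff₀ (by positivity)]
  nlinarith [sq_nonneg (‖z‖ - α)]

lemma dir_sq {V : Type} {P : V → ℂ} {v a : V} (h : P v ≠ P a) :
    (dir P v a).re ^ 2 + (dir P v a).im ^ 2 = 1 ∧
    (P a).re - (P v).re = ‖P a - P v‖ * (dir P v a).re ∧
    (P a).im - (P v).im = ‖P a - P v‖ * (dir P v a).im ∧ 0 < ‖P a - P v‖ := by
  have hpos : 0 < ‖P a - P v‖ := norm_pos_iff.mpr (sub_ne_zero.mpr h.symm)
  have h1 : (dir P v a).re = (P a - P v).re / ‖P a - P v‖ := by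
    unfold dir
    rw [Complex.div_ofReal_re]
  have h2 : (dir P v a).im = (P a - P v).im / ‖P a - P v‖ := by
    unfold dir
    rw [Complex.div_ofReal_im]
  have h3 : ‖P a - P v‖ ^ 2 = (P a - P v).re ^ 2 + (P a - P v).im ^ 2 := by
    rw [Complex.sq_norm, Complex.normSq_apply]
    ring
  refine ⟨?_, ?_, ?_, hpos⟩
  · rw [h1, h2, div_pow, div_pow, ← add_div, ← h3]
    field_simp
  · rw [h1, Complex.sub_re]
    field_simp
  · rw [h2, Complex.sub_im]
    field_simp

end AngleAux

open AngleAux in
theorem angle_le {n : ℕ} {y : Fin n → ℂ} {r : ℝ} {V : Type} [Fintype V]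
    {G : SimpleGraph V} {P : V → ℂ} {τ : Fin n → V} (h : IsOpt y r G P τ) {v a b : V}
    (ha : G.Adj v a) (hb : G.Adj v b) (hab : a ≠ b) (hPa : P v ≠ P a) (hPb : P v ≠ P b) :
    ip (dir P v a) (dir P v b) ≤ -(1 / 2) := by
  by_contra hcon
  push Not at hcon
  obtain ⟨hd, hdx, hdy, hα⟩ := dir_sq hPa
  obtain ⟨hd', hdx', hdy', hβ⟩ := dir_sq hPb
  set d := dir P v a with hdef
  set d' := dir P v b with hdef'
  set α := ‖P a - P v‖ with hαdef
  set β := ‖P b - P v‖ with hβdef
  set H : ℂ := d + d' with hH
  have hHsq : ‖H‖ ^ 2 = 2 + 2 * ip d d' := by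
    rw [Complex.sq_norm, Complex.normSq_apply]
    simp only [hH, Complex.add_re, Complex.add_im, ip]
    nlinarith
  have hHsq' : H.re ^ 2 + H.im ^ 2 = ‖H‖ ^ 2 := by
    rw [Complex.sq_norm, Complex.normSq_apply]
    ring
  have hH1 : 1 < ‖H‖ := by
    have : (1 : ℝ) < ‖H‖ ^ 2 := by rw [hHsq]; linarith
    nlinarith [norm_nonneg H]
  set C : ℝ := 1 / (2 * α) + 1 / (2 * β) with hC
  have hCpos : 0 < C := by positivity
  set ε : ℝ := (‖H‖ - 1) / (2 * ‖H‖ * C) with hε
  have hHpos : 0 < ‖H‖ := by linarith
  have hεpos : 0 < ε := by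
    apply div_pos (by linarith) (by positivity)
  have hεeq : ε * ‖H‖ * C = (‖H‖ - 1) / 2 := by
    rw [hε]
    field_simp
  set w : ℂ := P v + (ε : ℂ) * H with hw
  have hwre : w.re = (P v).re + ε * H.re := by simp [hw]
  have hwim : w.im = (P v).im + ε * H.im := by simp [hw]
  have h1 : dist w (P a) ≤ α - ε * (d.re * H.re + d.im * H.im) + ε ^ 2 * ‖H‖ ^ 2 / (2 * α) := by
    rw [dist_eq_norm]
    refine (norm_le_amgm (w - P a) hα).trans (le_of_eq ?_)
    have e1 : (w - P a).re = ε * H.re - α * d.re := by
      rw [Complex.sub_re, hwre]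
      linarith
    have e2 : (w - P a).im = ε * H.im - α * d.im := by
      rw [Complex.sub_im, hwim]
      linarith
    rw [e1, e2, ← hHsq']
    have : (ε * H.re - α * d.re) ^ 2 + (ε * H.im - α * d.im) ^ 2 + α ^ 2
        = ε ^ 2 * (H.re ^ 2 + H.im ^ 2) - 2 * α * ε * (d.re * H.re + d.im * H.im)
          + α ^ 2 * (d.re ^ 2 + d.im ^ 2) + α ^ 2 := by ring
    rw [this, hd]
    field_simp
    ring
  have h2 : dist w (P b) ≤ β - ε * (d'.re * H.re + d'.im * H.im) + ε ^ 2 * ‖H‖ ^ 2 / (2 * β) := by
    rw [dist_eq_norm]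
    refine (norm_le_amgm (w - P b) hβ).trans (le_of_eq ?_)
    have e1 : (w - P b).re = ε * H.re - β * d'.re := by
      rw [Complex.sub_re, hwre]
      linarith
    have e2 : (w - P b).im = ε * H.im - β * d'.im := by
      rw [Complex.sub_im, hwim]
      linarith
    rw [e1, e2, ← hHsq']
    have : (ε * H.re - β * d'.re) ^ 2 + (ε * H.im - β * d'.im) ^ 2 + β ^ 2
        = ε ^ 2 * (H.re ^ 2 + H.im ^ 2) - 2 * β * ε * (d'.re * H.re + d'.im * H.im)
          + β ^ 2 * (d'.re ^ 2 + d'.im ^ 2) + β ^ 2 := by ring
    rw [this, hd']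
    field_simp
    ring
  have h3 : dist w (P v) = ε * ‖H‖ := by
    rw [dist_eq_norm, hw]
    simp [abs_of_pos hεpos]
  have h4 : (d.re * H.re + d.im * H.im) + (d'.re * H.re + d'.im * H.im) = ‖H‖ ^ 2 := by
    rw [← hHsq']
    simp only [hH, Complex.add_re, Complex.add_im]
    ring
  have hopt := h.2 (Option V) (newG G v a b) (newP P w) (fun j => some (τ j))
    ⟨connected h.1.1 v a b, fun j => h.1.2 j⟩
  rw [len_new P w ha hb hab] at hopt
  have e5 : dist (P v) (P a) = α := by rw [dist_comm, dist_eq_norm]
  have e6 : dist (P v) (P b) = β := by rw [dist_comm, dist_eq_norm]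
  rw [e5, e6, h3] at hopt
  have h7 : ε ^ 2 * ‖H‖ ^ 2 / (2 * α) + ε ^ 2 * ‖H‖ ^ 2 / (2 * β) = ε * ‖H‖ * (ε * ‖H‖ * C) := by
    rw [hC]
    ring
  rw [hεeq] at h7
  have h8 : 0 < ε * ‖H‖ := by positivity
  nlinarith
end Pool.Agent.Lib.P7ee
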