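import Mathlib

/-!
# P7ee.Arith: the arithmetic data  (1.2 h)

Construct `b 0 < b 1 < ...` (natural numbers `≥ 10`) and primes `p i ≡ 1 mod 4` with `p i > b j ^ 2 + 1` for all `j < i`, `p i ∣ b i ^ 2 + 1`, `¬ p i ^ 2 ∣ b i ^ 2 + 1`, `b i > b (i-1)`: infinitely many primes `≡ 1 mod 4` (`Nat.exists_prime_gt_modEq_one`), `-1` is a square mod `p i`, choose a root `c` and add multiples of `p i` to make it large; if `p² ∣ c² + 1` replace `c` by `c + p` (`(c+p)² + 1 ≡ 2 c p mod p²`).
`a c = b (k - 1 - c)` for `c < k`. For `S` nonempty let `c` be its smallest element, `i = k - 1 - c` the largest index in the order of the `b`: `p i` divides `a c ^ 2 + 1` exactly once and does not divide the other factors (they are positive and smaller than `p i`), so the product is not a square (its `p i`-adic valuation is one).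
-/

set_option autoImplicit false



namespace Pool.Agent.Lib.P7ee

private theorem arith_step (N : ℕ) : ∃ pb : ℕ × ℕ, pb.1.Prime ∧ N < pb.1 ∧ N < pb.2 ∧
    pb.1 ∣ pb.2 ^ 2 + 1 ∧ ¬ pb.1 ^ 2 ∣ pb.2 ^ 2 + 1 := by
  obtain ⟨p, hp, hNp, hmod⟩ := Nat.exists_prime_gt_modEq_one (k := 4) (N + 2) (by norm_num)
  have : Fact p.Prime := ⟨hp⟩
  have h3 : p % 4 ≠ 3 := by
    have : p % 4 = 1 := hmod
    omega
  obtain ⟨y, hy⟩ := (ZMod.exists_sq_eq_neg_one_iff (p := p)).2 h3
  set c : ℕ := y.val + p * (N + 1) with hc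
  have hcz : (c : ZMod p) = y := by
    rw [hc]
    push_cast
    simp
  have hdvd : p ∣ c ^ 2 + 1 := by
    rw [← ZMod.natCast_eq_zero_iff]
    push_cast
    rw [hcz, pow_two, ← hy]
    ring
  have hcN : N < c := by
    have h1 : N + 1 ≤ p * (N + 1) := Nat.le_mul_of_pos_left _ hp.pos
    omega
  by_cases hsq : p ^ 2 ∣ c ^ 2 + 1
  · refine ⟨(p, c + p), hp, by simp only; omega, by simp only; omega, ?_, ?_⟩
    · simp only
      have : (c + p) ^ 2 + 1 = (c ^ 2 + 1) + p * (2 * c + p) := by ring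
      rw [this]
      exact Dvd.dvd.add hdvd (Dvd.intro _ rfl)
    · simp only
      intro h
      have e : (c + p) ^ 2 + 1 = (c ^ 2 + 1) + (p * (2 * c) + p ^ 2) := by ring
      rw [e] at h
      have h1 : p ^ 2 ∣ p * (2 * c) + p ^ 2 := (Nat.dvd_add_right hsq).1 h
      have h2 : p ^ 2 ∣ p * (2 * c) := (Nat.dvd_add_left (dvd_refl _)).1 h1
      rw [pow_two] at h2
      have h4 : p ∣ 2 * c := Nat.dvd_of_mul_dvd_mul_left hp.pos h2
      rcases (Nat.Prime.dvd_mul hp).1 h4 with h5 | h5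
      · have := Nat.le_of_dvd (by norm_num) h5
        omega
      · have h6 : p ∣ c ^ 2 := dvd_pow h5 (by norm_num)
        have h7 : p ∣ 1 := (Nat.dvd_add_right h6).1 hdvd
        have := Nat.le_of_dvd (by norm_num) h7
        omega
  · exact ⟨(p, c), hp, by simp only; omega, by simp only; omega, hdvd, hsq⟩

private noncomputable def arithSeq : ℕ → ℕ × ℕ
  | 0 => (arith_step 10).choose
  | n + 1 => (arith_step ((arithSeq n).2 ^ 2 + 1 + 10)).choose

private theorem arithSeq_prime (n : ℕ) : (arithSeq n).1.Prime := by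
  cases n with
  | zero => exact (arith_step 10).choose_spec.1
  | succ n => exact (arith_step _).choose_spec.1

private theorem arithSeq_ten (n : ℕ) : 10 < (arithSeq n).2 := by
  cases n with
  | zero => exact (arith_step 10).choose_spec.2.2.1
  | succ n =>
    have := (arith_step ((arithSeq n).2 ^ 2 + 1 + 10)).choose_spec.2.2.1
    change 10 < ((arith_step ((arithSeq n).2 ^ 2 + 1 + 10)).choose).2
    omega

private theorem arithSeq_dvd (n : ℕ) : (arithSeq n).1 ∣ (arithSeq n).2 ^ 2 + 1 := by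
  cases n with
  | zero => exact (arith_step 10).choose_spec.2.2.2.1
  | succ n => exact (arith_step _).choose_spec.2.2.2.1

private theorem arithSeq_ndvd (n : ℕ) : ¬ (arithSeq n).1 ^ 2 ∣ (arithSeq n).2 ^ 2 + 1 := by
  cases n with
  | zero => exact (arith_step 10).choose_spec.2.2.2.2
  | succ n => exact (arith_step _).choose_spec.2.2.2.2

private theorem arithSeq_lt (n : ℕ) : (arithSeq n).2 ^ 2 + 1 < (arithSeq (n + 1)).1 ∧
    (arithSeq n).2 < (arithSeq (n + 1)).2 := by
  have h1 := (arith_step ((arithSeq n).2 ^ 2 + 1 + 10)).choose_spec.2.1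
  have h2 := (arith_step ((arithSeq n).2 ^ 2 + 1 + 10)).choose_spec.2.2.1
  change (arithSeq n).2 ^ 2 + 1 < ((arith_step ((arithSeq n).2 ^ 2 + 1 + 10)).choose).1 ∧
    (arithSeq n).2 < ((arith_step ((arithSeq n).2 ^ 2 + 1 + 10)).choose).2
  refine ⟨by omega, ?_⟩
  have : (arithSeq n).2 ≤ (arithSeq n).2 ^ 2 := Nat.le_self_pow (by norm_num) _
  omega

private theorem arithSeq_mono : StrictMono (fun n => (arithSeq n).2) :=
  strictMono_nat_of_lt_succ (fun n => (arithSeq_lt n).2)

private theorem arithSeq_prime_gt {j i : ℕ} (h : j < i) :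
    (arithSeq j).2 ^ 2 + 1 < (arithSeq i).1 := by
  obtain ⟨i, rfl⟩ : ∃ i', i = i' + 1 := ⟨i - 1, by omega⟩
  have h1 : (arithSeq j).2 ≤ (arithSeq i).2 := arithSeq_mono.monotone (by omega)
  have h2 : (arithSeq j).2 ^ 2 ≤ (arithSeq i).2 ^ 2 := Nat.pow_le_pow_left h1 2
  have h3 := (arithSeq_lt i).1
  omega

theorem arith_data (k : ℕ) : ∃ a : ℕ → ℤ, (∀ c < k, 10 ≤ a c) ∧
    (∀ c, c + 1 < k → a (c + 1) < a c) ∧
    ∀ S : Finset ℕ, S.Nonempty → S ⊆ Finset.range k → ¬ IsSquare (∏ c ∈ S, (a c ^ 2 + 1)) := by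
  refine ⟨fun c => ((arithSeq (k - 1 - c)).2 : ℤ), ?_, ?_, ?_⟩
  · intro c _
    have := arithSeq_ten (k - 1 - c)
    simp only
    exact_mod_cast this.le
  · intro c hc
    simp only
    have : (arithSeq (k - 1 - (c + 1))).2 < (arithSeq (k - 1 - c)).2 :=
      arithSeq_mono (by omega)
    exact_mod_cast this
  · intro S hS hSk hsq
    set c := S.min' hS with hc
    have hcS : c ∈ S := S.min'_mem hS
    have hck : c < k := Finset.mem_range.1 (hSk hcS)
    set p : ℕ := (arithSeq (k - 1 - c)).1 with hp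
    have hpp : p.Prime := arithSeq_prime _
    have hpz : Prime (p : ℤ) := Nat.prime_iff_prime_int.1 hpp
    rw [← Finset.mul_prod_erase S _ hcS] at hsq
    set X : ℤ := ((arithSeq (k - 1 - c)).2 : ℤ) ^ 2 + 1 with hX
    set Y : ℤ := ∏ x ∈ S.erase c, (((arithSeq (k - 1 - x)).2 : ℤ) ^ 2 + 1) with hY
    have hpX : (p : ℤ) ∣ X := by
      have := arithSeq_dvd (k - 1 - c)
      rw [hX]
      exact_mod_cast this
    have hpX2 : ¬ (p : ℤ) ^ 2 ∣ X := by
      have := arithSeq_ndvd (k - 1 - c)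
      rw [hX]
      intro h
      apply this
      exact_mod_cast h
    have hpY : ¬ (p : ℤ) ∣ Y := by
      intro h
      rw [hY, Prime.dvd_finsetProd_iff hpz] at h
      obtain ⟨x, hx, hdx⟩ := h
      have hxS : x ∈ S := Finset.mem_of_mem_erase hx
      have hxc : x ≠ c := Finset.ne_of_mem_erase hx
      have hcx : c ≤ x := S.min'_le x hxS
      have hxk : x < k := Finset.mem_range.1 (hSk hxS)
      have hlt : k - 1 - x < k - 1 - c := by omega
      have h1 := arithSeq_prime_gt hlt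
      have h2 : p ∣ (arithSeq (k - 1 - x)).2 ^ 2 + 1 := by exact_mod_cast hdx
      have h3 := Nat.le_of_dvd (by positivity) h2
      omega
    obtain ⟨r, hr⟩ := hsq
    have hr' : X * Y = r * r := hr
    have h1 : (p : ℤ) ∣ r := by
      have : (p : ℤ) ∣ r * r := by
        rw [← hr']
        exact Dvd.dvd.mul_right hpX Y
      rcases hpz.dvd_or_dvd this with h | h <;> exact h
    have h2 : (p : ℤ) ^ 2 ∣ X * Y := by
      rw [hr', pow_two]
      exact mul_dvd_mul h1 h1
    have hcop : IsCoprime (p : ℤ) Y := (Prime.coprime_iff_not_dvd hpz).2 hpY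
    have hcop2 : IsCoprime ((p : ℤ) ^ 2) Y := IsCoprime.pow_left hcop
    exact hpX2 (hcop2.dvd_of_dvd_mul_right h2)

end Pool.Agent.Lib.P7ee
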