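import Pool.Agent.Lib.P7ee.InK

/-!
# P7ee.SqrtField: square roots of rationals, intersections of circles, roots of unity  (1.2 h)

`sqrt_field`: induction on `S`: `finrank` of `F⟮s⟯` over `F` is at most `2` when `s² ∈ F`. `corner_coord`: let `m = (y + y')/2`, `δ = y' - y ≠ 0`; `dist p y = dist p y'` means `p = m + i u δ` with real `u` (perpendicular bisector), `r² = ‖δ‖² (1/4 + u²)`, so `u² = r²/‖δ‖² - 1/4` is rational; `s = u`.
`root12`: `η^12 = 1`: `η = exp (2 π i k/12)` (`Complex.mem_rootsOfUnity`-like or `(η^6)^2 = 1`, `η^6 = ± 1`, `(η^2)^3 = ±1`, ...): the values of `cos`, `sin` at multiples of `π/6`. Algebraic way: `w = η²` satisfies `w^6 = 1`; `w^3 = ± 1`, so `w = ± 1` or `w² ∓ w + 1 = 0`, giving `Re w`, `Im w` in `{±1, ±1/2, 0, ±√3/2}`; then `η² = w`.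
`root4`: `η^4 = 1` gives `η ∈ {1, -1, i, -i}`.
-/

set_option autoImplicit false



namespace Pool.Agent.Lib.P7ee

private lemma one_field {s : ℝ} (h : ∃ q : ℚ, s ^ 2 = q) :
    FiniteDimensional ℚ (IntermediateField.adjoin ℚ {s}) ∧
      Module.finrank ℚ (IntermediateField.adjoin ℚ {s}) ≤ 2 := by
  obtain ⟨q, hq⟩ := h
  have hmon : (Polynomial.X ^ 2 - Polynomial.C q : Polynomial ℚ).Monic :=
    Polynomial.monic_X_pow_sub_C q (by norm_num)
  have hroot : Polynomial.aeval s (Polynomial.X ^ 2 - Polynomial.C q : Polynomial ℚ) = 0 := by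
    simp [hq]
  have hint : IsIntegral ℚ s := ⟨_, hmon, by
    rw [← Polynomial.aeval_def]; exact hroot⟩
  refine ⟨IntermediateField.adjoin.finiteDimensional hint, ?_⟩
  rw [IntermediateField.adjoin.finrank hint]
  have h1 : (minpoly ℚ s).natDegree ≤ (Polynomial.X ^ 2 - Polynomial.C q : Polynomial ℚ).natDegree :=
    Polynomial.natDegree_le_of_dvd (minpoly.dvd ℚ s hroot) hmon.ne_zero
  rwa [Polynomial.natDegree_X_pow_sub_C] at h1

theorem sqrt_field (S : Finset ℝ) (h : ∀ s ∈ S, ∃ q : ℚ, s ^ 2 = q) :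
    FiniteDimensional ℚ (IntermediateField.adjoin ℚ (S : Set ℝ)) ∧
      Module.finrank ℚ (IntermediateField.adjoin ℚ (S : Set ℝ)) ≤ 2 ^ S.card := by
  classical
  induction S using Finset.induction_on with
  | empty =>
    rw [Finset.coe_empty, IntermediateField.adjoin_empty]
    refine ⟨inferInstance, ?_⟩
    rw [IntermediateField.finrank_bot]
    simp
  | insert a S ha ih =>
    obtain ⟨f1, f2⟩ := ih fun s hs => h s (Finset.mem_insert_of_mem hs)
    obtain ⟨g1, g2⟩ := one_field (h a (Finset.mem_insert_self a S))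
    rw [Finset.coe_insert, Set.insert_eq, IntermediateField.adjoin_union,
      Finset.card_insert_of_notMem ha]
    have := f1
    have := g1
    refine ⟨IntermediateField.finiteDimensional_sup _ _, ?_⟩
    refine (IntermediateField.finrank_sup_le _ _).trans ?_
    calc _ ≤ 2 * 2 ^ S.card := Nat.mul_le_mul g2 f2
      _ = 2 ^ (S.card + 1) := by ring

theorem corner_coord {y y' p : ℂ} {r : ℝ} (hy : (∃ q : ℚ, y.re = q) ∧ ∃ q : ℚ, y.im = q)
    (hy' : (∃ q : ℚ, y'.re = q) ∧ ∃ q : ℚ, y'.im = q) (hr : ∃ q : ℚ, r = q) (hne : y ≠ y')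
    (h : dist p y = r) (h' : dist p y' = r) :
    ∃ s : ℝ, (∃ q : ℚ, s ^ 2 = q) ∧
      ∀ K : IntermediateField ℚ ℝ, s ∈ K → InK K p := by
  obtain ⟨⟨a, ha⟩, ⟨b, hb⟩⟩ := hy
  obtain ⟨⟨c, hc⟩, ⟨d, hd⟩⟩ := hy'
  obtain ⟨ρ, hρ⟩ := hr
  have e1 : (p.re - a) ^ 2 + (p.im - b) ^ 2 = (ρ : ℝ) ^ 2 := by
    have := congrArg (fun t => t ^ 2) h
    simp only [Complex.dist_eq, ← Complex.normSq_eq_norm_sq, Complex.normSq_apply,
      Complex.sub_re, Complex.sub_im, ha, hb, hρ] at this
    linarith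
  have e2 : (p.re - c) ^ 2 + (p.im - d) ^ 2 = (ρ : ℝ) ^ 2 := by
    have := congrArg (fun t => t ^ 2) h'
    simp only [Complex.dist_eq, ← Complex.normSq_eq_norm_sq, Complex.normSq_apply,
      Complex.sub_re, Complex.sub_im, hc, hd, hρ] at this
    linarith
  have hN : ((c : ℝ) - a) ^ 2 + ((d : ℝ) - b) ^ 2 ≠ 0 := by
    intro h0
    apply hne
    have h1 : (c : ℝ) - a = 0 := by nlinarith [sq_nonneg ((c : ℝ) - a), sq_nonneg ((d : ℝ) - b)]
    have h2 : (d : ℝ) - b = 0 := by nlinarith [sq_nonneg ((c : ℝ) - a), sq_nonneg ((d : ℝ) - b)]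
    apply Complex.ext
    · rw [ha, hc]; linarith
    · rw [hb, hd]; linarith
  set N : ℝ := ((c : ℝ) - a) ^ 2 + ((d : ℝ) - b) ^ 2 with hNdef
  set u : ℝ := ((p.im - (b + d) / 2) * (c - a) - (p.re - (a + c) / 2) * (d - b)) / N with hu
  have hx : p.re = (a + c) / 2 - u * (d - b) := by
    rw [hu]
    field_simp
    rw [hNdef]
    linear_combination ((c - a : ℝ)) * e1 - ((c - a : ℝ)) * e2
  have hz : p.im = (b + d) / 2 + u * (c - a) := by
    rw [hu]
    field_simp
    rw [hNdef]
    linear_combination ((d - b : ℝ)) * e1 - ((d - b : ℝ)) * e2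
  refine ⟨u, ⟨ρ ^ 2 / ((c - a) ^ 2 + (d - b) ^ 2) - 1 / 4, ?_⟩, ?_⟩
  · push_cast
    rw [← hNdef]
    field_simp
    rw [hx, hz] at e1
    have : N = ((c : ℝ) - a) ^ 2 + ((d : ℝ) - b) ^ 2 := hNdef
    linear_combination 4 * e1 + (4 * u ^ 2 + 1) * this
  · intro K hK
    constructor
    · rw [hx]
      exact K.sub_mem (K.div_mem (K.add_mem (InK.rat a) (InK.rat c)) (by exact_mod_cast InK.rat 2))
        (K.mul_mem hK (K.sub_mem (InK.rat d) (InK.rat b)))
    · rw [hz]
      exact K.add_mem (K.div_mem (K.add_mem (InK.rat b) (InK.rat d)) (by exact_mod_cast InK.rat 2))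
        (K.mul_mem hK (K.sub_mem (InK.rat c) (InK.rat a)))

private lemma inK_two (K : IntermediateField ℚ ℝ) : InK K 2 := by
  have := InK.ofReal (K := K) (InK.rat 2)
  simpa using this

theorem root12 {η : ℂ} (h : η ^ 12 = 1) (K : IntermediateField ℚ ℝ) (h3 : √3 ∈ K) : InK K η := by
  have hs : ((√3 : ℝ) : ℂ) ^ 2 = 3 := by
    rw [← Complex.ofReal_pow, Real.sq_sqrt (by norm_num)]
    norm_num
  set s : ℂ := ((√3 : ℝ) : ℂ) with hsdef
  have hsK : InK K s := InK.ofReal h3
  have h2 : InK K 2 := inK_two K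
  have hI : InK K Complex.I := InK.I
  have hI2 : Complex.I ^ 2 = -1 := Complex.I_sq
  have h1 : InK K 1 := InK.one
  have key : (η - 1) * (η + 1) * (η - Complex.I) * (η + Complex.I) *
      ((η - (-1 + Complex.I * s) / 2) * (η - (-1 - Complex.I * s) / 2)) *
      ((η - (1 + Complex.I * s) / 2) * (η - (1 - Complex.I * s) / 2)) *
      ((η - (s + Complex.I) / 2) * (η - (s - Complex.I) / 2)) *
      ((η - (-s + Complex.I) / 2) * (η - (-s - Complex.I) / 2)) = 0 := by
    have k0 : (η - Complex.I) * (η + Complex.I) = η ^ 2 + 1 := by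
      linear_combination -hI2
    have k1 : (η - (-1 + Complex.I * s) / 2) * (η - (-1 - Complex.I * s) / 2) = η ^ 2 + η + 1 := by
      linear_combination (-1 / 4 * s ^ 2) * hI2 + (1 / 4) * hs
    have k2 : (η - (1 + Complex.I * s) / 2) * (η - (1 - Complex.I * s) / 2) = η ^ 2 - η + 1 := by
      linear_combination (-1 / 4 * s ^ 2) * hI2 + (1 / 4) * hs
    have k3 : (η - (s + Complex.I) / 2) * (η - (s - Complex.I) / 2) = η ^ 2 - s * η + 1 := by
      linear_combination (-1 / 4) * hI2 + (1 / 4) * hs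
    have k4 : (η - (-s + Complex.I) / 2) * (η - (-s - Complex.I) / 2) = η ^ 2 + s * η + 1 := by
      linear_combination (-1 / 4) * hI2 + (1 / 4) * hs
    rw [mul_assoc ((η - 1) * (η + 1)), k0, k1, k2, k3, k4]
    linear_combination h - (η ^ 8 * η ^ 0 * 0) * hs +
      (-((η - 1) * (η + 1) * (η ^ 2 + 1) * (η ^ 2 + η + 1) * (η ^ 2 - η + 1)) * η ^ 2) * hs
  rcases mul_eq_zero.1 key with key | key
  · rcases mul_eq_zero.1 key with key | key
    · rcases mul_eq_zero.1 key with key | key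
      · rcases mul_eq_zero.1 key with key | key
        · rcases mul_eq_zero.1 key with key | key
          · rcases mul_eq_zero.1 key with key | key
            · rcases mul_eq_zero.1 key with key | key
              · rw [sub_eq_zero.1 key]; exact h1
              · rw [eq_neg_of_add_eq_zero_left key]; exact h1.neg
            · rw [sub_eq_zero.1 key]; exact hI
          · rw [eq_neg_of_add_eq_zero_left key]; exact hI.neg
        · rcases mul_eq_zero.1 key with key | key
          · rw [sub_eq_zero.1 key]; exact ((h1.neg.add (hI.mul hsK))).div h2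
          · rw [sub_eq_zero.1 key]; exact ((h1.neg.sub (hI.mul hsK))).div h2
      · rcases mul_eq_zero.1 key with key | key
        · rw [sub_eq_zero.1 key]; exact ((h1.add (hI.mul hsK))).div h2
        · rw [sub_eq_zero.1 key]; exact ((h1.sub (hI.mul hsK))).div h2
    · rcases mul_eq_zero.1 key with key | key
      · rw [sub_eq_zero.1 key]; exact (hsK.add hI).div h2
      · rw [sub_eq_zero.1 key]; exact (hsK.sub hI).div h2
  · rcases mul_eq_zero.1 key with key | key
    · rw [sub_eq_zero.1 key]; exact (hsK.neg.add hI).div h2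
    · rw [sub_eq_zero.1 key]; exact (hsK.neg.sub hI).div h2

theorem root4 {η : ℂ} (h : η ^ 4 = 1) (K : IntermediateField ℚ ℝ) : InK K η := by
  have hI2 : Complex.I ^ 2 = -1 := Complex.I_sq
  have key : (η - 1) * (η + 1) * (η - Complex.I) * (η + Complex.I) = 0 := by
    linear_combination h + (-(η ^ 2 - 1)) * hI2
  rcases mul_eq_zero.1 key with key | key
  · rcases mul_eq_zero.1 key with key | key
    · rcases mul_eq_zero.1 key with key | key
      · rw [sub_eq_zero.1 key]; exact InK.one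
      · rw [eq_neg_of_add_eq_zero_left key]; exact InK.one.neg
    · rw [sub_eq_zero.1 key]; exact InK.I
  · rw [eq_neg_of_add_eq_zero_left key]; exact InK.I.neg

end Pool.Agent.Lib.P7ee
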