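import Pool.Agent.Lib.P7ee.UDefs
import Pool.Agent.Lib.P7ee.SqrtField

/-!
# P7ee.BaseField: the base field  (0.8 h)

For every unbalanced corner `v` take the number `s` of `corner_coord`; let `S` be the set of these numbers, together with `√3` if there is a vertex with three neighbours. `sqrt_field`: `F = adjoin ℚ S` has degree at most `2 ^ card S`, and `card S ≤ (number of unbalanced corners) + (0 or 1)`.
-/

set_option autoImplicit false



namespace Pool.Agent.Lib.P7ee

theorem base_field {n : ℕ} {y : Fin n → ℂ} {r : ℝ} (hy : ∀ j, RatPt (y j))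
    (hr : ∃ q : ℚ, r = q) {V : Type} [Fintype V] (G : SimpleGraph V) (P : V → ℂ)
    (τ : Fin n → V) :
    ∃ F : IntermediateField ℚ ℝ, FiniteDimensional ℚ F ∧
      Module.finrank ℚ F ≤ 2 ^ (Nat.card {v : V // svec G P v ≠ 0 ∧ Corner y r P τ v} +
        min 1 (Nat.card {v : V // Three G v})) ∧
      (∀ v, svec G P v ≠ 0 → Corner y r P τ v → InK F (P v)) ∧
      ((∃ v, Three G v) → √3 ∈ F) := by
  classical
  set A : Type := {v : V // svec G P v ≠ 0 ∧ Corner y r P τ v} with hA
  have hex : ∀ v : A, ∃ s : ℝ, (∃ q : ℚ, s ^ 2 = q) ∧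
      ∀ K : IntermediateField ℚ ℝ, s ∈ K → InK K (P v.1) := by
    intro v
    obtain ⟨j, l, -, -, hne, h1, h2⟩ := v.2.2
    exact corner_coord (hy j) (hy l) hr hne h1 h2
  choose f hf1 hf2 using hex
  set T : Finset ℝ := if ∃ v, Three G v then {√3} else ∅ with hT
  set S : Finset ℝ := Finset.univ.image f ∪ T with hS
  have hSq : ∀ s ∈ S, ∃ q : ℚ, s ^ 2 = q := by
    intro s hs
    rcases Finset.mem_union.1 hs with hs | hs
    · obtain ⟨v, -, rfl⟩ := Finset.mem_image.1 hs
      exact hf1 v
    · by_cases h : ∃ v, Three G v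
      · rw [hT, if_pos h, Finset.mem_singleton] at hs
        refine ⟨3, ?_⟩
        rw [hs, Real.sq_sqrt (by norm_num)]
        norm_num
      · rw [hT, if_neg h] at hs
        exact absurd hs (Finset.notMem_empty s)
  obtain ⟨g1, g2⟩ := sqrt_field S hSq
  refine ⟨IntermediateField.adjoin ℚ (S : Set ℝ), g1, g2.trans ?_, ?_, ?_⟩
  · refine Nat.pow_le_pow_right (by norm_num) ?_
    refine (Finset.card_union_le _ _).trans (Nat.add_le_add ?_ ?_)
    · refine Finset.card_image_le.trans ?_
      rw [Finset.card_univ, Nat.card_eq_fintype_card]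
    · by_cases h : ∃ v, Three G v
      · rw [hT, if_pos h, Finset.card_singleton]
        obtain ⟨v, hv⟩ := h
        have : 0 < Nat.card {v : V // Three G v} := by
          rw [Nat.card_pos_iff]
          exact ⟨⟨⟨v, hv⟩⟩, inferInstance⟩
        exact le_min le_rfl this
      · rw [hT, if_neg h, Finset.card_empty]
        exact Nat.zero_le _
  · intro v h1 h2
    refine hf2 ⟨v, h1, h2⟩ _ ?_
    refine IntermediateField.subset_adjoin ℚ _ ?_
    rw [Finset.mem_coe]
    exact Finset.mem_union_left _ (Finset.mem_image_of_mem f (Finset.mem_univ _))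
  · intro h
    refine IntermediateField.subset_adjoin ℚ _ ?_
    rw [Finset.mem_coe]
    refine Finset.mem_union_right _ ?_
    rw [hT, if_pos h]
    exact Finset.mem_singleton_self _

end Pool.Agent.Lib.P7ee
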