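import Mathlib

/-!
# MP_7ee880_gt: complex numbers with both coordinates in a real field
-/

set_option autoImplicit false

namespace Pool.Agent.Lib.P7ee

/-- both coordinates of `z` belong to `K` -/
def InK (K : IntermediateField ℚ ℝ) (z : ℂ) : Prop := z.re ∈ K ∧ z.im ∈ K

namespace InK

variable {K : IntermediateField ℚ ℝ} {z w : ℂ}

lemma add (hz : InK K z) (hw : InK K w) : InK K (z + w) :=
  ⟨by rw [Complex.add_re]; exact K.add_mem hz.1 hw.1,
    by rw [Complex.add_im]; exact K.add_mem hz.2 hw.2⟩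

lemma neg (hz : InK K z) : InK K (-z) :=
  ⟨by rw [Complex.neg_re]; exact K.neg_mem hz.1, by rw [Complex.neg_im]; exact K.neg_mem hz.2⟩

lemma sub (hz : InK K z) (hw : InK K w) : InK K (z - w) := by
  rw [sub_eq_add_neg]; exact hz.add hw.neg

lemma mul (hz : InK K z) (hw : InK K w) : InK K (z * w) :=
  ⟨by rw [Complex.mul_re]; exact K.sub_mem (K.mul_mem hz.1 hw.1) (K.mul_mem hz.2 hw.2),
    by rw [Complex.mul_im]; exact K.add_mem (K.mul_mem hz.1 hw.2) (K.mul_mem hz.2 hw.1)⟩

lemma conj (hz : InK K z) : InK K ((starRingEnd ℂ) z) :=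
  ⟨by rw [Complex.conj_re]; exact hz.1, by rw [Complex.conj_im]; exact K.neg_mem hz.2⟩

lemma ofReal {x : ℝ} (hx : x ∈ K) : InK K (x : ℂ) :=
  ⟨by rw [Complex.ofReal_re]; exact hx, by rw [Complex.ofReal_im]; exact K.zero_mem⟩

lemma rat (q : ℚ) : (q : ℝ) ∈ K := by
  have := K.algebraMap_mem q
  simpa using this

lemma I : InK K Complex.I :=
  ⟨by rw [Complex.I_re]; exact K.zero_mem, by rw [Complex.I_im]; exact K.one_mem⟩

lemma one : InK K 1 := ⟨by rw [Complex.one_re]; exact K.one_mem, by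
  rw [Complex.one_im]; exact K.zero_mem⟩

lemma zero : InK K 0 := ⟨by rw [Complex.zero_re]; exact K.zero_mem, by
  rw [Complex.zero_im]; exact K.zero_mem⟩

lemma normSq_mem (hz : InK K z) : Complex.normSq z ∈ K := by
  rw [Complex.normSq_apply]
  exact K.add_mem (K.mul_mem hz.1 hz.1) (K.mul_mem hz.2 hz.2)

lemma inv (hz : InK K z) : InK K z⁻¹ := by
  rw [Complex.inv_def]
  exact hz.conj.mul (ofReal (K.inv_mem hz.normSq_mem))

lemma div (hz : InK K z) (hw : InK K w) : InK K (z / w) := by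
  rw [div_eq_mul_inv]; exact hz.mul hw.inv

lemma pow (hz : InK K z) (n : ℕ) : InK K (z ^ n) := by
  induction n with
  | zero => rw [pow_zero]; exact one
  | succ n ih => rw [pow_succ]; exact ih.mul hz

lemma sum {ι : Type*} (s : Finset ι) (f : ι → ℂ) (h : ∀ i ∈ s, InK K (f i)) :
    InK K (∑ i ∈ s, f i) := by
  classical
  induction s using Finset.induction_on with
  | empty => rw [Finset.sum_empty]; exact zero
  | insert a s ha ih =>
    rw [Finset.sum_insert ha]
    exact (h a (Finset.mem_insert_self a s)).add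
      (ih fun i hi => h i (Finset.mem_insert_of_mem hi))

lemma mono {K' : IntermediateField ℚ ℝ} (h : K ≤ K') (hz : InK K z) : InK K' z :=
  ⟨h hz.1, h hz.2⟩

end InK

end Pool.Agent.Lib.P7ee
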