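import Pool.Agent.Lib.P7ee.QDefs

/-!
# P7ee.TNonsing: nonsingular zeros of real torque systems  (1.2 h)

`P (inl c) = (t c).re`, `P (inr c) = (t c).im`. `eval P (tsys .. (inl c)) = ‖t c‖² - 1 = 0`; `eval P (tsys .. (inr c)) = Im (A c * conj (t c)^2) + ∑ c', Im (B c c' * conj (t c) * t c')`. Derivatives: let `z` be in the kernel. From `inl c`: `2 (p z_p + q z_q) = 0`, so `(z_p, z_q) = w c * (-q, p)` with `w c = p z_q - q z_p` (`p² + q² = 1`).
Then the derivative of the polynomial `inr c` in the direction `z` is `-2 w c Re (A c conj (t c)^2) + ∑ c', (w c' - w c) Re (B c c' conj (t c) t c')` (for `c' = c` both sides of the summand vanish: product rule for `X (inl c) * X (inl c)`), so `w = 0` by `hns` and `z = 0`.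
-/

set_option autoImplicit false

open MvPolynomial

namespace Pool.Agent.Lib.P7ee

/-- directional derivative at `P` in the direction `z` -/
private noncomputable def dd {σ : Type} [Fintype σ] (P z : σ → ℝ) (f : MvPolynomial σ ℝ) : ℝ :=
  ∑ j, eval P (pderiv j f) * z j

private theorem dd_add {σ : Type} [Fintype σ] (P z : σ → ℝ) (f g : MvPolynomial σ ℝ) :
    dd P z (f + g) = dd P z f + dd P z g := by
  unfold dd
  rw [← Finset.sum_add_distrib]
  refine Finset.sum_congr rfl fun j _ => ?_
  rw [map_add, map_add]; ring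

private theorem dd_sub {σ : Type} [Fintype σ] (P z : σ → ℝ) (f g : MvPolynomial σ ℝ) :
    dd P z (f - g) = dd P z f - dd P z g := by
  unfold dd
  rw [← Finset.sum_sub_distrib]
  refine Finset.sum_congr rfl fun j _ => ?_
  rw [map_sub, map_sub]; ring

private theorem dd_mul {σ : Type} [Fintype σ] (P z : σ → ℝ) (f g : MvPolynomial σ ℝ) :
    dd P z (f * g) = eval P f * dd P z g + eval P g * dd P z f := by
  unfold dd
  rw [Finset.mul_sum, Finset.mul_sum, ← Finset.sum_add_distrib]
  refine Finset.sum_congr rfl fun j _ => ?_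
  rw [Derivation.leibniz, smul_eq_mul, smul_eq_mul, map_add, map_mul, map_mul]; ring

private theorem dd_C {σ : Type} [Fintype σ] (P z : σ → ℝ) (a : ℝ) :
    dd P z (MvPolynomial.C a) = 0 := by
  unfold dd
  refine Finset.sum_eq_zero fun j _ => ?_
  rw [pderiv_C, map_zero, zero_mul]

private theorem dd_one {σ : Type} [Fintype σ] (P z : σ → ℝ) :
    dd P z (1 : MvPolynomial σ ℝ) = 0 := by
  have h := dd_C P z 1
  rwa [map_one] at h

private theorem dd_X {σ : Type} [Fintype σ] [DecidableEq σ] (P z : σ → ℝ) (i : σ) :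
    dd P z (X i) = z i := by
  unfold dd
  rw [Finset.sum_eq_single i]
  · rw [pderiv_X_self, map_one, one_mul]
  · intro j _ hj
    rw [pderiv_X_of_ne hj.symm, map_zero, zero_mul]
  · intro h; exact absurd (Finset.mem_univ i) h

private theorem dd_sum {σ ι : Type} [Fintype σ] (P z : σ → ℝ) (s : Finset ι)
    (f : ι → MvPolynomial σ ℝ) : dd P z (∑ i ∈ s, f i) = ∑ i ∈ s, dd P z (f i) := by
  classical
  induction s using Finset.induction_on with
  | empty =>
    rw [Finset.sum_empty, Finset.sum_empty]
    have h := dd_C P z 0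
    rwa [map_zero] at h
  | insert a s ha ih => rw [Finset.sum_insert ha, Finset.sum_insert ha, dd_add, ih]

theorem tsys_nzero {C : Type} [Fintype C] [DecidableEq C] (A : C → ℂ) (B : C → C → ℂ) (t : C → ℂ)
    (ht : ∀ c, ‖t c‖ = 1)
    (heq : ∀ c, (A c * (starRingEnd ℂ) (t c) ^ 2).im +
      ∑ c', (B c c' * (starRingEnd ℂ) (t c) * t c').im = 0)
    (hns : ∀ w : C → ℝ, (∀ c, -2 * w c * (A c * (starRingEnd ℂ) (t c) ^ 2).re +
      ∑ c', (w c' - w c) * (B c c' * (starRingEnd ℂ) (t c) * t c').re = 0) → w = 0) :
    NZero (tsys (fun c => (A c).re) (fun c => (A c).im) (fun c c' => (B c c').re)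
      (fun c c' => (B c c').im)) (Sum.elim (fun c => (t c).re) (fun c => (t c).im)) := by
  set P : C ⊕ C → ℝ := Sum.elim (fun c => (t c).re) (fun c => (t c).im) with hP
  have hPl : ∀ c, P (Sum.inl c) = (t c).re := fun c => rfl
  have hPr : ∀ c, P (Sum.inr c) = (t c).im := fun c => rfl
  have hn : ∀ c, (t c).re ^ 2 + (t c).im ^ 2 = 1 := by
    intro c
    have h1 := Complex.sq_norm (t c)
    rw [ht c, Complex.normSq_apply] at h1
    nlinarith [h1]
  have hIm : ∀ a z : ℂ, (a * (starRingEnd ℂ) z ^ 2).im =
      a.im * (z.re ^ 2 - z.im ^ 2) - 2 * a.re * (z.re * z.im) := by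
    intro a z
    simp only [pow_two, Complex.mul_im, Complex.mul_re, Complex.conj_re, Complex.conj_im]
    ring
  have hRe : ∀ a z : ℂ, (a * (starRingEnd ℂ) z ^ 2).re =
      a.re * (z.re ^ 2 - z.im ^ 2) + 2 * a.im * (z.re * z.im) := by
    intro a z
    simp only [pow_two, Complex.mul_im, Complex.mul_re, Complex.conj_re, Complex.conj_im]
    ring
  have hIm2 : ∀ b z z' : ℂ, (b * (starRingEnd ℂ) z * z').im =
      b.im * (z.re * z'.re + z.im * z'.im) + b.re * (z.re * z'.im - z.im * z'.re) := by
    intro b z z'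
    simp only [Complex.mul_im, Complex.mul_re, Complex.conj_re, Complex.conj_im]
    ring
  have hRe2 : ∀ b z z' : ℂ, (b * (starRingEnd ℂ) z * z').re =
      b.re * (z.re * z'.re + z.im * z'.im) - b.im * (z.re * z'.im - z.im * z'.re) := by
    intro b z z'
    simp only [Complex.mul_im, Complex.mul_re, Complex.conj_re, Complex.conj_im]
    ring
  constructor
  · intro i
    rcases i with c | c
    · simp only [tsys, map_sub, map_add, map_pow, eval_X, map_one, hPl, hPr]
      rw [hn c]; ring
    · simp only [tsys, map_sub, map_add, map_mul, map_pow, eval_X, eval_C, map_sum, hPl, hPr]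
      have h := heq c
      rw [hIm] at h
      simp only [hIm2] at h
      rw [← h]
  · intro z hz
    have hzl : ∀ c, (t c).re * z (Sum.inl c) + (t c).im * z (Sum.inr c) = 0 := by
      intro c
      have h : dd P z (tsys (fun c => (A c).re) (fun c => (A c).im) (fun c c' => (B c c').re)
        (fun c c' => (B c c').im) (Sum.inl c)) = 0 := hz (Sum.inl c)
      simp only [tsys, pow_two, dd_sub, dd_add, dd_mul, dd_X, dd_one, eval_X, hPl, hPr] at h
      linarith
    have hzr : ∀ c, (A c).im * (2 * (t c).re * z (Sum.inl c) - 2 * (t c).im * z (Sum.inr c))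
        - 2 * (A c).re * ((t c).re * z (Sum.inr c) + (t c).im * z (Sum.inl c))
        + ∑ c', ((B c c').im * ((t c).re * z (Sum.inl c') + (t c').re * z (Sum.inl c)
            + ((t c).im * z (Sum.inr c') + (t c').im * z (Sum.inr c)))
          + (B c c').re * ((t c).re * z (Sum.inr c') + (t c').im * z (Sum.inl c)
            - ((t c).im * z (Sum.inl c') + (t c').re * z (Sum.inr c)))) = 0 := by
      intro c
      have h : dd P z (tsys (fun c => (A c).re) (fun c => (A c).im) (fun c c' => (B c c').re)
        (fun c c' => (B c c').im) (Sum.inr c)) = 0 := hz (Sum.inr c)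
      simp only [tsys, pow_two, dd_sub, dd_add, dd_mul, dd_X, dd_C, dd_sum, eval_X, eval_C,
        map_sub, map_mul, map_add, hPl, hPr, mul_zero, add_zero] at h
      rw [← h]
      ring
    set w : C → ℝ := fun c => (t c).re * z (Sum.inr c) - (t c).im * z (Sum.inl c) with hw
    have hp : ∀ c, z (Sum.inl c) = - w c * (t c).im := by
      intro c
      have h1 := hzl c
      have h2 := hn c
      have e : z (Sum.inl c) = z (Sum.inl c) * ((t c).re ^ 2 + (t c).im ^ 2) := by rw [h2, mul_one]
      rw [e]
      show _ = -((t c).re * z (Sum.inr c) - (t c).im * z (Sum.inl c)) * (t c).im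
      linear_combination (t c).re * h1
    have hq : ∀ c, z (Sum.inr c) = w c * (t c).re := by
      intro c
      have h1 := hzl c
      have h2 := hn c
      have e : z (Sum.inr c) = z (Sum.inr c) * ((t c).re ^ 2 + (t c).im ^ 2) := by rw [h2, mul_one]
      rw [e]
      show _ = ((t c).re * z (Sum.inr c) - (t c).im * z (Sum.inl c)) * (t c).re
      linear_combination (t c).im * h1
    have hw0 : w = 0 := by
      apply hns
      intro c
      have h := hzr c
      rw [hRe]
      simp only [hRe2]
      rw [← h]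
      congr 1
      · rw [hp c, hq c]; ring
      · refine Finset.sum_congr rfl fun c' _ => ?_
        rw [hp c, hq c, hp c', hq c']; ring
    funext i
    rcases i with c | c
    · rw [hp c, hw0]; simp
    · rw [hq c, hw0]; simp

end Pool.Agent.Lib.P7ee
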