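import Pool.Agent.Lib.P7ee.QDefs

/-!
# P7ee.TQuad: torque systems are quadrics; naturality

Degrees: every monomial is `X i * X j` or constant; `EvenP` is closed under sums and multiplication by constants; `totalDegree_add`, `totalDegree_finset_sum`. Naturality: `simp [tsys, map_sum, ...]`.
-/

set_option autoImplicit false

open MvPolynomial

namespace Pool.Agent.Lib.P7ee

namespace TQuadAux

variable {σ A : Type} [CommRing A]

private theorem quad_add {f g : MvPolynomial σ A} (hf : IsQuad f) (hg : IsQuad g) :
    IsQuad (f + g) := by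
  classical
  refine ⟨(totalDegree_add f g).trans (max_le hf.1 hg.1), fun s hs => ?_⟩
  rcases Finset.mem_union.1 (support_add hs) with h | h
  · exact hf.2 s h
  · exact hg.2 s h

private theorem quad_neg {f : MvPolynomial σ A} (hf : IsQuad f) : IsQuad (-f) := by
  refine ⟨by rw [totalDegree_neg]; exact hf.1, fun s hs => ?_⟩
  rw [support_neg] at hs
  exact hf.2 s hs

private theorem quad_sub {f g : MvPolynomial σ A} (hf : IsQuad f) (hg : IsQuad g) :
    IsQuad (f - g) := by
  rw [sub_eq_add_neg]
  exact quad_add hf (quad_neg hg)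

private theorem quad_zero : IsQuad (0 : MvPolynomial σ A) := by
  refine ⟨by simp, fun s hs => ?_⟩
  simp at hs

private theorem quad_sum {ι : Type} (t : Finset ι) (f : ι → MvPolynomial σ A)
    (h : ∀ i ∈ t, IsQuad (f i)) : IsQuad (∑ i ∈ t, f i) := by
  classical
  induction t using Finset.induction_on with
  | empty => simpa using (quad_zero (σ := σ) (A := A))
  | insert a t ha ih =>
    rw [Finset.sum_insert ha]
    exact quad_add (h a (Finset.mem_insert_self a t))
      (ih fun i hi => h i (Finset.mem_insert_of_mem hi))

private theorem quad_C_mul (a : A) {f : MvPolynomial σ A} (hf : IsQuad f) :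
    IsQuad (C a * f) := by
  classical
  refine ⟨?_, fun s hs => ?_⟩
  · have h := totalDegree_mul (C a) f
    rw [totalDegree_C, zero_add] at h
    exact h.trans hf.1
  · refine hf.2 s ?_
    rw [mem_support_iff] at hs ⊢
    rw [coeff_C_mul] at hs
    intro h0
    exact hs (by rw [h0, mul_zero])

private theorem quad_one : IsQuad (1 : MvPolynomial σ A) := by
  classical
  refine ⟨by simp, fun s hs => ?_⟩
  rw [mem_support_iff] at hs
  by_cases h : s = 0
  · subst h; simp
  · exfalso
    apply hs
    rw [coeff_one, if_neg (Ne.symm h)]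

private theorem quad_XX (i j : σ) : IsQuad (X i * X j : MvPolynomial σ A) := by
  classical
  have e : (X i * X j : MvPolynomial σ A)
      = monomial (Finsupp.single i 1 + Finsupp.single j 1) 1 := by
    rw [X, X, monomial_mul, one_mul]
  refine ⟨?_, fun s hs => ?_⟩
  · rw [e]
    refine (totalDegree_monomial_le _ _).trans ?_
    rw [Finsupp.sum_add_index' (by simp) (by simp)]
    simp
  · rw [e] at hs
    have h := support_monomial_subset hs
    rw [Finset.mem_singleton] at h
    rw [h]
    have : (Finsupp.single i 1 + Finsupp.single j 1 : σ →₀ ℕ).degree = 2 := by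
      rw [map_add, Finsupp.degree_single, Finsupp.degree_single]
    rw [this]
    exact even_two

end TQuadAux

open TQuadAux in
theorem tsys_quad {C A : Type} [Fintype C] [CommRing A] (a1 a2 : C → A)
    (b1 b2 : C → C → A) (i : C ⊕ C) : IsQuad (tsys a1 a2 b1 b2 i) := by
  rcases i with c | c
  · simp only [tsys]
    rw [pow_two, pow_two]
    exact quad_sub (quad_add (quad_XX _ _) (quad_XX _ _)) quad_one
  · simp only [tsys]
    rw [pow_two, pow_two]
    refine quad_add (quad_sub (quad_C_mul _ (quad_sub (quad_XX _ _) (quad_XX _ _)))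
      (quad_C_mul _ (quad_XX _ _))) (quad_sum _ _ fun c' _ => ?_)
    exact quad_add (quad_C_mul _ (quad_add (quad_XX _ _) (quad_XX _ _)))
      (quad_C_mul _ (quad_sub (quad_XX _ _) (quad_XX _ _)))

theorem tsys_map {C A A' : Type} [Fintype C] [CommRing A] [CommRing A'] (φ : A →+* A')
    (a1 a2 : C → A) (b1 b2 : C → C → A) (i : C ⊕ C) :
    map φ (tsys a1 a2 b1 b2 i) = tsys (fun c => φ (a1 c)) (fun c => φ (a2 c))
      (fun c c' => φ (b1 c c')) (fun c c' => φ (b2 c c')) i := by
  rcases i with c | c
  · simp only [tsys, map_sub, map_add, map_pow, map_X, map_one]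
  · simp only [tsys, map_sub, map_add, map_pow, map_X, map_mul, map_C, map_sum, map_ofNat]

end Pool.Agent.Lib.P7ee
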