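import Pool.Agent.Lib.P7ee.EvenField
import Pool.Agent.Lib.P7ee.TQuad
import Pool.Agent.Lib.P7ee.TNonsing
import Pool.Agent.Lib.P7ee.InK

/-!
# P7ee.TorqueDegree: degree bound for torque systems  (1 h)

`even_field` for `σ = C ⊕ C` (`card = 2 card C`), `f = tsys` with the coefficients as elements of `F` (subtypes; `tsys_map` turns `map (algebraMap F ℝ)` into the real system), `P` the coordinates of `t`, nonsingular by `tsys_nzero`. `t c * t c'` has real part `p p' - q q'` and imaginary part `p q' + q p'`, combinations of products of coordinates.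
-/

set_option autoImplicit false



namespace Pool.Agent.Lib.P7ee

theorem torque_degree (F : IntermediateField ℚ ℝ) [FiniteDimensional ℚ F] {C : Type} [Fintype C]
    [Nonempty C] (A : C → ℂ) (B : C → C → ℂ) (hA : ∀ c, InK F (A c)) (hB : ∀ c c', InK F (B c c'))
    (t : C → ℂ) (ht : ∀ c, ‖t c‖ = 1)
    (heq : ∀ c, (A c * (starRingEnd ℂ) (t c) ^ 2).im +
      ∑ c', (B c c' * (starRingEnd ℂ) (t c) * t c').im = 0)
    (hns : ∀ w : C → ℝ, (∀ c, -2 * w c * (A c * (starRingEnd ℂ) (t c) ^ 2).re +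
      ∑ c', (w c' - w c) * (B c c' * (starRingEnd ℂ) (t c) * t c').re = 0) → w = 0) :
    ∃ K : IntermediateField ℚ ℝ, F ≤ K ∧ FiniteDimensional ℚ K ∧
      Module.finrank ℚ K ≤ 2 ^ (2 * Fintype.card C - 1) * Module.finrank ℚ F ∧
      ∀ c c', InK K (t c * t c') := by
  classical
  let a1 : C → F := fun c => ⟨(A c).re, (hA c).1⟩
  let a2 : C → F := fun c => ⟨(A c).im, (hA c).2⟩
  let b1 : C → C → F := fun c c' => ⟨(B c c').re, (hB c c').1⟩
  let b2 : C → C → F := fun c c' => ⟨(B c c').im, (hB c c').2⟩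
  let P : C ⊕ C → ℝ := Sum.elim (fun c => (t c).re) (fun c => (t c).im)
  have hmap : (fun i => MvPolynomial.map (algebraMap F ℝ) (tsys a1 a2 b1 b2 i)) =
      tsys (fun c => (A c).re) (fun c => (A c).im) (fun c c' => (B c c').re)
        (fun c c' => (B c c').im) := by
    funext i
    rw [tsys_map]
    rfl
  have hP : NZero (fun i => MvPolynomial.map (algebraMap F ℝ) (tsys a1 a2 b1 b2 i)) P := by
    rw [hmap]
    exact tsys_nzero A B t ht heq hns
  obtain ⟨K, hFK, hfd, hrank, hmem⟩ := even_field F (tsys a1 a2 b1 b2)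
    (fun i => tsys_quad a1 a2 b1 b2 i) P hP
  refine ⟨K, hFK, hfd, ?_, ?_⟩
  · have hcard : Fintype.card (C ⊕ C) = 2 * Fintype.card C := by
      rw [Fintype.card_sum]; ring
    rw [hcard] at hrank
    exact hrank
  · intro c c'
    have h1 : (t c).re * (t c').re ∈ K := hmem (Sum.inl c) (Sum.inl c')
    have h2 : (t c).im * (t c').im ∈ K := hmem (Sum.inr c) (Sum.inr c')
    have h3 : (t c).re * (t c').im ∈ K := hmem (Sum.inl c) (Sum.inr c')
    have h4 : (t c).im * (t c').re ∈ K := hmem (Sum.inr c) (Sum.inl c')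
    constructor
    · rw [Complex.mul_re]
      exact K.sub_mem h1 h2
    · rw [Complex.mul_im]
      exact K.add_mem h3 h4

end Pool.Agent.Lib.P7ee
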