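import Pool.Agent.Lib.P7ee.UDefs
import Pool.Agent.Lib.P7ee.TorqueDegree

/-!
# P7ee.BdDegree: degree bound for boundary data  (1.5 h)

`torque_degree` with `A c = ∑_(x, comp x = c) conj (ε x) * z x`, `B c c' = ∑_(x, comp x = c, mate x = some x', comp x' = c') r * conj (ε x) * η x` (both in `F`: `InK.sum`, `r ∈ F` by `hr`). `heq` is `torque` (for `mate x = none` the summand `g x = 0`). `hns`: suppose for all `c`: `-2 w_c Re (A_c conj t²) + ∑ c' (w_c' - w_c) Re (B c c' conj t_c t_c') = 0`. By `length`,
`Re (A_c conj t²) = - L c - ∑_(x in c) e x - r ∑_(x in c) Re (g x)`, and the second sum is `∑_(x in c, mate x = some x') (w_(comp x') - w_c) r Re (g x)`. So `0 = 2 w_c (L c + ∑ e x) + r ∑_(x in c, mate x = some x') (w_c + w_(comp x')) Re (g x)`. Multiply by `w_c` and sum over `c`: `0 = 2 ∑ w_c² (L c + ∑ e) + r ∑_(x, mate x = some x') (w_(comp x)² + w_(comp x) w_(comp x')) Re (g x)`;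
the involution `mate` and `gsymm` turn the last sum into `(1/2) ∑ (w_(comp x) + w_(comp x'))² Re (g x) ≥ 0`. So `w = 0`.
-/

set_option autoImplicit false



namespace Pool.Agent.Lib.P7ee

namespace BdDegreeAux

open Classical in
/-- the mate of `x` if there is one, and `x` otherwise -/
noncomputable def sg {F : IntermediateField ℚ ℝ} {r : ℝ} {C X : Type} [Fintype C] [Fintype X]
    (D : Bd F r C X) (x : X) : X := (D.mate x).getD x

open Classical in
/-- the coefficient of the product `conj (t (comp x)) * t (comp (sg x))` -/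
noncomputable def G {F : IntermediateField ℚ ℝ} {r : ℝ} {C X : Type} [Fintype C] [Fintype X]
    (D : Bd F r C X) (x : X) : ℂ :=
  if D.mate x = none then 0 else (r : ℂ) * ((starRingEnd ℂ) (D.ε x) * D.η x)

open Classical in
/-- the quadratic coefficients -/
noncomputable def A {F : IntermediateField ℚ ℝ} {r : ℝ} {C X : Type} [Fintype C] [Fintype X]
    (D : Bd F r C X) (c : C) : ℂ :=
  ∑ x, if D.comp x = c then (starRingEnd ℂ) (D.ε x) * D.z x else 0

open Classical in
/-- the mixed coefficients -/
noncomputable def B {F : IntermediateField ℚ ℝ} {r : ℝ} {C X : Type} [Fintype C] [Fintype X]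
    (D : Bd F r C X) (c c' : C) : ℂ :=
  ∑ x, if D.comp x = c then (if D.comp (sg D x) = c' then G D x else 0) else 0

section

variable {F : IntermediateField ℚ ℝ} {r : ℝ} {C X : Type} [Fintype C] [Fintype X]
  (D : Bd F r C X)

lemma sg_sg (x : X) : sg D (sg D x) = x := by
  unfold sg
  cases h : D.mate x with
  | none => simp [h]
  | some x' => simp [D.mate_symm x x' h]

lemma re_sg (x : X) : (D.g (sg D x)).re = (D.g x).re := by
  unfold sg
  cases h : D.mate x with
  | none => simp
  | some x' => simpa using D.gsymm x x' h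

lemma G_spec (x : X) : (r : ℂ) * D.g x =
    G D x * (starRingEnd ℂ) (D.t (D.comp x)) * D.t (D.comp (sg D x)) := by
  unfold G sg
  cases h : D.mate x with
  | none => simp [D.hg0 x h]
  | some x' =>
    rw [D.hg x x' h]
    simp only [reduceCtorEq, if_false, Option.getD_some]
    ring

lemma G_mem (hr : r ∈ F) (x : X) : InK F (G D x) := by
  unfold G
  split_ifs
  · exact InK.zero
  · exact (InK.ofReal hr).mul ((D.hε x).conj.mul (D.hη x))

lemma A_mem (c : C) : InK F (A D c) := by
  unfold A
  refine InK.sum _ _ fun x _ => ?_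
  split_ifs
  · exact (D.hε x).conj.mul (D.hz x)
  · exact InK.zero

lemma B_mem (hr : r ∈ F) (c c' : C) : InK F (B D c c') := by
  unfold B
  refine InK.sum _ _ fun x _ => ?_
  split_ifs
  · exact G_mem D hr x
  · exact InK.zero
  · exact InK.zero

open Classical in
lemma sumA (Φ : ℂ →ₗ[ℝ] ℝ) (c : C) : Φ (A D c * (starRingEnd ℂ) (D.t c) ^ 2) =
    ∑ x, if D.comp x = c then
      Φ ((starRingEnd ℂ) (D.ε x) * (starRingEnd ℂ) (D.t c) ^ 2 * D.z x) else 0 := by
  unfold A
  rw [Finset.sum_mul, map_sum]
  refine Finset.sum_congr rfl fun x _ => ?_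
  split_ifs
  · congr 1
    ring
  · simp

open Classical in
lemma sumB (Φ : C → (ℂ →ₗ[ℝ] ℝ)) (c : C) :
    ∑ c', Φ c' (B D c c' * (starRingEnd ℂ) (D.t c) * D.t c') =
      ∑ x, if D.comp x = c then Φ (D.comp (sg D x)) ((r : ℂ) * D.g x) else 0 := by
  have h1 : ∀ c', Φ c' (B D c c' * (starRingEnd ℂ) (D.t c) * D.t c') =
      ∑ x, Φ c' ((if D.comp x = c then (if D.comp (sg D x) = c' then G D x else 0) else 0) *
        (starRingEnd ℂ) (D.t c) * D.t c') := by
    intro c'
    unfold B
    rw [Finset.sum_mul, Finset.sum_mul, map_sum]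
  rw [Finset.sum_congr rfl fun c' _ => h1 c', Finset.sum_comm]
  refine Finset.sum_congr rfl fun x _ => ?_
  by_cases hx : D.comp x = c
  · rw [if_pos hx, Finset.sum_eq_single (D.comp (sg D x))]
    · rw [if_pos hx, if_pos rfl, G_spec, hx]
    · intro c' _ hc'
      rw [if_pos hx, if_neg (fun h => hc' h.symm)]
      simp
    · intro h
      exact absurd (Finset.mem_univ _) h
  · rw [if_neg hx]
    refine Finset.sum_eq_zero fun c' _ => ?_
    rw [if_neg hx]
    simp

lemma half_square (u : C → ℝ) (h : X → ℝ) (hs : ∀ x, h (sg D x) = h x) (h0 : ∀ x, 0 ≤ h x) :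
    0 ≤ ∑ x, (u (D.comp x) ^ 2 + u (D.comp x) * u (D.comp (sg D x))) * h x := by
  have h1 : ∑ x, (u (D.comp x) ^ 2 + u (D.comp x) * u (D.comp (sg D x))) * h x =
      ∑ x, (u (D.comp (sg D x)) ^ 2 + u (D.comp (sg D x)) * u (D.comp x)) * h x := by
    have h2 := Equiv.sum_comp (Function.Involutive.toPerm (sg D) (sg_sg D))
      (fun x => (u (D.comp x) ^ 2 + u (D.comp x) * u (D.comp (sg D x))) * h x)
    rw [← h2]
    refine Finset.sum_congr rfl fun x _ => ?_
    simp only [Function.Involutive.coe_toPerm, sg_sg, hs]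
  have h3 : 2 * ∑ x, (u (D.comp x) ^ 2 + u (D.comp x) * u (D.comp (sg D x))) * h x =
      ∑ x, (u (D.comp x) + u (D.comp (sg D x))) ^ 2 * h x := by
    rw [two_mul]
    nth_rewrite 2 [h1]
    rw [← Finset.sum_add_distrib]
    refine Finset.sum_congr rfl fun x _ => ?_
    ring
  have h4 : 0 ≤ ∑ x, (u (D.comp x) + u (D.comp (sg D x))) ^ 2 * h x :=
    Finset.sum_nonneg fun x _ => mul_nonneg (sq_nonneg _) (h0 x)
  linarith

end

end BdDegreeAux

open BdDegreeAux in
theorem bd_degree (F : IntermediateField ℚ ℝ) [FiniteDimensional ℚ F] {r : ℝ} (hr0 : 0 ≤ r)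
    (hr : r ∈ F) {C X : Type} [Fintype C] [Fintype X] [Nonempty C] (D : Bd F r C X) :
    ∃ K : IntermediateField ℚ ℝ, F ≤ K ∧ FiniteDimensional ℚ K ∧
      Module.finrank ℚ K ≤ 2 ^ (2 * Fintype.card C - 1) * Module.finrank ℚ F ∧
      ∀ c c', InK K (D.t c * D.t c') := by
  classical
  refine torque_degree F (A D) (B D) (A_mem D) (B_mem D hr) D.t D.ht ?_ ?_
  · intro c
    have h1 := sumA D Complex.imLm c
    have h2 := sumB D (fun _ => Complex.imLm) c
    have h3 := D.torque c
    simp only [Complex.imLm_coe] at h1 h2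
    rw [h1, h2, ← Finset.sum_add_distrib]
    refine Eq.trans (Finset.sum_congr rfl fun x _ => ?_) h3
    split_ifs
    · rw [Complex.im_ofReal_mul]
    · exact add_zero 0
  · intro w hw
    have hre : ∀ c, (A D c * (starRingEnd ℂ) (D.t c) ^ 2).re =
        -D.L c - ∑ x, (if D.comp x = c then D.e x + r * (D.g x).re else 0) := by
      intro c
      have h1 := sumA D Complex.reLm c
      simp only [Complex.reLm_coe] at h1
      have h3 := D.length c
      rw [h1, ← h3, ← Finset.sum_sub_distrib]
      refine Finset.sum_congr rfl fun x _ => ?_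
      split_ifs
      · ring
      · simp
    have hB : ∀ c, ∑ c', (w c' - w c) *
        (B D c c' * (starRingEnd ℂ) (D.t c) * D.t c').re =
        ∑ x, (if D.comp x = c then
          (w (D.comp (sg D x)) - w c) * (r * (D.g x).re) else 0) := by
      intro c
      have h2 := sumB D (fun c' => (w c' - w c) • Complex.reLm) c
      simp only [LinearMap.smul_apply, Complex.reLm_coe, smul_eq_mul] at h2
      rw [h2]
      refine Finset.sum_congr rfl fun x _ => ?_
      split_ifs
      · rw [Complex.re_ofReal_mul]
      · rfl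
    have hc : ∀ c, 2 * w c ^ 2 * (D.L c + ∑ x, (if D.comp x = c then D.e x else 0)) +
        ∑ x, (if D.comp x = c then
          (w (D.comp x) ^ 2 + w (D.comp x) * w (D.comp (sg D x))) * (r * (D.g x).re) else 0)
        = 0 := by
      intro c
      have h1 := hw c
      rw [hre, hB] at h1
      have h2 : ∑ x, (if D.comp x = c then D.e x + r * (D.g x).re else 0) =
          ∑ x, (if D.comp x = c then D.e x else 0) +
          ∑ x, (if D.comp x = c then r * (D.g x).re else 0) := by
        rw [← Finset.sum_add_distrib]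
        refine Finset.sum_congr rfl fun x _ => ?_
        split_ifs
        · rfl
        · simp
      have h3 : ∑ x, (if D.comp x = c then
          (w (D.comp x) ^ 2 + w (D.comp x) * w (D.comp (sg D x))) * (r * (D.g x).re) else 0) =
          2 * w c ^ 2 * ∑ x, (if D.comp x = c then r * (D.g x).re else 0) +
          w c * ∑ x, (if D.comp x = c then
            (w (D.comp (sg D x)) - w c) * (r * (D.g x).re) else 0) := by
        rw [Finset.mul_sum, Finset.mul_sum, ← Finset.sum_add_distrib]
        refine Finset.sum_congr rfl fun x _ => ?_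
        split_ifs with hx
        · rw [hx]; ring
        · simp
      rw [h3]
      rw [h2] at h1
      linear_combination w c * h1
    have hsum : ∑ c, (2 * w c ^ 2 * (D.L c + ∑ x, (if D.comp x = c then D.e x else 0))) +
        ∑ x, (w (D.comp x) ^ 2 + w (D.comp x) * w (D.comp (sg D x))) * (r * (D.g x).re) = 0 := by
      have h1 : ∑ x, (w (D.comp x) ^ 2 + w (D.comp x) * w (D.comp (sg D x))) * (r * (D.g x).re) =
          ∑ c, ∑ x, (if D.comp x = c then
          (w (D.comp x) ^ 2 + w (D.comp x) * w (D.comp (sg D x))) * (r * (D.g x).re) else 0) := by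
        rw [Finset.sum_comm]
        refine Finset.sum_congr rfl fun x _ => ?_
        rw [Finset.sum_ite_eq]
        simp
      rw [h1, ← Finset.sum_add_distrib]
      exact Finset.sum_eq_zero fun c _ => hc c
    have hhalf := half_square D w (fun x => r * (D.g x).re) (fun x => by rw [re_sg])
      (fun x => mul_nonneg hr0 (D.gpos x))
    have hterm : ∀ c ∈ (Finset.univ : Finset C),
        0 ≤ 2 * w c ^ 2 * (D.L c + ∑ x, (if D.comp x = c then D.e x else 0)) := by
      intro c _
      have h1 : 0 ≤ ∑ x, (if D.comp x = c then D.e x else 0) :=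
        Finset.sum_nonneg fun x _ => by
          split_ifs
          · exact D.he x
          · exact le_refl _
      have h2 := D.hL c
      positivity
    have hz : ∑ c, (2 * w c ^ 2 * (D.L c + ∑ x, (if D.comp x = c then D.e x else 0))) = 0 := by
      have h1 := Finset.sum_nonneg hterm
      linarith
    funext c
    have h1 := (Finset.sum_eq_zero_iff_of_nonneg hterm).1 hz c (Finset.mem_univ c)
    have h2 : 0 < D.L c + ∑ x, (if D.comp x = c then D.e x else 0) := by
      have h3 : 0 ≤ ∑ x, (if D.comp x = c then D.e x else 0) :=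
        Finset.sum_nonneg fun x _ => by
          split_ifs
          · exact D.he x
          · exact le_refl _
      have h4 := D.hL c
      linarith
    have h5 : 2 * w c ^ 2 = 0 := by
      rcases mul_eq_zero.1 h1 with h | h
      · exact h
      · exact absurd h h2.ne'
    have h6 : w c ^ 2 = 0 := by linarith
    simpa using h6

end Pool.Agent.Lib.P7ee
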