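import Pool.Agent.Lib.P7ee.LDefs

/-!
# P7ee.Zeros0: the zeros for `ρ = 0`  (1 h)

`base a c ^ 2 = (a c + i)/‖a c + i‖`. `zero_tl`: `t = tl a l`, `‖t c‖ = 1`, `t c ^ 2 = ± (a c + i)/‖..‖`, so `Im (conj (t c)^2 (a c + i)) = 0`. `zeros_zero`: for each `c` the complex numbers `p = P (inl c)`, `q = P (inr c)` satisfy `p² + q² = 1`, `p² - q² = 2 a p q`; `u = p + i q`, `v = p - i q`: `u v = 1`, and `(a + i) v² - (a - i) u² = 2 i (p² - q² - 2 a p q) = 0`,
so `u⁴ = (a+i)/(a-i) = ((a+i)/‖a+i‖)² = (base a c)⁴`, `u = i^l base a c` with `l : Fin 4`, `v = 1/u = conj u`, so `p = Re u`, `q = Im u`. `tl_inj`, `tl_neg`: `base a c ≠ 0` and the powers `i^l`, `l < 4`, are different; `i^(l+2) = - i^l`.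
-/

set_option autoImplicit false

namespace Pool.Agent.Lib.P7ee

namespace Zeros0Aux

theorem ai_ne (a : ℤ) : ((a : ℂ) + Complex.I) ≠ 0 := by
  intro h
  have := congrArg Complex.im h
  simp at this

theorem base_sq (a : ℕ → ℤ) (c : ℕ) :
    base a c ^ 2 * (‖(a c : ℂ) + Complex.I‖ : ℂ) = (a c : ℂ) + Complex.I := by
  have h := Complex.norm_mul_exp_arg_mul_I ((a c : ℂ) + Complex.I)
  have h2 : base a c ^ 2 = Complex.exp ((Complex.arg ((a c : ℂ) + Complex.I) : ℂ) * Complex.I) := by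
    unfold base
    rw [← Complex.exp_nat_mul]
    congr 1
    push_cast
    ring
  rw [h2, mul_comm]
  exact h

theorem base_conj (a : ℕ → ℤ) (c : ℕ) :
    base a c * (starRingEnd ℂ) (base a c) = 1 := by
  unfold base
  rw [Complex.mul_conj, Complex.normSq_eq_norm_sq, Complex.norm_exp_ofReal_mul_I]
  norm_num

theorem base_ne (a : ℕ → ℤ) (c : ℕ) : base a c ≠ 0 := by
  intro h
  have := base_conj a c
  rw [h] at this
  simp at this

theorem base_four (a : ℕ → ℤ) (c : ℕ) :
    base a c ^ 4 * ((a c : ℂ) - Complex.I) = (a c : ℂ) + Complex.I := by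
  have h := base_sq a c
  have hn : (‖(a c : ℂ) + Complex.I‖ : ℂ) ^ 2 = ((a c : ℂ) + Complex.I) * ((a c : ℂ) - Complex.I) := by
    have h1 : ((a c : ℂ) + Complex.I) * (starRingEnd ℂ) ((a c : ℂ) + Complex.I) =
        (‖(a c : ℂ) + Complex.I‖ : ℂ) ^ 2 := by
      rw [Complex.mul_conj, Complex.normSq_eq_norm_sq]
      push_cast
      rfl
    rw [← h1]
    simp [map_add, sub_eq_add_neg]
  have h0 := ai_ne (a c)
  have h4 : base a c ^ 4 * (‖(a c : ℂ) + Complex.I‖ : ℂ) ^ 2 = ((a c : ℂ) + Complex.I) ^ 2 := by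
    have : base a c ^ 4 * (‖(a c : ℂ) + Complex.I‖ : ℂ) ^ 2 =
      (base a c ^ 2 * (‖(a c : ℂ) + Complex.I‖ : ℂ)) ^ 2 := by ring
    rw [this, h]
  rw [hn] at h4
  have h5 : ((a c : ℂ) + Complex.I) * (base a c ^ 4 * ((a c : ℂ) - Complex.I)) =
      ((a c : ℂ) + Complex.I) * ((a c : ℂ) + Complex.I) := by
    linear_combination h4
  exact mul_left_cancel₀ h0 h5

theorem ev_inl {k : ℕ} (a : ℕ → ℤ) {A : Type} [CommRing A] (P : Fin k ⊕ Fin k → A) (c : Fin k) :
    MvPolynomial.eval P (psys k a (0 : A) (Sum.inl c)) = P (Sum.inl c) ^ 2 + P (Sum.inr c) ^ 2 - 1 := by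
  simp [psys, tsys]

theorem ev_inr {k : ℕ} (a : ℕ → ℤ) {A : Type} [CommRing A] (P : Fin k ⊕ Fin k → A) (c : Fin k) :
    MvPolynomial.eval P (psys k a (0 : A) (Sum.inr c)) =
      (P (Sum.inl c) ^ 2 - P (Sum.inr c) ^ 2) - 2 * (a c : A) * (P (Sum.inl c) * P (Sum.inr c)) := by
  simp [psys, tsys]

theorem I4 (l : Fin 4) : (Complex.I ^ (l : ℕ)) * (starRingEnd ℂ) (Complex.I ^ (l : ℕ)) = 1 := by
  rw [map_pow, ← mul_pow]
  simp

theorem tl_conj {k : ℕ} (a : ℕ → ℤ) (l : Fin k → Fin 4) (c : Fin k) :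
    tl a l c * (starRingEnd ℂ) (tl a l c) = 1 := by
  unfold tl
  rw [map_mul]
  have h1 := I4 (l c)
  have h2 := base_conj a c
  linear_combination (base a c * (starRingEnd ℂ) (base a c)) * h1 + h2

end Zeros0Aux

open Zeros0Aux

theorem zero_tl {k : ℕ} (a : ℕ → ℤ) (ha : ∀ c < k, 10 ≤ a c) (l : Fin k → Fin 4)
    (i : Fin k ⊕ Fin k) : MvPolynomial.eval (Pt (tl a l)) (psys k a (0 : ℝ) i) = 0 := by
  rcases i with c | c
  · rw [ev_inl]
    have h := tl_conj a l c
    rw [Complex.mul_conj] at h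
    have h' : Complex.normSq (tl a l c) = 1 := by exact_mod_cast h
    rw [Complex.normSq_apply] at h'
    simp only [Pt, Sum.elim_inl, Sum.elim_inr]
    linarith [h', sq (tl a l c).re, sq (tl a l c).im]
  · rw [ev_inr]
    simp only [Pt, Sum.elim_inl, Sum.elim_inr]
    have hb := base_sq a c
    set n : ℝ := ‖(a c : ℂ) + Complex.I‖ with hn
    have hn0 : n ≠ 0 := by
      rw [hn]
      exact norm_ne_zero_iff.mpr (ai_ne (a c))
    set t := tl a l c with ht
    have hs : ∃ s : ℝ, t ^ 2 * (n : ℂ) = (s : ℂ) * ((a c : ℂ) + Complex.I) := by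
      have h2 : t ^ 2 = (Complex.I ^ 2) ^ (l c : ℕ) * base a c ^ 2 := by
        rw [ht]; unfold tl
        ring
      refine ⟨(-1) ^ (l c : ℕ), ?_⟩
      rw [h2, Complex.I_sq, mul_assoc, hb]
      push_cast
      rfl
    obtain ⟨s, hs⟩ := hs
    have hre := congrArg Complex.re hs
    have him := congrArg Complex.im hs
    simp [sq] at hre him
    have h3 : ((t.re * t.re - t.im * t.im) - (a c : ℝ) * (t.re * t.im + t.im * t.re)) * n = 0 := by
      linear_combination hre - (a c : ℝ) * him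
    have h4 := (mul_eq_zero.mp h3).resolve_right hn0
    linear_combination h4

theorem zeros_zero {k : ℕ} (a : ℕ → ℤ) (ha : ∀ c < k, 10 ≤ a c) (P : Fin k ⊕ Fin k → ℂ)
    (hP : ∀ i, MvPolynomial.eval P (psys k a (0 : ℂ) i) = 0) :
    ∃ l : Fin k → Fin 4, ∀ i, P i = (Pt (tl a l) i : ℂ) := by
  have key : ∀ c : Fin k, ∃ l : Fin 4, P (Sum.inl c) + Complex.I * P (Sum.inr c) =
      Complex.I ^ (l : ℕ) * base a c := by
    intro c
    have h1 := hP (Sum.inl c)
    have h2 := hP (Sum.inr c)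
    rw [ev_inl] at h1
    rw [ev_inr] at h2
    set p := P (Sum.inl c) with hp
    set q := P (Sum.inr c) with hq
    set u := p + Complex.I * q with hu
    set v := p - Complex.I * q with hv
    set b := base a c with hb
    have hI : Complex.I * Complex.I = -1 := Complex.I_mul_I
    have huv : u * v = 1 := by
      rw [hu, hv]
      linear_combination h1 - q ^ 2 * hI
    have hE : ((a c : ℂ) + Complex.I) * v ^ 2 = ((a c : ℂ) - Complex.I) * u ^ 2 := by
      rw [hu, hv]
      linear_combination (2 * Complex.I) * h2 + (2 * Complex.I * q ^ 2) * hI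
    have h4 := base_four a c
    have hm : ((a c : ℂ) - Complex.I) ≠ 0 := by
      intro h
      have := congrArg Complex.im h
      simp at this
    have hu4 : u ^ 4 = b ^ 4 := by
      have : ((a c : ℂ) - Complex.I) * u ^ 4 = ((a c : ℂ) - Complex.I) * b ^ 4 := by
        have e1 : ((a c : ℂ) - Complex.I) * u ^ 4 = ((a c : ℂ) + Complex.I) * (u * v) ^ 2 := by
          linear_combination (-u ^ 2) * hE
        rw [e1, huv]
        linear_combination -h4
      exact mul_left_cancel₀ hm this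
    have hf : (u - b) * (u + b) * (u - Complex.I * b) * (u + Complex.I * b) = 0 := by
      have : (u - b) * (u + b) * (u - Complex.I * b) * (u + Complex.I * b) = u ^ 4 - b ^ 4 := by
        linear_combination (-(u ^ 2 - b ^ 2) * b ^ 2) * hI
      rw [this, hu4, sub_self]
    rcases mul_eq_zero.mp hf with hf | hf
    · rcases mul_eq_zero.mp hf with hf | hf
      · rcases mul_eq_zero.mp hf with hf | hf
        · exact ⟨0, by simp; linear_combination hf⟩
        · exact ⟨2, by simp; linear_combination hf⟩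
      · exact ⟨1, by simp; linear_combination hf⟩
    · refine ⟨3, ?_⟩
      have : Complex.I ^ ((3 : Fin 4) : ℕ) = -Complex.I := by
        show Complex.I ^ 3 = -Complex.I
        exact Complex.I_pow_three
      rw [this]
      linear_combination hf
  choose l hl using key
  refine ⟨l, ?_⟩
  have main : ∀ c : Fin k, P (Sum.inl c) = ((tl a l c).re : ℂ) ∧ P (Sum.inr c) = ((tl a l c).im : ℂ) := by
    intro c
    have h1 := hP (Sum.inl c)
    rw [ev_inl] at h1
    have hu : P (Sum.inl c) + Complex.I * P (Sum.inr c) = tl a l c := hl c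
    have hc := tl_conj a l c
    have hI : Complex.I * Complex.I = -1 := Complex.I_mul_I
    have huv : tl a l c * (P (Sum.inl c) - Complex.I * P (Sum.inr c)) = 1 := by
      rw [← hu]
      linear_combination h1 - P (Sum.inr c) ^ 2 * hI
    have hne : tl a l c ≠ 0 := by
      intro h
      rw [h] at hc
      simp at hc
    have hv : P (Sum.inl c) - Complex.I * P (Sum.inr c) = (starRingEnd ℂ) (tl a l c) := by
      apply mul_left_cancel₀ hne
      rw [huv, hc]
    have e1 : (tl a l c) = ((tl a l c).re : ℂ) + ((tl a l c).im : ℂ) * Complex.I :=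
      (Complex.re_add_im _).symm
    have e2 : (starRingEnd ℂ) (tl a l c) = ((tl a l c).re : ℂ) - ((tl a l c).im : ℂ) * Complex.I := by
      apply Complex.ext <;> simp
    rw [e2] at hv
    rw [e1] at hu
    constructor
    · linear_combination (hu + hv) / 2
    · have : Complex.I * P (Sum.inr c) = Complex.I * ((tl a l c).im : ℂ) := by
        linear_combination (hu - hv) / 2
      exact mul_left_cancel₀ Complex.I_ne_zero this
  intro i
  rcases i with c | c
  · exact (main c).1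
  · exact (main c).2

namespace Zeros0Aux

theorem tl_eq {k : ℕ} (a : ℕ → ℤ) {l l' : Fin k → Fin 4}
    (h : Pt (tl a l) = Pt (tl a l')) (c : Fin k) :
    Complex.I ^ (l c : ℕ) = Complex.I ^ (l' c : ℕ) := by
  have h1 := congrFun h (Sum.inl c)
  have h2 := congrFun h (Sum.inr c)
  simp only [Pt, Sum.elim_inl, Sum.elim_inr] at h1 h2
  have h3 : tl a l c = tl a l' c := Complex.ext h1 h2
  unfold tl at h3
  exact mul_right_cancel₀ (base_ne a c) h3

theorem tl_eqn {k : ℕ} (a : ℕ → ℤ) {l l' : Fin k → Fin 4}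
    (h : Pt (tl a l) = -Pt (tl a l')) (c : Fin k) :
    Complex.I ^ (l c : ℕ) = -Complex.I ^ (l' c : ℕ) := by
  have h1 := congrFun h (Sum.inl c)
  have h2 := congrFun h (Sum.inr c)
  simp only [Pt, Pi.neg_apply, Sum.elim_inl, Sum.elim_inr] at h1 h2
  have h3 : tl a l c = -tl a l' c := Complex.ext (by simpa using h1) (by simpa using h2)
  unfold tl at h3
  have h4 : Complex.I ^ (l c : ℕ) * base a c = (-Complex.I ^ (l' c : ℕ)) * base a c := by
    rw [h3]; ring
  exact mul_right_cancel₀ (base_ne a c) h4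

theorem Iinj (x y : Fin 4) (h : Complex.I ^ (x : ℕ) = Complex.I ^ (y : ℕ)) : x = y := by
  fin_cases x <;> fin_cases y <;> simp [Complex.I_pow_three, Complex.ext_iff] at h ⊢ <;> norm_num at h

theorem Ineg (x y : Fin 4) (h : Complex.I ^ (x : ℕ) = -Complex.I ^ (y : ℕ)) :
    ((x : ℕ) < 2 ↔ ¬ (y : ℕ) < 2) := by
  fin_cases x <;> fin_cases y <;> simp [Complex.I_pow_three, Complex.ext_iff] at h ⊢ <;> norm_num at h

theorem Iadd (x : Fin 4) : Complex.I ^ ((x + 2 : Fin 4) : ℕ) = -Complex.I ^ (x : ℕ) := by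
  fin_cases x
  · simp
  · show Complex.I ^ 3 = -Complex.I ^ 1
    simp [Complex.I_pow_three]
  · show Complex.I ^ 0 = -Complex.I ^ 2
    simp
  · show Complex.I ^ 1 = -Complex.I ^ 3
    simp [Complex.I_pow_three]

end Zeros0Aux

theorem tl_inj {k : ℕ} (a : ℕ → ℤ) {l l' : Fin k → Fin 4}
    (h : Pt (tl a l) = Pt (tl a l')) : l = l' := by
  funext c
  exact Iinj _ _ (tl_eq a h c)

theorem tl_neg {k : ℕ} (a : ℕ → ℤ) {l l' : Fin k → Fin 4}
    (h : Pt (tl a l) = -Pt (tl a l')) (c : Fin k) : ((l c : ℕ) < 2 ↔ ¬ (l' c : ℕ) < 2) :=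
  Ineg _ _ (tl_eqn a h c)

theorem tl_exists_neg {k : ℕ} (a : ℕ → ℤ) (l : Fin k → Fin 4) :
    ∃ l' : Fin k → Fin 4, Pt (tl a l') = -Pt (tl a l) := by
  refine ⟨fun c => l c + 2, ?_⟩
  have h : ∀ c, tl a (fun c => l c + 2) c = -tl a l c := by
    intro c
    unfold tl
    rw [Iadd]
    ring
  funext i
  rcases i with c | c
  · simp only [Pt, Pi.neg_apply, Sum.elim_inl]
    rw [h c]; simp
  · simp only [Pt, Pi.neg_apply, Sum.elim_inr]
    rw [h c]; simp

end Pool.Agent.Lib.P7ee
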