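import Pool.Agent.Lib.P7ee.PsysNZ
import Pool.Agent.Lib.P7ee.Zeros0

/-!
# P7ee.Branch: smooth branches of zeros  (1.5 h)

`H (ρ, x) = (ρ, fun i => eval x (psys k a ρ i))` on `ℝ × (σ → ℝ)`, `σ = Fin k ⊕ Fin k`: polynomial, so `ContDiff ℝ n` for all `n`. Its derivative at `(0, X0)`, `X0 = Pt (tl a l)`: `(dρ, dx) ↦ (dρ, dρ h + J dx)`, `J` the Jacobian matrix, injective by `psys_nzero` (`ρ = 0`, `zero_tl`), hence bijective (finite dimension): a continuous linear equivalence.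
Inverse function theorem (`ContDiffAt.toOpenPartialHomeomorph` / `ContDiffAt.to_localInverse`, `HasStrictFDerivAt.eventually_right_inverse`): `X ρ = (G (ρ, 0)).2` with the local inverse `G`; `G (H (0, X0)) = (0, X0)`; `H (G (ρ, 0)) = (ρ, 0)` for small `ρ` gives first component `ρ` and the equations. (Smoothness of class `n` for every natural number `n`: `G` is one function, of class `n` at `(0,0)` for all `n`.)
-/

set_option autoImplicit false

open Filter Topology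

namespace Pool.Agent.Lib.P7ee

namespace BranchAux

/-- the derivative of a polynomial function -/
theorem hasFDerivAt_eval {σ : Type} [Fintype σ] (p : MvPolynomial σ ℝ) (x : σ → ℝ) :
    HasFDerivAt (fun y : σ → ℝ => MvPolynomial.eval y p)
      (∑ j, MvPolynomial.eval x (MvPolynomial.pderiv j p) •
        (ContinuousLinearMap.proj j : (σ → ℝ) →L[ℝ] ℝ)) x := by
  classical
  induction p using MvPolynomial.induction_on with
  | C a =>
    simp only [MvPolynomial.eval_C, MvPolynomial.pderiv_C, map_zero, zero_smul,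
      Finset.sum_const_zero]
    exact hasFDerivAt_const a x
  | add p q hp hq =>
    have h := hp.add hq
    refine (h.congr_fderiv ?_).congr_of_eventuallyEq ?_
    · rw [← Finset.sum_add_distrib]
      refine Finset.sum_congr rfl fun j _ => ?_
      rw [map_add, map_add, add_smul]
    · exact Filter.Eventually.of_forall fun y => by simp
  | mul_X p i hp =>
    have h1 : HasFDerivAt (fun y : σ → ℝ => y i)
        (ContinuousLinearMap.proj i : (σ → ℝ) →L[ℝ] ℝ) x :=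
      (ContinuousLinearMap.proj i : (σ → ℝ) →L[ℝ] ℝ).hasFDerivAt
    have h := hp.mul h1
    refine (h.congr_fderiv ?_).congr_of_eventuallyEq ?_
    · have h2 : ∀ j, MvPolynomial.eval x (MvPolynomial.pderiv j (p * MvPolynomial.X i)) =
          MvPolynomial.eval x (MvPolynomial.pderiv j p) * x i +
            MvPolynomial.eval x p * (if i = j then 1 else 0) := by
        intro j
        rw [MvPolynomial.pderiv_mul, map_add, map_mul, map_mul, MvPolynomial.eval_X,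
          MvPolynomial.pderiv_X]
        by_cases hij : i = j
        · subst hij
          simp
        · rw [Pi.single_eq_of_ne hij]
          simp [hij]
      ext z
      simp only [ContinuousLinearMap.add_apply, ContinuousLinearMap.smul_apply,
        ContinuousLinearMap.proj_apply, ContinuousLinearMap.sum_apply, smul_eq_mul, h2,
        add_mul, Finset.sum_add_distrib, Finset.mul_sum]
      rw [add_comm]
      congr 1
      · refine Finset.sum_congr rfl fun j _ => ?_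
        ring
      · simp
    · exact Filter.Eventually.of_forall fun y => by simp

/-- the map of the inverse function theorem -/
noncomputable def Hm {k : ℕ} (a : ℕ → ℤ) (q : ℝ × (Fin k ⊕ Fin k → ℝ)) :
    ℝ × (Fin k ⊕ Fin k → ℝ) :=
  (q.1, fun i => MvPolynomial.eval q.2 (psys k a q.1 i))

theorem contDiff_second {k : ℕ} (a : ℕ → ℤ) (i : Fin k ⊕ Fin k) (n : WithTop ℕ∞) :
    ContDiff ℝ n (fun q : ℝ × (Fin k ⊕ Fin k → ℝ) =>
      MvPolynomial.eval q.2 (psys k a q.1 i)) := by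
  have hx : ∀ j, ContDiff ℝ n (fun q : ℝ × (Fin k ⊕ Fin k → ℝ) => q.2 j) := fun j =>
    (contDiff_apply ℝ ℝ j).comp contDiff_snd
  rcases i with c | c
  · have h : (fun q : ℝ × (Fin k ⊕ Fin k → ℝ) => MvPolynomial.eval q.2 (psys k a q.1 (.inl c))) =
        fun q => q.2 (.inl c) ^ 2 + q.2 (.inr c) ^ 2 - 1 := by
      funext q
      simp [psys, tsys]
    rw [h]
    exact (((hx _).pow 2).add ((hx _).pow 2)).sub contDiff_const
  · have h : (fun q : ℝ × (Fin k ⊕ Fin k → ℝ) => MvPolynomial.eval q.2 (psys k a q.1 (.inr c))) =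
        fun q => (q.2 (.inl c) ^ 2 - q.2 (.inr c) ^ 2)
          - (2 * (a c : ℝ)) * (q.2 (.inl c) * q.2 (.inr c))
          + ∑ c' : Fin k, (q.1 * ((if c'.val = c.val + 1 then 1 else 0) -
              (if c'.val + 1 = c.val then 1 else 0))) *
            (q.2 (.inl c) * q.2 (.inl c') + q.2 (.inr c) * q.2 (.inr c')) := by
      funext q
      simp [psys, tsys, MvPolynomial.eval_C]
    rw [h]
    refine ((((hx _).pow 2).sub ((hx _).pow 2)).sub (contDiff_const.mul ((hx _).mul (hx _)))).add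
      (ContDiff.sum fun c' _ => ?_)
    exact (contDiff_fst.mul contDiff_const).mul (((hx _).mul (hx _)).add ((hx _).mul (hx _)))

theorem contDiff_Hm {k : ℕ} (a : ℕ → ℤ) (n : WithTop ℕ∞) :
    ContDiff ℝ n (Hm (k := k) a) :=
  contDiff_fst.prodMk (contDiff_pi.2 fun i => contDiff_second a i n)

end BranchAux

open BranchAux in
theorem branches {k : ℕ} (a : ℕ → ℤ) (ha : ∀ c < k, 10 ≤ a c) (l : Fin k → Fin 4) :
    ∃ X : ℝ → (Fin k ⊕ Fin k → ℝ), X 0 = Pt (tl a l) ∧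
      (∀ i, ∀ n : ℕ, ContDiffAt ℝ n (fun ρ => X ρ i) 0) ∧
      ∀ᶠ ρ in 𝓝 (0 : ℝ), ∀ i, MvPolynomial.eval (X ρ) (psys k a ρ i) = 0 := by
  classical
  set X0 : Fin k ⊕ Fin k → ℝ := Pt (tl a l) with hX0
  have hz : ∀ i, MvPolynomial.eval X0 (psys k a (0 : ℝ) i) = 0 := zero_tl a ha l
  have hNZ : NZero (psys k a (0 : ℝ)) X0 :=
    (psys_nzero a ha (ρ := 0) (by simp) X0 hz).1
  have hH0 : Hm a ((0 : ℝ), X0) = (0, 0) := by
    unfold Hm
    refine Prod.ext rfl ?_
    funext i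
    exact hz i
  have hd : DifferentiableAt ℝ (Hm (k := k) a) (0, X0) :=
    (contDiff_Hm (k := k) a 1).differentiable (by simp) _
  set F' : (ℝ × (Fin k ⊕ Fin k → ℝ)) →L[ℝ] (ℝ × (Fin k ⊕ Fin k → ℝ)) :=
    fderiv ℝ (Hm (k := k) a) (0, X0) with hF'
  have hF : HasFDerivAt (Hm (k := k) a) F' (0, X0) := hd.hasFDerivAt
  have hinj : Function.Injective F' := by
    rw [injective_iff_map_eq_zero]
    rintro ⟨dρ, dx⟩ h0
    -- first component
    have h1 : HasFDerivAt (fun q : ℝ × (Fin k ⊕ Fin k → ℝ) => (Hm a q).1)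
        ((ContinuousLinearMap.fst ℝ ℝ (Fin k ⊕ Fin k → ℝ)).comp F') (0, X0) :=
      hF.fst
    have h2 : HasFDerivAt (fun q : ℝ × (Fin k ⊕ Fin k → ℝ) => (Hm a q).1)
        (ContinuousLinearMap.fst ℝ ℝ (Fin k ⊕ Fin k → ℝ)) (0, X0) :=
      (ContinuousLinearMap.fst ℝ ℝ (Fin k ⊕ Fin k → ℝ)).hasFDerivAt
    have h3 := h1.unique h2
    have h4 : dρ = 0 := by
      have h5 := congrArg (fun L : (ℝ × (Fin k ⊕ Fin k → ℝ)) →L[ℝ] ℝ => L (dρ, dx)) h3
      simp only [ContinuousLinearMap.comp_apply, ContinuousLinearMap.coe_fst'] at h5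
      rw [h0] at h5
      simpa using h5.symm
    subst h4
    have h6 : dx = 0 := by
      apply hNZ.2
      intro i
      have g1 : HasFDerivAt (fun x : Fin k ⊕ Fin k → ℝ => ((0 : ℝ), x))
          (ContinuousLinearMap.inr ℝ ℝ (Fin k ⊕ Fin k → ℝ)) X0 :=
        hasFDerivAt_prodMk_right (0 : ℝ) X0
      have g2 : HasFDerivAt (fun x : Fin k ⊕ Fin k → ℝ => Hm a ((0 : ℝ), x))
          (F'.comp (ContinuousLinearMap.inr ℝ ℝ (Fin k ⊕ Fin k → ℝ))) X0 :=
        HasFDerivAt.comp X0 hF g1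
      have g3 : HasFDerivAt (fun x : Fin k ⊕ Fin k → ℝ => (Hm a ((0 : ℝ), x)).2 i)
          (((ContinuousLinearMap.proj i : (Fin k ⊕ Fin k → ℝ) →L[ℝ] ℝ).comp
            (ContinuousLinearMap.snd ℝ ℝ (Fin k ⊕ Fin k → ℝ))).comp
            (F'.comp (ContinuousLinearMap.inr ℝ ℝ (Fin k ⊕ Fin k → ℝ)))) X0 :=
        ((ContinuousLinearMap.proj i : (Fin k ⊕ Fin k → ℝ) →L[ℝ] ℝ).comp
            (ContinuousLinearMap.snd ℝ ℝ (Fin k ⊕ Fin k → ℝ))).hasFDerivAt.comp X0 g2
      have g4 := hasFDerivAt_eval (psys k a (0 : ℝ) i) X0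
      have g5 := g3.unique g4
      have g6 := congrArg (fun L : (Fin k ⊕ Fin k → ℝ) →L[ℝ] ℝ => L dx) g5
      simp only [ContinuousLinearMap.comp_apply, ContinuousLinearMap.inr_apply,
        ContinuousLinearMap.sum_apply, ContinuousLinearMap.smul_apply,
        ContinuousLinearMap.proj_apply, smul_eq_mul] at g6
      rw [h0] at g6
      simpa using g6.symm
    rw [h6]
    rfl
  let e1 : (ℝ × (Fin k ⊕ Fin k → ℝ)) ≃ₗ[ℝ] (ℝ × (Fin k ⊕ Fin k → ℝ)) :=
    LinearEquiv.ofInjectiveEndo (F' : (ℝ × (Fin k ⊕ Fin k → ℝ)) →ₗ[ℝ] _) hinj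
  let e2 : (ℝ × (Fin k ⊕ Fin k → ℝ)) ≃L[ℝ] (ℝ × (Fin k ⊕ Fin k → ℝ)) :=
    e1.toContinuousLinearEquiv
  have he2 : (e2 : (ℝ × (Fin k ⊕ Fin k → ℝ)) →L[ℝ] (ℝ × (Fin k ⊕ Fin k → ℝ))) = F' := by
    exact ContinuousLinearMap.ext fun z => rfl
  have hF2 : HasFDerivAt (Hm (k := k) a)
      (e2 : (ℝ × (Fin k ⊕ Fin k → ℝ)) →L[ℝ] (ℝ × (Fin k ⊕ Fin k → ℝ))) (0, X0) := by
    rw [he2]
    exact hF
  have hs : HasStrictFDerivAt (Hm (k := k) a)
      (e2 : (ℝ × (Fin k ⊕ Fin k → ℝ)) →L[ℝ] (ℝ × (Fin k ⊕ Fin k → ℝ))) (0, X0) :=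
    ((contDiff_Hm (k := k) a 1).contDiffAt).hasStrictFDerivAt' hF2 (by simp)
  let G : ℝ × (Fin k ⊕ Fin k → ℝ) → ℝ × (Fin k ⊕ Fin k → ℝ) := hs.localInverse (Hm a) e2 (0, X0)
  have hG0 : G (0, 0) = (0, X0) := by
    rw [← hH0]
    exact hs.localInverse_apply_image
  have hGsm : ∀ n : ℕ, ContDiffAt ℝ n G (0, 0) := by
    intro n
    have h1 : ContDiffAt ℝ ((n + 1 : ℕ) : WithTop ℕ∞) G (0, 0) := by
      rw [← hH0]
      exact ((contDiff_Hm (k := k) a ((n + 1 : ℕ) : WithTop ℕ∞)).contDiffAt).to_localInverse hF2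
        (by exact_mod_cast Nat.succ_ne_zero n)
    exact h1.of_le (by exact_mod_cast Nat.le_succ n)
  have hright : ∀ᶠ y in 𝓝 ((0 : ℝ), (0 : Fin k ⊕ Fin k → ℝ)), Hm a (G y) = y := by
    have h1 := hs.eventually_right_inverse
    rw [hH0] at h1
    exact h1
  refine ⟨fun ρ => (G (ρ, 0)).2, ?_, ?_, ?_⟩
  · show (G (0, 0)).2 = X0
    rw [hG0]
  · intro i n
    have h1 : ContDiffAt ℝ n (fun ρ : ℝ => (ρ, (0 : Fin k ⊕ Fin k → ℝ))) 0 :=
      contDiffAt_id.prodMk contDiffAt_const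
    have h2 : ContDiffAt ℝ n (fun ρ : ℝ => G (ρ, 0)) 0 := ContDiffAt.comp 0 (hGsm n) h1
    have h3 : ContDiffAt ℝ n (fun ρ : ℝ => (G (ρ, 0)).2) 0 := h2.snd
    exact (contDiffAt_pi.1 h3) i
  · have hc : Filter.Tendsto (fun ρ : ℝ => (ρ, (0 : Fin k ⊕ Fin k → ℝ))) (𝓝 0)
        (𝓝 ((0 : ℝ), (0 : Fin k ⊕ Fin k → ℝ))) := by
      have : Continuous (fun ρ : ℝ => (ρ, (0 : Fin k ⊕ Fin k → ℝ))) := by fun_prop
      exact this.tendsto 0
    filter_upwards [hc.eventually hright] with ρ hρ i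
    have h1 : (G (ρ, 0)).1 = ρ := congrArg Prod.fst hρ
    have h2 : (Hm a (G (ρ, 0))).2 i = 0 := congrFun (congrArg Prod.snd hρ) i
    have h3 : (Hm a (G (ρ, 0))).2 i =
        MvPolynomial.eval (G (ρ, 0)).2 (psys k a (G (ρ, 0)).1 i) := rfl
    rw [h3, h1] at h2
    exact h2

end Pool.Agent.Lib.P7ee
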