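import Pool.Agent.Lib.P7ee.Defs

/-!
# P7ee.Calib: calibration of growing trees  (1 h)

Induction on `Grow`. Base: all `τ j = z`. Step (`insert z A`, `v ∈ A`): `τ' j = v` if `τ j = z`, else `τ j` (in `A`), `χ j = 1` if `τ j = z`, else `0`; `τ j = τ' j + χ j (z - v)`, so the sum for `τ` minus the sum for `τ'` is `ip (∑ (χ (c+1) - χ c) u c) (z - v) ≤ ‖z - v‖ = dist v z`.
-/

set_option autoImplicit false



namespace Pool.Agent.Lib.P7ee

namespace CalibAux

theorem ip_add (z w1 w2 : ℂ) : ip z (w1 + w2) = ip z w1 + ip z w2 := by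
  simp only [ip, Complex.add_re, Complex.add_im]; ring

theorem ip_smul (z w : ℂ) (t : ℝ) : ip z ((t : ℂ) * w) = t * ip z w := by
  simp only [ip, Complex.re_ofReal_mul, Complex.im_ofReal_mul]; ring

theorem ip_smul_left (z w : ℂ) (t : ℝ) : ip ((t : ℂ) * z) w = t * ip z w := by
  simp only [ip, Complex.re_ofReal_mul, Complex.im_ofReal_mul]; ring

theorem ip_sum_left (s : Finset ℕ) (f : ℕ → ℂ) (w : ℂ) :
    ip (∑ c ∈ s, f c) w = ∑ c ∈ s, ip (f c) w := by
  simp only [ip, Complex.re_sum, Complex.im_sum, Finset.sum_mul, Finset.sum_add_distrib]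

theorem ip_le (z w : ℂ) : ip z w ≤ ‖z‖ * ‖w‖ := by
  have h : ip z w = (z * (starRingEnd ℂ) w).re := by
    simp only [ip, Complex.mul_re, Complex.conj_re, Complex.conj_im]; ring
  rw [h]
  refine (Complex.re_le_norm _).trans ?_
  rw [norm_mul, RCLike.norm_conj]

end CalibAux

theorem calib {A : Finset ℂ} {L : ℝ} (h : Grow A L) (k : ℕ) (u : ℕ → ℂ)
    (hu : ∀ χ : ℕ → ℝ, (∀ j, χ j = 0 ∨ χ j = 1) →
      ‖∑ c ∈ Finset.range k, ((χ (c + 1) - χ c : ℝ) : ℂ) * u c‖ ≤ 1)
    (τ : ℕ → ℂ) (hτ : ∀ j ≤ k, τ j ∈ A) :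
    ∑ c ∈ Finset.range k, ip (u c) (τ (c + 1) - τ c) ≤ L := by
  classical
  induction h generalizing τ with
  | base z =>
    refine le_of_eq (Finset.sum_eq_zero fun c hc => ?_)
    have hc' := Finset.mem_range.mp hc
    have h1 := Finset.mem_singleton.mp (hτ (c + 1) (by omega))
    have h2 := Finset.mem_singleton.mp (hτ c (by omega))
    rw [h1, h2, sub_self]
    simp [ip]
  | @step A L hG v hv z ih =>
    set τ' : ℕ → ℂ := fun j => if τ j = z then v else τ j with hτ'
    set χ : ℕ → ℝ := fun j => if τ j = z then 1 else 0 with hχ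
    have hmem : ∀ j ≤ k, τ' j ∈ A := by
      intro j hj
      by_cases hz : τ j = z
      · simp only [hτ', hz, if_true]; exact hv
      · simp only [hτ', hz, if_false]
        exact (Finset.mem_insert.mp (hτ j hj)).resolve_left hz
    have h01 : ∀ j, χ j = 0 ∨ χ j = 1 := by
      intro j
      by_cases hz : τ j = z
      · right; simp [hχ, hz]
      · left; simp [hχ, hz]
    have hdec : ∀ j, τ j = τ' j + (χ j : ℂ) * (z - v) := by
      intro j
      by_cases hz : τ j = z
      · simp only [hτ', hχ, hz, if_true]; push_cast; ring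
      · simp only [hτ', hχ, hz, if_false]; push_cast; ring
    have key : ∀ c, ip (u c) (τ (c + 1) - τ c) =
        ip (u c) (τ' (c + 1) - τ' c) +
          ip (((χ (c + 1) - χ c : ℝ) : ℂ) * u c) (z - v) := by
      intro c
      have : τ (c + 1) - τ c =
          (τ' (c + 1) - τ' c) + ((χ (c + 1) - χ c : ℝ) : ℂ) * (z - v) := by
        rw [hdec (c + 1), hdec c]; push_cast; ring
      rw [this, CalibAux.ip_add, CalibAux.ip_smul, CalibAux.ip_smul_left]
    rw [Finset.sum_congr rfl fun c _ => key c, Finset.sum_add_distrib,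
      ← CalibAux.ip_sum_left]
    refine add_le_add (ih τ' hmem) ?_
    refine (CalibAux.ip_le _ _).trans ?_
    have h1 := hu χ h01
    have h2 : ‖z - v‖ = dist v z := by rw [dist_comm, dist_eq_norm]
    rw [h2]
    have h3 : 0 ≤ dist v z := dist_nonneg
    nlinarith

end Pool.Agent.Lib.P7ee
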