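import Pool.Agent.Lib.P7ee.LDefs

/-!
# P7ee.ChainDir: directions of perturbed chains  (1.2 h)

`x (c+1) - x c = m Y + e`, `Y = a c + i`, `‖e‖ ≤ 2`, `‖Y‖ ≥ 10`. `‖w/‖w‖ - Y/‖Y‖‖ ≤ 2 ‖e‖/(m ‖Y‖) ≤ 4/(10 m)` for `w = m Y + e`. `Im (Y/‖Y‖) = 1/√(a² + 1)` is in `(0, 1/10]` and strictly increasing in `c` because `a c` is positive and strictly decreasing; choose `m0` such that `1/m0` is smaller than all these numbers and all differences of consecutive ones (finitely many).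
-/

set_option autoImplicit false



namespace Pool.Agent.Lib.P7ee

namespace ChainDirAux

theorem unit_diff (w v : ℂ) (hw : w ≠ 0) (hv : v ≠ 0) :
    ‖w / (‖w‖ : ℂ) - v / (‖v‖ : ℂ)‖ ≤ 2 * ‖w - v‖ / ‖v‖ := by
  have hw0 : (0 : ℝ) < ‖w‖ := norm_pos_iff.mpr hw
  have hv0 : (0 : ℝ) < ‖v‖ := norm_pos_iff.mpr hv
  have hwc : (‖w‖ : ℂ) ≠ 0 := by exact_mod_cast hw0.ne'
  have hvc : (‖v‖ : ℂ) ≠ 0 := by exact_mod_cast hv0.ne'
  have h1 : w / (‖w‖ : ℂ) - v / (‖v‖ : ℂ)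
      = (w - v) / (‖v‖ : ℂ) + (w / (‖w‖ : ℂ)) * (((‖v‖ - ‖w‖ : ℝ) : ℂ) / (‖v‖ : ℂ)) := by
    push_cast
    field_simp
    ring
  have h2 : ‖(w - v) / (‖v‖ : ℂ)‖ = ‖w - v‖ / ‖v‖ := by
    rw [norm_div, Complex.norm_real, norm_norm]
  have h3 : ‖(w / (‖w‖ : ℂ)) * (((‖v‖ - ‖w‖ : ℝ) : ℂ) / (‖v‖ : ℂ))‖ ≤ ‖w - v‖ / ‖v‖ := by
    rw [norm_mul, norm_div, norm_div, Complex.norm_real, Complex.norm_real, Complex.norm_real,
      norm_norm, norm_norm, div_self hw0.ne', one_mul]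
    gcongr
    rw [norm_sub_rev]
    exact abs_norm_sub_norm_le w v
  rw [h1]
  calc _ ≤ ‖(w - v) / (‖v‖ : ℂ)‖ + ‖(w / (‖w‖ : ℂ)) * (((‖v‖ - ‖w‖ : ℝ) : ℂ) / (‖v‖ : ℂ))‖ :=
        norm_add_le _ _
    _ ≤ ‖w - v‖ / ‖v‖ + ‖w - v‖ / ‖v‖ := by rw [h2]; gcongr
    _ = 2 * ‖w - v‖ / ‖v‖ := by ring

theorem norm_sq_Y (n : ℤ) : ‖((n : ℂ) + Complex.I)‖ ^ 2 = (n : ℝ) ^ 2 + 1 := by
  rw [Complex.sq_norm, Complex.normSq_apply]
  simp
  ring

theorem norm_Y_ge (n : ℤ) (hn : 10 ≤ n) : (10 : ℝ) ≤ ‖((n : ℂ) + Complex.I)‖ := by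
  have h1 := norm_sq_Y n
  have h2 : (10 : ℝ) ≤ n := by exact_mod_cast hn
  have h3 := norm_nonneg ((n : ℂ) + Complex.I)
  nlinarith

theorem norm_Y_lt (n n' : ℤ) (hn : 10 ≤ n) (hlt : n < n') :
    ‖((n : ℂ) + Complex.I)‖ < ‖((n' : ℂ) + Complex.I)‖ := by
  have h1 := norm_sq_Y n
  have h1' := norm_sq_Y n'
  have h2 : (10 : ℝ) ≤ n := by exact_mod_cast hn
  have h2' : (n : ℝ) < n' := by exact_mod_cast hlt
  have h3 := norm_nonneg ((n : ℂ) + Complex.I)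
  have h3' := norm_nonneg ((n' : ℂ) + Complex.I)
  by_contra hcon
  push_neg at hcon
  nlinarith

/-- the direction of a perturbed long vector -/
theorem dir_close (n : ℤ) (hn : 10 ≤ n) (m : ℕ) (hm : 0 < m) (w : ℂ)
    (hw : ‖w - m * ((n : ℂ) + Complex.I)‖ ≤ 2) :
    w ≠ 0 ∧ |(w / (‖w‖ : ℂ)).re - n / ‖((n : ℂ) + Complex.I)‖| ≤ 2 / (5 * m) ∧
      |(w / (‖w‖ : ℂ)).im - 1 / ‖((n : ℂ) + Complex.I)‖| ≤ 2 / (5 * m) := by
  set Y : ℂ := (n : ℂ) + Complex.I with hY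
  have hY10 : (10 : ℝ) ≤ ‖Y‖ := norm_Y_ge n hn
  have hm1 : (1 : ℝ) ≤ m := by exact_mod_cast hm
  have hm0 : (0 : ℝ) < m := by linarith
  have hnv : ‖(m : ℂ) * Y‖ = m * ‖Y‖ := by rw [norm_mul, Complex.norm_natCast]
  have hv0 : (m : ℂ) * Y ≠ 0 := by
    rw [← norm_pos_iff, hnv]; positivity
  have hw0 : w ≠ 0 := by
    rintro rfl
    rw [zero_sub, norm_neg, hnv] at hw
    nlinarith
  have hd := unit_diff w (m * Y) hw0 hv0
  have hUY : (m : ℂ) * Y / (‖(m : ℂ) * Y‖ : ℂ) = Y / (‖Y‖ : ℂ) := by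
    rw [hnv]
    have hmc : (m : ℂ) ≠ 0 := by exact_mod_cast hm.ne'
    have hYc : (‖Y‖ : ℂ) ≠ 0 := by
      have : (0 : ℝ) < ‖Y‖ := by linarith
      exact_mod_cast this.ne'
    push_cast
    field_simp
  rw [hUY] at hd
  have hb : 2 * ‖w - m * Y‖ / ‖(m : ℂ) * Y‖ ≤ 2 / (5 * m) := by
    rw [hnv, div_le_div_iff₀ (by positivity) (by positivity)]
    have h1 : 2 * ‖w - m * Y‖ ≤ 4 := by linarith
    have h2 : 2 * ‖w - m * Y‖ * (5 * m) ≤ 4 * (5 * m) :=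
      mul_le_mul_of_nonneg_right h1 (by positivity)
    have h3 : (m : ℝ) * 10 ≤ m * ‖Y‖ := mul_le_mul_of_nonneg_left hY10 hm0.le
    linarith
  have hd' := hd.trans hb
  have hre : (Y / (‖Y‖ : ℂ)).re = n / ‖Y‖ := by
    rw [Complex.div_ofReal_re, hY]; simp
  have him : (Y / (‖Y‖ : ℂ)).im = 1 / ‖Y‖ := by
    rw [Complex.div_ofReal_im, hY]; simp
  refine ⟨hw0, ?_, ?_⟩
  · rw [← hre, ← Complex.sub_re]
    exact (Complex.abs_re_le_norm _).trans hd'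
  · rw [← him, ← Complex.sub_im]
    exact (Complex.abs_im_le_norm _).trans hd'

end ChainDirAux

theorem chain_dir (k : ℕ) (a : ℕ → ℤ) (ha : ∀ c < k, 10 ≤ a c)
    (hdec : ∀ c, c + 1 < k → a (c + 1) < a c) :
    ∃ m0 : ℕ, 0 < m0 ∧ ∀ m ≥ m0, ∀ x : ℕ → ℂ, (∀ j ≤ k, dist (x j) (m * zpt a j) ≤ 1) →
      ∀ c < k, x (c + 1) ≠ x c ∧ 0 < (om x c).re ∧ 0 ≤ (om x c).im ∧ (om x c).im ≤ 1 / 2 ∧
        (c + 1 < k → (om x c).im < (om x (c + 1)).im) := by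
  -- the statement for one index
  have key : ∀ c ∈ Finset.range k, ∀ᶠ m : ℕ in Filter.atTop, ∀ x : ℕ → ℂ,
      (∀ j ≤ k, dist (x j) (m * zpt a j) ≤ 1) →
      x (c + 1) ≠ x c ∧ 0 < (om x c).re ∧ 0 ≤ (om x c).im ∧ (om x c).im ≤ 1 / 2 ∧
        (c + 1 < k → (om x c).im < (om x (c + 1)).im) := by
    intro c hc
    have hck : c < k := Finset.mem_range.mp hc
    have hstep : ∀ c < k, ∀ m : ℕ, 0 < m → ∀ x : ℕ → ℂ,
        (∀ j ≤ k, dist (x j) (m * zpt a j) ≤ 1) →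
        ‖(x (c + 1) - x c) - m * ((a c : ℂ) + Complex.I)‖ ≤ 2 := by
      intro c hck m _ x hx
      have h1 := hx c hck.le
      have h2 := hx (c + 1) hck
      rw [dist_eq_norm] at h1 h2
      have h3 : (x (c + 1) - x c) - m * ((a c : ℂ) + Complex.I)
          = (x (c + 1) - m * zpt a (c + 1)) - (x c - m * zpt a c) := by
        rw [zpt, zpt, Finset.sum_range_succ]
        ring
      rw [h3]
      calc _ ≤ ‖x (c + 1) - m * zpt a (c + 1)‖ + ‖x c - m * zpt a c‖ := norm_sub_le _ _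
        _ ≤ 1 + 1 := add_le_add h2 h1
        _ = 2 := by norm_num
    set N : ℝ := ‖((a c : ℂ) + Complex.I)‖ with hN
    have hN10 : (10 : ℝ) ≤ N := ChainDirAux.norm_Y_ge (a c) (ha c hck)
    have ha10 : (10 : ℝ) ≤ (a c : ℝ) := by exact_mod_cast ha c hck
    have hr : (0 : ℝ) < a c / N := by positivity
    have hs : (0 : ℝ) < 1 / N := by positivity
    have hs10 : 1 / N ≤ 1 / 10 := by
      apply one_div_le_one_div_of_le (by norm_num) hN10
    obtain ⟨δ, hδ0, hδr, hδs, hδ10, hδd⟩ : ∃ δ : ℝ, 0 < δ ∧ δ < a c / N ∧ δ ≤ 1 / N ∧ δ ≤ 1 / 10 ∧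
        (c + 1 < k → 2 * δ < 1 / ‖((a (c + 1) : ℂ) + Complex.I)‖ - 1 / N) := by
      by_cases hc1 : c + 1 < k
      · have h1 : ‖((a (c + 1) : ℂ) + Complex.I)‖ < N :=
          ChainDirAux.norm_Y_lt _ _ (ha _ hc1) (hdec c hc1)
        have h2 : (10 : ℝ) ≤ ‖((a (c + 1) : ℂ) + Complex.I)‖ :=
          ChainDirAux.norm_Y_ge _ (ha _ hc1)
        have h3 : 0 < 1 / ‖((a (c + 1) : ℂ) + Complex.I)‖ - 1 / N := by
          rw [sub_pos]
          exact one_div_lt_one_div_of_lt (by linarith) h1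
        refine ⟨min (min (a c / N / 2) (1 / N)) (min (1 / 10)
          ((1 / ‖((a (c + 1) : ℂ) + Complex.I)‖ - 1 / N) / 3)), ?_, ?_, ?_, ?_, ?_⟩
        · positivity
        · exact lt_of_le_of_lt ((min_le_left _ _).trans (min_le_left _ _)) (half_lt_self hr)
        · exact (min_le_left _ _).trans (min_le_right _ _)
        · exact (min_le_right _ _).trans (min_le_left _ _)
        · intro _
          have := (min_le_right (min (a c / N / 2) (1 / N)) (min (1 / 10)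
            ((1 / ‖((a (c + 1) : ℂ) + Complex.I)‖ - 1 / N) / 3))).trans (min_le_right _ _)
          linarith
      · refine ⟨min (min (a c / N / 2) (1 / N)) (1 / 10), by positivity, ?_, ?_, ?_,
          fun h => absurd h hc1⟩
        · exact lt_of_le_of_lt ((min_le_left _ _).trans (min_le_left _ _)) (half_lt_self hr)
        · exact (min_le_left _ _).trans (min_le_right _ _)
        · exact min_le_right _ _
    have hm : ∀ᶠ m : ℕ in Filter.atTop, 0 < m ∧ 2 / (5 * (m : ℝ)) < δ := by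
      obtain ⟨n, hn⟩ := exists_nat_gt (2 / (5 * δ))
      filter_upwards [Filter.eventually_ge_atTop (n + 1)] with m hm
      have h1 : ((n : ℝ) + 1) ≤ m := by exact_mod_cast hm
      have h2 : (0 : ℝ) ≤ n := Nat.cast_nonneg n
      have h3 : (0 : ℝ) < m := by linarith
      refine ⟨by exact_mod_cast h3, ?_⟩
      rw [div_lt_iff₀ (by positivity)]
      rw [div_lt_iff₀ (by positivity)] at hn
      have h4 : (n : ℝ) * (5 * δ) < m * (5 * δ) :=
        mul_lt_mul_of_pos_right (by linarith) (by positivity)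
      linarith
    filter_upwards [hm] with m hm x hx
    obtain ⟨hm0, hmδ⟩ := hm
    obtain ⟨hw0, hre, him⟩ := ChainDirAux.dir_close (a c) (ha c hck) m hm0 (x (c + 1) - x c)
      (hstep c hck m hm0 x hx)
    rw [← hN] at hre him
    have hre' := abs_le.mp hre
    have him' := abs_le.mp him
    refine ⟨sub_ne_zero.mp hw0, ?_, ?_, ?_, ?_⟩
    · show 0 < ((x (c + 1) - x c) / (‖x (c + 1) - x c‖ : ℂ)).re
      linarith [hre'.1]
    · show 0 ≤ ((x (c + 1) - x c) / (‖x (c + 1) - x c‖ : ℂ)).im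
      linarith [him'.1]
    · show ((x (c + 1) - x c) / (‖x (c + 1) - x c‖ : ℂ)).im ≤ 1 / 2
      linarith [him'.2]
    · intro hc1
      obtain ⟨_, _, him2⟩ := ChainDirAux.dir_close (a (c + 1)) (ha _ hc1) m hm0
        (x (c + 1 + 1) - x (c + 1)) (hstep (c + 1) hc1 m hm0 x hx)
      have him2' := abs_le.mp him2
      have := hδd hc1
      show ((x (c + 1) - x c) / (‖x (c + 1) - x c‖ : ℂ)).im
        < ((x (c + 1 + 1) - x (c + 1)) / (‖x (c + 1 + 1) - x (c + 1)‖ : ℂ)).im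
      linarith [him'.2, him2'.1]
  have hall := (Filter.eventually_all_finset (Finset.range k)).mpr key
  obtain ⟨m1, hm1⟩ := Filter.eventually_atTop.mp hall
  refine ⟨m1 + 1, Nat.succ_pos _, fun m hm x hx c hc => ?_⟩
  exact hm1 m (by omega) c (Finset.mem_range.mpr hc) x hx

end Pool.Agent.Lib.P7ee
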