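import Pool.Agent.Lib.P7ee.UDefs

/-!
# P7ee.CompCount: the number of components  (1.5 h)

Let `H` be the graph on the set of connected components of `dgr G B` with `c ~ c'` iff `c ≠ c'` and there are darts `x ∈ c`, `x' ∈ c'` with `x.fst = x'.fst` (then `¬ B x.fst`, and `x.fst` has exactly the two neighbours `x.snd`, `x'.snd` by `hdeg`). If there is a component at all, `H` is connected: two darts `x`, `x'` of `G` are joined by a walk of `G`
from `x.snd` to `x'.fst`; consecutive darts `(a,b)`, `(b,c)` of it: `(a,b)` and `(b,a)` are in the same component, `(b,a)` and `(b,c)` start at the same vertex. `SimpleGraph.Connected.card_vert_le_card_edgeSet_add_one` (with `Nat.card`): the number of components is at most `1 +` the number of edges of `H`, and every edge of `H` is determined by a vertex `v` with `¬ B v` and exactly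
two neighbours (the two components of its darts): an injection (choice) of the edge set into this set of vertices.
-/

set_option autoImplicit false

open Set Metric

namespace Pool.Agent.Lib.P7ee

namespace CompCountAux

variable {V : Type} {G : SimpleGraph V} {B : V → Prop}

theorem comp_symm (x : G.Dart) :
    (dgr G B).connectedComponentMk x.symm = (dgr G B).connectedComponentMk x := by
  apply SimpleGraph.ConnectedComponent.sound
  apply SimpleGraph.Adj.reachable
  rw [dgr, SimpleGraph.fromRel_adj]
  refine ⟨fun h => ?_, Or.inr (Or.inl rfl)⟩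
  exact SimpleGraph.Dart.symm_ne x h

theorem comp_fst {x x' : G.Dart} (h : x.fst = x'.fst) (hB : B x.fst) :
    (dgr G B).connectedComponentMk x = (dgr G B).connectedComponentMk x' := by
  by_cases hx : x = x'
  · rw [hx]
  · apply SimpleGraph.ConnectedComponent.sound
    apply SimpleGraph.Adj.reachable
    rw [dgr, SimpleGraph.fromRel_adj]
    exact ⟨hx, Or.inl (Or.inr ⟨h, hB⟩)⟩

/-- the graph of the components -/
def cgr (G : SimpleGraph V) (B : V → Prop) : SimpleGraph (dgr G B).ConnectedComponent :=
  SimpleGraph.fromRel fun c c' => ∃ x x' : G.Dart, (dgr G B).connectedComponentMk x = c ∧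
    (dgr G B).connectedComponentMk x' = c' ∧ x.fst = x'.fst

theorem reach_fst {x x' : G.Dart} (h : x.fst = x'.fst) :
    (cgr G B).Reachable ((dgr G B).connectedComponentMk x)
      ((dgr G B).connectedComponentMk x') := by
  by_cases hx : (dgr G B).connectedComponentMk x = (dgr G B).connectedComponentMk x'
  · rw [hx]
  · apply SimpleGraph.Adj.reachable
    rw [cgr, SimpleGraph.fromRel_adj]
    exact ⟨hx, Or.inl ⟨x, x', rfl, rfl, h⟩⟩

theorem reach_walk {u v : V} (p : G.Walk u v) : ∀ x x' : G.Dart, x.fst = u → x'.fst = v →
    (cgr G B).Reachable ((dgr G B).connectedComponentMk x)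
      ((dgr G B).connectedComponentMk x') := by
  induction p with
  | nil =>
    intro x x' hx hx'
    exact reach_fst (hx.trans hx'.symm)
  | @cons u w v h p ih =>
    intro x x' hx hx'
    let d : G.Dart := ⟨(u, w), h⟩
    have h1 : (cgr G B).Reachable ((dgr G B).connectedComponentMk x)
      ((dgr G B).connectedComponentMk d) := reach_fst hx
    have h2 := ih d.symm x' rfl hx'
    rw [comp_symm] at h2
    exact h1.trans h2

theorem dart_eq {x x' : G.Dart} (h : x.fst = x'.fst) (h2 : x.snd = x'.snd) : x = x' := by
  apply SimpleGraph.Dart.ext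
  exact Prod.ext h h2

end CompCountAux

open CompCountAux in
theorem comp_card_le {V : Type} [Fintype V] {G : SimpleGraph V} (hG : G.Connected) (B : V → Prop)
    (hdeg : ∀ v, ¬ B v → ∀ a b c, G.Adj v a → G.Adj v b → G.Adj v c → a = b ∨ a = c ∨ b = c) :
    Nat.card (dgr G B).ConnectedComponent ≤ 1 + Nat.card {v : V // ¬ B v ∧ Two G v} := by
  classical
  have hfin : Finite G.Dart := Finite.of_injective (fun x : G.Dart => x.toProd)
    (fun x x' h => SimpleGraph.Dart.ext _ _ h)
  have hfinC : Finite (dgr G B).ConnectedComponent :=
    Finite.of_surjective (dgr G B).connectedComponentMk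
      (fun c => c.ind fun x => ⟨x, rfl⟩)
  by_cases hemp : IsEmpty (dgr G B).ConnectedComponent
  · rw [Nat.card_eq_zero.mpr (Or.inl hemp)]
    exact Nat.zero_le _
  · rw [not_isEmpty_iff] at hemp
    have hconn : (cgr G B).Connected := by
      have := hemp
      refine ⟨fun c c' => ?_⟩
      induction c using SimpleGraph.ConnectedComponent.ind with
      | h x =>
        induction c' using SimpleGraph.ConnectedComponent.ind with
        | h x' =>
          obtain ⟨p⟩ := hG.preconnected x.fst x'.fst
          exact reach_walk p x x' rfl rfl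
    have h1 := hconn.card_vert_le_card_edgeSet_add_one
    have key : ∀ e : (cgr G B).edgeSet, ∃ v : V, ∃ x x' : G.Dart, x.fst = v ∧ x'.fst = v ∧
        x.snd ≠ x'.snd ∧ ¬ B v ∧ Two G v ∧
        e.1 = s((dgr G B).connectedComponentMk x, (dgr G B).connectedComponentMk x') := by
      rintro ⟨e, he⟩
      induction e using Sym2.ind with
      | h c c' =>
        rw [SimpleGraph.mem_edgeSet, cgr, SimpleGraph.fromRel_adj] at he
        obtain ⟨hne, hor⟩ := he
        have main : ∀ x x' : G.Dart, x.fst = x'.fst →
            (dgr G B).connectedComponentMk x ≠ (dgr G B).connectedComponentMk x' →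
            x.snd ≠ x'.snd ∧ ¬ B x.fst ∧ Two G x.fst := by
          intro x x' hf hcc
          have hs : x.snd ≠ x'.snd := fun hs => hcc (by rw [dart_eq hf hs])
          have hB : ¬ B x.fst := fun hB => hcc (comp_fst hf hB)
          refine ⟨hs, hB, x.snd, x'.snd, hs, fun b => ⟨fun hb => ?_, ?_⟩⟩
          · rcases hdeg x.fst hB x.snd x'.snd b x.adj (hf ▸ x'.adj) hb with h | h | h
            · exact absurd h hs
            · exact Or.inl h.symm
            · exact Or.inr h.symm
          · rintro (rfl | rfl)
            · exact x.adj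
            · rw [hf]
              exact x'.adj
        rcases hor with ⟨x, x', rfl, rfl, hf⟩ | ⟨x', x, rfl, rfl, hf⟩
        · obtain ⟨h1, h2, h3⟩ := main x x' hf hne
          exact ⟨x.fst, x, x', rfl, hf.symm, h1, h2, h3, rfl⟩
        · obtain ⟨h1, h2, h3⟩ := main x x' hf.symm hne
          exact ⟨x.fst, x, x', rfl, hf, h1, h2, h3, rfl⟩
    choose f x x' hx hx' hs hB hT he using key
    have hinj : Function.Injective
        (fun e : (cgr G B).edgeSet => (⟨f e, hB e, hT e⟩ : {v : V // ¬ B v ∧ Two G v})) := by
      intro e1 e2 h12
      have hf : f e1 = f e2 := congrArg Subtype.val h12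
      have a1 : G.Adj (f e1) (x e1).snd := by
        have := (x e1).adj
        rwa [hx e1] at this
      have a2 : G.Adj (f e1) (x' e1).snd := by
        have := (x' e1).adj
        rwa [hx' e1] at this
      have a3 : G.Adj (f e1) (x e2).snd := by
        have := (x e2).adj
        rwa [hx e2, ← hf] at this
      have a4 : G.Adj (f e1) (x' e2).snd := by
        have := (x' e2).adj
        rwa [hx' e2, ← hf] at this
      apply Subtype.ext
      rw [he e1, he e2]
      rcases hdeg _ (hB e1) _ _ _ a1 a2 a3 with h | h | h
      · exact absurd h (hs e1)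
      · rcases hdeg _ (hB e1) _ _ _ a1 a2 a4 with h' | h' | h'
        · exact absurd h' (hs e1)
        · exact absurd (h.symm.trans h') (hs e2)
        · rw [dart_eq (by rw [hx e1, hx e2, hf]) h, dart_eq (by rw [hx' e1, hx' e2, hf]) h']
      · rcases hdeg _ (hB e1) _ _ _ a1 a2 a4 with h' | h' | h'
        · exact absurd h' (hs e1)
        · rw [← dart_eq (by rw [hx e1, hx' e2, hf]) h', ← dart_eq (by rw [hx' e1, hx e2, hf]) h]
          exact Sym2.eq_swap
        · exact absurd (h.symm.trans h') (hs e2)
    have h2 := Nat.card_le_card_of_injective _ hinj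
    omega

end Pool.Agent.Lib.P7ee
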