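import Pool.Agent.Lib.P7ee.MainRel

/-!
# P7ee.CountNZ: at most `2^(card σ - 1)` pairs of opposite nonsingular zeros  (1 h)

Choose `λ : σ → ℂ` with `∑ λ i (P i - P' i) ≠ 0` and `∑ λ i (P i + P' i) ≠ 0` for all `P ≠ P'` in `Z` (the vectors `P - P'`, `P + P'` are nonzero; a finite product of nonzero linear polynomials is a nonzero polynomial, `MvPolynomial.funext`/ `exists eval ne zero` over an infinite field). `Θ = (∑ C (λ i) X i)^2` is `EvenP` and takes different values
at different points of `Z` (difference of squares). `main_rel` with `A = K = ℂ`, `φ` the identity (`map_id`): a nonzero polynomial of degree `≤ 2^(card σ - 1)` has `card Z` different roots.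
-/

set_option autoImplicit false

open MvPolynomial

namespace Pool.Agent.Lib.P7ee

namespace CountNZAux

/-- the linear form with coefficient vector `v` -/
noncomputable def lin {σ : Type} [Fintype σ] (v : σ → ℂ) : MvPolynomial σ ℂ :=
  ∑ i, C (v i) * X i

theorem eval_lin {σ : Type} [Fintype σ] (v w : σ → ℂ) : eval w (lin v) = ∑ i, v i * w i := by
  simp [lin]

theorem lin_ne_zero {σ : Type} [Fintype σ] [DecidableEq σ] (v : σ → ℂ) (hv : v ≠ 0) :
    lin v ≠ 0 := by
  intro h
  apply hv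
  funext i
  have h1 := congrArg (eval (Pi.single i 1)) h
  rw [eval_lin, map_zero, Finset.sum_eq_single i] at h1
  · simpa using h1
  · intro j _ hj
    rw [Pi.single_eq_of_ne hj, mul_zero]
  · intro h2
    exact absurd (Finset.mem_univ i) h2

theorem exists_avoid {σ : Type} [Fintype σ] [DecidableEq σ] (V : Finset (σ → ℂ))
    (hV : ∀ v ∈ V, v ≠ 0) : ∃ w : σ → ℂ, ∀ v ∈ V, ∑ i, w i * v i ≠ 0 := by
  have hprod : (∏ v ∈ V, lin v) ≠ 0 := Finset.prod_ne_zero_iff.mpr fun v hv => lin_ne_zero v (hV v hv)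
  have : ∃ w : σ → ℂ, eval w (∏ v ∈ V, lin v) ≠ 0 := by
    by_contra hcon
    push Not at hcon
    apply hprod
    apply MvPolynomial.funext
    intro w
    rw [hcon w, map_zero]
  obtain ⟨w, hw⟩ := this
  rw [map_prod] at hw
  refine ⟨w, fun v hv => ?_⟩
  have h1 := (Finset.prod_ne_zero_iff.mp hw) v hv
  rw [eval_lin] at h1
  intro h2
  apply h1
  rw [← h2]
  exact Finset.sum_congr rfl fun i _ => mul_comm _ _

theorem lin_homog {σ : Type} [Fintype σ] (v : σ → ℂ) : (lin v).IsHomogeneous 1 := by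
  unfold lin
  apply IsHomogeneous.sum
  intro i _
  have := (isHomogeneous_C σ (v i)).mul (isHomogeneous_X ℂ i)
  simpa using this

theorem even_sq {σ : Type} [Fintype σ] (v : σ → ℂ) : EvenP ((lin v) ^ 2) := by
  intro s hs
  have h1 : ((lin v) ^ 2).IsHomogeneous 2 := by
    have := (lin_homog v).pow 2
    simpa using this
  rw [mem_support_iff] at hs
  have h2 := h1 hs
  have h3 : s.degree = 2 := by
    rw [← h2, Finsupp.degree_eq_weight_one]
    rfl
  rw [h3]
  exact even_two

end CountNZAux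

open CountNZAux in
theorem count_nzero {σ : Type} [Fintype σ] [DecidableEq σ] [Nonempty σ]
    (f : σ → MvPolynomial σ ℂ) (hf : ∀ i, IsQuad (f i)) (Z : Finset (σ → ℂ))
    (hZ : ∀ P ∈ Z, NZero f P) (hsep : ∀ P ∈ Z, ∀ P' ∈ Z, P ≠ P' → P ≠ -P') :
    Z.card ≤ 2 ^ (Fintype.card σ - 1) := by
  classical
  set V : Finset (σ → ℂ) :=
    ((Z ×ˢ Z).filter fun x => x.1 ≠ x.2).image (fun x => x.1 - x.2) ∪
    ((Z ×ˢ Z).filter fun x => x.1 ≠ x.2).image (fun x => x.1 + x.2) with hVdef
  have hV : ∀ v ∈ V, v ≠ 0 := by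
    intro v hv
    rw [hVdef, Finset.mem_union, Finset.mem_image, Finset.mem_image] at hv
    rcases hv with ⟨x, hx, rfl⟩ | ⟨x, hx, rfl⟩
    · rw [Finset.mem_filter] at hx
      exact sub_ne_zero.mpr hx.2
    · rw [Finset.mem_filter, Finset.mem_product] at hx
      intro h0
      exact hsep x.1 hx.1.1 x.2 hx.1.2 hx.2 (eq_neg_of_add_eq_zero_left h0)
  obtain ⟨w, hw⟩ := exists_avoid V hV
  obtain ⟨R, hR0, hRd, hR⟩ := main_rel f hf ((lin w) ^ 2) (even_sq w)
  have hroot : ∀ P ∈ Z, R.eval ((∑ i, w i * P i) ^ 2) = 0 := by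
    intro P hP
    have h1 := hR (RingHom.id ℂ) P (by
      have e : (fun i => map (RingHom.id ℂ) (f i)) = f := funext fun i => MvPolynomial.map_id (f i)
      rw [e]
      exact hZ P hP)
    have h2 : eval₂ (RingHom.id ℂ) P ((lin w) ^ 2) = (∑ i, w i * P i) ^ 2 := by
      have : eval₂ (RingHom.id ℂ) P ((lin w) ^ 2) = eval P ((lin w) ^ 2) := rfl
      rw [this, map_pow, eval_lin]
    rw [h2] at h1
    exact h1
  have hinj : Set.InjOn (fun P : σ → ℂ => (∑ i, w i * P i) ^ 2) (Z : Set (σ → ℂ)) := by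
    intro P hP P' hP' h
    by_contra hne
    have hP : P ∈ Z := hP
    have hP' : P' ∈ Z := hP'
    have hm : (P, P') ∈ (Z ×ˢ Z).filter fun x => x.1 ≠ x.2 := by
      rw [Finset.mem_filter, Finset.mem_product]
      exact ⟨⟨hP, hP'⟩, hne⟩
    have h1 := hw (P - P') (by
      rw [hVdef, Finset.mem_union]; left
      exact Finset.mem_image.mpr ⟨(P, P'), hm, rfl⟩)
    have h2 := hw (P + P') (by
      rw [hVdef, Finset.mem_union]; right
      exact Finset.mem_image.mpr ⟨(P, P'), hm, rfl⟩)
    have h3 : (∑ i, w i * (P - P') i) * (∑ i, w i * (P + P') i)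
        = (∑ i, w i * P i) ^ 2 - (∑ i, w i * P' i) ^ 2 := by
      have e1 : ∑ i, w i * (P - P') i = (∑ i, w i * P i) - ∑ i, w i * P' i := by
        rw [← Finset.sum_sub_distrib]
        exact Finset.sum_congr rfl fun i _ => by rw [Pi.sub_apply]; ring
      have e2 : ∑ i, w i * (P + P') i = (∑ i, w i * P i) + ∑ i, w i * P' i := by
        rw [← Finset.sum_add_distrib]
        exact Finset.sum_congr rfl fun i _ => by rw [Pi.add_apply]; ring
      rw [e1, e2]
      ring
    have h4 : (∑ i, w i * P i) ^ 2 - (∑ i, w i * P' i) ^ 2 = 0 := sub_eq_zero.mpr h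
    rw [h4] at h3
    rcases mul_eq_zero.mp h3 with h5 | h5
    · exact h1 h5
    · exact h2 h5
  calc Z.card = (Z.image fun P : σ → ℂ => (∑ i, w i * P i) ^ 2).card :=
        (Finset.card_image_of_injOn hinj).symm
    _ ≤ R.roots.toFinset.card := by
        apply Finset.card_le_card
        intro y hy
        obtain ⟨P, hP, rfl⟩ := Finset.mem_image.mp hy
        rw [Multiset.mem_toFinset, Polynomial.mem_roots hR0]
        exact hroot P hP
    _ ≤ Multiset.card R.roots := Multiset.toFinset_card_le _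
    _ ≤ R.natDegree := Polynomial.card_roots' R
    _ ≤ 2 ^ (Fintype.card σ - 1) := hRd

end Pool.Agent.Lib.P7ee
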