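import Pool.Agent.Lib.P7ee.PsysNZ
import Pool.Agent.Lib.P7ee.Zeros0
import Pool.Agent.Lib.P7ee.CountNZ
import Pool.Agent.Lib.P7ee.TQuad

/-!
# P7ee.Complete: all nonsingular zeros for small `ρ`  (1.2 h)

`I = {l // l 0 < 2}` has `2 * 4^(k-1) = 2^(2k-1)` elements (`card σ = 2k`). For `l ≠ l'` in `I`: `Pt (tl a l) ≠ ± Pt (tl a l')` (`tl_inj`, `tl_neg` at `c = 0`), so by continuity `X l ρ ≠ ± X l' ρ` for small `ρ` (finitely many pairs). For small `ρ` (also `|ρ| ≤ 1`) the points `X l ρ`, `l ∈ I`, are nonsingular complex zeros (`psys_nzero`) and pairwise neither equal nor opposite.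
If `P` is another nonsingular zero, `P ≠ ± X l ρ` for all `l ∈ I`, then `count_nzero` for these `2^(2k-1) + 1` points gives a contradiction. (`hsep` asks `P ≠ -P'` only for different points of the set.)
-/

set_option autoImplicit false

open Filter Topology

namespace Pool.Agent.Lib.P7ee

theorem complete_zeros {k : ℕ} (hk : 0 < k) (a : ℕ → ℤ) (ha : ∀ c < k, 10 ≤ a c)
    (X : (Fin k → Fin 4) → ℝ → (Fin k ⊕ Fin k → ℝ)) (hX0 : ∀ l, X l 0 = Pt (tl a l))
    (hXc : ∀ l i, ContinuousAt (fun ρ => X l ρ i) 0)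
    (hX : ∀ l, ∀ᶠ ρ in 𝓝 (0 : ℝ), ∀ i, MvPolynomial.eval (X l ρ) (psys k a ρ i) = 0) :
    ∀ᶠ (ρ : ℝ) in 𝓝 (0 : ℝ), ∀ P : Fin k ⊕ Fin k → ℂ, NZero (psys k a ((ρ : ℝ) : ℂ)) P →
      ∃ l : Fin k → Fin 4, (l ⟨0, hk⟩ : ℕ) < 2 ∧
        ((∀ i, P i = (X l ρ i : ℂ)) ∨ ∀ i, P i = -(X l ρ i : ℂ)) := by
  classical
  haveI : Nonempty (Fin k ⊕ Fin k) := ⟨Sum.inl ⟨0, hk⟩⟩
  set c0 : Fin k := ⟨0, hk⟩ with hc0
  set I : Finset (Fin k → Fin 4) := Fintype.piFinset
    (fun c => if c = c0 then ({0, 1} : Finset (Fin 4)) else Finset.univ) with hI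
  have hmem : ∀ l ∈ I, (l c0 : ℕ) < 2 := by
    intro l hl
    have h1 := Fintype.mem_piFinset.mp hl c0
    rw [if_pos rfl, Finset.mem_insert, Finset.mem_singleton] at h1
    rcases h1 with h1 | h1
    · rw [h1]; norm_num
    · rw [h1]; norm_num
  have hcard : I.card = 2 ^ (2 * k - 1) := by
    rw [hI, Fintype.card_piFinset, ← Finset.mul_prod_erase Finset.univ _ (Finset.mem_univ c0),
      if_pos rfl]
    have h1 : ∀ c ∈ Finset.univ.erase c0,
        (if c = c0 then ({0, 1} : Finset (Fin 4)) else Finset.univ).card = 4 := by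
      intro c hc
      rw [if_neg (Finset.ne_of_mem_erase hc), Finset.card_univ, Fintype.card_fin]
    rw [Finset.prod_congr rfl h1, Finset.prod_const, Finset.card_erase_of_mem (Finset.mem_univ _),
      Finset.card_univ, Fintype.card_fin]
    have h2 : ({0, 1} : Finset (Fin 4)).card = 2 := by decide
    rw [h2]
    have h3 : (4 : ℕ) = 2 ^ 2 := by norm_num
    rw [h3, ← pow_mul, ← pow_succ']
    congr 1
    omega
  have E1 : ∀ᶠ ρ in 𝓝 (0 : ℝ), |ρ| ≤ 1 := by
    have : ∀ᶠ ρ in 𝓝 (0 : ℝ), ρ ∈ Set.Icc (-1 : ℝ) 1 :=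
      Icc_mem_nhds (by norm_num) (by norm_num)
    filter_upwards [this] with ρ hρ
    exact abs_le.mpr hρ
  have E2 : ∀ᶠ ρ in 𝓝 (0 : ℝ), ∀ l, ∀ i,
      MvPolynomial.eval (X l ρ) (psys k a ρ i) = 0 := Filter.eventually_all.mpr hX
  have E3 : ∀ᶠ ρ in 𝓝 (0 : ℝ), ∀ l l', l ∈ I → l' ∈ I → l ≠ l' →
      (∃ i, X l ρ i ≠ X l' ρ i) ∧ ∃ i, X l ρ i ≠ -X l' ρ i := by
    refine Filter.eventually_all.mpr fun l => Filter.eventually_all.mpr fun l' => ?_
    by_cases h : l ∈ I ∧ l' ∈ I ∧ l ≠ l'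
    · obtain ⟨hl, hl', hne⟩ := h
      have h1 : Pt (tl a l) ≠ Pt (tl a l') := fun h => hne (tl_inj a h)
      have h2 : Pt (tl a l) ≠ -Pt (tl a l') := fun h => by
        have h3 := tl_neg a h c0
        exact (h3.mp (hmem l hl)) (hmem l' hl')
      obtain ⟨i, hi⟩ := Function.ne_iff.mp h1
      obtain ⟨j, hj⟩ := Function.ne_iff.mp h2
      have c1 : ContinuousAt (fun ρ => X l ρ i - X l' ρ i) 0 := (hXc l i).sub (hXc l' i)
      have c2 : ContinuousAt (fun ρ => X l ρ j + X l' ρ j) 0 := (hXc l j).add (hXc l' j)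
      have n1 : (fun ρ => X l ρ i - X l' ρ i) 0 ≠ 0 := by
        simp only [hX0]
        exact sub_ne_zero.mpr hi
      have n2 : (fun ρ => X l ρ j + X l' ρ j) 0 ≠ 0 := by
        simp only [hX0]
        intro h
        exact hj (eq_neg_of_add_eq_zero_left h)
      filter_upwards [c1.eventually_ne n1, c2.eventually_ne n2] with ρ e1 e2 _ _ _
      refine ⟨⟨i, fun h => e1 (sub_eq_zero.mpr h)⟩, ⟨j, fun h => e2 ?_⟩⟩
      rw [h]; ring
    · refine Filter.Eventually.of_forall fun ρ h1 h2 h3 => absurd ⟨h1, h2, h3⟩ h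
  filter_upwards [E1, E2, E3] with ρ e1 e2 e3 P hP
  by_contra hcon
  push Not at hcon
  set W : (Fin k → Fin 4) → (Fin k ⊕ Fin k → ℂ) := fun l i => (X l ρ i : ℂ) with hW
  have hWinj : Set.InjOn W (I : Set (Fin k → Fin 4)) := by
    intro l hl l' hl' h
    by_contra hne
    obtain ⟨⟨i, hi⟩, _⟩ := e3 l l' hl hl' hne
    have := congrFun h i
    simp only [hW] at this
    exact hi (by exact_mod_cast this)
  have hPW : ∀ l ∈ I, P ≠ W l ∧ P ≠ -W l := by
    intro l hl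
    obtain ⟨⟨i, hi⟩, ⟨j, hj⟩⟩ := hcon l (hmem l hl)
    refine ⟨fun h => hi (by rw [h]), fun h => hj (by rw [h]; rfl)⟩
  set Z : Finset (Fin k ⊕ Fin k → ℂ) := insert P (I.image W) with hZ
  have hPn : P ∉ I.image W := by
    intro h
    obtain ⟨l, hl, h1⟩ := Finset.mem_image.mp h
    exact (hPW l hl).1 h1.symm
  have hZc : Z.card = 2 ^ (2 * k - 1) + 1 := by
    rw [hZ, Finset.card_insert_of_notMem hPn, Finset.card_image_of_injOn hWinj, hcard]
  have hle := count_nzero (psys k a ((ρ : ℝ) : ℂ)) (fun i => tsys_quad _ _ _ _ i) Z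
    (by
      intro Q hQ
      rw [hZ, Finset.mem_insert, Finset.mem_image] at hQ
      rcases hQ with rfl | ⟨l, hl, rfl⟩
      · exact hP
      · exact (psys_nzero a ha e1 (X l ρ) (e2 l)).2)
    (by
      intro Q hQ Q' hQ' hne
      rw [hZ, Finset.mem_insert, Finset.mem_image] at hQ hQ'
      rcases hQ with rfl | ⟨l, hl, rfl⟩
      · rcases hQ' with rfl | ⟨l', hl', rfl⟩
        · exact absurd rfl hne
        · exact (hPW l' hl').2
      · rcases hQ' with rfl | ⟨l', hl', rfl⟩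
        · intro h
          exact (hPW l hl).2 (by rw [h, neg_neg])
        · intro h
          have hll : l ≠ l' := fun h1 => hne (by rw [h1])
          obtain ⟨_, ⟨j, hj⟩⟩ := e3 l l' hl hl' hll
          have h1 := congrFun h j
          simp only [hW, Pi.neg_apply] at h1
          exact hj (by exact_mod_cast h1))
  have hcσ : Fintype.card (Fin k ⊕ Fin k) = 2 * k := by
    rw [Fintype.card_sum, Fintype.card_fin]; ring
  rw [hZc, hcσ] at hle
  omega

end Pool.Agent.Lib.P7ee
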