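import Pool.Agent.Lib.P7ee.MainRel

/-!
# P7ee.ConjZero: conjugates of values at nonsingular zeros  (1.5 h)

Each `P i` is algebraic over `ℚ`: `main_rel` with `A = ℚ`, `Θ = X i ^ 2` shows that `P i ^ 2` is a root of a nonzero rational polynomial. `L = IntermediateField.adjoin ℚ (range P)` is a number field, `θ = eval₂ .. P Θ ∈ L`, `minpoly ℚ θ` is the minimal polynomial in `L` too; a root `ζ ∈ ℂ` of it gives an embedding `ψ : L → ℂ` with `ψ θ = ζ`
(`ℂ` algebraically closed; `IntermediateField.exists_algHom_of_splits'`, `Algebra.IsAlgebraic`, `AlgHom` extension from `ℚ⟮θ⟯`). `P' = ψ ∘ P`: a zero, `eval₂ .. P' Θ = ψ θ = ζ`. Nonsingular: `NZero` says that the determinant of the Jacobian matrix is nonzero (a square matrix with trivial kernel); the determinant at `P'` is the image under `ψ` of the one at `P` (entries in `L`).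
-/

set_option autoImplicit false



namespace Pool.Agent.Lib.P7ee

namespace ConjZeroAux

open MvPolynomial in
theorem evenP_sq {σ : Type} [DecidableEq σ] (i : σ) :
    EvenP ((X i : MvPolynomial σ ℚ) ^ 2) := by
  intro s hs
  rw [MvPolynomial.X_pow_eq_monomial] at hs
  have h1 := MvPolynomial.support_monomial_subset hs
  rw [Finset.mem_singleton] at h1
  subst h1
  rw [Finsupp.degree_single]
  exact even_two

end ConjZeroAux

open ConjZeroAux in
theorem conj_zero {σ : Type} [Fintype σ] [DecidableEq σ] [Nonempty σ] (f : σ → MvPolynomial σ ℚ)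
    (hf : ∀ i, IsQuad (f i)) (Θ : MvPolynomial σ ℚ) (P : σ → ℂ)
    (hP : NZero (fun i => MvPolynomial.map (algebraMap ℚ ℂ) (f i)) P) (ζ : ℂ)
    (hζ : Polynomial.aeval ζ
      (minpoly ℚ (MvPolynomial.eval₂ (algebraMap ℚ ℂ) P Θ)) = 0) :
    ∃ P' : σ → ℂ, NZero (fun i => MvPolynomial.map (algebraMap ℚ ℂ) (f i)) P' ∧
      ζ = MvPolynomial.eval₂ (algebraMap ℚ ℂ) P' Θ := by
  classical
  let K : IntermediateField ℚ ℂ := algebraicClosure ℚ ℂ
  have hmem : ∀ z : ℂ, IsAlgebraic ℚ z → z ∈ K := fun z hz => by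
    rw [mem_algebraicClosure_iff]
    exact hz
  -- the coordinates are algebraic
  have halg : ∀ i, IsAlgebraic ℚ (P i) := by
    intro i
    obtain ⟨R, hR0, -, hR⟩ := main_rel f hf (MvPolynomial.X i ^ 2) (evenP_sq i)
    have h1 := hR (algebraMap ℚ ℂ) P hP
    have h2 : MvPolynomial.eval₂ (algebraMap ℚ ℂ) P (MvPolynomial.X i ^ 2) = P i ^ 2 := by
      rw [MvPolynomial.eval₂_pow, MvPolynomial.eval₂_X]
    rw [h2] at h1
    have h3 : IsAlgebraic ℚ (P i ^ 2) := ⟨R, hR0, h1⟩
    exact IsAlgebraic.of_pow (by norm_num) h3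
  let PK : σ → K := fun i => ⟨P i, hmem _ (halg i)⟩
  have hPK : ∀ i, (PK i : ℂ) = P i := fun i => rfl
  -- values of rational polynomials
  have hval : ∀ (Q : σ → K) (g : MvPolynomial σ ℚ),
      MvPolynomial.eval₂ (algebraMap ℚ ℂ) (fun i => (Q i : ℂ)) g =
        ((MvPolynomial.aeval Q g : K) : ℂ) := by
    intro Q g
    have h1 := MvPolynomial.aeval_algebraMap_apply (A := K) (B := ℂ) Q g
    rw [MvPolynomial.aeval_def] at h1
    exact h1
  let θK : K := MvPolynomial.aeval PK Θ
  have hθ : MvPolynomial.eval₂ (algebraMap ℚ ℂ) P Θ = (θK : ℂ) := hval PK Θ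
  have hθalg : IsAlgebraic ℚ ((θK : K) : ℂ) := by
    have := θK.2
    rwa [mem_algebraicClosure_iff] at this
  have hζalg : IsAlgebraic ℚ ζ := by
    refine ⟨_, ?_, hζ⟩
    rw [hθ]
    exact minpoly.ne_zero hθalg.isIntegral
  let ζK : K := ⟨ζ, hmem _ hζalg⟩
  have hconj : IsConjRoot ℚ θK ζK := by
    have h1 : minpoly ℚ θK = minpoly ℚ ((θK : K) : ℂ) :=
      (minpoly.algebraMap_eq (algebraMap K ℂ).injective θK).symm
    have h2 : minpoly ℚ ζK = minpoly ℚ ζ :=
      (minpoly.algebraMap_eq (algebraMap K ℂ).injective ζK).symm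
    show minpoly ℚ θK = minpoly ℚ ζK
    rw [h1, h2]
    rw [hθ] at hζ
    exact minpoly.eq_of_irreducible_of_monic (minpoly.irreducible hθalg.isIntegral) hζ
      (minpoly.monic hθalg.isIntegral)
  have : IsAlgClosure ℚ K := algebraicClosure.isAlgClosure ℚ ℂ
  have : Normal ℚ K := IsAlgClosure.normal ℚ K
  obtain ⟨ψ, hψ⟩ := (isConjRoot_iff_exists_algEquiv.1 hconj.symm)
  have hψval : ∀ g : MvPolynomial σ ℚ,
      MvPolynomial.aeval (fun i => ψ (PK i)) g = ψ (MvPolynomial.aeval PK g) := by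
    intro g
    exact (MvPolynomial.comp_aeval_apply PK (ψ : K →ₐ[ℚ] K) g).symm
  refine ⟨fun i => ((ψ (PK i) : K) : ℂ), ⟨?_, ?_⟩, ?_⟩
  · intro i
    have h1 := hP.1 i
    rw [MvPolynomial.eval_map] at h1 ⊢
    have h2 : MvPolynomial.eval₂ (algebraMap ℚ ℂ) P (f i) =
        ((MvPolynomial.aeval PK (f i) : K) : ℂ) := hval PK (f i)
    rw [h2] at h1
    have h3 : (MvPolynomial.aeval PK (f i) : K) = 0 := by
      exact_mod_cast h1
    rw [hval (fun i => ψ (PK i)) (f i), hψval, h3]
    simp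
  · -- nonsingularity
    let JK : Matrix σ σ K := Matrix.of fun i j =>
      MvPolynomial.aeval PK (MvPolynomial.pderiv j (f i))
    have hJ : ∀ i j, MvPolynomial.eval P (MvPolynomial.pderiv j
        (MvPolynomial.map (algebraMap ℚ ℂ) (f i))) = ((JK i j : K) : ℂ) := by
      intro i j
      rw [MvPolynomial.pderiv_map, MvPolynomial.eval_map]
      exact hval PK _
    have hJ' : ∀ i j, MvPolynomial.eval (fun i => ((ψ (PK i) : K) : ℂ))
        (MvPolynomial.pderiv j (MvPolynomial.map (algebraMap ℚ ℂ) (f i))) =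
        ((ψ (JK i j) : K) : ℂ) := by
      intro i j
      rw [MvPolynomial.pderiv_map, MvPolynomial.eval_map, hval (fun i => ψ (PK i)), hψval]
      rfl
    have hdet : JK.det ≠ 0 := by
      intro h0
      have h1 : (JK.map (algebraMap K ℂ)).det = 0 := by
        rw [← RingHom.mapMatrix_apply, ← RingHom.map_det, h0, map_zero]
      obtain ⟨v, hv0, hv⟩ := Matrix.exists_mulVec_eq_zero_iff.2 h1
      apply hv0
      apply hP.2
      intro i
      have h2 := congrFun hv i
      refine Eq.trans ?_ h2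
      simp only [Matrix.mulVec, dotProduct, Matrix.map_apply]
      refine Finset.sum_congr rfl fun j _ => ?_
      rw [hJ i j]
      rfl
    have hdet' : ((JK.map (ψ : K →+* K)).map (algebraMap K ℂ)).det ≠ 0 := by
      rw [← RingHom.mapMatrix_apply, ← RingHom.mapMatrix_apply, ← RingHom.map_det,
        ← RingHom.map_det]
      intro h0
      apply hdet
      have h1 : ((ψ : K →+* K) JK.det) = 0 := (algebraMap K ℂ).injective (by rw [h0, map_zero])
      exact (ψ : K →+* K).injective (by rw [h1, map_zero])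
    intro z hz
    by_contra hne
    apply hdet'
    apply Matrix.exists_mulVec_eq_zero_iff.1
    refine ⟨z, hne, ?_⟩
    funext i
    have h2 := hz i
    show _ = (0 : ℂ)
    rw [← h2]
    simp only [Matrix.mulVec, dotProduct, Matrix.map_apply]
    refine Finset.sum_congr rfl fun j _ => ?_
    rw [hJ' i j]
    rfl
  · have h1 : ζ = ((ζK : K) : ℂ) := rfl
    have h2 : MvPolynomial.eval₂ (algebraMap ℚ ℂ) (fun i => ((ψ (PK i) : K) : ℂ)) Θ =
        ((ψ θK : K) : ℂ) := by
      rw [hval (fun i => ψ (PK i)), hψval]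
    rw [h1, h2, hψ]

end Pool.Agent.Lib.P7ee
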