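import Pool.Agent.Lib.P7ee.LenBasic

/-!
# P7ee.Contract: contraction of an edge of length zero  (1.5 h)

`V' = {v // v ≠ b}`, `f v = v` for `v ≠ b`, `f b = a`, `P'` the restriction of `P`; `G'` has `x ~ y` iff `x ≠ y` and there are `u`, `v` with `f u = x`, `f v = y`, `G.Adj u v`. Connected: `f` is surjective and maps adjacent vertices to equal or adjacent ones
(induction on walks). Length: in the double sum for `G'` bound the term of `(x, y)` by the sum of the terms of all `(u, v)` in the fibre (`P (b) = P (a)`, so the distance is the same for all of them), and sum over the fibres (`Finset.sum_fiberwise` or `Fintype.sum_sigma`).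
-/

set_option autoImplicit false

open MeasureTheory Set Metric Filter Topology

namespace Pool.Agent.Lib.P7ee

private theorem reach_map {V V' : Type} {G : SimpleGraph V} {G' : SimpleGraph V'} {f : V → V'}
    (hf : ∀ u v, G.Adj u v → f u = f v ∨ G'.Adj (f u) (f v)) {u v : V} (p : G.Walk u v) :
    G'.Reachable (f u) (f v) := by
  induction p with
  | nil => exact SimpleGraph.Reachable.refl _
  | cons h _ ih =>
    rcases hf _ _ h with h1 | h1
    · rw [h1]; exact ih
    · exact h1.reachable.trans ih

theorem contract {V : Type} [Fintype V] {G : SimpleGraph V} (hG : G.Connected) {P : V → ℂ}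
    {a b : V} (hab : G.Adj a b) (hP : P a = P b) :
    ∃ (V' : Type) (_ : Fintype V') (G' : SimpleGraph V') (P' : V' → ℂ) (f : V → V'),
      G'.Connected ∧ (∀ v, P' (f v) = P v) ∧ len G' P' ≤ len G P ∧
      Fintype.card V' < Fintype.card V := by
  classical
  let V' := {v : V // v ≠ b}
  let f : V → V' := fun v => if h : v = b then ⟨a, hab.ne⟩ else ⟨v, h⟩
  have hf1 : ∀ x : V', f x.1 = x := fun x => by
    simp only [f, dif_neg x.2]
    rfl
  let G' : SimpleGraph V' :=
    { Adj := fun x y => x ≠ y ∧ ∃ u v, f u = x ∧ f v = y ∧ G.Adj u v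
      symm := ⟨fun x y h => ⟨h.1.symm, by
        obtain ⟨_, u, v, hu, hv, h2⟩ := h
        exact ⟨v, u, hv, hu, h2.symm⟩⟩⟩
      loopless := ⟨fun x h => h.1 rfl⟩ }
  let P' : V' → ℂ := fun x => P x.1
  have hPf : ∀ v, P' (f v) = P v := by
    intro v
    by_cases h : v = b
    · simp only [P', f, dif_pos h]
      rw [h]; exact hP
    · simp only [P', f, dif_neg h]
  have hadj : ∀ u v, G.Adj u v → f u = f v ∨ G'.Adj (f u) (f v) := by
    intro u v h
    by_cases h1 : f u = f v
    · exact Or.inl h1
    · exact Or.inr ⟨h1, u, v, rfl, rfl, h⟩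
  refine ⟨V', inferInstance, G', P', f, ?_, hPf, ?_, Fintype.card_subtype_lt (x := b) (by simp)⟩
  · have : Nonempty V' := ⟨⟨a, hab.ne⟩⟩
    refine ⟨fun x y => ?_⟩
    obtain ⟨p⟩ := hG.preconnected x.1 y.1
    have h := reach_map hadj p
    rwa [hf1, hf1] at h
  · set t : V → V → ℝ := fun u v => if G.Adj u v then dist (P u) (P v) else 0 with ht
    have ht0 : ∀ u v, 0 ≤ t u v := fun u v => by
      simp only [ht]; split_ifs
      · exact dist_nonneg
      · exact le_rfl
    have h1 : ∑ u, ∑ v, t u v = ∑ x : V', ∑ y : V', ∑ u with f u = x, ∑ v with f v = y, t u v := by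
      have e1 : ∀ u, ∑ v, t u v = ∑ y : V', ∑ v with f v = y, t u v := fun u =>
        (Finset.sum_fiberwise (Finset.univ) f fun v => t u v).symm
      have e2 : ∑ u, ∑ v, t u v = ∑ x : V', ∑ u with f u = x, ∑ v, t u v :=
        (Finset.sum_fiberwise (Finset.univ) f fun u => ∑ v, t u v).symm
      rw [e2]
      refine Finset.sum_congr rfl fun x _ => ?_
      refine (Finset.sum_congr rfl fun u _ => e1 u).trans ?_
      exact Finset.sum_comm
    have h2 : ∀ x y : V', (if G'.Adj x y then dist (P' x) (P' y) else 0) ≤
        ∑ u with f u = x, ∑ v with f v = y, t u v := by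
      intro x y
      split_ifs with h
      · obtain ⟨_, u, v, hu, hv, h3⟩ := h
        have e1 : dist (P' x) (P' y) = t u v := by
          simp only [ht, if_pos h3]
          rw [← hu, ← hv, hPf, hPf]
        rw [e1]
        refine le_trans ?_ (Finset.single_le_sum (f := fun u => ∑ v with f v = y, t u v)
          (fun i _ => Finset.sum_nonneg fun j _ => ht0 i j)
          (Finset.mem_filter.2 ⟨Finset.mem_univ u, hu⟩))
        exact Finset.single_le_sum (f := fun v => t u v) (fun j _ => ht0 u j)
          (Finset.mem_filter.2 ⟨Finset.mem_univ v, hv⟩)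
      · exact Finset.sum_nonneg fun i _ => Finset.sum_nonneg fun j _ => ht0 i j
    unfold len
    refine mul_le_mul_of_nonneg_left ?_ (by norm_num)
    have h3 : ∑ u, ∑ v, (if G.Adj u v then dist (P u) (P v) else 0) = ∑ u, ∑ v, t u v := rfl
    calc _ ≤ ∑ x : V', ∑ y : V', ∑ u with f u = x, ∑ v with f v = y, t u v := by
            refine Finset.sum_le_sum fun x _ => Finset.sum_le_sum fun y _ => ?_
            have h4 := h2 x y
            by_cases h5 : G'.Adj x y
            · rw [if_pos h5] at h4 ⊢
              exact h4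
            · rw [if_neg h5] at h4 ⊢
              exact h4
        _ = _ := h1.symm

end Pool.Agent.Lib.P7ee
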