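import Pool.Agent.Lib.P7ee.Angle

/-!
# P7ee.DegThree: degrees in an optimal network  (1 h)

`‖dir‖ = 1`. `no_four`: for four distinct neighbours the norm squared of the sum of the four unit vectors is `4 + 2 ∑ ip ≤ 4 - 6 < 0` (`angle_le`). `three`: for three distinct neighbours, `‖d1 + d2 + d3‖² = 3 + 2 ∑ ip ≤ 0`, so the sum is `0`; by `no_four` there are no other neighbours, so `svec` is this sum.
-/

set_option autoImplicit false

open MeasureTheory Set Metric Filter Topology

namespace Pool.Agent.Lib.P7ee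

theorem norm_dir {V : Type} {P : V → ℂ} {a b : V} (h : P a ≠ P b) : ‖dir P a b‖ = 1 := by
  have h1 : ‖P b - P a‖ ≠ 0 := by
    rw [norm_ne_zero_iff]
    exact sub_ne_zero.2 (Ne.symm h)
  unfold dir
  rw [norm_div, Complex.norm_real, norm_norm, div_self h1]

namespace DegThreeAux

theorem sq_dir {V : Type} {P : V → ℂ} {a b : V} (h : P a ≠ P b) :
    (dir P a b).re * (dir P a b).re + (dir P a b).im * (dir P a b).im = 1 := by
  have h1 := norm_dir h
  have h2 : Complex.normSq (dir P a b) = 1 := by
    rw [Complex.normSq_eq_norm_sq, h1]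
    norm_num
  rw [Complex.normSq_apply] at h2
  exact h2

end DegThreeAux

theorem no_four {n : ℕ} {y : Fin n → ℂ} {r : ℝ} {V : Type} [Fintype V]
    {G : SimpleGraph V} {P : V → ℂ} {τ : Fin n → V} (h : IsOpt y r G P τ)
    (hne : ∀ a b, G.Adj a b → P a ≠ P b) (v a b c e : V) (ha : G.Adj v a) (hb : G.Adj v b)
    (hc : G.Adj v c) (he : G.Adj v e) :
    a = b ∨ a = c ∨ a = e ∨ b = c ∨ b = e ∨ c = e := by
  by_contra hcon
  push Not at hcon
  obtain ⟨hab, hac, hae, hbc, hbe, hce⟩ := hcon
  have n1 := hne _ _ ha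
  have n2 := hne _ _ hb
  have n3 := hne _ _ hc
  have n4 := hne _ _ he
  have i1 := angle_le h ha hb hab n1 n2
  have i2 := angle_le h ha hc hac n1 n3
  have i3 := angle_le h ha he hae n1 n4
  have i4 := angle_le h hb hc hbc n2 n3
  have i5 := angle_le h hb he hbe n2 n4
  have i6 := angle_le h hc he hce n3 n4
  have s1 := DegThreeAux.sq_dir n1
  have s2 := DegThreeAux.sq_dir n2
  have s3 := DegThreeAux.sq_dir n3
  have s4 := DegThreeAux.sq_dir n4
  unfold ip at i1 i2 i3 i4 i5 i6
  nlinarith [sq_nonneg ((dir P v a).re + (dir P v b).re + (dir P v c).re + (dir P v e).re),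
    sq_nonneg ((dir P v a).im + (dir P v b).im + (dir P v c).im + (dir P v e).im)]

theorem three {n : ℕ} {y : Fin n → ℂ} {r : ℝ} {V : Type} [Fintype V]
    {G : SimpleGraph V} {P : V → ℂ} {τ : Fin n → V} (h : IsOpt y r G P τ)
    (hne : ∀ a b, G.Adj a b → P a ≠ P b) {v a b c : V} (ha : G.Adj v a) (hb : G.Adj v b)
    (hc : G.Adj v c) (hab : a ≠ b) (hac : a ≠ c) (hbc : b ≠ c) :
    svec G P v = 0 ∧ (∀ e, G.Adj v e → e = a ∨ e = b ∨ e = c) ∧
      dir P v a + dir P v b + dir P v c = 0 := by
  classical
  have n1 := hne _ _ ha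
  have n2 := hne _ _ hb
  have n3 := hne _ _ hc
  have i1 := angle_le h ha hb hab n1 n2
  have i2 := angle_le h ha hc hac n1 n3
  have i3 := angle_le h hb hc hbc n2 n3
  have s1 := DegThreeAux.sq_dir n1
  have s2 := DegThreeAux.sq_dir n2
  have s3 := DegThreeAux.sq_dir n3
  unfold ip at i1 i2 i3
  have hall : ∀ e, G.Adj v e → e = a ∨ e = b ∨ e = c := by
    intro e he
    rcases no_four h hne v a b c e ha hb hc he with h1 | h1 | h1 | h1 | h1 | h1
    · exact absurd h1 hab
    · exact absurd h1 hac
    · exact Or.inl h1.symm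
    · exact absurd h1 hbc
    · exact Or.inr (Or.inl h1.symm)
    · exact Or.inr (Or.inr h1.symm)
  have hsq : ((dir P v a).re + (dir P v b).re + (dir P v c).re) ^ 2 +
      ((dir P v a).im + (dir P v b).im + (dir P v c).im) ^ 2 ≤ 0 := by
    nlinarith
  have hre : (dir P v a).re + (dir P v b).re + (dir P v c).re = 0 := by
    have : ((dir P v a).re + (dir P v b).re + (dir P v c).re) ^ 2 = 0 := by
      nlinarith [sq_nonneg ((dir P v a).re + (dir P v b).re + (dir P v c).re),
        sq_nonneg ((dir P v a).im + (dir P v b).im + (dir P v c).im)]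
    exact pow_eq_zero_iff (two_ne_zero) |>.1 this
  have him : (dir P v a).im + (dir P v b).im + (dir P v c).im = 0 := by
    have : ((dir P v a).im + (dir P v b).im + (dir P v c).im) ^ 2 = 0 := by
      nlinarith [sq_nonneg ((dir P v a).re + (dir P v b).re + (dir P v c).re),
        sq_nonneg ((dir P v a).im + (dir P v b).im + (dir P v c).im)]
    exact pow_eq_zero_iff (two_ne_zero) |>.1 this
  have hsum : dir P v a + dir P v b + dir P v c = 0 := by
    apply Complex.ext
    · simpa using hre
    · simpa using him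
  refine ⟨?_, hall, hsum⟩
  rw [← hsum]
  unfold svec
  have hfil : ∀ x, G.Adj v x ↔ x ∈ ({a, b, c} : Finset V) := by
    intro x
    constructor
    · intro hx
      simpa using hall x hx
    · intro hx
      simp only [Finset.mem_insert, Finset.mem_singleton] at hx
      rcases hx with rfl | rfl | rfl <;> assumption
  have e1 : ∀ x, (if G.Adj v x then dir P v x else 0) =
      (if x ∈ ({a, b, c} : Finset V) then dir P v x else 0) := by
    intro x
    by_cases hx : G.Adj v x
    · rw [if_pos hx, if_pos ((hfil x).1 hx)]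
    · rw [if_neg hx, if_neg (fun h' => hx ((hfil x).2 h'))]
  rw [Finset.sum_congr rfl (fun x _ => e1 x), Finset.sum_ite_mem, Finset.univ_inter,
    Finset.sum_insert (by simp [hab, hac]), Finset.sum_insert (by simp [hbc]),
    Finset.sum_singleton, add_assoc]

end Pool.Agent.Lib.P7ee
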