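import Mathlib

/-!
# P7ee.TreeCount: vertices and degrees of a tree  (1.2 h)

`IsTree.card_edgeFinset`: the number of edges is `card V - 1`; `sum_degrees_eq_twice_card_edges`. `tree_card_le`: let `T` be the range of `τ`, at most `n` elements. If `card V = 1` then the vertex is in `T` (it has no three neighbours), so `n ≥ 1`. Otherwise all degrees are `≥ 1` (connected), those outside `T` are `≥ 3`:
`3 (card V - t) + t ≤ 2 card V - 2`, `t ≤ n`. `tree_leaves`: degrees are `1`, `2` or `3` (`h4`: no four distinct neighbours, i.e. degree `≤ 3`): `n1 + 2 n2 + 3 n3 = 2 (n1 + n2 + n3) - 2`. The sets in the statement are described by neighbours; translate to `G.degree` (`Finset.card_eq_one`, `two_lt_card`, ...).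
-/

set_option autoImplicit false

open MeasureTheory Set Metric Filter Topology

namespace Pool.Agent.Lib.P7ee

private theorem tc_sum {V : Type} [Fintype V] {G : SimpleGraph V} [DecidableRel G.Adj]
    (hG : G.IsTree) : (∑ v, (G.degree v : ℤ)) = 2 * (Fintype.card V : ℤ) - 2 := by
  classical
  have h1 := G.sum_degrees_eq_twice_card_edges
  have h2 := hG.card_edgeFinset
  have h3 : (∑ v, (G.degree v : ℤ)) = ((∑ v, G.degree v : ℕ) : ℤ) := by push_cast; rfl
  rw [h3, h1]
  push_cast
  have h4 : ((G.edgeFinset.card : ℤ)) + 1 = Fintype.card V := by exact_mod_cast h2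
  linarith

private theorem tc_three {V : Type} [Fintype V] {G : SimpleGraph V} [DecidableRel G.Adj] (v : V)
    (h : ∃ a b c, G.Adj v a ∧ G.Adj v b ∧ G.Adj v c ∧ a ≠ b ∧ a ≠ c ∧ b ≠ c) :
    3 ≤ G.degree v := by
  classical
  obtain ⟨a, b, c, ha, hb, hc, hab, hac, hbc⟩ := h
  have : 2 < (G.neighborFinset v).card :=
    Finset.two_lt_card.2 ⟨a, by simpa using ha, b, by simpa using hb, c, by simpa using hc,
      hab, hac, hbc⟩
  rw [SimpleGraph.card_neighborFinset_eq_degree] at this
  omega

theorem tree_card_le {n : ℕ} {V : Type} [Fintype V] {G : SimpleGraph V} (hG : G.IsTree)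
    (τ : Fin n → V) (h : ∀ v, (∀ j, τ j ≠ v) → ∃ a b c, G.Adj v a ∧ G.Adj v b ∧ G.Adj v c ∧
      a ≠ b ∧ a ≠ c ∧ b ≠ c) : Fintype.card V ≤ 2 * n := by
  classical
  set T : Finset V := Finset.univ.image τ with hT
  have hTn : T.card ≤ n := by
    have := Finset.card_image_le (s := (Finset.univ : Finset (Fin n))) (f := τ)
    simpa using this
  have hsum := tc_sum hG
  rcases le_or_gt (Fintype.card V) 1 with hc | hc
  · -- at most one vertex
    haveI : Subsingleton V := Fintype.card_le_one_iff_subsingleton.1 hc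
    by_contra hlt
    have hn : n = 0 := by omega
    subst hn
    haveI := hG.1.nonempty
    obtain ⟨v⟩ := this
    obtain ⟨a, b, c, ha, hb, hc', hab, -⟩ := h v (fun j => j.elim0)
    exact hab (Subsingleton.elim _ _)
  · haveI : Nontrivial V := Fintype.one_lt_card_iff_nontrivial.1 hc
    have hlow : ∀ v : V, (if v ∈ T then (1:ℤ) else 3) ≤ (G.degree v : ℤ) := by
      intro v
      split_ifs with hv
      · have := hG.1.preconnected.degree_pos_of_nontrivial v
        exact_mod_cast this
      · have := tc_three v (h v (fun j hj => hv (by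
          rw [hT]; exact Finset.mem_image.2 ⟨j, Finset.mem_univ _, hj⟩)))
        exact_mod_cast this
    have hs2 : (∑ v : V, (if v ∈ T then (1:ℤ) else 3)) ≤ ∑ v, (G.degree v : ℤ) :=
      Finset.sum_le_sum (fun v _ => hlow v)
    have hs3 : (∑ v : V, (if v ∈ T then (1:ℤ) else 3)) = 3 * Fintype.card V - 2 * T.card := by
      have : ∀ v : V, (if v ∈ T then (1:ℤ) else 3) = 3 - 2 * (if v ∈ T then (1:ℤ) else 0) := by
        intro v; split_ifs <;> norm_num
      rw [Finset.sum_congr rfl (fun v _ => this v), Finset.sum_sub_distrib, ← Finset.mul_sum]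
      simp
      ring
    have : (Fintype.card V : ℤ) ≤ 2 * n := by
      have : (T.card : ℤ) ≤ n := by exact_mod_cast hTn
      linarith
    exact_mod_cast this

theorem tree_leaves {V : Type} [Fintype V] {G : SimpleGraph V} (hG : G.IsTree)
    (h2 : 2 ≤ Fintype.card V)
    (h4 : ∀ v a b c e, G.Adj v a → G.Adj v b → G.Adj v c → G.Adj v e →
      a = b ∨ a = c ∨ a = e ∨ b = c ∨ b = e ∨ c = e) :
    Nat.card {v : V // ∃ a, G.Adj v a ∧ ∀ b, G.Adj v b → b = a} =
      Nat.card {v : V // ∃ a b c, G.Adj v a ∧ G.Adj v b ∧ G.Adj v c ∧ a ≠ b ∧ a ≠ c ∧ b ≠ c}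
        + 2 := by
  classical
  haveI : Nontrivial V := Fintype.one_lt_card_iff_nontrivial.1 (by omega)
  have hsum := tc_sum hG
  have hpos : ∀ v, 1 ≤ G.degree v := fun v => hG.1.preconnected.degree_pos_of_nontrivial v
  have hle : ∀ v, G.degree v ≤ 3 := by
    intro v
    by_contra hlt
    have : 3 < (G.neighborFinset v).card := by
      rw [SimpleGraph.card_neighborFinset_eq_degree]; omega
    obtain ⟨S, hS, hc⟩ := Finset.exists_subset_card_eq (show 4 ≤ (G.neighborFinset v).card by omega)
    obtain ⟨a, b, c, e, hab, hac, hae, hbc, hbe, hce, hSe⟩ := Finset.card_eq_four.1 hc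
    have hm : ∀ x ∈ S, G.Adj v x := fun x hx => by simpa using hS hx
    have := h4 v a b c e (hm a (by simp [hSe])) (hm b (by simp [hSe])) (hm c (by simp [hSe]))
      (hm e (by simp [hSe]))
    tauto
  have e1 : ∀ v, (∃ a, G.Adj v a ∧ ∀ b, G.Adj v b → b = a) ↔ G.degree v = 1 := by
    intro v
    rw [← SimpleGraph.card_neighborFinset_eq_degree, Finset.card_eq_one]
    constructor
    · rintro ⟨a, ha, hb⟩
      refine ⟨a, ?_⟩
      ext x
      simp only [SimpleGraph.mem_neighborFinset, Finset.mem_singleton]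
      exact ⟨fun hx => hb x hx, fun hx => hx ▸ ha⟩
    · rintro ⟨a, ha⟩
      have hx : ∀ x, G.Adj v x ↔ x = a := by
        intro x
        have : x ∈ G.neighborFinset v ↔ x ∈ ({a} : Finset V) := by rw [ha]
        simpa using this
      exact ⟨a, (hx a).2 rfl, fun b hb => (hx b).1 hb⟩
  have e3 : ∀ v, (∃ a b c, G.Adj v a ∧ G.Adj v b ∧ G.Adj v c ∧ a ≠ b ∧ a ≠ c ∧ b ≠ c) ↔
      G.degree v = 3 := by
    intro v
    constructor
    · intro hv
      have := tc_three v hv
      have := hle v
      omega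
    · intro hv
      have : 2 < (G.neighborFinset v).card := by
        rw [SimpleGraph.card_neighborFinset_eq_degree]; omega
      obtain ⟨a, ha, b, hb, c, hc, hab, hac, hbc⟩ := Finset.two_lt_card.1 this
      exact ⟨a, b, c, by simpa using ha, by simpa using hb, by simpa using hc, hab, hac, hbc⟩
  have c1 : (Nat.card {v : V // ∃ a, G.Adj v a ∧ ∀ b, G.Adj v b → b = a} : ℤ) =
      ∑ v : V, (if G.degree v = 1 then (1:ℤ) else 0) := by
    rw [Nat.card_eq_fintype_card, Fintype.card_subtype]
    rw [Finset.sum_boole]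
    congr 1
    simp only [e1]
  have c3 : (Nat.card {v : V // ∃ a b c, G.Adj v a ∧ G.Adj v b ∧ G.Adj v c ∧ a ≠ b ∧ a ≠ c ∧
      b ≠ c} : ℤ) = ∑ v : V, (if G.degree v = 3 then (1:ℤ) else 0) := by
    rw [Nat.card_eq_fintype_card, Fintype.card_subtype]
    rw [Finset.sum_boole]
    congr 1
    simp only [e3]
  have hd : ∀ v : V, (G.degree v : ℤ) = 2 + (if G.degree v = 3 then (1:ℤ) else 0) -
      (if G.degree v = 1 then (1:ℤ) else 0) := by
    intro v
    have a1 := hpos v
    have a2 := hle v
    generalize G.degree v = d at *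
    interval_cases d <;> norm_num
  rw [Finset.sum_congr rfl (fun v _ => hd v), Finset.sum_sub_distrib, Finset.sum_add_distrib,
    ← c1, ← c3] at hsum
  simp only [Finset.sum_const, Finset.card_univ, nsmul_eq_mul] at hsum
  have : (Nat.card {v : V // ∃ a, G.Adj v a ∧ ∀ b, G.Adj v b → b = a} : ℤ) =
      Nat.card {v : V // ∃ a b c, G.Adj v a ∧ G.Adj v b ∧ G.Adj v c ∧ a ≠ b ∧ a ≠ c ∧ b ≠ c}
        + 2 := by linarith
  exact_mod_cast this

end Pool.Agent.Lib.P7ee
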