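import Pool.Agent.Lib.P7ee.Defs

/-!
# P7ee.DiscCone: normal cone of an intersection of discs  (1 h)

Suppose there are no `j`, `l` with `y j ≠ y l` and `dist p (y j) = r = dist p (y l)`. If no constraint is active, `p` is interior, `z = p + t s` for small `t > 0` is allowed and gives `ip s s ≤ 0`, so `s = 0`. Otherwise let `c` be the common value of all active `y j`, `ν = p - c`, `‖ν‖ = r > 0`. Write `s = α ν + β i ν`.
`β = 0`: points `z = c + ν e^{iθ}` with small `θ` of either sign are allowed (inactive constraints are open conditions, finitely many), `ip s (z - p) = r² (α (cos θ - 1) + β sin θ) ≤ 0` for small `θ` of both signs, divide by `|θ|`, let `θ → 0`. `α ≥ 0`: `z = p - t ν`. If `α = 0` then `s = 0`, else `μ = α`.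
-/

set_option autoImplicit false

open MeasureTheory Set Metric Filter Topology

namespace Pool.Agent.Lib.P7ee

namespace DiscConeAux

theorem allowed {ι : Type} [Finite ι] (y : ι → ℂ) {r : ℝ} (p s c : ℂ)
    (hp : ∀ j, dist p (y j) ≤ r)
    (hs : ∀ z : ℂ, (∀ j, dist z (y j) ≤ r) → ip s (z - p) ≤ 0)
    (hact : ∀ j, dist p (y j) = r → y j = c)
    (z : ℝ → ℂ) (F : Filter ℝ) (hz : Tendsto z F (𝓝 p))
    (hc : ∀ᶠ t in F, dist (z t) c ≤ r) :
    ∀ᶠ t in F, ip s (z t - p) ≤ 0 := by
  have h1 : ∀ j, ∀ᶠ t in F, dist (z t) (y j) ≤ r := by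
    intro j
    rcases (hp j).lt_or_eq with h | h
    · have : Tendsto (fun t => dist (z t) (y j)) F (𝓝 (dist p (y j))) :=
        hz.dist tendsto_const_nhds
      exact (this.eventually (gt_mem_nhds h)).mono fun t ht => ht.le
    · rw [hact j h]
      exact hc
  have h2 : ∀ᶠ t in F, ∀ j, dist (z t) (y j) ≤ r := by
    rw [Filter.eventually_all]
    exact h1
  exact h2.mono fun t ht => hs _ ht

end DiscConeAux

theorem disc_cone {ι : Type} [Finite ι] (y : ι → ℂ) {r : ℝ} (hr : 0 < r) (p s : ℂ)
    (hp : ∀ j, dist p (y j) ≤ r)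
    (hs : ∀ z : ℂ, (∀ j, dist z (y j) ≤ r) → ip s (z - p) ≤ 0) :
    s = 0 ∨ (∃ j, dist p (y j) = r ∧ ∃ μ : ℝ, 0 < μ ∧ s = μ * (p - y j)) ∨
      ∃ j l, y j ≠ y l ∧ dist p (y j) = r ∧ dist p (y l) = r := by
  by_cases hno : ∀ j, dist p (y j) ≠ r
  · left
    have hlt : ∀ j, dist p (y j) < r := fun j => lt_of_le_of_ne (hp j) (hno j)
    have hz : Tendsto (fun t : ℝ => p + (t : ℂ) * s) (𝓝[>] (0 : ℝ)) (𝓝 p) := by
      have hcont : Continuous (fun t : ℝ => p + (t : ℂ) * s) := by fun_prop
      have h0 := hcont.tendsto 0
      simp only [Complex.ofReal_zero, zero_mul, add_zero] at h0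
      exact h0.mono_left nhdsWithin_le_nhds
    have h1 : ∀ᶠ t : ℝ in 𝓝[>] (0 : ℝ), ∀ j, dist (p + (t : ℂ) * s) (y j) ≤ r := by
      rw [Filter.eventually_all]
      intro j
      have : Tendsto (fun t : ℝ => dist (p + (t : ℂ) * s) (y j)) (𝓝[>] (0 : ℝ))
          (𝓝 (dist p (y j))) := hz.dist tendsto_const_nhds
      exact (this.eventually (gt_mem_nhds (hlt j))).mono fun t ht => ht.le
    obtain ⟨t, ht, htpos⟩ := (h1.and self_mem_nhdsWithin).exists
    have htpos' : 0 < t := htpos
    have h2 := hs _ ht
    have h3 : ip s (p + (t : ℂ) * s - p) = t * (s.re ^ 2 + s.im ^ 2) := by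
      simp only [ip, add_sub_cancel_left, Complex.mul_re, Complex.mul_im, Complex.ofReal_re,
        Complex.ofReal_im, zero_mul, sub_zero, add_zero]
      ring
    rw [h3] at h2
    have h4 : s.re ^ 2 + s.im ^ 2 ≤ 0 := by
      by_contra hcon
      push Not at hcon
      have := mul_pos htpos' hcon
      linarith
    have h5 : s.re = 0 := by nlinarith [sq_nonneg s.re, sq_nonneg s.im]
    have h6 : s.im = 0 := by nlinarith [sq_nonneg s.re, sq_nonneg s.im]
    exact Complex.ext h5 h6
  · push Not at hno
    obtain ⟨j0, hj0⟩ := hno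
    by_cases hdiff : ∃ l, dist p (y l) = r ∧ y l ≠ y j0
    · obtain ⟨l, hl, hne⟩ := hdiff
      exact Or.inr (Or.inr ⟨l, j0, hne, hl, hj0⟩)
    · push Not at hdiff
      have hact : ∀ j, dist p (y j) = r → y j = y j0 := hdiff
      set c := y j0 with hcdef
      set v : ℂ := p - c with hv
      have hpv : p = c + v := by rw [hv]; ring
      have hnorm : ‖v‖ = r := by rw [hv, ← hj0, dist_eq_norm]
      have hsq : v.re ^ 2 + v.im ^ 2 = r ^ 2 := by
        rw [← hnorm, ← Complex.normSq_eq_norm_sq, Complex.normSq_apply]
        ring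
      -- rotation
      have hrot : ∀ᶠ θ : ℝ in 𝓝 (0 : ℝ),
          ip s ((c + v * Complex.exp (θ * Complex.I)) - p) ≤ 0 := by
        apply DiscConeAux.allowed y p s c hp hs hact
        · have hcont : Continuous (fun θ : ℝ => c + v * Complex.exp (θ * Complex.I)) := by
            fun_prop
          have h0 := hcont.tendsto 0
          simp only [Complex.ofReal_zero, zero_mul, Complex.exp_zero, mul_one] at h0
          rw [hpv]
          exact h0
        · refine Filter.Eventually.of_forall fun θ => ?_
          rw [dist_eq_norm, add_sub_cancel_left, norm_mul, Complex.norm_exp_ofReal_mul_I, mul_one,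
            hnorm]
      have hder : HasDerivAt (fun θ : ℝ => ip s ((c + v * Complex.exp (θ * Complex.I)) - p))
          (ip s (v * Complex.I)) 0 := by
        have h1 : HasDerivAt (fun θ : ℝ => (c + v * Complex.exp (θ * Complex.I)) - p)
            (v * Complex.I) 0 := by
          have h2 : HasDerivAt (fun θ : ℝ => (θ : ℂ) * Complex.I) Complex.I 0 := by
            have := (Complex.ofRealCLM.hasDerivAt (x := (0 : ℝ))).mul_const Complex.I
            simpa using this
          have h3 := h2.cexp
          simp only [Complex.ofReal_zero, zero_mul, Complex.exp_zero, one_mul] at h3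
          exact ((h3.const_mul v).const_add c).sub_const p
        have hre := (Complex.reCLM.hasFDerivAt.comp_hasDerivAt (0 : ℝ) h1)
        have him := (Complex.imCLM.hasFDerivAt.comp_hasDerivAt (0 : ℝ) h1)
        have h4 := (hre.const_mul s.re).add (him.const_mul s.im)
        exact h4
      have hmax : IsLocalMax (fun θ : ℝ => ip s ((c + v * Complex.exp (θ * Complex.I)) - p)) 0 := by
        refine hrot.mono fun θ hθ => ?_
        have h0 : ip s ((c + v * Complex.exp (((0 : ℝ) : ℂ) * Complex.I)) - p) = 0 := by
          simp [ip, hpv]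
        change _ ≤ ip s ((c + v * Complex.exp (((0 : ℝ) : ℂ) * Complex.I)) - p)
        rw [h0]
        exact hθ
      have hb := hmax.hasDerivAt_eq_zero hder
      -- radial
      have hrad : ∀ᶠ t : ℝ in 𝓝[>] (0 : ℝ), ip s ((p - (t : ℂ) * v) - p) ≤ 0 := by
        apply DiscConeAux.allowed y p s c hp hs hact
        · have hcont : Continuous (fun t : ℝ => p - (t : ℂ) * v) := by fun_prop
          have h0 := hcont.tendsto 0
          simp only [Complex.ofReal_zero, zero_mul, sub_zero] at h0
          exact h0.mono_left nhdsWithin_le_nhds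
        · have : ∀ᶠ t : ℝ in 𝓝[>] (0 : ℝ), t ∈ Ioo (0 : ℝ) 1 := Ioo_mem_nhdsGT one_pos
          refine this.mono fun t ht => ?_
          have h1 : p - (t : ℂ) * v - c = ((1 - t : ℝ) : ℂ) * v := by
            rw [hpv]; push_cast; ring
          rw [dist_eq_norm, h1, norm_mul, Complex.norm_real, Real.norm_eq_abs,
            abs_of_pos (by linarith [ht.2]), hnorm]
          nlinarith [ht.1]
      obtain ⟨t, ht, htpos⟩ := (hrad.and self_mem_nhdsWithin).exists
      have htpos' : 0 < t := htpos
      have hrad2 : ip s ((p - (t : ℂ) * v) - p) = - (t * (s.re * v.re + s.im * v.im)) := by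
        simp only [ip, Complex.sub_re, Complex.sub_im, Complex.mul_re, Complex.mul_im,
          Complex.ofReal_re, Complex.ofReal_im, zero_mul, sub_zero, add_zero]
        ring
      rw [hrad2] at ht
      have ha : 0 ≤ s.re * v.re + s.im * v.im := by
        by_contra hcon
        push Not at hcon
        have := mul_neg_of_pos_of_neg htpos' hcon
        linarith
      have hb' : s.re * (- v.im) + s.im * v.re = 0 := by
        simpa [ip] using hb
      have hr2 : 0 < r ^ 2 := by positivity
      have hre : s.re = (s.re * v.re + s.im * v.im) / r ^ 2 * v.re := by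
        field_simp
        rw [← hsq]
        linear_combination (-v.im) * hb'
      have him : s.im = (s.re * v.re + s.im * v.im) / r ^ 2 * v.im := by
        field_simp
        rw [← hsq]
        linear_combination (v.re) * hb'
      rcases ha.eq_or_lt with h0 | h0
      · left
        rw [← h0] at hre him
        exact Complex.ext (by simpa using hre) (by simpa using him)
      · right; left
        refine ⟨j0, hj0, (s.re * v.re + s.im * v.im) / r ^ 2, by positivity, ?_⟩
        change s = (((s.re * v.re + s.im * v.im) / r ^ 2 : ℝ) : ℂ) * v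
        apply Complex.ext
        · rw [Complex.re_ofReal_mul]
          exact hre
        · rw [Complex.im_ofReal_mul]
          exact him

end Pool.Agent.Lib.P7ee
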