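import Pool.Agent.Lib.P7ee.Defs

/-!
# P7ee.LenBasic: elementary properties of the length of a network  (1.2 h)

`len` is half of a finite double sum of nonnegative terms. `dist_le_len`: take a path `p` from `a` to `b` (`hG.preconnected a b`, `Walk.toPath`); `dist (P a) (P b) ≤ ∑` over the darts of `p` (triangle inequality, induction on the walk), and the darts
of a path and their reverses are pairwise different, so twice the sum is at most the double sum. (Alternative by induction: for a path, the edges are distinct: `IsPath.isTrail`, `edges_nodup`.)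
`len_comap`: reindex both sums by the equivalence.
-/

set_option autoImplicit false

open MeasureTheory Set Metric Filter Topology

namespace Pool.Agent.Lib.P7ee

theorem len_nonneg {V : Type} [Fintype V] (G : SimpleGraph V) (P : V → ℂ) : 0 ≤ len G P := by
  unfold len
  refine mul_nonneg (by norm_num) (Finset.sum_nonneg fun a _ => Finset.sum_nonneg fun b _ => ?_)
  split_ifs
  · exact dist_nonneg
  · exact le_rfl

theorem len_mono {V : Type} [Fintype V] {G G' : SimpleGraph V} (h : G ≤ G') (P : V → ℂ) :
    len G P ≤ len G' P := by
  unfold len
  refine mul_le_mul_of_nonneg_left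
    (Finset.sum_le_sum fun a _ => Finset.sum_le_sum fun b _ => ?_) (by norm_num)
  split_ifs with h1 h2
  · exact le_rfl
  · exact absurd (h h1) h2
  · exact dist_nonneg
  · exact le_rfl

theorem continuous_len {V : Type} [Fintype V] (G : SimpleGraph V) :
    Continuous fun P : V → ℂ => len G P := by
  unfold len
  refine continuous_const.mul (continuous_finset_sum _ fun a _ =>
    continuous_finset_sum _ fun b _ => ?_)
  split_ifs
  · exact (continuous_apply a).dist (continuous_apply b)
  · exact continuous_const

namespace LenBasicAux

open Classical in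
theorem path_le {V : Type} [Fintype V] {G : SimpleGraph V} (P : V → ℂ) {a b : V}
    (p : G.Walk a b) (hp : p.IsPath) :
    dist (P a) (P b) ≤ (1 / 2) * ∑ x ∈ p.support.toFinset, ∑ y ∈ p.support.toFinset,
      (if G.Adj x y then dist (P x) (P y) else 0) := by
  have hnn : ∀ x y : V, 0 ≤ (if G.Adj x y then dist (P x) (P y) else 0) := by
    intro x y
    split_ifs
    · exact dist_nonneg
    · exact le_rfl
  induction p with
  | nil => simp
  | @cons u v w h p ih =>
    rw [SimpleGraph.Walk.cons_isPath_iff] at hp
    have ih := ih hp.1
    have hu : u ∉ p.support.toFinset := by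
      rw [List.mem_toFinset]
      exact hp.2
    have hv : v ∈ p.support.toFinset := by
      rw [List.mem_toFinset]
      exact p.start_mem_support
    rw [SimpleGraph.Walk.support_cons, List.toFinset_cons, Finset.sum_insert hu,
      Finset.sum_insert hu]
    have h1 : ∑ x ∈ p.support.toFinset, ∑ y ∈ insert u p.support.toFinset,
        (if G.Adj x y then dist (P x) (P y) else 0) =
        (∑ x ∈ p.support.toFinset, (if G.Adj x u then dist (P x) (P u) else 0)) +
        ∑ x ∈ p.support.toFinset, ∑ y ∈ p.support.toFinset,
          (if G.Adj x y then dist (P x) (P y) else 0) := by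
      rw [← Finset.sum_add_distrib]
      exact Finset.sum_congr rfl fun x _ => Finset.sum_insert hu
    rw [h1]
    have h2 : dist (P u) (P v) ≤
        ∑ y ∈ p.support.toFinset, (if G.Adj u y then dist (P u) (P y) else 0) := by
      have h3 := Finset.single_le_sum (f := fun y => (if G.Adj u y then dist (P u) (P y) else 0))
        (fun y _ => hnn u y) hv
      simpa [h] using h3
    have h4 : dist (P u) (P v) ≤
        ∑ x ∈ p.support.toFinset, (if G.Adj x u then dist (P x) (P u) else 0) := by
      have h3 := Finset.single_le_sum (f := fun x => (if G.Adj x u then dist (P x) (P u) else 0))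
        (fun x _ => hnn x u) hv
      have h5 : (if G.Adj v u then dist (P v) (P u) else 0) = dist (P u) (P v) := by
        rw [if_pos h.symm, dist_comm]
      rw [← h5]
      exact h3
    have h6 := hnn u u
    have h7 := dist_triangle (P u) (P v) (P w)
    linarith

end LenBasicAux

theorem dist_le_len {V : Type} [Fintype V] {G : SimpleGraph V} (hG : G.Connected) (P : V → ℂ)
    (a b : V) : dist (P a) (P b) ≤ len G P := by
  classical
  obtain ⟨p, hp⟩ := (hG.preconnected a b).exists_isPath
  refine (LenBasicAux.path_le P p hp).trans ?_
  unfold len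
  have hnn : ∀ x y : V, 0 ≤ (if G.Adj x y then dist (P x) (P y) else 0) := by
    intro x y
    split_ifs
    · exact dist_nonneg
    · exact le_rfl
  refine mul_le_mul_of_nonneg_left ?_ (by norm_num)
  calc ∑ x ∈ p.support.toFinset, ∑ y ∈ p.support.toFinset,
        (if G.Adj x y then dist (P x) (P y) else 0)
      ≤ ∑ x ∈ p.support.toFinset, ∑ y, (if G.Adj x y then dist (P x) (P y) else 0) :=
        Finset.sum_le_sum fun x _ =>
          Finset.sum_le_univ_sum_of_nonneg fun y => hnn x y
    _ ≤ ∑ x, ∑ y, (if G.Adj x y then dist (P x) (P y) else 0) :=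
        Finset.sum_le_univ_sum_of_nonneg fun x => Finset.sum_nonneg fun y _ => hnn x y

theorem len_comap {V V' : Type} [Fintype V] [Fintype V'] (e : V' ≃ V) (G : SimpleGraph V)
    (P : V → ℂ) : len (G.comap e) (fun a => P (e a)) = len G P := by
  classical
  unfold len
  congr 1
  rw [← Equiv.sum_comp e (fun a => ∑ b, (if G.Adj a b then dist (P a) (P b) else 0))]
  refine Finset.sum_congr rfl fun a _ => ?_
  rw [← Equiv.sum_comp e (fun b => (if G.Adj (e a) b then dist (P (e a)) (P b) else 0))]
  rfl

end Pool.Agent.Lib.P7ee
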