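import Pool.Agent.Lib.P7ee.FirstOrder
import Pool.Agent.Lib.P7ee.DiscCone
import Pool.Agent.Lib.P7ee.LenBasic

/-!
# P7ee.VertexClass: the vertices of an optimal network  (1.2 h)

Move the vertex `v` to `p + s (z - p)`, `p = P v`, where `dist z (y j) ≤ r` for all `j` with `τ j = v` (by convexity of discs all these positions are feasible). Twice the length is `(terms without v) + 2 ∑ b adjacent to v, dist`, so optimality gives the hypothesis of `first_order` for the family of the neighbours
(`ι = {b // G.Adj v b}`), hence `ip (svec G P v) (z - P v) ≤ 0`. Apply `disc_cone` with `ι = {j // τ j = v}`.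
-/

set_option autoImplicit false

open MeasureTheory Set Metric Filter Topology

namespace Pool.Agent.Lib.P7ee

namespace VertexClassAux

open Classical in
theorem len_update {V : Type} [Fintype V] (G : SimpleGraph V) (P : V → ℂ) (v : V) :
    ∃ R : ℝ, ∀ z : ℂ, len G (Function.update P v z)
      = R + ∑ b, (if G.Adj v b then dist z (P b) else 0) := by
  refine ⟨(1 / 2) * ∑ a ∈ Finset.univ.erase v, ∑ b ∈ Finset.univ.erase v,
    (if G.Adj a b then dist (P a) (P b) else 0), fun z => ?_⟩
  have h0 : ∀ f : V → ℝ, ∑ a, f a = f v + ∑ a ∈ Finset.univ.erase v, f a := fun f =>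
    (Finset.add_sum_erase Finset.univ f (Finset.mem_univ v)).symm
  have h1 : ∀ b, (if G.Adj v b then dist (Function.update P v z v) (Function.update P v z b) else 0)
      = (if G.Adj v b then dist z (P b) else 0) := by
    intro b
    by_cases hb : G.Adj v b
    · rw [if_pos hb, if_pos hb, Function.update_self, Function.update_of_ne hb.ne']
    · rw [if_neg hb, if_neg hb]
  have h2 : ∀ a ∈ Finset.univ.erase v,
      ∑ b, (if G.Adj a b then dist (Function.update P v z a) (Function.update P v z b) else 0)
      = (if G.Adj v a then dist z (P a) else 0) + ∑ b ∈ Finset.univ.erase v,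
        (if G.Adj a b then dist (P a) (P b) else 0) := by
    intro a ha
    have hav : a ≠ v := Finset.ne_of_mem_erase ha
    rw [h0]
    congr 1
    · by_cases hb : G.Adj a v
      · rw [if_pos hb, if_pos hb.symm, Function.update_self, Function.update_of_ne hav, dist_comm]
      · rw [if_neg hb, if_neg (fun h => hb h.symm)]
    · apply Finset.sum_congr rfl
      intro b hb
      have hbv : b ≠ v := Finset.ne_of_mem_erase hb
      rw [Function.update_of_ne hav, Function.update_of_ne hbv]
  have h3 : ∑ a ∈ Finset.univ.erase v, (if G.Adj v a then dist z (P a) else 0)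
      = ∑ b, (if G.Adj v b then dist z (P b) else 0) := by
    rw [h0 (fun b => if G.Adj v b then dist z (P b) else 0)]
    simp
  have h4 : len G (Function.update P v z) = (1 / 2) * ∑ a, ∑ b,
    (if G.Adj a b then dist (Function.update P v z a) (Function.update P v z b) else 0) := rfl
  rw [h4, h0 (fun a => ∑ b,
    (if G.Adj a b then dist (Function.update P v z a) (Function.update P v z b) else 0)),
    Finset.sum_congr rfl h2, Finset.sum_add_distrib, h3, Finset.sum_congr rfl (fun b _ => h1 b)]
  ring

end VertexClassAux

open VertexClassAux in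
theorem vertex_class {n : ℕ} {y : Fin n → ℂ} {r : ℝ} (hr : 0 < r) {V : Type} [Fintype V]
    {G : SimpleGraph V} {P : V → ℂ} {τ : Fin n → V} (h : IsOpt y r G P τ)
    (hne : ∀ a b, G.Adj a b → P a ≠ P b) (v : V) :
    svec G P v = 0 ∨
      (∃ j, τ j = v ∧ dist (P v) (y j) = r ∧ ∃ μ : ℝ, 0 < μ ∧ svec G P v = μ * (P v - y j)) ∨
      ∃ j l, τ j = v ∧ τ l = v ∧ y j ≠ y l ∧ dist (P v) (y j) = r ∧ dist (P v) (y l) = r := by
  classical
  obtain ⟨R, hR⟩ := len_update G P v
  have hfeas : ∀ j, dist (P (τ j)) (y j) ≤ r := h.1.2
  -- key claim: the normal cone inequality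
  have key : ∀ z : ℂ, (∀ j : {j // τ j = v}, dist z (y j.1) ≤ r) → ip (svec G P v) (z - P v) ≤ 0 := by
    intro z hz
    have hsub : ∀ (f : V → ℂ), ∑ b, (if G.Adj v b then f b else 0)
        = ∑ b : {b // G.Adj v b}, f b.1 := by
      intro f
      rw [← Finset.sum_filter]
      exact Finset.sum_subtype _ (fun x => by simp) f
    have hsubR : ∀ (f : V → ℝ), ∑ b, (if G.Adj v b then f b else 0)
        = ∑ b : {b // G.Adj v b}, f b.1 := by
      intro f
      rw [← Finset.sum_filter]
      exact Finset.sum_subtype _ (fun x => by simp) f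
    have hsv : svec G P v = ∑ b : {b // G.Adj v b}, (P b.1 - P v) / (‖P b.1 - P v‖ : ℂ) := by
      exact hsub (fun b => dir P v b)
    rw [hsv]
    apply first_order (fun b : {b // G.Adj v b} => P b.1) (P v) z
    · intro b
      exact (hne v b.1 b.2).symm
    · intro s hs0 hs1
      have hf : Feas y r G (Function.update P v (P v + (s : ℂ) * (z - P v))) τ := by
        refine ⟨h.1.1, fun j => ?_⟩
        by_cases hj : τ j = v
        · rw [hj, Function.update_self]
          have hc : Convex ℝ (closedBall (y j) r) := convex_closedBall _ _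
          have m1 : P v ∈ closedBall (y j) r := by
            rw [mem_closedBall]; have := hfeas j; rwa [hj] at this
          have m2 : z ∈ closedBall (y j) r := by
            rw [mem_closedBall]; exact hz ⟨j, hj⟩
          have := hc m1 m2 (sub_nonneg.mpr hs1) hs0 (by ring)
          rw [mem_closedBall] at this
          convert this using 2
          rw [Complex.real_smul, Complex.real_smul]
          push_cast
          ring
        · rw [Function.update_of_ne hj]
          exact hfeas j
      have hle := h.2 V G _ τ hf
      have e1 := hR (P v)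
      rw [Function.update_eq_self] at e1
      rw [e1, hR] at hle
      have e2 := hsubR (fun b => dist (P v) (P b))
      have e3 := hsubR (fun b => dist (P v + (s : ℂ) * (z - P v)) (P b))
      rw [e2, e3] at hle
      simp only [dist_eq_norm] at hle
      linarith
  rcases disc_cone (fun j : {j // τ j = v} => y j.1) hr (P v) (svec G P v)
    (fun j => by have := hfeas j.1; rwa [j.2] at this) key with h1 | ⟨j, hj, μ, hμ, hs⟩ | ⟨j, l, hjl, hj, hl⟩
  · exact Or.inl h1
  · exact Or.inr (Or.inl ⟨j.1, j.2, hj, μ, hμ, hs⟩)
  · exact Or.inr (Or.inr ⟨j.1, l.1, j.2, l.2, hjl, hj, hl⟩)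

end Pool.Agent.Lib.P7ee
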