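import Pool.Agent.Lib.P7ee.UDefs
import Pool.Agent.Lib.P7ee.VertexClass
import Pool.Agent.Lib.P7ee.DegThree
import Pool.Agent.Lib.P7ee.TreeCount

/-!
# P7ee.CountLe: counting the data points  (1.2 h)

`Leaf` vertices are unbalanced (`svec` is one unit vector). Every unbalanced vertex has a `j` with `τ j = v` (`vertex_class`), a corner has two different ones (`y j ≠ y l`). The sets `τ⁻¹ v` are disjoint: `n ≥ (number of unbalanced vertices) + (number of unbalanced corners) ≥ (leaves) + (unbalanced Two) + (unbalanced corners)`.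
`tree_leaves` (its two sets are those of `Leaf` and of `Three`, by `no_four`): leaves `= (Three) + 2`.
-/

set_option autoImplicit false



namespace Pool.Agent.Lib.P7ee

namespace CountLeAux

open Classical in
theorem card_sum {V : Type} [Fintype V] (p : V → Prop) :
    Nat.card {v : V // p v} = ∑ v : V, (if p v then 1 else 0) := by
  rw [Nat.card_eq_fintype_card, Fintype.card_subtype, Finset.card_filter]

open Classical in
theorem card_fib {n : ℕ} {V : Type} [Fintype V] (τ : Fin n → V) :
    ∑ v : V, (Finset.univ.filter fun j => τ j = v).card = n := by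
  have h := Finset.card_eq_sum_card_fiberwise (f := τ) (s := (Finset.univ : Finset (Fin n)))
    (t := (Finset.univ : Finset V)) (fun x _ => Finset.mem_coe.2 (Finset.mem_univ _))
  rw [← h, Finset.card_univ, Fintype.card_fin]

theorem leaf_svec {V : Type} [Fintype V] {G : SimpleGraph V} {P : V → ℂ}
    (hne : ∀ a b, G.Adj a b → P a ≠ P b) {v : V} (hl : Leaf G v) : svec G P v ≠ 0 := by
  classical
  obtain ⟨a, ha⟩ := hl
  have hva : G.Adj v a := (ha a).2 rfl
  have h1 : svec G P v = dir P v a := by
    unfold svec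
    rw [Finset.sum_eq_single a]
    · rw [if_pos hva]
    · intro b _ hb
      rw [if_neg (fun h => hb ((ha b).1 h))]
    · intro h
      exact absurd (Finset.mem_univ _) h
  rw [h1]
  intro h0
  have h2 := norm_dir (hne v a hva)
  rw [h0, norm_zero] at h2
  exact zero_ne_one h2

end CountLeAux

open CountLeAux

theorem count_le {n : ℕ} {y : Fin n → ℂ} {r : ℝ} (hr : 0 < r) {V : Type} [Fintype V]
    {G : SimpleGraph V} {P : V → ℂ} {τ : Fin n → V} (h : IsOpt y r G P τ) (hT : G.IsTree)
    (hne : ∀ a b, G.Adj a b → P a ≠ P b) (h2 : 2 ≤ Fintype.card V) :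
    Nat.card {v : V // Three G v} + 2 + Nat.card {v : V // ¬ svec G P v = 0 ∧ Two G v} +
      Nat.card {v : V // svec G P v ≠ 0 ∧ Corner y r P τ v} ≤ n := by
  classical
  have hL : Nat.card {v : V // Leaf G v} = Nat.card {v : V // Three G v} + 2 := by
    have h0 := tree_leaves hT h2 (fun v a b c e ha hb hc he => no_four h hne v a b c e ha hb hc he)
    have e1 : ∀ v : V, (∃ a, G.Adj v a ∧ ∀ b, G.Adj v b → b = a) ↔ Leaf G v := by
      intro v
      constructor
      · rintro ⟨a, ha, hb⟩
        exact ⟨a, fun b => ⟨hb b, fun e => e ▸ ha⟩⟩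
      · rintro ⟨a, ha⟩
        exact ⟨a, (ha a).2 rfl, fun b hb => (ha b).1 hb⟩
    have e2 : ∀ v : V, (∃ a b c, G.Adj v a ∧ G.Adj v b ∧ G.Adj v c ∧ a ≠ b ∧ a ≠ c ∧ b ≠ c) ↔
        Three G v := by
      intro v
      constructor
      · rintro ⟨a, b, c, ha, hb, hc, hab, hac, hbc⟩
        refine ⟨a, b, c, hab, hac, hbc, fun e => ⟨fun he => ?_, ?_⟩⟩
        · exact (three h hne ha hb hc hab hac hbc).2.1 e he
        · rintro (rfl | rfl | rfl)
          · exact ha
          · exact hb
          · exact hc
      · rintro ⟨a, b, c, hab, hac, hbc, he⟩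
        exact ⟨a, b, c, (he a).2 (Or.inl rfl), (he b).2 (Or.inr (Or.inl rfl)),
          (he c).2 (Or.inr (Or.inr rfl)), hab, hac, hbc⟩
    rw [Nat.card_congr (Equiv.subtypeEquivRight e1), Nat.card_congr (Equiv.subtypeEquivRight e2)] at h0
    exact h0
  rw [← hL, card_sum, card_sum, card_sum, ← Finset.sum_add_distrib, ← Finset.sum_add_distrib]
  refine le_trans (Finset.sum_le_sum fun v _ => ?_) (le_of_eq (card_fib τ))
  by_cases hs : svec G P v = 0
  · have hl : ¬ Leaf G v := fun hl => leaf_svec hne hl hs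
    rw [if_neg hl, if_neg (fun hh => hh.1 hs), if_neg (fun hh => hh.1 hs)]
    exact Nat.zero_le _
  · have h12 : ¬ (Leaf G v ∧ Two G v) := by
      rintro ⟨⟨c, hc⟩, a, b, hab, he⟩
      have h1 : a = c := (hc a).1 ((he a).2 (Or.inl rfl))
      have h2' : b = c := (hc b).1 ((he b).2 (Or.inr rfl))
      exact hab (h1.trans h2'.symm)
    have m2 : Corner y r P τ v → 2 ≤ (Finset.univ.filter fun j => τ j = v).card := by
      rintro ⟨j, l, hj, hl, hjl, -, -⟩
      have hne2 : j ≠ l := fun e => hjl (by rw [e])
      have h4 : ({j, l} : Finset (Fin n)) ⊆ Finset.univ.filter fun j => τ j = v := by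
        intro x hx
        rw [Finset.mem_insert, Finset.mem_singleton] at hx
        rw [Finset.mem_filter]
        rcases hx with rfl | rfl
        · exact ⟨Finset.mem_univ _, hj⟩
        · exact ⟨Finset.mem_univ _, hl⟩
      have h5 := Finset.card_le_card h4
      rwa [Finset.card_pair hne2] at h5
    have m1 : 1 ≤ (Finset.univ.filter fun j => τ j = v).card := by
      have h7 : ∃ j, τ j = v := by
        rcases vertex_class hr h hne v with h0 | ⟨j, hj, -⟩ | ⟨j, l, hj, -⟩
        · exact absurd h0 hs
        · exact ⟨j, hj⟩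
        · exact ⟨j, hj⟩
      obtain ⟨j, hj⟩ := h7
      exact Finset.card_pos.2 ⟨j, Finset.mem_filter.2 ⟨Finset.mem_univ _, hj⟩⟩
    by_cases hl : Leaf G v
    · have ht : ¬ Two G v := fun ht => h12 ⟨hl, ht⟩
      rw [if_pos hl, if_neg (fun hh => ht hh.2)]
      by_cases hc : Corner y r P τ v
      · rw [if_pos ⟨hs, hc⟩]
        exact m2 hc
      · rw [if_neg (fun hh => hc hh.2)]
        exact m1
    · rw [if_neg hl]
      by_cases ht : Two G v
      · rw [if_pos ⟨hs, ht⟩]
        by_cases hc : Corner y r P τ v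
        · rw [if_pos ⟨hs, hc⟩]
          exact m2 hc
        · rw [if_neg (fun hh => hc hh.2)]
          exact m1
      · rw [if_neg (fun hh => ht hh.2)]
        by_cases hc : Corner y r P τ v
        · rw [if_pos ⟨hs, hc⟩]
          exact le_trans (by norm_num) (m2 hc)
        · rw [if_neg (fun hh => hc hh.2)]
          exact Nat.zero_le _

end Pool.Agent.Lib.P7ee
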