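import Pool.Agent.Lib.P7ee.Defs

/-!
# P7ee.Cover: finite open covers with small total diameter  (1.2 h)

`MeasureTheory.Measure.hausdorffMeasure_apply` (`d = 1`): for the scale `δ/2` there is a cover `t n` of `S` with `diam (t n) ≤ δ/2` and
`∑ diam (t n) ≤ μH[1] S + ε/4` (in `ℝ≥0∞`; `(⨆ (_ : (t n).Nonempty), diam (t n) ^ 1) = diam (t n)`, also for the empty set). Let `U n = Metric.thickening (η n) (t n)`, `0 < η n ≤ δ/4`, `2 * ∑ η n ≤ ε/4`:
open, `diam (U n) ≤ diam (t n) + 2 η n` (`Metric.diam_thickening_le` or `ediam` version). A finite subfamily covers the compact set `S`; keep only the members which meet `S`;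
reindex by `Fin N` (`Finset.equivFin`). The sum of finitely many real diameters is at most the `tsum`, `(μH[1] S).toReal` makes sense by `hfin`.
-/

set_option autoImplicit false

open MeasureTheory Set Metric Filter Topology

namespace Pool.Agent.Lib.P7ee

theorem exists_cover {S : Set ℂ} (hS : IsCompact S) (hfin : μH[1] S < ⊤) {δ ε : ℝ} (hδ : 0 < δ)
    (hε : 0 < ε) : ∃ (N : ℕ) (U : Fin N → Set ℂ), (∀ i, IsOpen (U i)) ∧
      (∀ i, (U i ∩ S).Nonempty) ∧ (∀ i, Bornology.IsBounded (U i)) ∧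
      (∀ i, Metric.diam (U i) ≤ δ) ∧ S ⊆ ⋃ i, U i ∧
      ∑ i, Metric.diam (U i) ≤ (μH[1] S).toReal + ε := by
  classical
  have hr : (0 : ENNReal) < ENNReal.ofReal (δ / 2) := by
    rw [ENNReal.ofReal_pos]; linarith
  have h1 : (⨅ (t : ℕ → Set ℂ) (_ : S ⊆ ⋃ n, t n)
      (_ : ∀ n : ℕ, Metric.ediam (t n) ≤ ENNReal.ofReal (δ / 2)),
        ∑' n : ℕ, ⨆ _ : (t n).Nonempty, Metric.ediam (t n) ^ (1 : ℝ)) ≤ μH[1] S := by
    rw [Measure.hausdorffMeasure_apply]
    exact le_iSup₂_of_le (ENNReal.ofReal (δ / 2)) hr le_rfl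
  have hε4 : ENNReal.ofReal (ε / 4) ≠ 0 := by
    have : 0 < ENNReal.ofReal (ε / 4) := by rw [ENNReal.ofReal_pos]; linarith
    exact this.ne'
  have h2 := lt_of_le_of_lt h1 (ENNReal.lt_add_right hfin.ne hε4)
  simp only [iInf_lt_iff] at h2
  obtain ⟨t, htc, htd, hts⟩ := h2
  have hsup : ∀ n : ℕ, (⨆ _ : (t n).Nonempty, Metric.ediam (t n) ^ (1 : ℝ)) = Metric.ediam (t n) := by
    intro n
    rcases (t n).eq_empty_or_nonempty with h | h
    · rw [h]; simp
    · simp [h]
  have hts' : ∑' n : ℕ, Metric.ediam (t n) < μH[1] S + ENNReal.ofReal (ε / 4) := by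
    simpa only [hsup] using hts
  have hε8 : ENNReal.ofReal (ε / 8) ≠ 0 := by
    have : 0 < ENNReal.ofReal (ε / 8) := by rw [ENNReal.ofReal_pos]; linarith
    exact this.ne'
  obtain ⟨ε', hε'pos, hε'sum⟩ := ENNReal.exists_pos_sum_of_countable hε8 ℕ
  have hδ4 : (0 : ℝ) ≤ δ / 4 := by linarith
  let δ4 : NNReal := ⟨δ / 4, hδ4⟩
  have hδ4pos : 0 < δ4 := by
    rw [← NNReal.coe_pos]; show 0 < δ / 4; linarith
  let η : ℕ → NNReal := fun n => min (ε' n) δ4
  have hηpos : ∀ n, 0 < η n := fun n => lt_min (hε'pos n) hδ4pos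
  have hηsum : ∑' n, (η n : ENNReal) ≤ ENNReal.ofReal (ε / 8) := by
    refine le_trans (ENNReal.tsum_le_tsum fun n => ?_) hε'sum.le
    exact_mod_cast min_le_left _ _
  let U : ℕ → Set ℂ := fun n => Metric.thickening (η n : ℝ) (t n)
  have hUo : ∀ n, IsOpen (U n) := fun n => Metric.isOpen_thickening
  have hUd : ∀ n, Metric.ediam (U n) ≤ Metric.ediam (t n) + 2 * (η n : ENNReal) := fun n =>
    Metric.ediam_thickening_le (η n)
  have hUδ : ∀ n, Metric.ediam (U n) ≤ ENNReal.ofReal δ := by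
    intro n
    refine (hUd n).trans ?_
    have hη : (η n : ENNReal) ≤ ENNReal.ofReal (δ / 4) := by
      have : (η n : ENNReal) ≤ (δ4 : ENNReal) := by exact_mod_cast min_le_right _ _
      refine this.trans (le_of_eq ?_)
      rw [ENNReal.ofReal_eq_coe_nnreal hδ4]; rfl
    calc Metric.ediam (t n) + 2 * (η n : ENNReal)
        ≤ ENNReal.ofReal (δ / 2) + 2 * ENNReal.ofReal (δ / 4) := by gcongr; exact htd n
      _ = ENNReal.ofReal δ := by
          rw [show (2 : ENNReal) = ENNReal.ofReal 2 by simp, ← ENNReal.ofReal_mul (by norm_num),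
            ← ENNReal.ofReal_add (by linarith) (by linarith)]
          congr 1; ring
  have hUne : ∀ n, Metric.ediam (U n) ≠ ⊤ := fun n =>
    ne_top_of_le_ne_top ENNReal.ofReal_ne_top (hUδ n)
  have hSU : S ⊆ ⋃ n, U n := htc.trans (iUnion_mono fun n =>
    Metric.self_subset_thickening (by exact_mod_cast hηpos n) (t n))
  obtain ⟨T, hT⟩ := hS.elim_finite_subcover U hUo hSU
  let T' : Finset ℕ := T.filter fun n => (U n ∩ S).Nonempty
  have hT' : S ⊆ ⋃ n ∈ T', U n := by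
    intro x hx
    obtain ⟨n, hn, hxn⟩ := mem_iUnion₂.1 (hT hx)
    exact mem_iUnion₂.2 ⟨n, Finset.mem_filter.2 ⟨hn, ⟨x, hxn, hx⟩⟩, hxn⟩
  let e := T'.equivFin
  refine ⟨T'.card, fun i => U (e.symm i), fun i => hUo _, fun i => ?_, fun i => ?_, fun i => ?_, ?_, ?_⟩
  · exact (Finset.mem_filter.1 (e.symm i).2).2
  · exact Metric.isBounded_iff_ediam_ne_top.2 (hUne _)
  · show (Metric.ediam (U (e.symm i))).toReal ≤ δ
    have := ENNReal.toReal_mono ENNReal.ofReal_ne_top (hUδ (e.symm i))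
    rwa [ENNReal.toReal_ofReal hδ.le] at this
  · intro x hx
    obtain ⟨n, hn, hxn⟩ := mem_iUnion₂.1 (hT' hx)
    refine mem_iUnion.2 ⟨e ⟨n, hn⟩, ?_⟩
    simpa using hxn
  · have hs1 : ∑ i, Metric.diam (U (e.symm i)) = ∑ n ∈ T', Metric.diam (U n) := by
      rw [Equiv.sum_comp e.symm (fun x : T' => Metric.diam (U x))]
      exact Finset.sum_coe_sort T' (fun n => Metric.diam (U n))
    rw [hs1]
    have hs2 : ∑ n ∈ T', Metric.diam (U n) = (∑ n ∈ T', Metric.ediam (U n)).toReal := by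
      rw [ENNReal.toReal_sum (fun n _ => hUne n)]
      rfl
    rw [hs2]
    have hs3 : ∑ n ∈ T', Metric.ediam (U n) ≤ μH[1] S + ENNReal.ofReal ε := by
      calc ∑ n ∈ T', Metric.ediam (U n) ≤ ∑' n, Metric.ediam (U n) := ENNReal.sum_le_tsum _
        _ ≤ ∑' n, (Metric.ediam (t n) + 2 * (η n : ENNReal)) := ENNReal.tsum_le_tsum hUd
        _ = ∑' n, Metric.ediam (t n) + 2 * ∑' n, (η n : ENNReal) := by
            rw [ENNReal.tsum_add, ENNReal.tsum_mul_left]
        _ ≤ (μH[1] S + ENNReal.ofReal (ε / 4)) + 2 * ENNReal.ofReal (ε / 8) := by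
            gcongr
        _ = μH[1] S + ENNReal.ofReal (ε / 2) := by
            rw [add_assoc, show (2 : ENNReal) = ENNReal.ofReal 2 by simp,
              ← ENNReal.ofReal_mul (by norm_num), ← ENNReal.ofReal_add (by linarith) (by linarith)]
            congr 2; ring
        _ ≤ μH[1] S + ENNReal.ofReal ε := by
            gcongr; linarith
    have hs4 := ENNReal.toReal_mono (ENNReal.add_ne_top.2 ⟨hfin.ne, ENNReal.ofReal_ne_top⟩) hs3
    rwa [ENNReal.toReal_add hfin.ne ENNReal.ofReal_ne_top, ENNReal.toReal_ofReal hε.le] at hs4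

end Pool.Agent.Lib.P7ee
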