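import Mathlib

/-!
# MP_7ee880_gt: definitions of the problem

The plane is `ℂ` with its Euclidean distance.  `μH[1]` is the one-dimensional Hausdorff measure.
-/

set_option autoImplicit false

open MeasureTheory Set Metric

namespace Pool.Agent.Lib.P7ee

/-- `S` is a nonempty compact connected set whose closed `r`-neighbourhood contains `M` -/
def Comp (M : Set ℂ) (r : ℝ) (S : Set ℂ) : Prop :=
  IsConnected S ∧ IsCompact S ∧ M ⊆ cthickening r S

/-- `S` is an `r`-minimizer for `M` -/
def IsMinimizer (M : Set ℂ) (r : ℝ) (S : Set ℂ) : Prop :=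
  Comp M r S ∧ ∀ S' : Set ℂ, Comp M r S' → μH[1] S ≤ μH[1] S'

/-- the energetic points of `S` -/
def energetic (M : Set ℂ) (r : ℝ) (S : Set ℂ) : Set ℂ :=
  {x | x ∈ S ∧ ∃ y ∈ M, dist x y = r ∧ ball y r ∩ S = ∅}

/-- the subfield of `ℝ` generated by the coordinates of the points of `S` -/
noncomputable def coordField (S : Set ℂ) : IntermediateField ℚ ℝ :=
  IntermediateField.adjoin ℚ {t : ℝ | ∃ x ∈ S, t = x.re ∨ t = x.im}

/-- the degree over `ℚ` of the field generated by the coordinates, `⊤` if infinite -/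
noncomputable def deg (S : Set ℂ) : ℕ∞ := Cardinal.toENat (Module.rank ℚ (coordField S))

/-- both coordinates are rational -/
def RatPt (z : ℂ) : Prop := (∃ q : ℚ, z.re = q) ∧ ∃ q : ℚ, z.im = q

/-- admissible pairs -/
def Admissible (M : Set ℂ) (r : ℝ) : Prop :=
  M.Finite ∧ (∀ z ∈ M, RatPt z) ∧ 0 < r ∧ (∃ q : ℚ, r = q) ∧ ∀ c : ℂ, ¬ M ⊆ closedBall c r

/-- `δ(M, r)`: the least degree of the field of the energetic points of an `r`-minimizer -/
noncomputable def delta (M : Set ℂ) (r : ℝ) : ℕ∞ :=
  ⨅ (S : Set ℂ) (_ : IsMinimizer M r S), deg (energetic M r S)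

/-- `D(n)` -/
noncomputable def D (n : ℕ) : ℕ∞ :=
  ⨆ (M : Set ℂ) (r : ℝ) (_ : Admissible M r ∧ M.ncard = n), delta M r

/-! ### growing trees -/

/-- `Grow A L`: there is a tree of straight segments with vertex set `A` and total length `L`, built by
adding one vertex at a time. -/
inductive Grow : Finset ℂ → ℝ → Prop
  | base (z : ℂ) : Grow {z} 0
  | step {A : Finset ℂ} {L : ℝ} (h : Grow A L) {v : ℂ} (hv : v ∈ A) (z : ℂ) :
      Grow (insert z A) (L + dist v z)

/-! ### networks -/

open Classical in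
/-- the length of the network with graph `G` and positions `P` -/
noncomputable def len {V : Type} [Fintype V] (G : SimpleGraph V) (P : V → ℂ) : ℝ :=
  (1 / 2) * ∑ a, ∑ b, (if G.Adj a b then dist (P a) (P b) else 0)

/-- feasible networks: connected, the vertex `τ j` is within distance `r` of `y j` -/
def Feas {n : ℕ} (y : Fin n → ℂ) (r : ℝ) {V : Type} (G : SimpleGraph V) (P : V → ℂ)
    (τ : Fin n → V) : Prop :=
  G.Connected ∧ ∀ j, dist (P (τ j)) (y j) ≤ r

/-- networks of minimal length (among all feasible networks with any finite vertex set) -/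
def IsOpt {n : ℕ} (y : Fin n → ℂ) (r : ℝ) {V : Type} [Fintype V] (G : SimpleGraph V) (P : V → ℂ)
    (τ : Fin n → V) : Prop :=
  Feas y r G P τ ∧ ∀ (V' : Type) [Fintype V'] (G' : SimpleGraph V') (P' : V' → ℂ)
    (τ' : Fin n → V'), Feas y r G' P' τ' → len G P ≤ len G' P'

/-- unit vector from `P a` to `P b` -/
noncomputable def dir {V : Type} (P : V → ℂ) (a b : V) : ℂ := (P b - P a) / (‖P b - P a‖ : ℂ)

open Classical in
/-- the sum of the unit vectors of the edges at `v` -/
noncomputable def svec {V : Type} [Fintype V] (G : SimpleGraph V) (P : V → ℂ) (v : V) : ℂ :=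
  ∑ b, (if G.Adj v b then dir P v b else 0)

/-- the union of the segments of the network -/
def netSet {V : Type} (G : SimpleGraph V) (P : V → ℂ) : Set ℂ :=
  {z | ∃ a b, G.Adj a b ∧ z ∈ segment ℝ (P a) (P b)}

/-- real inner product of complex numbers -/
def ip (z w : ℂ) : ℝ := z.re * w.re + z.im * w.im

end Pool.Agent.Lib.P7ee
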