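import Pool.Agent.Lib.P7ee.QDefs

/-!
# P7ee.Ratio: slow growth of the number of exponent vectors  (0.8 h)

Suppose `(q + 1) * card (Ex s) ≤ q * card (Ex (s + n))` for all `s`. Then `q ≥ 1` (`card ≥ 1`: the zero vector) and by induction `card (Ex (j n)) ≥ ((q+1)/q)^j`, exponential growth in `j`; but `card (Ex s) ≤ (s+1)^(card σ)` (subset of the `piFinset`), a contradiction for large `j`
(`tendsto_pow_const_div_const_pow_of_one_lt` or similar). (For `n = 0` the assumption fails at once.)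
-/

set_option autoImplicit false

open MvPolynomial

namespace Pool.Agent.Lib.P7ee

namespace RatioAux

theorem card_le (σ : Type) [Fintype σ] [DecidableEq σ] (s : ℕ) :
    (Ex σ s).card ≤ (s + 1) ^ Fintype.card σ := by
  refine (Finset.card_filter_le _ _).trans ?_
  rw [Fintype.card_piFinset]
  simp

theorem card_pos (σ : Type) [Fintype σ] [DecidableEq σ] (s : ℕ) : 1 ≤ (Ex σ s).card := by
  refine Finset.card_pos.2 ⟨0, ?_⟩
  simp only [Ex, Finset.mem_filter, Fintype.mem_piFinset, Finset.mem_range]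
  refine ⟨fun i => ?_, ?_⟩
  · simp
  · simp

theorem growth (σ : Type) [Fintype σ] [DecidableEq σ] (q n : ℕ)
    (h : ∀ s : ℕ, (q + 1) * (Ex σ s).card ≤ q * (Ex σ (s + n)).card) (j : ℕ) :
    (q + 1) ^ j ≤ q ^ j * (Ex σ (j * n)).card := by
  induction j with
  | zero => simpa using card_pos σ 0
  | succ j ih =>
    calc (q + 1) ^ (j + 1) = (q + 1) ^ j * (q + 1) := pow_succ _ _
      _ ≤ (q ^ j * (Ex σ (j * n)).card) * (q + 1) := Nat.mul_le_mul_right _ ih
      _ = q ^ j * ((q + 1) * (Ex σ (j * n)).card) := by ring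
      _ ≤ q ^ j * (q * (Ex σ (j * n + n)).card) := Nat.mul_le_mul_left _ (h _)
      _ = q ^ (j + 1) * (Ex σ ((j + 1) * n)).card := by
        rw [add_mul, one_mul, pow_succ]; ring

end RatioAux

open RatioAux in
theorem exists_ratio (σ : Type) [Fintype σ] [DecidableEq σ] (q n : ℕ) :
    ∃ s : ℕ, q * (Ex σ (s + n)).card < (q + 1) * (Ex σ s).card := by
  by_contra hcon
  push Not at hcon
  have hq : 1 ≤ q := by
    by_contra h0
    have h1 : q = 0 := by omega
    have h2 := hcon 0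
    rw [h1] at h2
    have h3 := card_pos σ 0
    omega
  set d := Fintype.card σ with hd
  have hqr : (0 : ℝ) < q := by exact_mod_cast hq
  set r : ℝ := ((q : ℝ) + 1) / q with hr
  have hr1 : 1 < r := by
    rw [hr, lt_div_iff₀ hqr]
    linarith
  have hr0 : 0 < r := lt_trans one_pos hr1
  have key : ∀ j : ℕ, 1 ≤ j → (1 : ℝ) ≤ ((n : ℝ) + 1) ^ d * ((j : ℝ) ^ d / r ^ j) := by
    intro j hj
    have h1 := growth σ q n hcon j
    have h2 : (q + 1) ^ j ≤ q ^ j * (j * n + 1) ^ d :=
      h1.trans (Nat.mul_le_mul_left _ (card_le σ (j * n)))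
    have h3 : ((q : ℝ) + 1) ^ j ≤ (q : ℝ) ^ j * ((j : ℝ) * n + 1) ^ d := by exact_mod_cast h2
    have h4 : r ^ j ≤ ((j : ℝ) * n + 1) ^ d := by
      rw [hr, div_pow, div_le_iff₀ (pow_pos hqr j)]
      linarith
    have hj' : (1 : ℝ) ≤ j := by exact_mod_cast hj
    have h5 : ((j : ℝ) * n + 1) ^ d ≤ ((n : ℝ) + 1) ^ d * (j : ℝ) ^ d := by
      rw [← mul_pow]
      refine pow_le_pow_left₀ (by positivity) ?_ d
      nlinarith
    rw [← mul_div_assoc, le_div_iff₀ (pow_pos hr0 j), one_mul]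
    exact h4.trans h5
  have hlim := (tendsto_pow_const_div_const_pow_of_one_lt d hr1).const_mul (((n : ℝ) + 1) ^ d)
  rw [mul_zero] at hlim
  have h6 := (hlim.eventually (gt_mem_nhds (show (0 : ℝ) < 1 from one_pos))).and
    (Filter.eventually_ge_atTop 1)
  obtain ⟨j, hj1, hj2⟩ := h6.exists
  exact absurd (key j hj2) (not_le.2 hj1)

end Pool.Agent.Lib.P7ee
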