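import Pool.Agent.Lib.P7ee.EvenCount
import Pool.Agent.Lib.P7ee.Ratio

/-!
# P7ee.Dep: a linear relation by counting  (1.5 h)

`m = card σ`, `n = 2 ^ (m - 1)`. Let `N0 = n * (Θ.totalDegree)` and `s` from `exists_ratio σ n N0`. The polynomials `(∏ i, f i ^ a i) * Θ ^ b`, `a ∈ Ex σ s`, `b ≤ n`, are even (`EvenP` is closed under products: the degree of a monomial of a product is a sum) and have degree `≤ 2 s + n * deg Θ ≤ 2 (s + N0)`, so their coefficient vectors are
supported on `Evs σ (s + N0)` (identify `σ →₀ ℕ` with `σ → ℕ`, `Finsupp.equivFunOnFinite`; each entry is at most the degree). Their number is `(n+1) * card (Ex s) > n * card (Ex (s+N0)) ≥ card (Evs (s+N0))` (`even_count`). More vectors than the rank of the free module `Evs → A` are linearly dependent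
(`A` is a domain: strong rank condition, e.g. `LinearIndependent.fintype_card_le_finrank` / `card_le_of_injective'`), and a relation between the coefficient vectors is a relation between the polynomials.
-/

set_option autoImplicit false

open MvPolynomial

namespace Pool.Agent.Lib.P7ee

namespace DepAux

variable {σ A : Type} [CommRing A]

theorem even_iff {f : MvPolynomial σ A} : EvenP f ↔ ∀ e, coeff e f ≠ 0 → Even e.degree := by
  unfold EvenP
  simp only [mem_support_iff]

theorem even_one : EvenP (1 : MvPolynomial σ A) := by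
  classical
  rw [even_iff]
  intro e he
  rw [coeff_one] at he
  split_ifs at he with h
  · rw [← h]
    simp
  · exact absurd rfl he

theorem even_mul {f g : MvPolynomial σ A} (hf : EvenP f) (hg : EvenP g) : EvenP (f * g) := by
  classical
  rw [even_iff] at hf hg ⊢
  intro e he
  rw [coeff_mul] at he
  obtain ⟨x, hx, h1⟩ := Finset.exists_ne_zero_of_sum_ne_zero he
  have hx' := Finset.HasAntidiagonal.mem_antidiagonal.1 hx
  have h2 := hf x.1 (left_ne_zero_of_mul h1)
  have h3 := hg x.2 (right_ne_zero_of_mul h1)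
  rw [← hx', map_add]
  exact h2.add h3

theorem even_pow {f : MvPolynomial σ A} (hf : EvenP f) (k : ℕ) : EvenP (f ^ k) := by
  induction k with
  | zero => rw [pow_zero]; exact even_one
  | succ k ih => rw [pow_succ]; exact even_mul ih hf

theorem even_prod {ι : Type} (s : Finset ι) (f : ι → MvPolynomial σ A)
    (hf : ∀ i ∈ s, EvenP (f i)) : EvenP (∏ i ∈ s, f i) := by
  classical
  induction s using Finset.induction_on with
  | empty => rw [Finset.prod_empty]; exact even_one
  | insert a s ha ih =>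
    rw [Finset.prod_insert ha]
    exact even_mul (hf a (Finset.mem_insert_self a s))
      (ih fun i hi => hf i (Finset.mem_insert_of_mem hi))

/-- the products of the relation -/
noncomputable def term [Fintype σ] (f : σ → MvPolynomial σ A) (Θ : MvPolynomial σ A)
    (a : σ → ℕ) (b : ℕ) : MvPolynomial σ A := (∏ i, f i ^ a i) * Θ ^ b

theorem term_even [Fintype σ] {f : σ → MvPolynomial σ A} (hf : ∀ i, IsQuad (f i))
    {Θ : MvPolynomial σ A} (hΘ : EvenP Θ) (a : σ → ℕ) (b : ℕ) : EvenP (term f Θ a b) :=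
  even_mul (even_prod _ _ fun i _ => even_pow (hf i).2 _) (even_pow hΘ b)

theorem term_deg [Fintype σ] [DecidableEq σ] {f : σ → MvPolynomial σ A} (hf : ∀ i, IsQuad (f i))
    (Θ : MvPolynomial σ A) {s n : ℕ} {a : σ → ℕ} (ha : a ∈ Ex σ s) {b : ℕ} (hb : b ≤ n) :
    (term f Θ a b).totalDegree ≤ 2 * (s + n * Θ.totalDegree) := by
  have h1 : (∏ i, f i ^ a i).totalDegree ≤ 2 * s := by
    refine (totalDegree_finsetProd _ _).trans ?_
    have h2 : ∀ i ∈ (Finset.univ : Finset σ), (f i ^ a i).totalDegree ≤ 2 * a i := by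
      intro i _
      refine (totalDegree_pow _ _).trans ?_
      rw [mul_comm 2]
      exact Nat.mul_le_mul_left _ (hf i).1
    refine (Finset.sum_le_sum h2).trans ?_
    rw [← Finset.mul_sum]
    have h3 := (Finset.mem_filter.1 ha).2
    exact Nat.mul_le_mul_left _ h3
  have h4 : (Θ ^ b).totalDegree ≤ n * Θ.totalDegree :=
    (totalDegree_pow _ _).trans (Nat.mul_le_mul_right _ hb)
  have h5 : (term f Θ a b).totalDegree ≤ _ := totalDegree_mul _ _
  generalize n * Θ.totalDegree = N at h4 ⊢
  omega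

theorem coeff_zero_of [Fintype σ] [DecidableEq σ] {F : MvPolynomial σ A} {S : ℕ}
    (hE : EvenP F) (hd : F.totalDegree ≤ 2 * S) (e : σ →₀ ℕ) (he : (⇑e : σ → ℕ) ∉ Evs σ S) :
    coeff e F = 0 := by
  by_contra hne
  apply he
  have h1 : e.degree = ∑ i, e i := Finsupp.degree_eq_sum e
  have h2 : e.degree ≤ F.totalDegree := by
    have h3 := le_totalDegree (mem_support_iff.2 hne)
    rwa [show (e.sum fun _ m => m) = e.degree from by
      rw [h1, Finsupp.sum_fintype _ _ (fun _ => rfl)]] at h3
  have h4 := even_iff.1 hE e hne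
  rw [h1] at h2 h4
  unfold Evs
  rw [Finset.mem_filter, Fintype.mem_piFinset]
  refine ⟨fun i => ?_, h2.trans hd, h4⟩
  rw [Finset.mem_range]
  have h5 : e i ≤ ∑ j, e j := Finset.single_le_sum (f := fun j => e j)
    (fun _ _ => Nat.zero_le _) (Finset.mem_univ i)
  omega

end DepAux

open DepAux

theorem exists_rel {σ A : Type} [Fintype σ] [DecidableEq σ] [Nonempty σ] [CommRing A] [IsDomain A]
    (f : σ → MvPolynomial σ A) (hf : ∀ i, IsQuad (f i)) (Θ : MvPolynomial σ A) (hΘ : EvenP Θ) :
    ∃ (s : ℕ) (c : (σ → ℕ) → ℕ → A),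
      (∃ a ∈ Ex σ s, ∃ b ∈ Finset.range (2 ^ (Fintype.card σ - 1) + 1), c a b ≠ 0) ∧
      ∑ a ∈ Ex σ s, ∑ b ∈ Finset.range (2 ^ (Fintype.card σ - 1) + 1),
        C (c a b) * (∏ i, f i ^ a i) * Θ ^ b = 0 := by
  classical
  obtain ⟨n, hn⟩ : ∃ n, n = 2 ^ (Fintype.card σ - 1) := ⟨_, rfl⟩
  rw [← hn]
  obtain ⟨N, hN⟩ : ∃ N, N = n * Θ.totalDegree := ⟨_, rfl⟩
  obtain ⟨s, hs⟩ := exists_ratio σ n N
  have hcount := even_count σ (s + N)
  rw [← hn] at hcount
  let I : Finset ((σ → ℕ) × ℕ) := Ex σ s ×ˢ Finset.range (n + 1)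
  let J : Finset (σ → ℕ) := Evs σ (s + N)
  have hcard : J.card < I.card := by
    have h1 : I.card = (Ex σ s).card * (n + 1) := by
      simp only [I, Finset.card_product, Finset.card_range]
    rw [h1, mul_comm]
    exact hcount.trans_lt hs
  let v : I → J → A := fun x e => coeff (Finsupp.equivFunOnFinite.symm e.1) (term f Θ x.1.1 x.1.2)
  have hdep : ¬ LinearIndependent A v := by
    intro hli
    have h1 := hli.fintype_card_le_finrank
    rw [Module.finrank_fintype_fun_eq_card, Fintype.card_coe, Fintype.card_coe] at h1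
    omega
  rw [Fintype.not_linearIndependent_iff] at hdep
  obtain ⟨g, hg, x0, hx0⟩ := hdep
  let c : (σ → ℕ) → ℕ → A := fun a b => if h : (a, b) ∈ I then g ⟨(a, b), h⟩ else 0
  have hc : ∀ x : I, c x.1.1 x.1.2 = g x := by
    intro x
    simp only [c]
    rw [dif_pos x.2]
  refine ⟨s, c, ⟨x0.1.1, (Finset.mem_product.1 x0.2).1, x0.1.2, (Finset.mem_product.1 x0.2).2, ?_⟩, ?_⟩
  · rw [hc]
    exact hx0
  · have h1 : ∑ a ∈ Ex σ s, ∑ b ∈ Finset.range (n + 1), C (c a b) * (∏ i, f i ^ a i) * Θ ^ b
        = ∑ x ∈ I, C (c x.1 x.2) * term f Θ x.1 x.2 := by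
      simp only [I]
      rw [Finset.sum_product]
      refine Finset.sum_congr rfl fun a _ => Finset.sum_congr rfl fun b _ => ?_
      rw [term, mul_assoc]
    rw [h1]
    ext e
    rw [coeff_sum, coeff_zero]
    by_cases he : (⇑e : σ → ℕ) ∈ J
    · have h2 := congrFun hg ⟨⇑e, he⟩
      rw [Finset.sum_apply] at h2
      rw [← Finset.sum_coe_sort I]
      refine Eq.trans (Finset.sum_congr rfl fun x _ => ?_) h2
      rw [coeff_C_mul, hc]
      simp only [Pi.smul_apply, smul_eq_mul, v]
      congr 2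
      ext i
      rfl
    · refine Finset.sum_eq_zero fun x hx => ?_
      have h3 := Finset.mem_product.1 hx
      have h4 : x.2 ≤ n := by
        have := Finset.mem_range.1 h3.2
        omega
      have h5 := term_deg hf Θ h3.1 h4
      rw [← hN] at h5
      rw [coeff_C_mul, coeff_zero_of (term_even hf hΘ x.1 x.2) h5 e he, mul_zero]

end Pool.Agent.Lib.P7ee
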