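import Pool.Agent.Lib.P7ee.UDefs
import Pool.Agent.Lib.P7ee.DegThree

/-!
# P7ee.DirPow: directions in one component  (1 h)

Along an edge of `dgr`: `x' = x.symm`: `dir P b a = - dir P a b` (`norm_sub_rev`). Same first vertex `v` with `svec G P v = 0`, different darts to `a ≠ b`: if `v` has a third neighbour, `three` gives `d_a + d_b + d_c = 0` for unit vectors (`norm_dir`), so `(d_b/d_a)` is a primitive third root of unity: from `1 + w + w' = 0`, `|w| = |w'| = 1`:
`w' = -1 - w`, `1 = |1 + w|² = 2 + 2 Re w`, `Re w = -1/2`, `w² + w + 1 = 0`, `w³ = 1`. If `a`, `b` are the only neighbours, `svec = d_a + d_b = 0`. So `d_b^6 = d_a^6` always and `d_b^2 = d_a^2` if there is no vertex with three different neighbours. Induction on the walk (`Reachable`).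
-/

set_option autoImplicit false

open Set Metric

namespace Pool.Agent.Lib.P7ee

namespace DirPowAux

theorem dir_rev {V : Type} (P : V → ℂ) (a b : V) : dir P b a = - dir P a b := by
  unfold dir
  rw [norm_sub_rev (P a) (P b), ← neg_sub (P b) (P a), neg_div]

theorem dd_symm {V : Type} {G : SimpleGraph V} (P : V → ℂ) (x : G.Dart) :
    dd P x.symm = - dd P x := by
  unfold dd
  exact dir_rev P x.fst x.snd

theorem conj_mul_self {z : ℂ} (h : ‖z‖ = 1) : z * (starRingEnd ℂ) z = 1 := by
  rw [Complex.mul_conj, Complex.normSq_eq_norm_sq, h]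
  norm_num

theorem cube_eq {a b c : ℂ} (ha : ‖a‖ = 1) (hb : ‖b‖ = 1) (hc : ‖c‖ = 1)
    (hs : a + b + c = 0) : b ^ 3 = a ^ 3 := by
  have h1 := conj_mul_self ha
  have h2 := conj_mul_self hb
  have h3 := conj_mul_self hc
  have hc' : c = -(a + b) := by linear_combination hs
  rw [hc', map_neg, map_add] at h3
  set a' := (starRingEnd ℂ) a
  set b' := (starRingEnd ℂ) b
  have h4 : a * b' + b * a' = -1 := by linear_combination h3 - h1 - h2
  -- w = a b', w' = b a'
  have h5 : (a * b') * (b * a') = 1 := by linear_combination (b * b') * h1 + h2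
  have h6 : (a * b') ^ 2 + a * b' + 1 = 0 := by
    linear_combination (a * b') * h4 - h5
  have h7 : (a * b') ^ 3 = 1 := by linear_combination (a * b' - 1) * h6
  have h8 : a ^ 3 = a ^ 3 * (b * b') ^ 3 := by rw [h2]; ring
  calc b ^ 3 = b ^ 3 * (a * b') ^ 3 := by rw [h7]; ring
    _ = a ^ 3 * (b * b') ^ 3 := by ring
    _ = a ^ 3 := h8.symm

theorem vertex {n : ℕ} {y : Fin n → ℂ} {r : ℝ} {V : Type} [Fintype V]
    {G : SimpleGraph V} {P : V → ℂ} {τ : Fin n → V} (h : IsOpt y r G P τ)
    (hne : ∀ a b, G.Adj a b → P a ≠ P b) {v a b : V} (ha : G.Adj v a) (hb : G.Adj v b)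
    (hs : svec G P v = 0) :
    dir P v b ^ 6 = dir P v a ^ 6 ∧ ((∀ v, ¬ Three G v) → dir P v b ^ 2 = dir P v a ^ 2) := by
  classical
  by_cases hab : a = b
  · subst hab
    exact ⟨rfl, fun _ => rfl⟩
  by_cases hex : ∃ c, G.Adj v c ∧ a ≠ c ∧ b ≠ c
  · obtain ⟨c, hc, hac, hbc⟩ := hex
    obtain ⟨-, hall, hsum⟩ := three h hne ha hb hc hab hac hbc
    have h3 : dir P v b ^ 3 = dir P v a ^ 3 :=
      cube_eq (norm_dir (hne _ _ ha)) (norm_dir (hne _ _ hb)) (norm_dir (hne _ _ hc)) hsum
    refine ⟨?_, fun hT => ?_⟩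
    · calc dir P v b ^ 6 = (dir P v b ^ 3) ^ 2 := by ring
        _ = (dir P v a ^ 3) ^ 2 := by rw [h3]
        _ = dir P v a ^ 6 := by ring
    · exfalso
      refine hT v ⟨a, b, c, hab, hac, hbc, fun e => ⟨hall e, ?_⟩⟩
      rintro (rfl | rfl | rfl) <;> assumption
  · have hall : ∀ x, G.Adj v x ↔ x ∈ ({a, b} : Finset V) := by
      intro x
      constructor
      · intro hx
        by_contra hcon
        simp only [Finset.mem_insert, Finset.mem_singleton, not_or] at hcon
        exact hex ⟨x, hx, fun e => hcon.1 e.symm, fun e => hcon.2 e.symm⟩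
      · intro hx
        simp only [Finset.mem_insert, Finset.mem_singleton] at hx
        rcases hx with rfl | rfl <;> assumption
    have hsum : dir P v a + dir P v b = 0 := by
      rw [← hs]
      unfold svec
      have e1 : ∀ x, (if G.Adj v x then dir P v x else 0) =
          (if x ∈ ({a, b} : Finset V) then dir P v x else 0) := by
        intro x
        by_cases hx : G.Adj v x
        · rw [if_pos hx, if_pos ((hall x).1 hx)]
        · rw [if_neg hx, if_neg (fun h' => hx ((hall x).2 h'))]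
      rw [Finset.sum_congr rfl (fun x _ => e1 x), Finset.sum_ite_mem, Finset.univ_inter,
        Finset.sum_insert (by simp [hab]), Finset.sum_singleton]
    have hb' : dir P v b = - dir P v a := by linear_combination hsum
    rw [hb']
    exact ⟨by ring, fun _ => by ring⟩

theorem step {n : ℕ} {y : Fin n → ℂ} {r : ℝ} {V : Type} [Fintype V]
    {G : SimpleGraph V} {P : V → ℂ} {τ : Fin n → V} (h : IsOpt y r G P τ)
    (hne : ∀ a b, G.Adj a b → P a ≠ P b) (x x' : G.Dart)
    (hr : (dgr G fun v => svec G P v = 0).Adj x x') :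
    dd P x' ^ 6 = dd P x ^ 6 ∧ ((∀ v, ¬ Three G v) → dd P x' ^ 2 = dd P x ^ 2) := by
  unfold dgr at hr
  rw [SimpleGraph.fromRel_adj] at hr
  obtain ⟨-, (h1 | ⟨h1, h2⟩) | (h1 | ⟨h1, h2⟩)⟩ := hr
  · subst h1
    rw [dd_symm]
    exact ⟨by ring, fun _ => by ring⟩
  · have hx' : G.Adj x.fst x'.snd := by rw [h1]; exact x'.adj
    have := vertex h hne x.adj hx' h2
    unfold dd
    rw [← h1]
    exact this
  · subst h1
    rw [dd_symm]
    exact ⟨by ring, fun _ => by ring⟩
  · have hx' : G.Adj x.fst x'.snd := by rw [← h1]; exact x'.adj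
    have h2' : svec G P x.fst = 0 := by rw [← h1]; exact h2
    have := vertex h hne x.adj hx' h2'
    unfold dd
    rw [h1]
    exact this

end DirPowAux

theorem dir_pow {n : ℕ} {y : Fin n → ℂ} {r : ℝ} {V : Type} [Fintype V]
    {G : SimpleGraph V} {P : V → ℂ} {τ : Fin n → V} (h : IsOpt y r G P τ)
    (hne : ∀ a b, G.Adj a b → P a ≠ P b) (x x' : G.Dart)
    (hr : (dgr G fun v => svec G P v = 0).Reachable x x') :
    dd P x' ^ 6 = dd P x ^ 6 ∧ ((∀ v, ¬ Three G v) → dd P x' ^ 2 = dd P x ^ 2) := by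
  obtain ⟨w⟩ := hr
  induction w with
  | nil => exact ⟨rfl, fun _ => rfl⟩
  | cons hadj _ ih =>
    have h1 := DirPowAux.step h hne _ _ hadj
    exact ⟨ih.1.trans h1.1, fun hT => (ih.2 hT).trans (h1.2 hT)⟩

end Pool.Agent.Lib.P7ee
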