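import Pool.Agent.Lib.P7ee.FirstOrder
import Pool.Agent.Lib.P7ee.DiscCone

/-!
# P7ee.DiscOpt: minimum of a sum of distances on a disc  (0.5 h)

`first_order` (the disc is convex) gives the hypothesis of `disc_cone` with the single disc `y = fun _ : Unit => c`, `r = 1`: `s ≠ 0`, no corner, so `dist p c = 1`, `s = μ (p - c)`, `μ > 0`, `p - c = s/‖s‖`.
-/

set_option autoImplicit false



namespace Pool.Agent.Lib.P7ee

theorem disc_opt {ι : Type} [Fintype ι] (a : ι → ℂ) (c p : ℂ) (hp : dist p c ≤ 1)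
    (hne : ∀ i, a i ≠ p) (hs : ∑ i, (a i - p) / (‖a i - p‖ : ℂ) ≠ 0)
    (hmin : ∀ z, dist z c ≤ 1 → ∑ i, ‖p - a i‖ ≤ ∑ i, ‖z - a i‖) :
    p = c + (∑ i, (a i - p) / (‖a i - p‖ : ℂ)) / (‖∑ i, (a i - p) / (‖a i - p‖ : ℂ)‖ : ℂ) := by
  set s : ℂ := ∑ i, (a i - p) / (‖a i - p‖ : ℂ) with hsdef
  have hfo : ∀ z : ℂ, (∀ _ : Unit, dist z ((fun _ : Unit => c) ()) ≤ 1) → ip s (z - p) ≤ 0 := by
    intro z hz
    apply first_order a p z hne
    intro w hw0 hw1
    apply hmin
    have hz1 : dist z c ≤ 1 := hz ()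
    have hmem : p + (w : ℂ) * (z - p) ∈ Metric.closedBall c 1 := by
      have hconv := convex_closedBall c (1 : ℝ)
      have h1 := hconv (x := p) (Metric.mem_closedBall.mpr hp) (y := z)
        (Metric.mem_closedBall.mpr hz1) (a := 1 - w) (b := w) (by linarith) hw0 (by ring)
      have h2 : (1 - w) • p + w • z = p + (w : ℂ) * (z - p) := by
        simp only [Complex.real_smul]
        push_cast
        ring
      rwa [h2] at h1
    exact Metric.mem_closedBall.mp hmem
  rcases disc_cone (fun _ : Unit => c) one_pos p s (fun _ => hp) hfo with h | h | h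
  · exact absurd h hs
  · obtain ⟨_, hd, μ, hμ, hsp⟩ := h
    have hn : ‖p - c‖ = 1 := by rw [← dist_eq_norm]; exact hd
    have hns : ‖s‖ = μ := by
      rw [hsp, norm_mul, hn, mul_one, Complex.norm_real, Real.norm_eq_abs, abs_of_pos hμ]
    have hμ' : (μ : ℂ) ≠ 0 := by exact_mod_cast hμ.ne'
    rw [hns, hsp, mul_div_cancel_left₀ _ hμ']
    ring
  · obtain ⟨_, _, h, _⟩ := h
    exact absurd rfl h

end Pool.Agent.Lib.P7ee
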