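import Pool.Agent.Lib.P7ee.LenBasic

/-!
# P7ee.NetSet: the continuum of a network  (1.2 h)

Compact: finite union of segments. Connected (`h2`: at least two vertices, so every vertex has a neighbour and `P a` belongs to the set): the union over adjacent pairs; use `IsConnected.biUnion_of_reflTransGen` or induction along walks. Measure: union over the unordered edges; `MeasureTheory.hausdorffMeasure_segment`
(`μH[1] (segment ℝ x y) = edist x y`), `measure_biUnion_finset_le` over `G.edgeFinset`, and the sum over the edges is half of the double sum. (`len G P` as `ENNReal.ofReal`.)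
-/

set_option autoImplicit false

open MeasureTheory Set Metric Filter Topology

namespace Pool.Agent.Lib.P7ee

theorem netSet_compact {V : Type} [Fintype V] (G : SimpleGraph V) (P : V → ℂ) :
    IsCompact (netSet G P) := by
  classical
  have h : netSet G P = ⋃ p ∈ {p : V × V | G.Adj p.1 p.2}, segment ℝ (P p.1) (P p.2) := by
    ext z
    simp only [netSet, Set.mem_ofPred_eq, Set.mem_iUnion, exists_prop, Prod.exists]
  rw [h]
  refine (Set.toFinite _).isCompact_biUnion fun p _ => ?_
  rw [segment_eq_image]
  exact isCompact_Icc.image (by fun_prop)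

theorem mem_netSet {V : Type} [Fintype V] {G : SimpleGraph V} (hG : G.Connected)
    (h2 : 2 ≤ Fintype.card V) (P : V → ℂ) (a : V) : P a ∈ netSet G P := by
  classical
  have : Nontrivial V := Fintype.one_lt_card_iff_nontrivial.1 (by omega)
  obtain ⟨c, hc⟩ := exists_ne a
  obtain ⟨p⟩ := hG.preconnected a c
  cases p with
  | nil => exact absurd rfl hc
  | cons h q => exact ⟨a, _, h, left_mem_segment ℝ _ _⟩

theorem netSet_connected {V : Type} [Fintype V] {G : SimpleGraph V} (hG : G.Connected)
    (h2 : 2 ≤ Fintype.card V) (P : V → ℂ) : IsConnected (netSet G P) := by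
  classical
  have key : ∀ (a c : V) (_ : G.Walk a c), ∃ t ⊆ netSet G P, P a ∈ t ∧ P c ∈ t ∧
      IsPreconnected t := by
    intro a c p
    induction p with
    | nil =>
      rename_i u
      exact ⟨{P u}, by
        rintro _ rfl
        exact mem_netSet hG h2 P u, rfl, rfl, isPreconnected_singleton⟩
    | cons h q ih =>
      rename_i u v w
      obtain ⟨t, ht, h1, h3, h4⟩ := ih
      refine ⟨segment ℝ (P u) (P v) ∪ t, ?_, Or.inl (left_mem_segment ℝ _ _), Or.inr h3, ?_⟩
      · rintro z (hz | hz)
        · exact ⟨u, v, h, hz⟩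
        · exact ht hz
      · exact IsPreconnected.union (P v) (right_mem_segment ℝ _ _) h1
          (convex_segment _ _).isPreconnected h4
  obtain ⟨a0⟩ := hG.nonempty
  refine ⟨⟨P a0, mem_netSet hG h2 P a0⟩, isPreconnected_of_forall (P a0) ?_⟩
  rintro z ⟨a, b, hab, hz⟩
  obtain ⟨p⟩ := hG.preconnected a0 a
  obtain ⟨t, ht, h1, h3, h4⟩ := key a0 a p
  refine ⟨t ∪ segment ℝ (P a) (P b), ?_, Or.inl h1, Or.inr hz, ?_⟩
  · rintro y (hy | hy)
    · exact ht hy
    · exact ⟨a, b, hab, hy⟩
  · exact IsPreconnected.union (P a) h3 (left_mem_segment ℝ _ _) h4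
      (convex_segment _ _).isPreconnected

theorem netSet_measure {V : Type} [Fintype V] (G : SimpleGraph V) (P : V → ℂ) :
    μH[1] (netSet G P) ≤ ENNReal.ofReal (len G P) := by
  classical
  set e := Fintype.equivFin V with he
  set f : V → V → ℝ := fun a b => if G.Adj a b then dist (P a) (P b) else 0 with hf
  set g : V → V → ℝ := fun a b => if e a < e b then f a b else 0 with hg
  have hfg : ∀ a b, f a b = g a b + g b a := by
    intro a b
    have hsymm : f a b = f b a := by
      simp only [hf, G.adj_comm a b, dist_comm (P a) (P b)]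
    rcases lt_trichotomy (e a) (e b) with h | h | h
    · simp only [hg, if_pos h, if_neg (not_lt.2 h.le), add_zero]
    · have : a = b := e.injective h
      subst this
      simp [hg, hf]
    · simp only [hg, if_pos h, if_neg (not_lt.2 h.le), zero_add]
      exact hsymm
  have hg0 : ∀ a b, 0 ≤ g a b := by
    intro a b
    simp only [hg, hf]
    split_ifs
    · exact dist_nonneg
    · exact le_rfl
    · exact le_rfl
  have hlen : len G P = ∑ a, ∑ b, g a b := by
    have h1 : ∑ a, ∑ b, f a b = 2 * ∑ a, ∑ b, g a b := by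
      have h2 : ∑ a, ∑ b, f a b = ∑ a, ∑ b, g a b + ∑ a, ∑ b, g b a := by
        rw [← Finset.sum_add_distrib]
        refine Finset.sum_congr rfl fun a _ => ?_
        rw [← Finset.sum_add_distrib]
        exact Finset.sum_congr rfl fun b _ => hfg a b
      rw [h2, Finset.sum_comm (f := fun a b => g b a)]
      ring
    have h3 : len G P = (1 / 2) * ∑ a, ∑ b, f a b := rfl
    rw [h3, h1]
    ring
  set T : V → V → Set ℂ := fun a b =>
    if G.Adj a b ∧ e a < e b then segment ℝ (P a) (P b) else ∅ with hT
  have hsub : netSet G P ⊆ ⋃ a, ⋃ b, T a b := by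
    rintro z ⟨a, b, hab, hz⟩
    have hne : e a ≠ e b := fun h => hab.ne (e.injective h)
    rcases lt_or_gt_of_ne hne with h | h
    · refine Set.mem_iUnion.2 ⟨a, Set.mem_iUnion.2 ⟨b, ?_⟩⟩
      simp only [hT, if_pos (And.intro hab h)]
      exact hz
    · refine Set.mem_iUnion.2 ⟨b, Set.mem_iUnion.2 ⟨a, ?_⟩⟩
      simp only [hT, if_pos (And.intro hab.symm h)]
      rw [segment_symm]
      exact hz
  have hTm : ∀ a b, μH[1] (T a b) ≤ ENNReal.ofReal (g a b) := by
    intro a b
    by_cases h : G.Adj a b ∧ e a < e b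
    · simp only [hT, hg, hf, if_pos h, if_pos h.1, if_pos h.2]
      rw [hausdorffMeasure_segment, edist_dist]
    · simp only [hT, if_neg h]
      simp
  calc μH[1] (netSet G P) ≤ μH[1] (⋃ a, ⋃ b, T a b) := measure_mono hsub
    _ ≤ ∑ a, μH[1] (⋃ b, T a b) := measure_iUnion_fintype_le _ _
    _ ≤ ∑ a, ∑ b, μH[1] (T a b) := Finset.sum_le_sum fun a _ => measure_iUnion_fintype_le _ _
    _ ≤ ∑ a, ∑ b, ENNReal.ofReal (g a b) :=
        Finset.sum_le_sum fun a _ => Finset.sum_le_sum fun b _ => hTm a b
    _ = ENNReal.ofReal (len G P) := by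
        rw [hlen, ENNReal.ofReal_sum_of_nonneg fun a _ => Finset.sum_nonneg fun b _ => hg0 a b]
        refine Finset.sum_congr rfl fun a _ => ?_
        rw [ENNReal.ofReal_sum_of_nonneg fun b _ => hg0 a b]

end Pool.Agent.Lib.P7ee
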