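import Pool.Agent.Lib.P7ee.Defs
import Pool.Agent.Lib.P7ee.InK

/-!
# MP_7ee880_gt: definitions for the upper bound

`dd P x`: the direction of the dart `x`. `dgr G B`: the graph on the darts of `G` which joins a dart to its reverse and two darts with the same
first vertex `v` if `B v` (`B v`: the vertex is balanced). Its connected components are the components of the network cut at all unbalanced vertices.
`Corner y r P τ v`: the position of `v` lies on two different circles of radius `r` around data points assigned to `v`.
`Bd F r C X`: boundary data. `C` is the set of components, `X` the set of darts which start at an unbalanced vertex, `t c` a square root of the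
direction of the component `c`, the direction of the dart `x` is `ε x * t (comp x) ^ 2`; `z x` is the centre of the circle (or the position of the corner);
`mate x = some x'` if `x`, `x'` are the two darts at a vertex of circle type with two neighbours; there the position is `z x + r * ν`,
`ν = η x * t (comp x) * t (comp x')`; `e x` is `r` for circle type leaves and `0` otherwise.
-/

set_option autoImplicit false

namespace Pool.Agent.Lib.P7ee

/-- direction of a dart -/
noncomputable def dd {V : Type} {G : SimpleGraph V} (P : V → ℂ) (x : G.Dart) : ℂ :=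
  dir P x.fst x.snd

/-- two darts are joined if they are reverse to each other or start at the same vertex satisfying `B` -/
def dgr {V : Type} (G : SimpleGraph V) (B : V → Prop) : SimpleGraph G.Dart :=
  SimpleGraph.fromRel fun x x' => x' = x.symm ∨ (x.fst = x'.fst ∧ B x.fst)

/-- positions on two circles -/
def Corner {n : ℕ} (y : Fin n → ℂ) (r : ℝ) {V : Type} (P : V → ℂ) (τ : Fin n → V) (v : V) : Prop :=
  ∃ j l, τ j = v ∧ τ l = v ∧ y j ≠ y l ∧ dist (P v) (y j) = r ∧ dist (P v) (y l) = r

/-- `v` has exactly one neighbour -/
def Leaf {V : Type} (G : SimpleGraph V) (v : V) : Prop := ∃ a, ∀ b, G.Adj v b ↔ b = a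

/-- `v` has exactly two neighbours -/
def Two {V : Type} (G : SimpleGraph V) (v : V) : Prop :=
  ∃ a b, a ≠ b ∧ ∀ e, G.Adj v e ↔ e = a ∨ e = b

/-- `v` has exactly three neighbours -/
def Three {V : Type} (G : SimpleGraph V) (v : V) : Prop :=
  ∃ a b c, a ≠ b ∧ a ≠ c ∧ b ≠ c ∧ ∀ e, G.Adj v e ↔ e = a ∨ e = b ∨ e = c

open Classical in
/-- boundary data of a network -/
structure Bd (F : IntermediateField ℚ ℝ) (r : ℝ) (C X : Type) [Fintype C] [Fintype X] where
  comp : X → C
  t : C → ℂ
  ht : ∀ c, ‖t c‖ = 1
  ε : X → ℂ
  hε : ∀ x, InK F (ε x)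
  z : X → ℂ
  hz : ∀ x, InK F (z x)
  mate : X → Option X
  mate_symm : ∀ x x', mate x = some x' → mate x' = some x
  η : X → ℂ
  hη : ∀ x, InK F (η x)
  e : X → ℝ
  he : ∀ x, 0 ≤ e x
  L : C → ℝ
  hL : ∀ c, 0 < L c
  /-- scalar product (and cross product) of direction and normal -/
  g : X → ℂ
  hg : ∀ x x', mate x = some x' →
    g x = (starRingEnd ℂ) (ε x) * η x * (starRingEnd ℂ) (t (comp x)) * t (comp x')
  hg0 : ∀ x, mate x = none → g x = 0
  gpos : ∀ x, 0 ≤ (g x).re
  gsymm : ∀ x x', mate x = some x' → (g x').re = (g x).re
  torque : ∀ c, ∑ x, (if comp x = c then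
    ((starRingEnd ℂ) (ε x) * (starRingEnd ℂ) (t c) ^ 2 * z x).im + r * (g x).im else 0) = 0
  length : ∀ c, ∑ x, (if comp x = c then
    ((starRingEnd ℂ) (ε x) * (starRingEnd ℂ) (t c) ^ 2 * z x).re + e x + r * (g x).re else 0)
      = -L c

end Pool.Agent.Lib.P7ee
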