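import Pool.Agent.Lib.P7ee.FlowZero
import Pool.Agent.Lib.P7ee.UDefs

/-!
# P7ee.Offset: the offsets of the lines of the edges  (0.8 h)

`flow_zero` for `M = ℝ ⧸ H` (quotient additive group) and `f a b = class of Im (conj (dir P a b) * P a)`. `hanti`: `dir P b a = - dir P a b` and `conj (dir P a b) * (P b - P a)` is real (it is `‖P b - P a‖`), so `Im (conj (dir P b a) P b) = - Im (conj (dir P a b) P a)`. Conservation at `v`: if `svec G P v ≠ 0` every term is `0` by `hun`; otherwise the sum of the numbers is
`Im (conj (svec G P v) * P v) = 0`.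
-/

set_option autoImplicit false



namespace Pool.Agent.Lib.P7ee

namespace OffsetAux

theorem conj_dir_mul {V : Type} (P : V → ℂ) (a b : V) :
    ((starRingEnd ℂ) (dir P a b) * (P b - P a)).im = 0 := by
  unfold dir
  rw [map_div₀, Complex.conj_ofReal, div_mul_eq_mul_div, mul_comm, Complex.mul_conj,
    ← Complex.ofReal_div, Complex.ofReal_im]

theorem dir_swap {V : Type} (P : V → ℂ) (a b : V) : dir P b a = -dir P a b := by
  unfold dir
  rw [← neg_sub (P b) (P a), norm_neg, neg_div]

theorem anti {V : Type} (P : V → ℂ) (a b : V) :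
    ((starRingEnd ℂ) (dir P b a) * P b).im = -((starRingEnd ℂ) (dir P a b) * P a).im := by
  have h := conj_dir_mul P a b
  rw [mul_sub, Complex.sub_im, sub_eq_zero] at h
  rw [dir_swap, map_neg, neg_mul, Complex.neg_im, h]

end OffsetAux

theorem offset_mem {V : Type} [Fintype V] {G : SimpleGraph V} (hG : G.IsAcyclic) {P : V → ℂ}
    (H : AddSubgroup ℝ)
    (hun : ∀ a b, G.Adj a b → svec G P a ≠ 0 → ((starRingEnd ℂ) (dir P a b) * P a).im ∈ H)
    (a b : V) (hab : G.Adj a b) : ((starRingEnd ℂ) (dir P a b) * P a).im ∈ H := by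
  classical
  have key := flow_zero hG (M := ℝ ⧸ H)
    (fun a b => (QuotientAddGroup.mk' H) ((starRingEnd ℂ) (dir P a b) * P a).im) ?_ ?_ a b hab
  · exact (QuotientAddGroup.eq_zero_iff _).1 key
  · intro a b _
    rw [OffsetAux.anti, map_neg]
  · intro v
    by_cases hv : svec G P v = 0
    · have h1 : ∑ b, (if G.Adj v b then ((starRingEnd ℂ) (dir P v b) * P v).im else 0) = 0 := by
        have h2 : ((starRingEnd ℂ) (svec G P v) * P v).im = 0 := by
          rw [hv]
          simp
        unfold svec at h2
        rw [map_sum, Finset.sum_mul, Complex.im_sum] at h2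
        refine Eq.trans (Finset.sum_congr rfl fun x _ => ?_) h2
        by_cases hx : G.Adj v x
        · rw [if_pos hx, if_pos hx]
        · rw [if_neg hx, if_neg hx, map_zero, zero_mul, Complex.zero_im]
      have h3 := congrArg (QuotientAddGroup.mk' H) h1
      rw [map_sum, map_zero] at h3
      refine Eq.trans (Finset.sum_congr rfl fun x _ => ?_) h3
      by_cases hx : G.Adj v x
      · rw [if_pos hx, if_pos hx]
      · rw [if_neg hx, if_neg hx, map_zero]
    · refine Finset.sum_eq_zero fun x _ => ?_
      by_cases hx : G.Adj v x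
      · rw [if_pos hx]
        exact (QuotientAddGroup.eq_zero_iff _).2 (hun v x hx hv)
      · rw [if_neg hx]

end Pool.Agent.Lib.P7ee
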