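import Pool.Agent.Lib.P7ee.UnbInfo
import Pool.Agent.Lib.P7ee.Offset
import Pool.Agent.Lib.P7ee.NetSet

/-!
# P7ee.EnergIn: the energetic points of an optimal network  (2 h)

All offsets `Im (conj (dir P a b) P a)` are in `K` (`offset_mem`, `H` the additive subgroup of `K`; for unbalanced `a` both factors are in `K`). Let `x ∈ netSet`, `x ∈ segment (P a) (P b)`, `y0 = y j`, `dist x y0 = r`, no point of `netSet` at distance `< r` from `y0`.
(1) `x` is an interior point of the segment, or `x = P v` with `v` balanced and `Two`: then there are a dart `(a, b)` whose line contains `x`, `d = dir P a b`, and `x ± s d ∈ netSet` for all small `s > 0` (in the second case the two directions at `v` are opposite). `‖x ± s d - y0‖² ≥ r²` gives `ip (x - y0) d = 0`. So `conj d * x` has real part `ip d y0 ∈ K` and imaginary part the offset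
of the line (`x - P a` is a real multiple of `d`), in `K`; `x = d * (conj d * x)`. (2) `x = P v` with `v` unbalanced: `hv`. (3) `x = P v`, `v` with three neighbours, `a`, `b` two of them, `d`, `d'` the directions, `o`, `o'` the offsets: `conj d * x = u + i o`, and `Im (conj d' * x) = o'` gives `u Im (conj d' d) + o Re (conj d' d) = o'`,
`Im (conj d' d) ≠ 0` (the three unit vectors have sum zero, so `d' ≠ ± d`): `u ∈ K`. By `unb_deg` these are all cases.
-/

set_option autoImplicit false



namespace Pool.Agent.Lib.P7ee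

namespace EnergInAux

open Classical in
theorem svec_pair {V : Type} [Fintype V] {G : SimpleGraph V} (P : V → ℂ) {v a b : V}
    (hab : a ≠ b) (h : ∀ e, G.Adj v e ↔ e = a ∨ e = b) :
    svec G P v = dir P v a + dir P v b := by
  unfold svec
  have hfil : ∀ x, G.Adj v x ↔ x ∈ ({a, b} : Finset V) := by
    intro x
    rw [h x]
    simp
  have e1 : ∀ x, (if G.Adj v x then dir P v x else 0) =
      (if x ∈ ({a, b} : Finset V) then dir P v x else 0) := by
    intro x
    by_cases hx : G.Adj v x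
    · rw [if_pos hx, if_pos ((hfil x).1 hx)]
    · rw [if_neg hx, if_neg (fun h' => hx ((hfil x).2 h'))]
  rw [Finset.sum_congr rfl (fun x _ => e1 x), Finset.sum_ite_mem, Finset.univ_inter,
    Finset.sum_insert (by simp [hab]), Finset.sum_singleton]

theorem nsq {z : ℂ} (h : ‖z‖ = 1) : z.re * z.re + z.im * z.im = 1 := by
  have h2 : Complex.normSq z = 1 := by
    rw [Complex.normSq_eq_norm_sq, h]
    norm_num
  rwa [Complex.normSq_apply] at h2

theorem self_eq {d : ℂ} (hn : ‖d‖ = 1) (x : ℂ) : x = d * ((starRingEnd ℂ) d * x) := by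
  rw [← mul_assoc, Complex.mul_conj, Complex.normSq_eq_norm_sq, hn]
  norm_num

/-- a point of a line whose foot condition is rational -/
theorem line_case {K : IntermediateField ℚ ℝ} {x y0 d p : ℂ} {t : ℝ} (hd : InK K d)
    (hn : ‖d‖ = 1) (hy : InK K y0) (ho : ((starRingEnd ℂ) d * p).im ∈ K)
    (hx : x = p + (t : ℂ) * d) (hp : ip (x - y0) d = 0) : InK K x := by
  have hre : ((starRingEnd ℂ) d * x).re = d.re * y0.re + d.im * y0.im := by
    unfold ip at hp
    simp only [Complex.sub_re, Complex.sub_im] at hp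
    simp only [Complex.mul_re, Complex.conj_re, Complex.conj_im]
    linarith
  have him : ((starRingEnd ℂ) d * x).im = ((starRingEnd ℂ) d * p).im := by
    rw [hx]
    simp only [Complex.mul_im, Complex.add_re, Complex.add_im, Complex.mul_re, Complex.conj_re,
      Complex.conj_im, Complex.ofReal_re, Complex.ofReal_im]
    ring
  have hz : InK K ((starRingEnd ℂ) d * x) :=
    ⟨by rw [hre]; exact K.add_mem (K.mul_mem hd.1 hy.1) (K.mul_mem hd.2 hy.2),
      by rw [him]; exact ho⟩
  rw [self_eq hn x]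
  exact hd.mul hz

theorem perp1 {x y0 d : ℂ} {r ε : ℝ} (hε : 0 < ε) (hn : ‖d‖ = 1) (hr : dist x y0 = r)
    (h1 : ∀ s : ℝ, 0 < s → s ≤ ε → r ≤ dist (x + (s : ℂ) * d) y0) : 0 ≤ ip (x - y0) d := by
  by_contra hc
  push Not at hc
  set c := ip (x - y0) d with hcd
  have hs0 : 0 < min ε (-c) := lt_min hε (by linarith)
  have h2 := h1 _ hs0 (min_le_left _ _)
  set s := min ε (-c) with hs
  have hsc : s ≤ -c := min_le_right _ _
  have hr0 : 0 ≤ r := by rw [← hr]; exact dist_nonneg
  have h3 : r ^ 2 ≤ dist (x + (s : ℂ) * d) y0 ^ 2 := pow_le_pow_left₀ hr0 h2 2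
  have h4 : dist (x + (s : ℂ) * d) y0 ^ 2 = r ^ 2 + 2 * s * c + s ^ 2 := by
    have h5 := nsq hn
    rw [← hr, dist_eq_norm, dist_eq_norm, ← Complex.normSq_eq_norm_sq,
      ← Complex.normSq_eq_norm_sq, Complex.normSq_apply, Complex.normSq_apply, hcd]
    simp only [ip, Complex.sub_re, Complex.sub_im, Complex.add_re, Complex.add_im,
      Complex.mul_re, Complex.mul_im, Complex.ofReal_re, Complex.ofReal_im]
    linear_combination s ^ 2 * h5
  nlinarith

theorem ip_neg_right (z w : ℂ) : ip z (-w) = -ip z w := by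
  simp only [ip, Complex.neg_re, Complex.neg_im]
  ring

theorem perp2 {x y0 d : ℂ} {r ε : ℝ} (hε : 0 < ε) (hn : ‖d‖ = 1) (hr : dist x y0 = r)
    (h1 : ∀ s : ℝ, 0 < s → s ≤ ε → r ≤ dist (x + (s : ℂ) * d) y0)
    (h2 : ∀ s : ℝ, 0 < s → s ≤ ε → r ≤ dist (x + (s : ℂ) * (-d)) y0) :
    ip (x - y0) d = 0 := by
  have a1 := perp1 hε hn hr h1
  have a2 := perp1 hε (by rw [norm_neg]; exact hn) hr h2
  rw [ip_neg_right] at a2
  linarith

/-- points of an edge -/
theorem edge_mem {V : Type} {P : V → ℂ} {a b : V} (h : P a ≠ P b) {t : ℝ}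
    (h0 : 0 ≤ t) (h1 : t ≤ ‖P b - P a‖) :
    P a + (t : ℂ) * dir P a b ∈ segment ℝ (P a) (P b) := by
  have hL : 0 < ‖P b - P a‖ := norm_pos_iff.2 (sub_ne_zero.2 (Ne.symm h))
  rw [segment_eq_image']
  refine ⟨t / ‖P b - P a‖, ⟨div_nonneg h0 hL.le, (div_le_one hL).2 h1⟩, ?_⟩
  simp only [Complex.real_smul, dir]
  push_cast
  ring

/-- the third direction at a vertex of degree three -/
theorem im_ne {d d' d'' : ℂ} (h1 : ‖d‖ = 1) (h2 : ‖d'‖ = 1) (h3 : ‖d''‖ = 1)
    (hs : d + d' + d'' = 0) : ((starRingEnd ℂ) d' * d).im ≠ 0 := by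
  intro h0
  have a1 := nsq h1
  have a2 := nsq h2
  have a3 := nsq h3
  have hre : d''.re = -(d.re + d'.re) := by
    have := congrArg Complex.re hs
    simp only [Complex.add_re, Complex.zero_re] at this
    linarith
  have him : d''.im = -(d.im + d'.im) := by
    have := congrArg Complex.im hs
    simp only [Complex.add_im, Complex.zero_im] at this
    linarith
  rw [hre, him] at a3
  have hip : d.re * d'.re + d.im * d'.im = -(1 / 2) := by linarith
  simp only [Complex.mul_im, Complex.conj_re, Complex.conj_im] at h0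
  have hsq : (d.re * d'.re + d.im * d'.im) ^ 2 + (d'.re * d.im + -d'.im * d.re) ^ 2 = 1 := by
    have : (d.re * d'.re + d.im * d'.im) ^ 2 + (d'.re * d.im + -d'.im * d.re) ^ 2 =
      (d.re * d.re + d.im * d.im) * (d'.re * d'.re + d'.im * d'.im) := by ring
    rw [this, a1, a2, one_mul]
  rw [hip, h0] at hsq
  norm_num at hsq

theorem three_case {K : IntermediateField ℚ ℝ} {x d d' : ℂ} (hd : InK K d) (hd' : InK K d')
    (hn : ‖d‖ = 1) (ho : ((starRingEnd ℂ) d * x).im ∈ K)
    (ho' : ((starRingEnd ℂ) d' * x).im ∈ K) (hne : ((starRingEnd ℂ) d' * d).im ≠ 0) :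
    InK K x := by
  have hq : InK K ((starRingEnd ℂ) d' * d) := hd'.conj.mul hd
  have e1 : (starRingEnd ℂ) d' * x = ((starRingEnd ℂ) d' * d) * ((starRingEnd ℂ) d * x) := by
    have := self_eq hn x
    linear_combination (starRingEnd ℂ) d' * this
  have e2 := congrArg Complex.im e1
  rw [Complex.mul_im ((starRingEnd ℂ) d' * d)] at e2
  have e3 : ((starRingEnd ℂ) d * x).re = (((starRingEnd ℂ) d' * x).im -
      ((starRingEnd ℂ) d' * d).re * ((starRingEnd ℂ) d * x).im) / ((starRingEnd ℂ) d' * d).im := by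
    rw [eq_div_iff hne, e2]
    ring
  have hz : InK K ((starRingEnd ℂ) d * x) :=
    ⟨by rw [e3]; exact K.div_mem (K.sub_mem ho' (K.mul_mem hq.1 ho)) hq.2, ho⟩
  rw [self_eq hn x]
  exact hd.mul hz

theorem rat_in {K : IntermediateField ℚ ℝ} {z : ℂ} (hz : RatPt z) : InK K z := by
  obtain ⟨⟨p, hp⟩, ⟨q, hq⟩⟩ := hz
  exact ⟨by rw [hp]; exact InK.rat p, by rw [hq]; exact InK.rat q⟩

end EnergInAux

open EnergInAux in
theorem energ_in {n : ℕ} {y : Fin n → ℂ} {r : ℝ} (hr : 0 < r) (hy : ∀ j, RatPt (y j))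
    {V : Type} [Fintype V]
    {G : SimpleGraph V} {P : V → ℂ} {τ : Fin n → V} (h : IsOpt y r G P τ) (hT : G.IsTree)
    (hne : ∀ a b, G.Adj a b → P a ≠ P b) (h2 : 2 ≤ Fintype.card V)
    (K : IntermediateField ℚ ℝ) (hd : ∀ a b, G.Adj a b → InK K (dir P a b))
    (hv : ∀ v, svec G P v ≠ 0 → InK K (P v)) :
    ∀ x ∈ energetic (Set.range y) r (netSet G P), InK K x := by
  have hoff : ∀ a b, G.Adj a b → ((starRingEnd ℂ) (dir P a b) * P a).im ∈ K := by
    intro a b hab
    exact offset_mem hT.isAcyclic K.toSubfield.toAddSubgroup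
      (fun a b hab ha => ((hd a b hab).conj.mul (hv a ha)).2) a b hab
  rintro x ⟨hx, y0, ⟨j, rfl⟩, hdist, hball⟩
  have hge : ∀ z ∈ netSet G P, r ≤ dist z (y j) := by
    intro z hz
    by_contra hcon
    push Not at hcon
    have : z ∈ Metric.ball (y j) r ∩ netSet G P := ⟨Metric.mem_ball.2 hcon, hz⟩
    rw [hball] at this
    exact this
  have hyK : InK K (y j) := rat_in (hy j)
  -- vertices
  have hvert : ∀ v, x = P v → InK K x := by
    intro v hxv
    by_cases hs : svec G P v = 0
    · rcases (unb_deg h hne h2 v).2 hs with ⟨a, b, hab, hE⟩ | ⟨a, b, c, hab, hac, hbc, hE⟩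
      · have hva : G.Adj v a := (hE a).2 (Or.inl rfl)
        have hvb : G.Adj v b := (hE b).2 (Or.inr rfl)
        have hsum : dir P v a + dir P v b = 0 := by rw [← svec_pair P hab hE, hs]
        have hneg : -dir P v a = dir P v b := by linear_combination -hsum
        have hna := norm_dir (hne v a hva)
        have hLa : 0 < ‖P a - P v‖ := norm_pos_iff.2 (sub_ne_zero.2 (Ne.symm (hne v a hva)))
        have hLb : 0 < ‖P b - P v‖ := norm_pos_iff.2 (sub_ne_zero.2 (Ne.symm (hne v b hvb)))
        refine line_case (t := 0) (hd v a hva) hna hyK (hoff v a hva)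
          (by rw [hxv]; push_cast; ring) ?_
        refine perp2 (ε := min ‖P a - P v‖ ‖P b - P v‖) (lt_min hLa hLb) hna hdist ?_ ?_
        · intro s hs0 hs1
          refine hge _ ⟨v, a, hva, ?_⟩
          rw [hxv]
          exact edge_mem (hne v a hva) hs0.le (hs1.trans (min_le_left _ _))
        · intro s hs0 hs1
          refine hge _ ⟨v, b, hvb, ?_⟩
          rw [hxv, hneg]
          exact edge_mem (hne v b hvb) hs0.le (hs1.trans (min_le_right _ _))
      · have hva : G.Adj v a := (hE a).2 (Or.inl rfl)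
        have hvb : G.Adj v b := (hE b).2 (Or.inr (Or.inl rfl))
        have hvc : G.Adj v c := (hE c).2 (Or.inr (Or.inr rfl))
        obtain ⟨-, -, h3⟩ := three h hne hva hvb hvc hab hac hbc
        have ho := hoff v a hva
        have ho' := hoff v b hvb
        rw [← hxv] at ho ho'
        exact three_case (hd v a hva) (hd v b hvb) (norm_dir (hne v a hva)) ho ho' (im_ne (norm_dir (hne v a hva))
            (norm_dir (hne v b hvb)) (norm_dir (hne v c hvc)) h3)
    · rw [hxv]
      exact hv v hs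
  obtain ⟨a, b, hab, hseg⟩ := hx
  have hL : 0 < ‖P b - P a‖ := norm_pos_iff.2 (sub_ne_zero.2 (Ne.symm (hne a b hab)))
  rw [segment_eq_image'] at hseg
  obtain ⟨θ, ⟨h0, h1⟩, hθ⟩ := hseg
  rcases h0.eq_or_lt with h0 | h0
  · apply hvert a
    rw [← hθ, ← h0]
    simp
  rcases h1.eq_or_lt with h1 | h1
  · apply hvert b
    rw [← hθ, h1]
    simp
  have hna := norm_dir (hne a b hab)
  have hxt : x = P a + ((θ * ‖P b - P a‖ : ℝ) : ℂ) * dir P a b := by
    rw [← hθ]
    simp only [Complex.real_smul, dir]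
    have hLc : (‖P b - P a‖ : ℂ) ≠ 0 := by exact_mod_cast hL.ne'
    push_cast
    field_simp
  refine line_case (hd a b hab) hna hyK (hoff a b hab) hxt ?_
  have hε : 0 < min (θ * ‖P b - P a‖) ((1 - θ) * ‖P b - P a‖) :=
    lt_min (mul_pos h0 hL) (mul_pos (by linarith) hL)
  refine perp2 hε hna hdist ?_ ?_
  · intro s hs0 hs1
    refine hge _ ⟨a, b, hab, ?_⟩
    have e : x + (s : ℂ) * dir P a b =
        P a + ((θ * ‖P b - P a‖ + s : ℝ) : ℂ) * dir P a b := by
      rw [hxt]
      push_cast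
      ring
    rw [e]
    refine edge_mem (hne a b hab) (by positivity) ?_
    have := hs1.trans (min_le_right _ _)
    linarith
  · intro s hs0 hs1
    refine hge _ ⟨a, b, hab, ?_⟩
    have e : x + (s : ℂ) * (-dir P a b) =
        P a + ((θ * ‖P b - P a‖ - s : ℝ) : ℂ) * dir P a b := by
      rw [hxt]
      push_cast
      ring
    rw [e]
    have := hs1.trans (min_le_left _ _)
    refine edge_mem (hne a b hab) (by linarith) ?_
    have : θ * ‖P b - P a‖ ≤ 1 * ‖P b - P a‖ := mul_le_mul_of_nonneg_right h1.le hL.le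
    linarith

end Pool.Agent.Lib.P7ee
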