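import Pool.Agent.Lib.P7ee.QDefs

/-!
# P7ee.EvenCount: counting even exponent vectors  (1 h)

Map `a ∈ Evs σ S` to `(ε, β)`, `ε i = a i % 2`, `β i = a i / 2`, so `a = 2 β + ε`. `∑ β ≤ S` because `2 ∑ β ≤ ∑ a ≤ 2 S`; the number of `i` with `ε i = 1` is even because `∑ a` is even. The map is injective, its values lie in (even subsets of `σ`) x `Ex σ S`; the number of subsets of even size of a nonempty
finite set is `2 ^ (card σ - 1)` (toggling one fixed element is a bijection between even and odd subsets; only `≤` is needed).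
-/

set_option autoImplicit false

open MvPolynomial

namespace Pool.Agent.Lib.P7ee

theorem even_count (σ : Type) [Fintype σ] [DecidableEq σ] [Nonempty σ] (S : ℕ) :
    (Evs σ S).card ≤ 2 ^ (Fintype.card σ - 1) * (Ex σ S).card := by
  classical
  obtain ⟨i0⟩ := (inferInstance : Nonempty σ)
  have hcard : ((Finset.univ.erase i0 : Finset σ).powerset ×ˢ Ex σ S).card
      = 2 ^ (Fintype.card σ - 1) * (Ex σ S).card := by
    rw [Finset.card_product, Finset.card_powerset, Finset.card_erase_of_mem (Finset.mem_univ _),
      Finset.card_univ]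
  rw [← hcard]
  refine Finset.card_le_card_of_injOn
    (fun a => ((Finset.univ.erase i0).filter fun i => a i % 2 = 1, fun i => a i / 2)) ?_ ?_
  · intro a ha
    have ha' := ha
    simp only [Evs, Finset.coe_filter, Fintype.mem_piFinset, Finset.mem_range,
      Set.mem_ofPred_eq] at ha'
    obtain ⟨_, hsum, _⟩ := ha'
    have hb : 2 * ∑ i, a i / 2 ≤ ∑ i, a i := by
      rw [Finset.mul_sum]
      exact Finset.sum_le_sum fun i _ => Nat.mul_div_le (a i) 2
    have hle : ∑ i, a i / 2 ≤ S := by omega
    simp only [Finset.coe_product, Set.mem_prod, Finset.mem_coe, Finset.mem_powerset]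
    refine ⟨Finset.filter_subset _ _, ?_⟩
    simp only [Ex, Finset.mem_filter, Fintype.mem_piFinset, Finset.mem_range]
    refine ⟨fun i => ?_, hle⟩
    have : a i / 2 ≤ ∑ j, a j / 2 :=
      Finset.single_le_sum (f := fun j => a j / 2) (fun _ _ => Nat.zero_le _) (Finset.mem_univ i)
    omega
  · intro a ha b hb hab
    simp only [Evs, Finset.coe_filter, Fintype.mem_piFinset, Finset.mem_range,
      Set.mem_ofPred_eq] at ha hb
    simp only [Prod.mk.injEq] at hab
    obtain ⟨h1, h2⟩ := hab
    have hdiv : ∀ i, a i / 2 = b i / 2 := fun i => congrFun h2 i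
    have hne : ∀ i, i ≠ i0 → a i = b i := by
      intro i hi
      have h3 : (i ∈ (Finset.univ.erase i0).filter fun i => a i % 2 = 1) ↔
          (i ∈ (Finset.univ.erase i0).filter fun i => b i % 2 = 1) := by rw [h1]
      simp only [Finset.mem_filter, Finset.mem_erase, Finset.mem_univ, and_true, ne_eq, hi,
        not_false_eq_true, true_and] at h3
      have h4 := hdiv i
      have h5 : a i % 2 = 1 ∨ a i % 2 = 0 := by omega
      have h6 : b i % 2 = 1 ∨ b i % 2 = 0 := by omega
      rcases h5 with h5 | h5
      · have := h3.1 h5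
        omega
      · rcases h6 with h6 | h6
        · have := h3.2 h6
          omega
        · omega
    have hsa : ∑ i, a i = a i0 + ∑ i ∈ Finset.univ.erase i0, a i :=
      (Finset.add_sum_erase _ _ (Finset.mem_univ i0)).symm
    have hsb : ∑ i, b i = b i0 + ∑ i ∈ Finset.univ.erase i0, b i :=
      (Finset.add_sum_erase _ _ (Finset.mem_univ i0)).symm
    have hrest : ∑ i ∈ Finset.univ.erase i0, a i = ∑ i ∈ Finset.univ.erase i0, b i :=
      Finset.sum_congr rfl fun i hi => hne i (Finset.ne_of_mem_erase hi)
    have h0 := hdiv i0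
    obtain ⟨ka, hka⟩ := ha.2.2
    obtain ⟨kb, hkb⟩ := hb.2.2
    funext i
    by_cases hi : i = i0
    · subst hi
      omega
    · exact hne i hi

end Pool.Agent.Lib.P7ee
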