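import Pool.Agent.Lib.P7ee.MainRel

/-!
# P7ee.EvenField: the field generated by the products of two coordinates  (1.5 h)

`K0 = IntermediateField.adjoin F {P i * P j}` (an intermediate field of `ℝ / F`). Each generator is algebraic over `F` by `main_rel` with `A = F`, `φ = algebraMap F ℝ` (injective), `Θ = X i * X j`. So `K0` is finite over `F` (`IntermediateField.finiteDimensional_adjoin`), separable (characteristic 0): primitive element `γ`. As the generators are
algebraic, `K0 = Algebra.adjoin F {P i * P j}`, so `γ = eval₂ .. P Θ` with `Θ` in the subalgebra generated by the `X i * X j`, which consists of `EvenP` polynomials. `main_rel` for this `Θ`: the minimal polynomial of `γ` over `F` has degree `≤ 2^(card σ - 1)`, which is `finrank F K0`. `K = K0.restrictScalars ℚ`; tower formula.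
-/

set_option autoImplicit false

open MvPolynomial

namespace Pool.Agent.Lib.P7ee

namespace EvenFieldAux

theorem evenP_add {σ A : Type} [CommRing A] {f g : MvPolynomial σ A} (hf : EvenP f)
    (hg : EvenP g) : EvenP (f + g) := by
  classical
  intro s hs
  rcases Finset.mem_union.1 (MvPolynomial.support_add hs) with h | h
  · exact hf s h
  · exact hg s h

theorem evenP_C {σ A : Type} [CommRing A] (a : A) : EvenP (C a : MvPolynomial σ A) := by
  classical
  intro s hs
  rw [MvPolynomial.mem_support_iff, MvPolynomial.coeff_C] at hs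
  split_ifs at hs with h
  · rw [← h]; simp
  · exact absurd rfl hs

theorem evenP_mul {σ A : Type} [CommRing A] {f g : MvPolynomial σ A} (hf : EvenP f)
    (hg : EvenP g) : EvenP (f * g) := by
  classical
  intro s hs
  obtain ⟨a, ha, b, hb, hab⟩ := Finset.mem_add.1 (MvPolynomial.support_mul f g hs)
  rw [← hab, map_add]
  exact (hf a ha).add (hg b hb)

theorem evenP_XX {σ A : Type} [CommRing A] (i j : σ) :
    EvenP (X i * X j : MvPolynomial σ A) := by
  classical
  intro s hs
  have h : (X i * X j : MvPolynomial σ A)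
      = monomial (Finsupp.single i 1 + Finsupp.single j 1) 1 := by
    rw [X, X, monomial_mul, mul_one]
  rw [h] at hs
  have h2 := MvPolynomial.support_monomial_subset hs
  rw [Finset.mem_singleton] at h2
  rw [h2, map_add, Finsupp.degree_single, Finsupp.degree_single]
  exact ⟨1, rfl⟩

end EvenFieldAux

open EvenFieldAux in
theorem even_field {σ : Type} [Fintype σ] [DecidableEq σ] [Nonempty σ]
    (F : IntermediateField ℚ ℝ) [FiniteDimensional ℚ F] (f : σ → MvPolynomial σ F)
    (hf : ∀ i, IsQuad (f i)) (P : σ → ℝ) (hP : NZero (fun i => map (algebraMap F ℝ) (f i)) P) :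
    ∃ K : IntermediateField ℚ ℝ, F ≤ K ∧ FiniteDimensional ℚ K ∧
      Module.finrank ℚ K ≤ 2 ^ (Fintype.card σ - 1) * Module.finrank ℚ F ∧
      ∀ i j, P i * P j ∈ K := by
  classical
  set S : Set ℝ := Set.range fun p : σ × σ => P p.1 * P p.2 with hS
  have key : ∀ Θ : MvPolynomial σ F, EvenP Θ → ∃ R : Polynomial F, R ≠ 0 ∧
      R.natDegree ≤ 2 ^ (Fintype.card σ - 1) ∧ Polynomial.aeval (aeval P Θ) R = 0 := by
    intro Θ hΘ
    obtain ⟨R, h1, h2, h3⟩ := main_rel f hf Θ hΘ
    refine ⟨R, h1, h2, ?_⟩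
    have h4 := h3 (algebraMap F ℝ) P hP
    rw [Polynomial.aeval_def, MvPolynomial.aeval_def]
    exact h4
  have halg : ∀ x ∈ S, IsAlgebraic F x := by
    rintro x ⟨⟨i, j⟩, rfl⟩
    obtain ⟨R, h1, _, h3⟩ := key (X i * X j) (evenP_XX i j)
    refine ⟨R, h1, ?_⟩
    simpa using h3
  haveI hfin : Finite S := by
    rw [hS]; exact Set.finite_range _ |>.to_subtype
  let K0 : IntermediateField F ℝ := IntermediateField.adjoin F S
  haveI hK0 : FiniteDimensional F K0 :=
    IntermediateField.finiteDimensional_adjoin fun x hx => (halg x hx).isIntegral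
  obtain ⟨γ, hγ⟩ := Field.exists_primitive_element F K0
  have hdeg : (minpoly F γ).natDegree = Module.finrank F K0 :=
    (Field.primitive_element_iff_minpoly_natDegree_eq F γ).1 hγ
  have hmem : (γ : ℝ) ∈ Algebra.adjoin F S := by
    rw [← IntermediateField.adjoin_toSubalgebra_of_isAlgebraic halg]
    exact γ.2
  have hΘ : ∃ Θ : MvPolynomial σ F, EvenP Θ ∧ aeval P Θ = (γ : ℝ) := by
    refine Algebra.adjoin_induction (p := fun x _ => ∃ Θ : MvPolynomial σ F, EvenP Θ ∧
      aeval P Θ = x) ?_ ?_ ?_ ?_ hmem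
    · rintro x ⟨⟨i, j⟩, rfl⟩
      exact ⟨X i * X j, evenP_XX i j, by simp⟩
    · intro r
      exact ⟨C r, evenP_C r, by simp⟩
    · rintro x y _ _ ⟨a, ha, ha'⟩ ⟨b, hb, hb'⟩
      exact ⟨a + b, evenP_add ha hb, by rw [map_add, ha', hb']⟩
    · rintro x y _ _ ⟨a, ha, ha'⟩ ⟨b, hb, hb'⟩
      exact ⟨a * b, evenP_mul ha hb, by rw [map_mul, ha', hb']⟩
  obtain ⟨Θ, hΘ1, hΘ2⟩ := hΘ
  obtain ⟨R, hR1, hR2, hR3⟩ := key Θ hΘ1
  rw [hΘ2] at hR3
  have hmin : (minpoly F γ).natDegree ≤ 2 ^ (Fintype.card σ - 1) := by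
    refine le_trans ?_ hR2
    have h5 : Polynomial.aeval γ R = 0 := by
      have h6 : algebraMap K0 ℝ (Polynomial.aeval γ R) = 0 := by
        rw [← Polynomial.aeval_algebraMap_apply]
        exact hR3
      exact (map_eq_zero_iff _ (algebraMap K0 ℝ).injective).1 h6
    exact Polynomial.natDegree_le_natDegree (minpoly.degree_le_of_ne_zero F γ hR1 h5)
  have hrank : Module.finrank ℚ K0 ≤ 2 ^ (Fintype.card σ - 1) * Module.finrank ℚ F := by
    haveI hfree : Module.Free F K0 := Module.Free.of_divisionRing F K0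
    have h7 : Module.finrank ℚ F * Module.finrank F K0 = Module.finrank ℚ K0 :=
      Module.finrank_mul_finrank ℚ F K0
    rw [← h7, ← hdeg, mul_comm]
    exact Nat.mul_le_mul_right _ hmin
  haveI hfd : FiniteDimensional ℚ K0 := Module.Finite.trans F K0
  refine ⟨K0.restrictScalars ℚ, ?_, hfd, hrank, ?_⟩
  · intro x hx
    exact K0.algebraMap_mem ⟨x, hx⟩
  · intro i j
    exact IntermediateField.subset_adjoin F S ⟨(i, j), rfl⟩

end Pool.Agent.Lib.P7ee
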