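import Pool.Agent.Lib.P7ee.LenBasic

/-!
# P7ee.MinFixed: minimal positions for a fixed graph  (1 h)

Let `P0` be feasible, `L0 = len G P0`. All feasible `P` with `len G P ≤ L0` satisfy `dist (P a) (y j0) ≤ L0 + r` (`j0 = ⟨0, hn⟩`, `dist_le_len` between `a` and `τ j0`), so they lie in the compact set `∏ closedBall (y j0) (L0 + r)` (`isCompact_univ_pi`).
The set of feasible `P` in it is closed; `continuous_len` attains its minimum on it (`IsCompact.exists_isMinOn`), nonempty because of `P0`. Compare with an arbitrary feasible `P'`: if `len G P' > L0` use `P0`.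
-/

set_option autoImplicit false

open MeasureTheory Set Metric Filter Topology

namespace Pool.Agent.Lib.P7ee

theorem exists_min_fixed {n : ℕ} (hn : 0 < n) (y : Fin n → ℂ) {r : ℝ} (hr : 0 ≤ r) {N : ℕ}
    (G : SimpleGraph (Fin N)) (τ : Fin n → Fin N) (P0 : Fin N → ℂ) (h0 : Feas y r G P0 τ) :
    ∃ P : Fin N → ℂ, Feas y r G P τ ∧ ∀ P' : Fin N → ℂ, Feas y r G P' τ →
      len G P ≤ len G P' := by
  have hG := h0.1
  set j0 : Fin n := ⟨0, hn⟩ with hj0
  set L0 : ℝ := len G P0 with hL0
  set K : Set (Fin N → ℂ) := Set.pi Set.univ (fun _ => closedBall (y j0) (L0 + r)) with hK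
  have hKc : IsCompact K := isCompact_univ_pi fun _ => isCompact_closedBall _ _
  have hin : ∀ P : Fin N → ℂ, Feas y r G P τ → len G P ≤ L0 → P ∈ K := by
    intro P hP hl a _
    rw [mem_closedBall]
    calc dist (P a) (y j0) ≤ dist (P a) (P (τ j0)) + dist (P (τ j0)) (y j0) :=
          dist_triangle _ _ _
      _ ≤ L0 + r := add_le_add ((dist_le_len hG P a (τ j0)).trans hl) (hP.2 j0)
  set F : Set (Fin N → ℂ) := {P | ∀ j, dist (P (τ j)) (y j) ≤ r} with hF
  have hFc : IsClosed F := by
    have : F = ⋂ j, {P : Fin N → ℂ | dist (P (τ j)) (y j) ≤ r} := by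
      ext P
      simp [hF]
    rw [this]
    exact isClosed_iInter fun j =>
      isClosed_le ((continuous_apply (τ j)).dist continuous_const) continuous_const
  have hSc : IsCompact (K ∩ F) := hKc.inter_right hFc
  have hSne : (K ∩ F).Nonempty := ⟨P0, hin P0 h0 le_rfl, h0.2⟩
  obtain ⟨P, hP, hmin⟩ := hSc.exists_isMinOn hSne (continuous_len G).continuousOn
  refine ⟨P, ⟨hG, hP.2⟩, fun P' hP' => ?_⟩
  rcases le_total (len G P') L0 with h | h
  · exact hmin ⟨hin P' hP' h, hP'.2⟩
  · exact (hmin ⟨hin P0 h0 le_rfl, h0.2⟩ : len G P ≤ len G P0).trans h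

end Pool.Agent.Lib.P7ee
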