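import Pool.Agent.Lib.P7ee.Reduce
import Pool.Agent.Lib.P7ee.MinFixed

/-!
# P7ee.ExistsOpt: optimal networks exist  (1.2 h)

There is a feasible network (`V = Fin n`, `G = ⊤`, `P = y`, `τ = id`; connected because `0 < n`). There are finitely many triples `(N, G, τ)` with `N ≤ 2 n`; for each one that has a feasible `P` take the minimal one (`exists_min_fixed`); the shortest of them is optimal by `reduce`. Among all optimal networks on some
`Fin N` take one with minimal `N`; replace `G` by a spanning tree (`SimpleGraph.Connected.exists_isTree_le`, `len_mono`: still optimal). If `G.Adj a b` and `P a = P b`, `contract` (then transport to `Fin (card V')`, `len_comap`) contradicts the minimality of `N`.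
-/

set_option autoImplicit false

open MeasureTheory Set Metric Filter Topology

namespace Pool.Agent.Lib.P7ee

private theorem exists_opt_fin {n : ℕ} (hn : 0 < n) (y : Fin n → ℂ) {r : ℝ} (hr : 0 ≤ r) :
    ∃ (N : ℕ) (G : SimpleGraph (Fin N)) (P : Fin N → ℂ) (τ : Fin n → Fin N),
      IsOpt y r G P τ := by
  classical
  let T := Σ N : Fin (2 * n + 1), SimpleGraph (Fin N.1) × (Fin n → Fin N.1)
  let F : T → Prop := fun t => ∃ P : Fin t.1.1 → ℂ, Feas y r t.2.1 P t.2.2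
  have hmin : ∀ t : T, ∃ P : Fin t.1.1 → ℂ, F t → (Feas y r t.2.1 P t.2.2 ∧
      ∀ P' : Fin t.1.1 → ℂ, Feas y r t.2.1 P' t.2.2 → len t.2.1 P ≤ len t.2.1 P') := by
    intro t
    by_cases h : F t
    · obtain ⟨P0, h0⟩ := h
      obtain ⟨P, h1, h2⟩ := exists_min_fixed hn y hr t.2.1 t.2.2 P0 h0
      exact ⟨P, fun _ => ⟨h1, h2⟩⟩
    · exact ⟨fun _ => 0, fun h' => absurd h' h⟩
  choose PP hPP using hmin
  have hfeas0 : Feas y r (⊤ : SimpleGraph (Fin n)) y id := by
    have : Nonempty (Fin n) := ⟨⟨0, hn⟩⟩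
    refine ⟨SimpleGraph.connected_top, fun j => ?_⟩
    simpa using hr
  have hred : ∀ (V' : Type) [Fintype V'] (G' : SimpleGraph V') (P' : V' → ℂ)
      (τ' : Fin n → V'), Feas y r G' P' τ' → ∃ t : T, F t ∧ len t.2.1 (PP t) ≤ len G' P' := by
    intro V' _ G' P' τ' h
    obtain ⟨N, hN, G'', P'', τ'', h1, h2⟩ := reduce hn y h
    refine ⟨⟨⟨N, by omega⟩, (G'', τ'')⟩, ⟨P'', h1⟩, ?_⟩
    exact ((hPP ⟨⟨N, by omega⟩, (G'', τ'')⟩ ⟨P'', h1⟩).2 P'' h1).trans h2
  obtain ⟨t1, ht1, _⟩ := hred _ _ _ _ hfeas0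
  have : Finite T := by
    have : ∀ N : Fin (2 * n + 1), Finite (SimpleGraph (Fin N.1) × (Fin n → Fin N.1)) :=
      fun N => inferInstance
    exact inferInstance
  obtain ⟨t0, ht0, hle⟩ := Set.exists_min_image {t : T | F t} (fun t => len t.2.1 (PP t))
    (Set.toFinite _) ⟨t1, ht1⟩
  refine ⟨t0.1.1, t0.2.1, PP t0, t0.2.2, (hPP t0 ht0).1, ?_⟩
  intro V' _ G' P' τ' h
  obtain ⟨t, ht, h1⟩ := hred V' G' P' τ' h
  exact (hle t ht).trans h1

theorem exists_opt {n : ℕ} (hn : 0 < n) (y : Fin n → ℂ) {r : ℝ} (hr : 0 ≤ r) :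
    ∃ (N : ℕ) (G : SimpleGraph (Fin N)) (P : Fin N → ℂ) (τ : Fin n → Fin N),
      IsOpt y r G P τ ∧ G.IsTree ∧ ∀ a b, G.Adj a b → P a ≠ P b := by
  classical
  have hex : ∃ N : ℕ, ∃ (G : SimpleGraph (Fin N)) (P : Fin N → ℂ) (τ : Fin n → Fin N),
      IsOpt y r G P τ := exists_opt_fin hn y hr
  obtain ⟨G, P, τ, hopt⟩ := Nat.find_spec hex
  obtain ⟨T, hTG, hT⟩ := hopt.1.1.exists_isTree_le
  have hfeas : Feas y r T P τ := ⟨hT.connected, hopt.1.2⟩
  have hopt' : IsOpt y r T P τ :=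
    ⟨hfeas, fun V' _ G' P' τ' h => (len_mono hTG P).trans (hopt.2 V' G' P' τ' h)⟩
  refine ⟨_, T, P, τ, hopt', hT, ?_⟩
  intro a b hab hPab
  obtain ⟨V', hV', G', P', f, h1, h2, h3, h4⟩ := contract hT.connected hab hPab
  rw [Fintype.card_fin] at h4
  refine Nat.find_min hex h4 ?_
  let e : Fin (Fintype.card V') ≃ V' := (Fintype.equivFin V').symm
  have hcon : (G'.comap e).Connected := (SimpleGraph.Iso.comap e G').connected_iff.2 h1
  refine ⟨G'.comap e, fun a => P' (e a), fun j => e.symm (f (τ j)), ⟨hcon, fun j => ?_⟩, ?_⟩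
  · simp only [Equiv.apply_symm_apply]
    rw [h2]
    exact hfeas.2 j
  · intro V'' _ G'' P'' τ'' h
    rw [len_comap e G' P']
    exact h3.trans (hopt'.2 V'' G'' P'' τ'' h)

end Pool.Agent.Lib.P7ee
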