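import Mathlib

/-!
# P7ee.Expand: asymptotic expansion  (1 h)

Taylor (`taylor_mean_remainder_bound` on `[0, δ]`, or `ContDiffAt` and `taylorWithinEval`): `s ρ = ∑_(j ≤ J) s_j ρ^j + O(ρ^(J+1))` as `ρ → 0+`, `s_0 = s 0`, `J = D.natDegree`. `D(m) = ∑ d_i m^i`. `D(m) s(1/m) = ∑_(i, j) d_i s_j m^(i-j) + O(1/m)`; the terms with `i ≥ j` form the polynomial with `h_j = ∑_(i - i' = J - j) d_i s_(i')`, the others tend to `0`. `h_0 = d_J s_0`.
-/

set_option autoImplicit false

open Filter Topology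

namespace Pool.Agent.Lib.P7ee

theorem expand (s : ℝ → ℝ) (hs : ∀ n : ℕ, ContDiffAt ℝ n s 0) (D : Polynomial ℤ) (hD : D ≠ 0) :
    ∃ h : ℕ → ℝ, h 0 = (D.leadingCoeff : ℝ) * s 0 ∧
      Tendsto (fun m : ℕ => ((D.eval (m : ℤ) : ℤ) : ℝ) * s (1 / (m : ℝ)) -
        ∑ j ∈ Finset.range (D.natDegree + 1), h j * (m : ℝ) ^ (D.natDegree - j))
        atTop (𝓝 0) := by
  classical
  set J : ℕ := D.natDegree with hJ
  -- Taylor expansion
  obtain ⟨c, hc0, hc⟩ : ∃ c : ℕ → ℝ, c 0 = s 0 ∧
      Tendsto (fun x : ℝ => (s x - ∑ j ∈ Finset.range (J + 1), c j * x ^ j) / x ^ J)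
        (𝓝 0) (𝓝 0) := by
    have h1 := (hs J).eventually (by simp)
    obtain ⟨δ, hδ, hball⟩ := Metric.eventually_nhds_iff_ball.mp h1
    have hcd : ContDiffOn ℝ J s (Metric.ball (0 : ℝ) δ) := fun x hx =>
      (hball x hx).contDiffWithinAt
    have h2 := Real.taylor_tendsto (convex_ball (0 : ℝ) δ) (Metric.mem_ball_self hδ) hcd
    rw [nhdsWithin_eq_nhds.mpr (Metric.ball_mem_nhds (0 : ℝ) hδ)] at h2
    refine ⟨fun j => ((Nat.factorial j : ℝ))⁻¹ *
      iteratedDerivWithin j s (Metric.ball (0 : ℝ) δ) 0, by simp, ?_⟩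
    refine h2.congr fun x => ?_
    rw [taylor_within_apply, sub_zero]
    congr 2
    refine Finset.sum_congr rfl fun j _ => ?_
    rw [smul_eq_mul]
    ring
  set DR : Polynomial ℝ := D.map (Int.castRingHom ℝ) with hDR
  have hinj : Function.Injective (Int.castRingHom ℝ) := RingHom.injective_int _
  have hDRdeg : DR.natDegree = J := Polynomial.natDegree_map_eq_of_injective hinj D
  have hDR0 : DR ≠ 0 := (Polynomial.map_ne_zero_iff hinj).mpr hD
  have hDRlead : DR.leadingCoeff = (D.leadingCoeff : ℝ) := by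
    rw [hDR, Polynomial.leadingCoeff_map_of_injective hinj]
    rfl
  have hDeval : ∀ m : ℕ, ((D.eval (m : ℤ) : ℤ) : ℝ) = DR.eval (m : ℝ) := by
    intro m
    have := Polynomial.eval_intCast_map (Int.castRingHom ℝ) D (m : ℤ)
    rw [Int.cast_natCast] at this
    rw [hDR, this]
    rfl
  set Q : Polynomial ℝ := ∑ j ∈ Finset.range (J + 1),
    Polynomial.C (c j) * Polynomial.X ^ (J - j) with hQ
  have hQdeg : Q.natDegree ≤ J := by
    rw [hQ]
    refine Polynomial.natDegree_sum_le_of_forall_le _ _ fun j _ => ?_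
    exact (Polynomial.natDegree_C_mul_X_pow_le _ _).trans (Nat.sub_le _ _)
  have hQJ : Q.coeff J = s 0 := by
    rw [hQ, Polynomial.finsetSum_coeff, Finset.sum_eq_single 0]
    · rw [Nat.sub_zero, Polynomial.coeff_C_mul_X_pow, if_pos rfl, hc0]
    · intro j hj hj0
      have := Finset.mem_range.mp hj
      rw [Polynomial.coeff_C_mul_X_pow, if_neg (by omega)]
    · intro h
      exact absurd (Finset.mem_range.mpr (Nat.succ_pos J)) h
  set P : Polynomial ℝ := DR * Q with hP
  have hPdeg : P.natDegree < 2 * J + 1 := by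
    have h1 : P.natDegree ≤ DR.natDegree + Q.natDegree := Polynomial.natDegree_mul_le
    omega
  refine ⟨fun j => P.coeff (2 * J - j), ?_, ?_⟩
  · show P.coeff (2 * J - 0) = _
    rw [Nat.sub_zero, two_mul, hP, Polynomial.coeff_mul_add_eq_of_natDegree_le hDRdeg.le hQdeg, hQJ,
      ← hDRlead, Polynomial.leadingCoeff, hDRdeg]
  · -- the error terms
    have hinv : Tendsto (fun m : ℕ => 1 / (m : ℝ)) atTop (𝓝 0) :=
      tendsto_one_div_atTop_nhds_zero_nat
    have hR := hc.comp hinv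
    have hlead : Tendsto (fun m : ℕ => DR.eval (m : ℝ) / (m : ℝ) ^ J) atTop
        (𝓝 (D.leadingCoeff : ℝ)) := by
      have h1 := Polynomial.div_tendsto_leadingCoeff_div_of_degree_eq DR (Polynomial.X ^ J) (by
        rw [Polynomial.degree_X_pow, Polynomial.degree_eq_natDegree hDR0, hDRdeg])
      rw [Polynomial.leadingCoeff_X_pow, div_one, hDRlead] at h1
      have h2 := h1.comp tendsto_natCast_atTop_atTop
      refine h2.congr fun m => ?_
      simp
    have hE := hlead.mul hR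
    rw [mul_zero] at hE
    have hlow : Tendsto (fun m : ℕ => ∑ n ∈ Finset.range J, P.coeff n * ((m : ℝ) ^ n / (m : ℝ) ^ J))
        atTop (𝓝 0) := by
      have h1 : ∀ n ∈ Finset.range J, Tendsto
          (fun m : ℕ => P.coeff n * ((m : ℝ) ^ n / (m : ℝ) ^ J)) atTop (𝓝 (P.coeff n * 0)) := by
        intro n hn
        refine Tendsto.const_mul _ ?_
        exact (tendsto_pow_div_pow_atTop_zero (𝕜 := ℝ) (Finset.mem_range.mp hn)).comp
          tendsto_natCast_atTop_atTop
      have h2 := tendsto_finset_sum (Finset.range J) h1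
      simpa using h2
    have hsum := hE.add hlow
    rw [add_zero] at hsum
    refine hsum.congr' ?_
    filter_upwards [Filter.eventually_gt_atTop 0] with m hm
    have hm0 : (m : ℝ) ≠ 0 := by exact_mod_cast hm.ne'
    have hmJ : (m : ℝ) ^ J ≠ 0 := pow_ne_zero _ hm0
    -- the value of `Q`
    have hQe : Q.eval (m : ℝ) = (m : ℝ) ^ J * ∑ j ∈ Finset.range (J + 1), c j * (1 / (m : ℝ)) ^ j := by
      rw [hQ, Polynomial.eval_finset_sum, Finset.mul_sum]
      refine Finset.sum_congr rfl fun j hj => ?_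
      have hjJ : j ≤ J := Nat.lt_succ_iff.mp (Finset.mem_range.mp hj)
      rw [Polynomial.eval_mul, Polynomial.eval_C, Polynomial.eval_pow, Polynomial.eval_X,
        one_div, inv_pow]
      have h3 : (m : ℝ) ^ J = (m : ℝ) ^ (J - j) * (m : ℝ) ^ j := by
        rw [← pow_add, Nat.sub_add_cancel hjJ]
      rw [h3]
      field_simp
    have hPe : P.eval (m : ℝ) = ∑ n ∈ Finset.range J, P.coeff n * (m : ℝ) ^ n
        + (m : ℝ) ^ J * ∑ j ∈ Finset.range (J + 1), P.coeff (2 * J - j) * (m : ℝ) ^ (J - j) := by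
      rw [Polynomial.eval_eq_sum_range' hPdeg]
      have h4 : 2 * J + 1 = J + (J + 1) := by ring
      rw [h4, Finset.sum_range_add]
      congr 1
      rw [Finset.mul_sum, ← Finset.sum_range_reflect]
      refine Finset.sum_congr rfl fun j hj => ?_
      have hjJ : j ≤ J := Nat.lt_succ_iff.mp (Finset.mem_range.mp hj)
      have h5 : J + (J + 1 - 1 - j) = 2 * J - j := by omega
      have h6 : 2 * J - j = J + (J - j) := by omega
      rw [h5]
      nth_rewrite 2 [h6]
      rw [pow_add]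
      ring
    rw [hDeval m]
    simp only [Function.comp_apply]
    have hPQ : P.eval (m : ℝ) = DR.eval (m : ℝ) * Q.eval (m : ℝ) := by
      rw [hP, Polynomial.eval_mul]
    rw [hQe, hPe] at hPQ
    have hA : ∑ n ∈ Finset.range J, P.coeff n * ((m : ℝ) ^ n / (m : ℝ) ^ J)
        = (∑ n ∈ Finset.range J, P.coeff n * (m : ℝ) ^ n) / (m : ℝ) ^ J := by
      rw [Finset.sum_div]
      refine Finset.sum_congr rfl fun n _ => ?_
      rw [mul_div_assoc]
    rw [hA]
    set A := ∑ n ∈ Finset.range J, P.coeff n * (m : ℝ) ^ n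
    set B := ∑ j ∈ Finset.range (J + 1), P.coeff (2 * J - j) * (m : ℝ) ^ (J - j)
    set E := ∑ j ∈ Finset.range (J + 1), c j * (1 / (m : ℝ)) ^ j
    have hAe : A = DR.eval (m : ℝ) * ((m : ℝ) ^ J * E) - (m : ℝ) ^ J * B := by
      linarith
    rw [hAe, one_div, inv_pow]
    field_simp
    ring

end Pool.Agent.Lib.P7ee
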