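import Mathlib

/-!
# P7ee.FinDiff: integer values and the leading coefficient  (1.2 h)

`W_i = ∏_(j ≤ J, j ≠ i) (b i - b j) ≠ 0` (integers), `W = ∏_(i ≤ J) W_i`, `c_i = W/W_i ∈ ℤ`. Lagrange: for a real polynomial `p` of degree at most `J`, `∑_(i ≤ J) p (b i)/W_i` is the coefficient of `x^J` (`Lagrange` in Mathlib, or uniqueness of interpolation). For fixed `m`, `p (x) = ∑ j, h j (m + x)^(J-j)` has degree `≤ J` and `x^J`-coefficient `h 0`, so
`∑ c_i p (b i) = W h 0`. Hence `∑ c_i g (m + b i) → W h 0` as `m → ∞`, and these numbers are integers for infinitely many `m`; the integers are closed in `ℝ`, so `W h 0` is an integer.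
-/

set_option autoImplicit false

open Filter Topology

namespace Pool.Agent.Lib.P7ee

theorem diff_rational {J : ℕ} {g : ℕ → ℝ} {h : ℕ → ℝ}
    (hg : Tendsto (fun m : ℕ => g m - ∑ j ∈ Finset.range (J + 1), h j * (m : ℝ) ^ (J - j))
      atTop (𝓝 0)) (b : ℕ → ℕ) (hb : StrictMono b)
    (hint : ∀ m0, ∃ m ≥ m0, ∀ i ≤ J, ∃ z : ℤ, g (m + b i) = z) : ∃ q : ℚ, h 0 = q := by
  classical
  set s : Finset ℕ := Finset.range (J + 1) with hs
  set w : ℕ → ℤ := fun i => ∏ j ∈ s.erase i, ((b i : ℤ) - (b j : ℤ)) with hw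
  set W : ℤ := ∏ i ∈ s, w i with hW
  set c : ℕ → ℤ := fun i => ∏ j ∈ s.erase i, w j with hc
  have hw0 : ∀ i ∈ s, w i ≠ 0 := by
    intro i _
    rw [hw]
    refine Finset.prod_ne_zero_iff.mpr fun j hj => ?_
    rw [sub_ne_zero]
    intro h1
    have h2 : b i = b j := by exact_mod_cast h1
    exact (Finset.ne_of_mem_erase hj) (hb.injective h2).symm
  have hW0 : W ≠ 0 := Finset.prod_ne_zero_iff.mpr hw0
  have hcw : ∀ i ∈ s, c i * w i = W := by
    intro i hi
    rw [hc, hW]
    exact Finset.prod_erase_mul s w hi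
  let p : ℕ → Polynomial ℝ := fun m =>
    ∑ j ∈ Finset.range (J + 1), Polynomial.C (h j) * (Polynomial.X + Polynomial.C (m : ℝ)) ^ (J - j)
  have hdeg : ∀ (m j : ℕ), (Polynomial.C (h j) *
      (Polynomial.X + Polynomial.C (m : ℝ)) ^ (J - j)).natDegree ≤ J - j := by
    intro m j
    refine (Polynomial.natDegree_C_mul_le _ _).trans ?_
    rw [Polynomial.natDegree_pow, Polynomial.natDegree_X_add_C, mul_one]
  have hpdeg : ∀ m, (p m).degree < s.card := by
    intro m
    refine lt_of_le_of_lt Polynomial.degree_le_natDegree ?_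
    have h1 : (p m).natDegree ≤ J := by
      apply Polynomial.natDegree_sum_le_of_forall_le
      intro j _
      exact (hdeg m j).trans (Nat.sub_le _ _)
    have h2 : (p m).natDegree < s.card := by
      rw [hs, Finset.card_range]
      omega
    exact_mod_cast h2
  have hpc : ∀ m, (p m).coeff J = h 0 := by
    intro m
    simp only [p, Polynomial.finsetSum_coeff]
    rw [Finset.sum_eq_single 0]
    · rw [Polynomial.coeff_C_mul, Nat.sub_zero]
      have h1 := (Polynomial.monic_X_add_C (m : ℝ)).pow J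
      have h2 : ((Polynomial.X + Polynomial.C (m : ℝ)) ^ J).natDegree = J := by
        rw [Polynomial.natDegree_pow, Polynomial.natDegree_X_add_C, mul_one]
      have h3 := h1.coeff_natDegree
      rw [h2] at h3
      rw [h3, mul_one]
    · intro j hj hj0
      apply Polynomial.coeff_eq_zero_of_natDegree_lt
      have := hdeg m j
      have := Finset.mem_range.mp hj
      omega
    · intro h1
      exact absurd (Finset.mem_range.mpr (Nat.succ_pos J)) h1
  have hinj : Set.InjOn (fun i => (b i : ℝ)) s := by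
    intro i _ j _ hij
    have h1 : (b i : ℝ) = (b j : ℝ) := hij
    exact hb.injective (by exact_mod_cast h1)
  have hsum : ∀ m, ∑ i ∈ s, (c i : ℝ) * (p m).eval (b i : ℝ) = (W : ℝ) * h 0 := by
    intro m
    have h1 := Lagrange.coeff_eq_sum hinj (hpdeg m)
    have h2 : s.card - 1 = J := by
      rw [hs, Finset.card_range]
      omega
    rw [h2, hpc m] at h1
    rw [h1, Finset.mul_sum]
    refine Finset.sum_congr rfl fun i hi => ?_
    have h3 : (∏ j ∈ s.erase i, ((b i : ℝ) - (b j : ℝ))) = (w i : ℝ) := by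
      rw [hw]
      push_cast
      rfl
    have h4 : (w i : ℝ) ≠ 0 := by exact_mod_cast hw0 i hi
    have h5 : (c i : ℝ) * (w i : ℝ) = (W : ℝ) := by exact_mod_cast hcw i hi
    rw [h3, ← h5]
    field_simp
  have hpe : ∀ m i, (p m).eval (b i : ℝ) =
      ∑ j ∈ Finset.range (J + 1), h j * (((m + b i : ℕ) : ℝ)) ^ (J - j) := by
    intro m i
    simp only [p, Polynomial.eval_finsetSum, Polynomial.eval_mul, Polynomial.eval_C,
      Polynomial.eval_pow, Polynomial.eval_add, Polynomial.eval_X]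
    refine Finset.sum_congr rfl fun j _ => ?_
    push_cast
    ring
  have hlim : Tendsto (fun m : ℕ => ∑ i ∈ s, (c i : ℝ) * g (m + b i)) atTop
      (𝓝 ((W : ℝ) * h 0)) := by
    have h1 : Tendsto (fun m : ℕ => ∑ i ∈ s, (c i : ℝ) * (g (m + b i) -
        ∑ j ∈ Finset.range (J + 1), h j * (((m + b i : ℕ) : ℝ)) ^ (J - j))) atTop
        (𝓝 (∑ i ∈ s, (c i : ℝ) * 0)) := by
      apply tendsto_finsetSum
      intro i _
      apply Tendsto.const_mul
      exact hg.comp (tendsto_add_atTop_nat (b i))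
    have h2 : ∀ m : ℕ, ∑ i ∈ s, (c i : ℝ) * g (m + b i) = ∑ i ∈ s, (c i : ℝ) * (g (m + b i) -
        ∑ j ∈ Finset.range (J + 1), h j * (((m + b i : ℕ) : ℝ)) ^ (J - j)) + (W : ℝ) * h 0 := by
      intro m
      rw [← hsum m, ← Finset.sum_add_distrib]
      refine Finset.sum_congr rfl fun i _ => ?_
      rw [hpe]
      ring
    have h3 := h1.add_const ((W : ℝ) * h 0)
    simp only [mul_zero, Finset.sum_const_zero, zero_add] at h3
    exact h3.congr fun m => (h2 m).symm
  have hfr : ∃ᶠ m : ℕ in atTop, (∑ i ∈ s, (c i : ℝ) * g (m + b i)) ∈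
      Set.range (Int.cast : ℤ → ℝ) := by
    rw [frequently_atTop]
    intro m0
    obtain ⟨m, hm, hm1⟩ := hint m0
    refine ⟨m, hm, ?_⟩
    choose! z hz using hm1
    refine ⟨∑ i ∈ s, c i * z i, ?_⟩
    push_cast
    refine Finset.sum_congr rfl fun i hi => ?_
    rw [hz i (by have := Finset.mem_range.mp hi; omega)]
  have hmem := Int.isClosedEmbedding_coe_real.isClosed_range.mem_of_frequently_of_tendsto hfr hlim
  obtain ⟨z, hz⟩ := hmem
  refine ⟨(z : ℚ) / W, ?_⟩
  have h1 : (W : ℝ) ≠ 0 := by exact_mod_cast hW0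
  push_cast
  rw [eq_div_iff h1, hz]
  ring

end Pool.Agent.Lib.P7ee
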