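import Pool.Agent.Lib.P7ee.Defs

/-!
# P7ee.FirstOrder: first order condition for a sum of distances  (0.8 h)

`φ(s) = ∑ ‖p + s (z - p) - a i‖` has right derivative at `0` equal to `- ip (∑ (a i - p)/‖a i - p‖) (z - p)` (each summand is differentiable at `0` because `p ≠ a i`; derivative of the norm, or elementary: `‖w + s v‖ ≤ ‖w‖ + s ⟨w,v⟩/‖w‖ + s² ‖v‖²/(2‖w‖)` from `‖w + s v‖² = ‖w‖² + 2 s ⟨w,v⟩ + s²‖v‖²` and `sqrt` concave).
With the elementary bound: `0 ≤ φ(s) - φ(0) ≤ - s ip (...) (z - p) + C s²` for all `s ∈ (0,1]`, divide by `s`, let `s → 0`.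
-/

set_option autoImplicit false

open MeasureTheory Set Metric Filter Topology

namespace Pool.Agent.Lib.P7ee

namespace FirstOrderAux

theorem bound (w v : ℂ) (hw : w ≠ 0) (s : ℝ) :
    ‖w + (s : ℂ) * v‖ ≤ ‖w‖ + s * (ip w v / ‖w‖) + s ^ 2 * (‖v‖ ^ 2 / (2 * ‖w‖)) := by
  have hw0 : 0 < ‖w‖ := norm_pos_iff.mpr hw
  have e1 : ‖w + (s : ℂ) * v‖ ^ 2 = ‖w‖ ^ 2 + 2 * s * ip w v + s ^ 2 * ‖v‖ ^ 2 := by
    rw [← Complex.normSq_eq_norm_sq, ← Complex.normSq_eq_norm_sq, ← Complex.normSq_eq_norm_sq,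
      Complex.normSq_apply, Complex.normSq_apply, Complex.normSq_apply]
    simp only [ip, Complex.add_re, Complex.add_im, Complex.mul_re, Complex.mul_im,
      Complex.ofReal_re, Complex.ofReal_im]
    ring
  have e2 : 2 * ‖w‖ * ‖w + (s : ℂ) * v‖ ≤ ‖w‖ ^ 2 + ‖w + (s : ℂ) * v‖ ^ 2 := by
    nlinarith [sq_nonneg (‖w‖ - ‖w + (s : ℂ) * v‖)]
  rw [e1] at e2
  have e3 : ‖w‖ + s * (ip w v / ‖w‖) + s ^ 2 * (‖v‖ ^ 2 / (2 * ‖w‖))
      = (‖w‖ ^ 2 + (‖w‖ ^ 2 + 2 * s * ip w v + s ^ 2 * ‖v‖ ^ 2)) / (2 * ‖w‖) := by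
    field_simp
    ring
  rw [e3, le_div_iff₀ (by positivity)]
  linarith

theorem nonneg_of (B C : ℝ) (h : ∀ s : ℝ, 0 < s → s ≤ 1 → 0 ≤ s * B + s ^ 2 * C) : 0 ≤ B := by
  by_contra hB
  push Not at hB
  have hC : 0 < |C| + 1 := by positivity
  have hs : 0 < min 1 (-B / (2 * (|C| + 1))) := by
    apply lt_min one_pos
    apply div_pos (by linarith) (by positivity)
  set s := min 1 (-B / (2 * (|C| + 1))) with hsdef
  have h1 := h s hs (min_le_left _ _)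
  have h2 : s ≤ -B / (2 * (|C| + 1)) := min_le_right _ _
  rw [le_div_iff₀ (by positivity)] at h2
  have h3 : 0 ≤ s * (B + s * C) := by nlinarith
  have h4 : 0 ≤ B + s * C := nonneg_of_mul_nonneg_right h3 hs
  have h5 : s * C ≤ s * |C| := mul_le_mul_of_nonneg_left (le_abs_self C) hs.le
  nlinarith

end FirstOrderAux

open FirstOrderAux in
theorem first_order {ι : Type} [Fintype ι] (a : ι → ℂ) (p z : ℂ) (hp : ∀ i, a i ≠ p)
    (h : ∀ s : ℝ, 0 ≤ s → s ≤ 1 →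
      ∑ i, ‖p - a i‖ ≤ ∑ i, ‖p + (s : ℂ) * (z - p) - a i‖) :
    ip (∑ i, (a i - p) / (‖a i - p‖ : ℂ)) (z - p) ≤ 0 := by
  have hB : 0 ≤ ∑ i, ip (p - a i) (z - p) / ‖p - a i‖ := by
    apply nonneg_of _ (∑ i, ‖z - p‖ ^ 2 / (2 * ‖p - a i‖))
    intro s hs hs1
    have h1 := h s hs.le hs1
    have h2 : ∑ i, ‖p + (s : ℂ) * (z - p) - a i‖ ≤
        ∑ i, (‖p - a i‖ + s * (ip (p - a i) (z - p) / ‖p - a i‖)
          + s ^ 2 * (‖z - p‖ ^ 2 / (2 * ‖p - a i‖))) := by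
      apply Finset.sum_le_sum
      intro i _
      have hb := bound (p - a i) (z - p) (sub_ne_zero.mpr (hp i).symm) s
      have e : p + (s : ℂ) * (z - p) - a i = p - a i + (s : ℂ) * (z - p) := by ring
      rw [e]
      exact hb
    rw [Finset.sum_add_distrib, Finset.sum_add_distrib, ← Finset.mul_sum, ← Finset.mul_sum] at h2
    linarith
  have hip : ip (∑ i, (a i - p) / (‖a i - p‖ : ℂ)) (z - p)
      = - ∑ i, ip (p - a i) (z - p) / ‖p - a i‖ := by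
    have e1 : (∑ i, (a i - p) / (‖a i - p‖ : ℂ)).re = ∑ i, (a i - p).re / ‖a i - p‖ := by
      rw [Complex.re_sum]
      apply Finset.sum_congr rfl
      intro i _
      rw [Complex.div_ofReal_re]
    have e2 : (∑ i, (a i - p) / (‖a i - p‖ : ℂ)).im = ∑ i, (a i - p).im / ‖a i - p‖ := by
      rw [Complex.im_sum]
      apply Finset.sum_congr rfl
      intro i _
      rw [Complex.div_ofReal_im]
    unfold ip
    rw [e1, e2, Finset.sum_mul, Finset.sum_mul, ← Finset.sum_add_distrib, ← Finset.sum_neg_distrib]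
    apply Finset.sum_congr rfl
    intro i _
    rw [norm_sub_rev (a i) p]
    simp only [Complex.sub_re, Complex.sub_im]
    ring
  rw [hip]
  linarith

end Pool.Agent.Lib.P7ee
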