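import Mathlib

/-!
# P7ee.FlowZero: a tree carries no circulation  (1.2 h)

Let `e = {a, b}` be an edge; it is a bridge (`isAcyclic_iff_forall_edge_isBridge`). Let `S` be the set of vertices reachable from `b` in `G.deleteEdges {e}`; `b ∈ S`, `a ∉ S`. Sum the conservation law over `v ∈ S`: the terms of edges inside `S` cancel in pairs (`hanti`), and the only edge between `S` and its complement is `e` (any other edge at `v ∈ S` leads to a vertex of `S`),
which contributes `f b a`. So `f b a = 0` and `f a b = - f b a = 0` (apply `hanti` to `b, a`).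
-/

set_option autoImplicit false



namespace Pool.Agent.Lib.P7ee

open Classical in
theorem flow_zero {V : Type} [Fintype V] {G : SimpleGraph V} (hG : G.IsAcyclic) {M : Type}
    [AddCommGroup M] (f : V → V → M) (hanti : ∀ a b, G.Adj a b → f b a = - f a b)
    (hcons : ∀ v, ∑ b, (if G.Adj v b then f v b else 0) = 0) (a b : V) (hab : G.Adj a b) :
    f a b = 0 := by
  have hbr : G.IsBridge s(a, b) :=
    (SimpleGraph.isAcyclic_iff_forall_isBridge.1 hG) (by simpa using hab)
  rw [SimpleGraph.isBridge_iff] at hbr
  set H : SimpleGraph V := G \ SimpleGraph.fromEdgeSet {s(a, b)} with hH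
  have hHadj : ∀ v w, G.Adj v w → s(v, w) ≠ s(a, b) → H.Adj v w := by
    intro v w hvw hne
    rw [hH, SimpleGraph.sdiff_adj]
    refine ⟨hvw, fun h => ?_⟩
    rw [SimpleGraph.fromEdgeSet_adj] at h
    exact hne h.1
  have hnr : ¬ H.Reachable a b := hbr
  set S : Finset V := Finset.univ.filter (fun v => H.Reachable b v) with hS
  have hbS : b ∈ S := by simp [hS]
  have haS : a ∉ S := by
    intro h
    have : H.Reachable b a := by simpa [hS] using h
    exact hnr this.symm
  set F : V → V → M := fun v w => if G.Adj v w then f v w else 0 with hF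
  have hcross : ∀ v ∈ S, ∀ w ∉ S, F v w = if v = b ∧ w = a then f b a else 0 := by
    intro v hv w hw
    by_cases hvw : G.Adj v w
    · by_cases he : s(v, w) = s(a, b)
      · rw [Sym2.eq_iff] at he
        rcases he with ⟨h1, h2⟩ | ⟨h1, h2⟩
        · exact absurd (h1 ▸ hv) haS
        · subst h1; subst h2
          simp [hF, hvw]
      · exfalso
        apply hw
        have h1 : H.Reachable b v := by simpa [hS] using hv
        have h2 : H.Reachable b w := h1.trans (hHadj v w hvw he).reachable
        simpa [hS] using h2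
    · have : ¬ (v = b ∧ w = a) := by
        rintro ⟨h1, h2⟩
        subst h1; subst h2
        exact hvw hab.symm
      simp [hF, hvw, this]
  have hin : ∑ p ∈ S ×ˢ S, F p.1 p.2 = 0 := by
    refine Finset.sum_involution (fun p _ => (p.2, p.1)) ?_ ?_ ?_ ?_
    · rintro ⟨v, w⟩ _
      by_cases hvw : G.Adj v w
      · have := hanti v w hvw
        simp [hF, hvw, hvw.symm, this]
      · have h2 : ¬ G.Adj w v := fun h => hvw h.symm
        simp [hF, hvw, h2]
    · rintro ⟨v, w⟩ _ hne heq
      have : w = v := congrArg Prod.fst heq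
      subst this
      simp [hF] at hne
    · rintro ⟨v, w⟩ hp
      simp only [Finset.mem_product] at hp ⊢
      exact ⟨hp.2, hp.1⟩
    · rintro ⟨v, w⟩ _
      rfl
  have htot : ∑ v ∈ S, ∑ w, F v w = 0 := by
    apply Finset.sum_eq_zero
    intro v _
    exact hcons v
  have hsplit : ∀ v, ∑ w, F v w = ∑ w ∈ S, F v w + ∑ w ∈ Sᶜ, F v w := by
    intro v
    exact (Finset.sum_add_sum_compl S _).symm
  have hout : ∑ v ∈ S, ∑ w ∈ Sᶜ, F v w = f b a := by
    have h1 : ∑ v ∈ S, ∑ w ∈ Sᶜ, F v w
        = ∑ v ∈ S, ∑ w ∈ Sᶜ, (if v = b ∧ w = a then f b a else 0) := by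
      apply Finset.sum_congr rfl
      intro v hv
      apply Finset.sum_congr rfl
      intro w hw
      exact hcross v hv w (by simpa using hw)
    rw [h1]
    rw [Finset.sum_eq_single b]
    · rw [Finset.sum_eq_single a]
      · simp
      · intro w _ hw
        simp [hw]
      · intro h
        exact absurd (by simpa using haS) h
    · intro v _ hv
      apply Finset.sum_eq_zero
      intro w _
      simp [hv]
    · intro h
      exact absurd hbS h
  have hfin : f b a = 0 := by
    rw [← hout]
    have h2 : ∑ v ∈ S, ∑ w, F v w = ∑ v ∈ S, ∑ w ∈ S, F v w + ∑ v ∈ S, ∑ w ∈ Sᶜ, F v w := by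
      rw [← Finset.sum_add_distrib]
      exact Finset.sum_congr rfl fun v _ => hsplit v
    rw [htot, ← Finset.sum_product', hin, zero_add] at h2
    exact h2.symm
  have := hanti a b hab
  rw [hfin] at this
  exact (neg_eq_zero.1 this.symm)

end Pool.Agent.Lib.P7ee
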