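import Pool.Agent.Lib.P7ee.Defs

/-!
# P7ee.GrowPath: growing a path  (0.4 h)

Induction on `l` with `Grow.step` (`v = p l`, which belongs to the current set; `Finset.range_add_one`, `Finset.image_insert`, `insert` and `∪`).
-/

set_option autoImplicit false

open MeasureTheory Set Metric Filter Topology

namespace Pool.Agent.Lib.P7ee

theorem grow_path {A : Finset ℂ} {L : ℝ} (h : Grow A L) (p : ℕ → ℂ) (h0 : p 0 ∈ A) (l : ℕ) :
    Grow (A ∪ (Finset.range (l + 1)).image p)
      (L + ∑ i ∈ Finset.range l, dist (p i) (p (i + 1))) := by
  induction l with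
  | zero =>
    have h1 : A ∪ (Finset.range (0 + 1)).image p = A := by
      rw [zero_add, Finset.range_one, Finset.image_singleton]
      exact Finset.union_eq_left.mpr (Finset.singleton_subset_iff.mpr h0)
    rw [h1, Finset.range_zero, Finset.sum_empty, add_zero]
    exact h
  | succ l ih =>
    have hv : p l ∈ A ∪ (Finset.range (l + 1)).image p :=
      Finset.mem_union_right _ (Finset.mem_image_of_mem p (Finset.mem_range.mpr (Nat.lt_succ_self l)))
    have h2 := Grow.step ih hv (p (l + 1))
    have h3 : insert (p (l + 1)) (A ∪ (Finset.range (l + 1)).image p) =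
        A ∪ (Finset.range (l + 1 + 1)).image p := by
      rw [Finset.range_add_one (n := l + 1), Finset.image_insert, Finset.union_insert]
    rw [h3] at h2
    rw [Finset.sum_range_succ, ← add_assoc]
    exact h2

end Pool.Agent.Lib.P7ee
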