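import Mathlib

/-!
# P7ee.Nerve: chains in the nerve of an open cover of a connected set  (1 h)

Let `Q` be the set of all indices `q` for which there is a chain `b = c 0, c 1, ..., c l = q` with consecutive members of the cover meeting. If `Q` contains no element of `I`, put `V = ⋃ q ∈ Q, U q`,
`W = ⋃ q ∉ Q, U q`: open, `S ⊆ V ∪ W`, both meet `S` (`b ∈ Q`, an element of `I` is not in `Q`), `V ∩ W = ∅` (a point in `U q ∩ U q'` would put `q'` in `Q`): contradiction to `hS`. So there is a chain ending
in `I`; take one of minimal length `l` (`Nat.find`). Minimality: `c i ∉ I` for `i < l` (otherwise cut), and `c i = c j`, `i < j < l` is impossible (remove the loop).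
-/

set_option autoImplicit false

open MeasureTheory Set Metric Filter Topology

namespace Pool.Agent.Lib.P7ee

theorem nerve_chain {S : Set ℂ} (hS : IsPreconnected S) {N : ℕ} {U : Fin N → Set ℂ}
    (hU : ∀ i, IsOpen (U i)) (hne : ∀ i, (U i ∩ S).Nonempty) (hcov : S ⊆ ⋃ i, U i)
    (I : Finset (Fin N)) (hI : I.Nonempty) (b : Fin N) (hb : b ∉ I) :
    ∃ (l : ℕ) (c : ℕ → Fin N), c 0 = b ∧ c l ∈ I ∧ (∀ i < l, c i ∉ I) ∧
      (∀ i < l, ∀ j < l, c i = c j → i = j) ∧ ∀ i < l, (U (c i) ∩ U (c (i + 1))).Nonempty := by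
  classical
  let R : Fin N → Fin N → Prop := fun i j => (U i ∩ U j).Nonempty
  have hreach : ∃ q ∈ I, Relation.ReflTransGen R b q := by
    by_contra hno
    push Not at hno
    let V : Set ℂ := ⋃ q : {q : Fin N // Relation.ReflTransGen R b q}, U q
    let W : Set ℂ := ⋃ q : {q : Fin N // ¬ Relation.ReflTransGen R b q}, U q
    have hV : IsOpen V := isOpen_iUnion (fun q => hU q)
    have hW : IsOpen W := isOpen_iUnion (fun q => hU q)
    have hSVW : S ⊆ V ∪ W := by
      intro x hx
      obtain ⟨i, hi⟩ := mem_iUnion.1 (hcov hx)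
      by_cases h : Relation.ReflTransGen R b i
      · exact Or.inl (mem_iUnion.2 ⟨⟨i, h⟩, hi⟩)
      · exact Or.inr (mem_iUnion.2 ⟨⟨i, h⟩, hi⟩)
    have hSV : (S ∩ V).Nonempty := by
      obtain ⟨x, hx1, hx2⟩ := hne b
      exact ⟨x, hx2, mem_iUnion.2 ⟨⟨b, Relation.ReflTransGen.refl⟩, hx1⟩⟩
    have hSW : (S ∩ W).Nonempty := by
      obtain ⟨q, hq⟩ := hI
      obtain ⟨x, hx1, hx2⟩ := hne q
      exact ⟨x, hx2, mem_iUnion.2 ⟨⟨q, hno q hq⟩, hx1⟩⟩
    obtain ⟨x, -, hxV, hxW⟩ := hS V W hV hW hSVW hSV hSW
    obtain ⟨⟨q, hq⟩, hxq⟩ := mem_iUnion.1 hxV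
    obtain ⟨⟨q', hq'⟩, hxq'⟩ := mem_iUnion.1 hxW
    exact hq' (hq.tail ⟨x, hxq, hxq'⟩)
  have hex : ∃ l : ℕ, ∃ c : ℕ → Fin N, c 0 = b ∧ c l ∈ I ∧ ∀ i < l, R (c i) (c (i + 1)) := by
    obtain ⟨q, hq, hr⟩ := hreach
    have key : ∀ q, Relation.ReflTransGen R b q → ∃ l : ℕ, ∃ c : ℕ → Fin N, c 0 = b ∧ c l = q ∧
        ∀ i < l, R (c i) (c (i + 1)) := by
      intro q hq
      induction hq with
      | refl => exact ⟨0, fun _ => b, rfl, rfl, fun i hi => absurd hi (by omega)⟩
      | @tail y z _ hyz ih =>
        obtain ⟨l, c, h0, hl, hc⟩ := ih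
        refine ⟨l + 1, fun m => if m ≤ l then c m else z, ?_, ?_, ?_⟩
        · simp [h0]
        · simp
        · intro i hi
          by_cases h : i + 1 ≤ l
          · have h' : i ≤ l := by omega
            simp only [h, h', if_true]
            exact hc i (by omega)
          · have h' : i = l := by omega
            subst h'
            simp only [le_refl, if_true, h, if_false]
            rw [hl]
            exact hyz
    obtain ⟨l, c, h0, hl, hc⟩ := key q hr
    exact ⟨l, c, h0, by rw [hl]; exact hq, hc⟩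
  obtain ⟨c, h0, hl, hc⟩ := Nat.find_spec hex
  have hmin : ∀ m < Nat.find hex, ¬ ∃ c : ℕ → Fin N, c 0 = b ∧ c m ∈ I ∧
      ∀ i < m, R (c i) (c (i + 1)) := fun m hm => Nat.find_min hex hm
  set l := Nat.find hex with hldef
  refine ⟨l, c, h0, hl, ?_, ?_, hc⟩
  · intro i hi hI'
    exact hmin i hi ⟨c, h0, hI', fun j hj => hc j (by omega)⟩
  · have main : ∀ i j, i < j → j < l → c i ≠ c j := by
      intro i j hij hj heq
      apply hmin (l - (j - i)) (by omega)
      refine ⟨fun m => if m ≤ i then c m else c (m + (j - i)), ?_, ?_, ?_⟩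
      · simp [h0]
      · have h1 : ¬ (l - (j - i) ≤ i) := by omega
        have h2 : l - (j - i) + (j - i) = l := by omega
        simp only [h1, if_false, h2]
        exact hl
      · intro m hm
        by_cases h1 : m + 1 ≤ i
        · have h2 : m ≤ i := by omega
          simp only [h1, h2, if_true]
          exact hc m (by omega)
        · by_cases h2 : m ≤ i
          · have h3 : m = i := by omega
            subst h3
            simp only [le_refl, if_true, h1, if_false]
            have h4 : m + 1 + (j - m) = j + 1 := by omega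
            rw [h4, heq]
            exact hc j hj
          · simp only [h1, h2, if_false]
            have h4 : m + 1 + (j - i) = m + (j - i) + 1 := by omega
            rw [h4]
            exact hc _ (by omega)
    intro i hi j hj heq
    rcases lt_trichotomy i j with h | h | h
    · exact absurd heq (main i j h hj)
    · exact h
    · exact absurd heq.symm (main j i h hi)

end Pool.Agent.Lib.P7ee
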