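import Pool.Agent.Lib.P7ee.Cover
import Pool.Agent.Lib.P7ee.Nerve
import Pool.Agent.Lib.P7ee.GrowPath

/-!
# P7ee.GrowMain: a tree through finitely many points of a continuum  (2 h)

Claim, for a fixed cover `U : Fin N → Set ℂ` as in `exists_cover` (scale `δ`): for every finite `X ⊆ S` there are `A`, `L`, `I : Finset (Fin N)` with `Grow A L`, `X ⊆ A`, `I` nonempty, every `U i`, `i ∈ I`, contains a point of `A`,
and `L ≤ ∑ i ∈ I, diam (U i) + (card X) * δ`. Induction on `X` (`Finset.induction_on`). For `X = ∅` take any point of `S` (`hc.nonempty`), an index `i` with the point in `U i`, `A` the singleton, `L = 0`.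
Step: `x ∈ S` new, `x ∈ U b`. If `b ∈ I`: connect `x` to a point of `A` in `U b` (`Grow.step`; `Metric.dist_le_diam_of_mem`, cost `≤ diam ≤ δ`). If `b ∉ I`: `nerve_chain` gives `c 0 = b, ..., c l ∈ I`; choose
`q i ∈ U (c i) ∩ U (c (i+1))` for `i < l`, `e ∈ A ∩ U (c l)`. `grow_path` along `e, q (l-1), ..., q 0, x`: the cost is `dist e (q (l-1)) ≤ diam (U (c l)) ≤ δ`, `dist (q i) (q (i-1)) ≤ diam (U (c i))` for `0 < i < l`, `dist (q 0) x ≤ diam (U (c 0))`.
New `I` is `I ∪ {c 0, ..., c (l-1)}` (new and distinct indices), `U (c i)` contains `q i`.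
Theorem: `δ = ε / (2 (card X + 1))`, cover with `ε/2`; the sum over `I` is at most the sum over all indices (`diam ≥ 0`).
-/

set_option autoImplicit false

open MeasureTheory Set Metric Filter Topology

namespace Pool.Agent.Lib.P7ee

namespace GrowMainAux

lemma dist_le {U : Set ℂ} (hb : Bornology.IsBounded U) {x y : ℂ} (hx : x ∈ U) (hy : y ∈ U) :
    dist x y ≤ Metric.diam U := Metric.dist_le_diam_of_mem hb hx hy

lemma chain {N : ℕ} {U : Fin N → Set ℂ} (hb : ∀ i, Bornology.IsBounded (U i)) (c : ℕ → Fin N) :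
    ∀ (l : ℕ) (A : Finset ℂ) (L : ℝ), Grow A L → (∃ e ∈ A, e ∈ U (c l)) →
      (∀ i < l, (U (c i) ∩ U (c (i + 1))).Nonempty) → ∀ x ∈ U (c 0),
      ∃ (A' : Finset ℂ) (L' : ℝ), Grow A' L' ∧ A ⊆ A' ∧ x ∈ A' ∧
        (∀ i < l, ∃ a ∈ A', a ∈ U (c i)) ∧
        L' ≤ L + Metric.diam (U (c l)) + ∑ i ∈ Finset.range l, Metric.diam (U (c i)) := by
  intro l
  induction l with
  | zero =>
    intro A L hG he _ x hx
    obtain ⟨e, heA, heU⟩ := he
    refine ⟨insert x A, L + dist e x, Grow.step hG heA x, Finset.subset_insert _ _,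
      Finset.mem_insert_self _ _, fun i hi => absurd hi (Nat.not_lt_zero i), ?_⟩
    have h1 := dist_le (hb (c 0)) heU hx
    simp only [Finset.range_zero, Finset.sum_empty, add_zero]
    linarith
  | succ l ih =>
    intro A L hG he hch x hx
    obtain ⟨e, heA, heU⟩ := he
    obtain ⟨q, hq1, hq2⟩ := hch l (Nat.lt_succ_self l)
    obtain ⟨A', L', hG', hAA', hxA', hpts, hL'⟩ :=
      ih (insert q A) (L + dist e q) (Grow.step hG heA q)
        ⟨q, Finset.mem_insert_self _ _, hq1⟩
        (fun i hi => hch i (Nat.lt_succ_of_lt hi)) x hx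
    refine ⟨A', L', hG', (Finset.subset_insert _ _).trans hAA', hxA', ?_, ?_⟩
    · intro i hi
      rcases Nat.lt_succ_iff_lt_or_eq.1 hi with h | h
      · exact hpts i h
      · subst h
        exact ⟨q, hAA' (Finset.mem_insert_self _ _), hq1⟩
    · have h1 := dist_le (hb (c (l + 1))) heU hq2
      rw [Finset.sum_range_succ]
      linarith

lemma main {S : Set ℂ} (hc : IsConnected S) {N : ℕ} {U : Fin N → Set ℂ} {δ : ℝ}
    (hU : ∀ i, IsOpen (U i)) (hne : ∀ i, (U i ∩ S).Nonempty)
    (hb : ∀ i, Bornology.IsBounded (U i)) (hd : ∀ i, Metric.diam (U i) ≤ δ)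
    (hcov : S ⊆ ⋃ i, U i) (X : Finset ℂ) (hX : ∀ x ∈ X, x ∈ S) :
    ∃ (A : Finset ℂ) (L : ℝ) (I : Finset (Fin N)), Grow A L ∧ X ⊆ A ∧ I.Nonempty ∧
      (∀ i ∈ I, ∃ a ∈ A, a ∈ U i) ∧
      L ≤ ∑ i ∈ I, Metric.diam (U i) + (X.card : ℝ) * δ := by
  classical
  induction X using Finset.induction_on with
  | empty =>
    obtain ⟨z, hz⟩ := hc.nonempty
    obtain ⟨i, hi⟩ := mem_iUnion.1 (hcov hz)
    refine ⟨{z}, 0, {i}, Grow.base z, Finset.empty_subset _, Finset.singleton_nonempty i, ?_, ?_⟩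
    · intro j hj
      rw [Finset.mem_singleton] at hj
      subst hj
      exact ⟨z, Finset.mem_singleton_self z, hi⟩
    · simp only [Finset.sum_singleton, Finset.card_empty, Nat.cast_zero, zero_mul, add_zero]
      exact Metric.diam_nonneg
  | insert x X hx ih =>
    obtain ⟨A, L, I, hG, hXA, hIne, hI, hL⟩ := ih (fun y hy => hX y (Finset.mem_insert_of_mem hy))
    have hxS : x ∈ S := hX x (Finset.mem_insert_self x X)
    obtain ⟨b, hbx⟩ := mem_iUnion.1 (hcov hxS)
    have hcard : ((insert x X).card : ℝ) = (X.card : ℝ) + 1 := by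
      rw [Finset.card_insert_of_notMem hx]
      push_cast
      ring
    by_cases hbI : b ∈ I
    · obtain ⟨e, heA, heU⟩ := hI b hbI
      refine ⟨insert x A, L + dist e x, I, Grow.step hG heA x, ?_, hIne, ?_, ?_⟩
      · exact Finset.insert_subset_insert _ hXA
      · intro i hi
        obtain ⟨a, ha, hau⟩ := hI i hi
        exact ⟨a, Finset.mem_insert_of_mem ha, hau⟩
      · have h1 := dist_le (hb b) heU hbx
        have h2 := hd b
        rw [hcard]
        nlinarith
    · obtain ⟨l, c, hc0, hcl, hcn, hinj, hch⟩ :=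
        nerve_chain hc.isPreconnected hU hne hcov I hIne b hbI
      obtain ⟨A', L', hG', hAA', hxA', hpts, hL'⟩ :=
        chain hb c l A L hG (hI (c l) hcl) hch x (by rw [hc0]; exact hbx)
      refine ⟨A', L', I ∪ (Finset.range l).image c, hG', ?_, ?_, ?_, ?_⟩
      · intro y hy
        rcases Finset.mem_insert.1 hy with h | h
        · subst h
          exact hxA'
        · exact hAA' (hXA h)
      · exact hIne.mono Finset.subset_union_left
      · intro i hi
        rcases Finset.mem_union.1 hi with h | h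
        · obtain ⟨a, ha, hau⟩ := hI i h
          exact ⟨a, hAA' ha, hau⟩
        · obtain ⟨j, hj, hji⟩ := Finset.mem_image.1 h
          rw [← hji]
          exact hpts j (Finset.mem_range.1 hj)
      · have hdis : Disjoint I ((Finset.range l).image c) := by
          rw [Finset.disjoint_left]
          intro i hi hi2
          obtain ⟨j, hj, hji⟩ := Finset.mem_image.1 hi2
          exact hcn j (Finset.mem_range.1 hj) (by rw [hji]; exact hi)
        rw [Finset.sum_union hdis]
        have himg : ∑ i ∈ (Finset.range l).image c, Metric.diam (U i) =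
            ∑ j ∈ Finset.range l, Metric.diam (U (c j)) := by
          apply Finset.sum_image
          intro i hi j hj hij
          exact hinj i (Finset.mem_range.1 hi) j (Finset.mem_range.1 hj) hij
        rw [himg, hcard]
        have h2 := hd (c l)
        nlinarith

end GrowMainAux

theorem grow_of_continuum {S : Set ℂ} (hc : IsConnected S) (hk : IsCompact S)
    (hfin : μH[1] S < ⊤) (X : Finset ℂ) (hX : ∀ x ∈ X, x ∈ S) {ε : ℝ} (hε : 0 < ε) :
    ∃ (A : Finset ℂ) (L : ℝ), Grow A L ∧ X ⊆ A ∧ L ≤ (μH[1] S).toReal + ε := by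
  have hcard : (0 : ℝ) < 2 * ((X.card : ℝ) + 1) := by positivity
  obtain ⟨N, U, hU, hne, hb, hd, hcov, hsum⟩ :=
    exists_cover hk hfin (δ := ε / (2 * ((X.card : ℝ) + 1))) (ε := ε / 2)
      (div_pos hε hcard) (half_pos hε)
  obtain ⟨A, L, I, hG, hXA, _, _, hL⟩ := GrowMainAux.main hc hU hne hb hd hcov X hX
  refine ⟨A, L, hG, hXA, ?_⟩
  have h1 : ∑ i ∈ I, Metric.diam (U i) ≤ ∑ i, Metric.diam (U i) :=
    Finset.sum_le_sum_of_subset_of_nonneg (Finset.subset_univ _)
      (fun i _ _ => Metric.diam_nonneg)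
  have h2 : (X.card : ℝ) * (ε / (2 * ((X.card : ℝ) + 1))) ≤ ε / 2 := by
    rw [← mul_div_assoc, div_le_div_iff₀ hcard (by norm_num)]
    nlinarith [Nat.cast_nonneg (α := ℝ) X.card]
  linarith

end Pool.Agent.Lib.P7ee
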