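import Pool.Agent.Lib.P7ee.LenBasic

/-!
# P7ee.GrowNet: from growing trees to networks  (1 h)

Induction on `Grow`. Base: `N = 1`, `G = ⊥` (connected: one vertex). Step: from `N, G, P` and `v = P a` build `N + 1`: keep the old vertices (`Fin.castSucc`), new vertex `Fin.last N` with position `z`, adjacent exactly to `a`.
(One may work with `Option (Fin N)` and transport by an equivalence, `len_comap`.) The length increases by `dist v z`.
-/

set_option autoImplicit false

open MeasureTheory Set Metric Filter Topology

namespace Pool.Agent.Lib.P7ee

/-- the graph with a new leaf `none` attached at `a` -/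
private def GrowNetAux_graph {V : Type} (G : SimpleGraph V) (a : V) : SimpleGraph (Option V) where
  Adj x y := match x, y with
    | some b, some c => G.Adj b c
    | none, some c => c = a
    | some b, none => b = a
    | none, none => False
  symm := ⟨by
    intro x y h
    match x, y, h with
    | some b, some c, h => exact G.adj_symm h
    | none, some c, h => exact h
    | some b, none, h => exact h⟩
  loopless := ⟨by
    intro x h
    match x, h with
    | some b, h => exact G.loopless.irrefl b h⟩

private theorem GrowNetAux_connected {V : Type} {G : SimpleGraph V} (hG : G.Connected) (a : V) :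
    (GrowNetAux_graph G a).Connected := by
  let f : G →g GrowNetAux_graph G a := ⟨fun b => some b, fun {b c} h => h⟩
  have h1 : ∀ b c : V, (GrowNetAux_graph G a).Reachable (some b) (some c) := fun b c =>
    (hG.preconnected b c).map f
  have h2 : (GrowNetAux_graph G a).Adj (none : Option V) (some a) := rfl
  have h3 : ∀ x : Option V, (GrowNetAux_graph G a).Reachable (some a) x := by
    intro x
    match x with
    | none => exact h2.symm.reachable
    | some b => exact h1 a b
  have : Nonempty (Option V) := ⟨none⟩
  exact SimpleGraph.Connected.mk fun x y => (h3 x).symm.trans (h3 y)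

private theorem GrowNetAux_len {V : Type} [Fintype V] (G : SimpleGraph V) (P : V → ℂ) (a : V)
    (z : ℂ) :
    len (GrowNetAux_graph G a) (fun x : Option V => x.elim z P) = len G P + dist (P a) z := by
  classical
  unfold len
  rw [Fintype.sum_option]
  simp only [Fintype.sum_option]
  have e1 : ¬ (GrowNetAux_graph G a).Adj (none : Option V) none := fun h => h
  have e2 : ∀ c, (GrowNetAux_graph G a).Adj (none : Option V) (some c) ↔ c = a := fun c => Iff.rfl
  have e3 : ∀ c, (GrowNetAux_graph G a).Adj (some c) (none : Option V) ↔ c = a := fun c => Iff.rfl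
  have e4 : ∀ b c, (GrowNetAux_graph G a).Adj (some b) (some c) ↔ G.Adj b c :=
    fun b c => Iff.rfl
  simp only [e1, e2, e3, e4, Option.elim, if_false, Finset.sum_add_distrib, Finset.sum_ite_eq',
    Finset.mem_univ, if_true]
  rw [dist_comm z (P a)]
  ring

theorem net_of_grow {A : Finset ℂ} {L : ℝ} (h : Grow A L) :
    ∃ (N : ℕ) (G : SimpleGraph (Fin N)) (P : Fin N → ℂ), G.Connected ∧ len G P ≤ L ∧
      ∀ x ∈ A, ∃ a, P a = x := by
  induction h with
  | base z =>
    refine ⟨1, ⊥, fun _ => z, ?_, ?_, ?_⟩
    · have : Nonempty (Fin 1) := ⟨0⟩
      refine SimpleGraph.Connected.mk fun x y => ?_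
      rw [Subsingleton.elim x y]
    · unfold len
      simp
    · intro x hx
      exact ⟨0, (Finset.mem_singleton.1 hx).symm⟩
  | step h hv z ih =>
    rename_i A L v
    obtain ⟨N, G, P, hG, hL, hA⟩ := ih
    obtain ⟨a, ha⟩ := hA _ hv
    refine ⟨N + 1, (GrowNetAux_graph G a).comap (finSuccEquiv N),
      fun x => (fun x : Option (Fin N) => x.elim z P) (finSuccEquiv N x), ?_, ?_, ?_⟩
    · exact (SimpleGraph.Iso.comap (finSuccEquiv N) (GrowNetAux_graph G a)).connected_iff.2
        (GrowNetAux_connected hG a)
    · have h1 := len_comap (finSuccEquiv N) (GrowNetAux_graph G a)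
        (fun x : Option (Fin N) => x.elim z P)
      have h2 := GrowNetAux_len G P a z
      rw [ha] at h2
      exact (h1.trans h2).le.trans (by linarith)
    · intro x hx
      rcases Finset.mem_insert.1 hx with rfl | hx
      · exact ⟨(finSuccEquiv N).symm none, by simp⟩
      · obtain ⟨b, hb⟩ := hA x hx
        exact ⟨(finSuccEquiv N).symm (some b), by simp [hb]⟩

end Pool.Agent.Lib.P7ee
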