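import Mathlib

/-!
# P7ee.Pigeon: recurring patterns  (0.8 h)

`L = (J+1) * card κ` (`κ` nonempty: it contains `col 0`). Each window `[w L, (w+1) L)` contains `J + 1` numbers of the same colour; the pattern (a strictly increasing `Fin (J+1) → Fin L`, positions relative to `w L`) and the colour take finitely many values, so one value occurs for infinitely many `w`. Extend `b` beyond `J` by `b (J + i) = b J + i`. `m = w L`.
-/

set_option autoImplicit false



namespace Pool.Agent.Lib.P7ee

theorem pigeon {κ : Type} [Finite κ] (col : ℕ → κ) (J : ℕ) :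
    ∃ (c : κ) (b : ℕ → ℕ), StrictMono b ∧ ∀ m0, ∃ m ≥ m0, ∀ i ≤ J, col (m + b i) = c := by
  classical
  have : Fintype κ := Fintype.ofFinite κ
  have : Nonempty κ := ⟨col 0⟩
  obtain ⟨L, hL⟩ : ∃ L : ℕ, L = Fintype.card κ * (J + 1) := ⟨_, rfl⟩
  have hLpos : 0 < L := by
    rw [hL]; exact Nat.mul_pos Fintype.card_pos (Nat.succ_pos J)
  -- recurring window pattern
  obtain ⟨p, hp⟩ := Finite.exists_infinite_fiber
    (fun w : ℕ => (fun i : Fin L => col (w * L + i.val)))
  have hinf : {w : ℕ | (fun i : Fin L => col (w * L + i.val)) = p}.Infinite := by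
    rw [← Set.infinite_coe_iff]
    exact hp
  -- colour used at least `J+1` times
  obtain ⟨c, hc⟩ : ∃ c : κ, J + 1 ≤ (Finset.univ.filter (fun i : Fin L => p i = c)).card := by
    apply Fintype.exists_le_card_fiber_of_mul_le_card
    rw [Fintype.card_fin, hL]
  obtain ⟨s, hs, hcard⟩ := Finset.exists_subset_card_eq hc
  let e := s.orderEmbOfFin hcard
  have he : ∀ i, e i ∈ s := fun i => Finset.orderEmbOfFin_mem s hcard i
  refine ⟨c, fun i => if h : i < J + 1 then (e ⟨i, h⟩).val else L + i, ?_, ?_⟩
  · intro i j hij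
    by_cases hj : j < J + 1
    · have hi : i < J + 1 := hij.trans hj
      simp only [hi, hj, dif_pos]
      exact e.strictMono (show (⟨i, hi⟩ : Fin (J + 1)) < ⟨j, hj⟩ from hij)
    · by_cases hi : i < J + 1
      · simp only [hi, hj, dif_pos, dif_neg, not_false_eq_true]
        exact (e ⟨i, hi⟩).isLt.trans_le (Nat.le_add_right _ _)
      · simp only [hi, hj, dif_neg, not_false_eq_true]
        omega
  · intro m0
    obtain ⟨w, hw, hwm⟩ := hinf.exists_gt m0
    refine ⟨w * L, ?_, ?_⟩
    · have : w * 1 ≤ w * L := Nat.mul_le_mul_left w hLpos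
      omega
    · intro i hi
      have hi' : i < J + 1 := Nat.lt_succ_of_le hi
      simp only [hi', dif_pos]
      have h1 : p (e ⟨i, hi'⟩) = c := by
        have := hs (he ⟨i, hi'⟩)
        exact (Finset.mem_filter.1 this).2
      have h2 := congrFun (show (fun i : Fin L => col (w * L + i.val)) = p from hw) (e ⟨i, hi'⟩)
      exact h2.trans h1

end Pool.Agent.Lib.P7ee
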