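import Pool.Agent.Lib.P7ee.FinDiff
import Pool.Agent.Lib.P7ee.Expand
import Pool.Agent.Lib.P7ee.Pigeon

/-!
# P7ee.Hit: Hilbert irreducibility along `1/m`  (2 h)

Suppose it fails: for some `m0` and all `m ≥ m0` there is `i` with `deg (minpoly θ_i(1/m)) ≠ card I`; enlarge `m0` so that `hconj`, `hint` and `D(m) ≠ 0` hold for `m ≥ m0`; then `θ_i(1/m)` is algebraic, its minimal polynomial `μ` over `ℚ` splits over `ℂ` with simple roots, which are among the `θ_l(1/m)`: there is a nonempty `T ⊆ I` with `μ = ∏_(l ∈ T) (X - θ_l(1/m))` over `ℝ` (choose one `l` for every root), `card T = deg μ`,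
so `card T < card I` (`card T ≤ card I` always). Colour `m` (shifted by `m0`) by such a `T`. `pigeon` with `J = card I * D.natDegree`: a set `T`, `0 < card T < card I`, and `b`. Claim: every coefficient of `∏_(l ∈ T) (X - θ_l(0))` is rational; this contradicts `h0` (this polynomial of degree `card T` has the root `θ_l(0)`, `l ∈ T`, of degree `card I`). Coefficient number `e` (elementary symmetric function of degree `e' = card T - e` up to sign):
`s(ρ) = coeff e of ∏_(l ∈ T) (X - θ_l(ρ))` is `C^n` at `0` for all `n` (polynomial in the `θ_l`); `D(m)^(card T) s(1/m)` is an algebraic integer (`hint`: a sum of products of at most `card T` of the `θ_l(1/m)`) and rational (coefficient of `μ`) for the `m` of colour `T`, so an integer (`IsIntegrallyClosed`). `expand` for `D^(card T)` (degree `≤ J`; use `b i`, `i ≤ degree`), `diff_rational`: `leadingCoeff * s(0)` is rational, so `s(0)` is.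
-/

set_option autoImplicit false



namespace Pool.Agent.Lib.P7ee

open Polynomial

namespace HitAux

/-- the product of the linear factors -/
noncomputable def pr {I : Type} (T : Finset I) (x : I → ℝ) : Polynomial ℝ :=
  ∏ l ∈ T, (X - C (x l))

theorem pr_insert {I : Type} [DecidableEq I] {a : I} {T : Finset I} (h : a ∉ T) (x : I → ℝ) :
    pr (insert a T) x = (X - C (x a)) * pr T x := by
  unfold pr
  rw [Finset.prod_insert h]

theorem coeff_zero {x : ℝ} {P : Polynomial ℝ} :
    ((X - C x) * P).coeff 0 = - (x * P.coeff 0) := by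
  rw [sub_mul, coeff_sub, coeff_C_mul]
  simp

theorem coeff_succ {x : ℝ} {P : Polynomial ℝ} (e : ℕ) :
    ((X - C x) * P).coeff (e + 1) = P.coeff e - x * P.coeff (e + 1) := by
  rw [sub_mul, coeff_sub, coeff_C_mul, coeff_X_mul]

theorem smooth {I : Type} (T : Finset I) (θ : I → ℝ → ℝ)
    (hs : ∀ i, ∀ n : ℕ, ContDiffAt ℝ n (θ i) 0) (n : ℕ) :
    ∀ e : ℕ, ContDiffAt ℝ n (fun ρ : ℝ => (pr T (fun l => θ l ρ)).coeff e) 0 := by
  classical
  induction T using Finset.induction_on with
  | empty =>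
    intro e
    unfold pr
    simp only [Finset.prod_empty]
    exact contDiffAt_const
  | insert a T ha ih =>
    intro e
    simp only [pr_insert ha]
    cases e with
    | zero =>
      simp only [coeff_zero]
      exact ((hs a n).mul (ih 0)).neg
    | succ e =>
      simp only [coeff_succ]
      exact (ih e).sub ((hs a n).mul (ih (e + 1)))

theorem integral {I : Type} (T : Finset I) (x : I → ℝ) (d : ℝ) (hd : IsIntegral ℤ d)
    (hx : ∀ i, IsIntegral ℤ (d * x i)) :
    ∀ e : ℕ, IsIntegral ℤ (d ^ T.card * (pr T x).coeff e) := by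
  classical
  induction T using Finset.induction_on with
  | empty =>
    intro e
    unfold pr
    simp only [Finset.card_empty, pow_zero, Finset.prod_empty, one_mul, coeff_one]
    split_ifs
    · exact isIntegral_one
    · exact isIntegral_zero
  | insert a T ha ih =>
    intro e
    rw [Finset.card_insert_of_notMem ha, pr_insert ha]
    cases e with
    | zero =>
      have h1 : d ^ (T.card + 1) * ((X - C (x a)) * pr T x).coeff 0 =
          - ((d * x a) * (d ^ T.card * (pr T x).coeff 0)) := by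
        rw [coeff_zero]; ring
      rw [h1]
      exact ((hx a).mul (ih 0)).neg
    | succ e =>
      have h1 : d ^ (T.card + 1) * ((X - C (x a)) * pr T x).coeff (e + 1) =
          d * (d ^ T.card * (pr T x).coeff e) -
          (d * x a) * (d ^ T.card * (pr T x).coeff (e + 1)) := by
        rw [coeff_succ]; ring
      rw [h1]
      exact (hd.mul (ih e)).sub ((hx a).mul (ih (e + 1)))

theorem int_of {q : ℚ} (h : IsIntegral ℤ (q : ℝ)) : ∃ z : ℤ, (q : ℝ) = z := by
  have h1 : IsIntegral ℤ q := by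
    have h2 : (q : ℝ) = algebraMap ℚ ℝ q := rfl
    rw [h2] at h
    exact (isIntegral_algebraMap_iff (algebraMap ℚ ℝ).injective).1 h
  obtain ⟨z, hz⟩ := IsIntegrallyClosed.isIntegral_iff.1 h1
  refine ⟨z, ?_⟩
  rw [← hz]
  simp

theorem monic_pr {I : Type} (T : Finset I) (x : I → ℝ) : (pr T x).Monic := by
  unfold pr
  exact monic_prod_of_monic _ _ fun i _ => monic_X_sub_C _

theorem natDegree_pr {I : Type} (T : Finset I) (x : I → ℝ) : (pr T x).natDegree = T.card := by
  unfold pr
  rw [natDegree_prod_of_monic _ _ fun i _ => monic_X_sub_C _]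
  simp

/-- the set of indices of the conjugates -/
theorem conj_set {I : Type} [Fintype I] (x : I → ℝ) (i : I) (hi : IsIntegral ℚ (x i))
    (hc : ∀ ζ : ℂ, aeval ζ (minpoly ℚ (x i)) = 0 → ∃ l, ζ = (x l : ℂ)) :
    ∃ T : Finset I, T.Nonempty ∧ T.card = (minpoly ℚ (x i)).natDegree ∧
      (minpoly ℚ (x i)).map (algebraMap ℚ ℝ) = pr T x := by
  classical
  set μ := minpoly ℚ (x i) with hμ
  have hmon : μ.Monic := minpoly.monic hi
  have hne : μ ≠ 0 := hmon.ne_zero
  have hsep : μ.Separable := (minpoly.irreducible hi).separable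
  set μc : Polynomial ℂ := μ.map (algebraMap ℚ ℂ) with hμc
  have hsp : μc.Splits := IsAlgClosed.splits μc
  have hmonc : μc.Monic := hmon.map _
  have hnd : μc.roots.Nodup := nodup_roots (hsep.map)
  have hcard : Multiset.card μc.roots = μ.natDegree := by
    rw [← hsp.natDegree_eq_card_roots, hμc, natDegree_map]
  have hprod : μc = (μc.roots.map fun a => X - C a).prod := by
    have := hsp.eq_prod_roots
    rw [hmonc.leadingCoeff, C_1, one_mul] at this
    exact this
  have hroot : ∀ ζ ∈ μc.roots.toFinset, ∃ l, ζ = (x l : ℂ) := by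
    intro ζ hζ
    apply hc
    rw [Multiset.mem_toFinset, mem_roots hmonc.ne_zero] at hζ
    rw [IsRoot.def, hμc, eval_map_algebraMap] at hζ
    exact hζ
  have : Nonempty I := ⟨i⟩
  choose! f hf using hroot
  set R := μc.roots.toFinset with hR
  have hinj : Set.InjOn f R := by
    intro a ha b hb hab
    rw [hf a ha, hf b hb, hab]
  set T := R.image f with hT
  have hTc : T.card = μ.natDegree := by
    rw [hT, Finset.card_image_of_injOn hinj, hR, Multiset.toFinset_card_of_nodup hnd, hcard]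
  refine ⟨T, ?_, hTc, ?_⟩
  · rw [← Finset.card_pos, hTc]
    exact minpoly.natDegree_pos hi
  · apply Polynomial.map_injective (algebraMap ℝ ℂ) (algebraMap ℝ ℂ).injective
    rw [Polynomial.map_map, ← IsScalarTower.algebraMap_eq ℚ ℝ ℂ]
    change μc = _
    unfold pr
    rw [Polynomial.map_prod]
    rw [hT, Finset.prod_image hinj]
    conv_lhs => rw [hprod]
    have e1 : (μc.roots.map fun a => X - C a).prod = ∏ a ∈ R, (X - C a) := by
      rw [Finset.prod, hR, Multiset.toFinset_val, hnd.dedup]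
    rw [e1]
    apply Finset.prod_congr rfl
    intro a ha
    rw [Polynomial.map_sub, map_X, map_C]
    congr 2
    exact hf a ha

theorem ev_ne (D : Polynomial ℤ) (hD : D ≠ 0) : ∃ m0 : ℕ, ∀ m ≥ m0, D.eval (m : ℤ) ≠ 0 := by
  have h1 : {z : ℤ | D.IsRoot z}.Finite := finite_setOfPred_isRoot hD
  have h2 : {m : ℕ | D.eval (m : ℤ) = 0}.Finite :=
    h1.preimage (f := fun m : ℕ => (m : ℤ)) (Nat.cast_injective.injOn)
  obtain ⟨B, hB⟩ := h2.bddAbove
  refine ⟨B + 1, fun m hm h => ?_⟩
  have := hB h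
  omega

theorem int_rat {x : ℝ} {d : ℤ} (hd : d ≠ 0) (h : IsIntegral ℤ ((d : ℝ) * x)) :
    IsIntegral ℚ x := by
  have h1 : IsIntegral ℚ ((d : ℝ) * x) := h.tower_top
  have h2 : x = algebraMap ℚ ℝ ((d : ℚ)⁻¹) * ((d : ℝ) * x) := by
    have : (d : ℝ) ≠ 0 := by exact_mod_cast hd
    simp only [eq_ratCast, Rat.cast_inv, Rat.cast_intCast]
    field_simp
  rw [h2]
  exact isIntegral_algebraMap.mul h1

end HitAux

open HitAux in
theorem hit {I : Type} [Fintype I] (θ : I → ℝ → ℝ) (hs : ∀ i, ∀ n : ℕ, ContDiffAt ℝ n (θ i) 0)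
    (h0 : ∀ i, (minpoly ℚ (θ i 0)).natDegree = Fintype.card I)
    (hconj : ∃ m0 : ℕ, ∀ m ≥ m0, ∀ i, ∀ ζ : ℂ,
      Polynomial.aeval ζ (minpoly ℚ (θ i (1 / (m : ℝ)))) = 0 → ∃ l, ζ = (θ l (1 / (m : ℝ)) : ℂ))
    (D : Polynomial ℤ) (hD : D ≠ 0)
    (hint : ∃ m0 : ℕ, ∀ m ≥ m0, ∀ i,
      IsIntegral ℤ (((D.eval (m : ℤ) : ℤ) : ℝ) * θ i (1 / (m : ℝ)))) :
    ∀ m0 : ℕ, ∃ m ≥ m0, ∀ i, (minpoly ℚ (θ i (1 / (m : ℝ)))).natDegree = Fintype.card I := by
  classical
  by_contra hcon
  push Not at hcon
  obtain ⟨m1, hm1⟩ := hcon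
  obtain ⟨m2, hm2⟩ := hconj
  obtain ⟨m3, hm3⟩ := hint
  obtain ⟨m4, hm4⟩ := ev_ne D hD
  set M0 := m1 + m2 + m3 + m4 with hM0
  -- the sets
  have key : ∀ m : ℕ, ∃ T : Finset I, T.Nonempty ∧ T.card < Fintype.card I ∧
      ∃ μ : Polynomial ℚ, μ.map (algebraMap ℚ ℝ) = pr T fun l => θ l (1 / ((M0 + m : ℕ) : ℝ)) := by
    intro m
    obtain ⟨i, hi⟩ := hm1 (M0 + m) (by omega)
    have hint1 := hm3 (M0 + m) (by omega) i
    have hne := hm4 (M0 + m) (by omega)
    have hI := int_rat hne hint1
    obtain ⟨T, hT1, hT2, hT3⟩ := conj_set (fun l => θ l (1 / ((M0 + m : ℕ) : ℝ))) i hI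
      (hm2 (M0 + m) (by omega) i)
    refine ⟨T, hT1, ?_, _, hT3⟩
    have h1 : T.card ≤ Fintype.card I := Finset.card_le_univ T
    have h2 : T.card ≠ Fintype.card I := by
      rw [hT2]; exact hi
    omega
  choose col hcol1 hcol2 hcol3 using key
  obtain ⟨T, b, hb, hTb⟩ := pigeon col (Fintype.card I * D.natDegree)
  have hTne : T.Nonempty := by
    obtain ⟨m, -, hm⟩ := hTb 0
    rw [← hm 0 (Nat.zero_le _)]
    exact hcol1 _
  have hTlt : T.card < Fintype.card I := by
    obtain ⟨m, -, hm⟩ := hTb 0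
    rw [← hm 0 (Nat.zero_le _)]
    exact hcol2 _
  -- rationality of all coefficients
  have hrat : ∀ e : ℕ, ∃ q : ℚ, (pr T fun l => θ l 0).coeff e = q := by
    intro e
    set s : ℝ → ℝ := fun ρ => (pr T (fun l => θ l ρ)).coeff e with hsdef
    have hDp : D ^ T.card ≠ 0 := pow_ne_zero _ hD
    obtain ⟨h, hh0, hh⟩ := expand s (fun n => smooth T θ hs n e) (D ^ T.card) hDp
    have hJ : (D ^ T.card).natDegree ≤ Fintype.card I * D.natDegree := by
      rw [natDegree_pow]
      exact Nat.mul_le_mul_right _ hTlt.le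
    obtain ⟨q, hq⟩ := diff_rational (J := (D ^ T.card).natDegree)
      (g := fun m : ℕ => (((D ^ T.card).eval (m : ℤ) : ℤ) : ℝ) * s (1 / (m : ℝ))) (h := h) hh b hb
      (by
        intro m0
        obtain ⟨m, hm, hmT⟩ := hTb m0
        refine ⟨M0 + m, by omega, fun i hi => ?_⟩
        have hci := hmT i (hi.trans hJ)
        obtain ⟨μ, hμ⟩ := hcol3 (m + b i)
        rw [hci] at hμ
        have hidx : M0 + (m + b i) = M0 + m + b i := by omega
        rw [hidx] at hμ
        set mm := M0 + m + b i with hmm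
        have hs1 : s (1 / (mm : ℝ)) = ((μ.coeff e : ℚ) : ℝ) := by
          rw [hsdef]
          change (pr T fun l => θ l (1 / (mm : ℝ))).coeff e = _
          rw [← hμ, coeff_map]
          rfl
        have hin := integral T (fun l => θ l (1 / (mm : ℝ))) (((D.eval (mm : ℤ) : ℤ) : ℝ))
          (by
            have : (((D.eval (mm : ℤ) : ℤ) : ℝ)) = algebraMap ℤ ℝ (D.eval (mm : ℤ)) := by simp
            rw [this]
            exact isIntegral_algebraMap)
          (fun l => hm3 mm (by omega) l) e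
        have heq : (((D ^ T.card).eval (mm : ℤ) : ℤ) : ℝ) * s (1 / (mm : ℝ)) =
            (((D.eval (mm : ℤ) : ℤ) : ℚ) ^ T.card * μ.coeff e : ℚ) := by
          rw [hs1, eval_pow]
          push_cast
          ring
        have hin2 : IsIntegral ℤ ((((D.eval (mm : ℤ) : ℤ) : ℚ) ^ T.card * μ.coeff e : ℚ) : ℝ) := by
          rw [← heq, eval_pow, Int.cast_pow]
          exact hin
        obtain ⟨z, hz⟩ := int_of hin2
        refine ⟨z, ?_⟩
        rw [heq, hz])
    rw [hh0] at hq
    have hlc : (((D ^ T.card).leadingCoeff : ℤ) : ℝ) ≠ 0 := by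
      have := leadingCoeff_ne_zero.2 hDp
      exact_mod_cast this
    refine ⟨q / ((D ^ T.card).leadingCoeff : ℚ), ?_⟩
    change s 0 = _
    push_cast
    rw [eq_div_iff hlc, mul_comm]
    exact hq
  choose c hc using hrat
  -- lift
  obtain ⟨l, hl⟩ := hTne
  have hlift : pr T (fun l => θ l 0) ∈ Polynomial.lifts (algebraMap ℚ ℝ) := by
    rw [Polynomial.lifts_iff_coeff_lifts]
    intro e
    exact ⟨c e, (hc e).symm⟩
  obtain ⟨Q, hQ⟩ := (Polynomial.mem_lifts _).1 hlift
  have hQm : Q.Monic := by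
    have h1 := monic_pr T (fun l => θ l 0)
    rw [← hQ] at h1
    exact monic_of_injective (algebraMap ℚ ℝ).injective h1
  have hQd : Q.natDegree = T.card := by
    rw [← natDegree_pr T (fun l => θ l 0), ← hQ, natDegree_map]
  have hroot : aeval (θ l 0) Q = 0 := by
    rw [← eval_map_algebraMap, hQ]
    unfold pr
    rw [eval_prod]
    exact Finset.prod_eq_zero hl (by simp)
  have hle : (minpoly ℚ (θ l 0)).natDegree ≤ Q.natDegree :=
    natDegree_le_of_dvd (minpoly.dvd ℚ _ hroot) hQm.ne_zero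
  rw [h0 l, hQd] at hle
  omega

end Pool.Agent.Lib.P7ee
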