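import Pool.Agent.Lib.P7ee.QDefs

/-!
# P7ee.LowOrder: the lowest order part of a relation at a nonsingular zero  (2 h)

Substitute `x = P + ε z`: the `K`-algebra homomorphism `Ψ : MvPolynomial σ K → Polynomial (MvPolynomial σ K)`, `X j ↦ C (C (P j)) + X * C (X j)` (`X` is `ε`). Constant coefficient of `Ψ g` is `C (eval P g)`, the coefficient of `ε` is `∑ j, C (eval P (pderiv j g)) * X j` (both by induction on `g`, or: both sides are
derivations). So `Ψ (f i) = X * h i` with `coeff (h i) 0 = ℓ i := ∑ j, C (eval P (pderiv j (f i))) * X j`. Apply `Ψ` to the relation: the terms with `∑ a < s0` vanish, the others are divisible by `X ^ s0`; divide by `X ^ s0` and take the constant coefficient: `∑_(∑ a = s0) C (∑ b, c a b * (eval P Θ)^b) * ∏ (ℓ i)^(a i) = 0`.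
The algebra homomorphism `X i ↦ ℓ i` of `MvPolynomial σ K` is injective: the square matrix `M i j = eval P (pderiv j (f i))` has trivial kernel (`hP.2`), so it is invertible (`Matrix.isUnit_iff...`, `mulVec` injective) and the homomorphism given by the inverse matrix is a left inverse. Hence the homogeneous polynomial
`∑_(∑ a = s0) C (...) * ∏ X i ^ (a i)` is zero and all its coefficients vanish.
-/

set_option autoImplicit false

open MvPolynomial

namespace Pool.Agent.Lib.P7ee

namespace LowOrderAux

/-- the substitution `x = P + ε z` -/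
noncomputable def Psi {σ K : Type} [Field K] (P : σ → K) :
    MvPolynomial σ K →ₐ[K] Polynomial (MvPolynomial σ K) :=
  aeval fun j => Polynomial.C (C (P j)) + Polynomial.X * Polynomial.C (X j)

theorem Psi_X {σ K : Type} [Field K] (P : σ → K) (j : σ) :
    Psi P (X j) = Polynomial.C (C (P j)) + Polynomial.X * Polynomial.C (X j) := by
  simp [Psi]

theorem Psi_C {σ K : Type} [Field K] (P : σ → K) (a : K) :
    Psi P (C a) = Polynomial.C (C a) := by
  simp only [Psi, aeval_C]
  rfl

theorem coeff_zero_Psi {σ K : Type} [Field K] (P : σ → K) (g : MvPolynomial σ K) :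
    (Psi P g).coeff 0 = C (eval P g) := by
  induction g using MvPolynomial.induction_on with
  | C a => rw [Psi_C]; simp
  | add p q hp hq => rw [map_add, Polynomial.coeff_add, hp, hq, map_add, map_add]
  | mul_X p i hp =>
    rw [map_mul, Polynomial.mul_coeff_zero, hp, Psi_X]
    simp

theorem coeff_one_Psi {σ K : Type} [Fintype σ] [DecidableEq σ] [Field K] (P : σ → K)
    (g : MvPolynomial σ K) :
    (Psi P g).coeff 1 = ∑ j, C (eval P (pderiv j g)) * X j := by
  induction g using MvPolynomial.induction_on with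
  | C a => rw [Psi_C]; simp [Polynomial.coeff_C]
  | add p q hp hq =>
    rw [map_add, Polynomial.coeff_add, hp, hq, ← Finset.sum_add_distrib]
    refine Finset.sum_congr rfl fun j _ => ?_
    rw [map_add, map_add, map_add, add_mul]
  | mul_X p i hp =>
    rw [map_mul, Polynomial.mul_coeff_one, hp, coeff_zero_Psi, Psi_X]
    have h0 : (Polynomial.C (C (P i)) + Polynomial.X * Polynomial.C (X i) :
        Polynomial (MvPolynomial σ K)).coeff 0 = C (P i) := by simp
    have h1 : (Polynomial.C (C (P i)) + Polynomial.X * Polynomial.C (X i) :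
        Polynomial (MvPolynomial σ K)).coeff 1 = X i := by
      rw [Polynomial.coeff_add, Polynomial.coeff_C, if_neg one_ne_zero, zero_add,
        Polynomial.coeff_mul_C, Polynomial.coeff_X_one, one_mul]
    rw [h0, h1]
    have hd : ∀ j, C (eval P (pderiv j (p * X i))) * X j
        = C (eval P (pderiv j p)) * X j * C (P i)
          + (if j = i then C (eval P p) * X i else 0 : MvPolynomial σ K) := by
      intro j
      rw [Derivation.leibniz, pderiv_X]
      by_cases hji : j = i
      · subst hji
        simp only [Pi.single_eq_same, smul_eq_mul, mul_one, map_add, map_mul, eval_X, if_true]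
        ring
      · rw [if_neg hji]
        have : (Pi.single j 1 : σ → MvPolynomial σ K) i = 0 := by
          rw [Pi.single_apply, if_neg (fun h => hji h.symm)]
        rw [this]
        simp only [smul_eq_mul, mul_zero, map_add, map_mul, eval_X, map_zero, zero_add, add_zero]
        ring
    simp_rw [hd]
    rw [Finset.sum_add_distrib, Finset.sum_ite_eq' Finset.univ i, if_pos (Finset.mem_univ i),
      ← Finset.sum_mul]
    ring

/-- an invertible linear substitution is injective -/
theorem subst_inj {σ K : Type} [Fintype σ] [DecidableEq σ] [Field K] (M : Matrix σ σ K)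
    (hM : ∀ z : σ → K, (∀ i, ∑ j, M i j * z j = 0) → z = 0) (Q : MvPolynomial σ K)
    (hQ : aeval (fun i => ∑ j, C (M i j) * X j : σ → MvPolynomial σ K) Q = 0) : Q = 0 := by
  have hker : Function.Injective M.mulVec := by
    intro u v huv
    have := hM (u - v) (fun i => by
      have h1 := congrFun huv i
      simp only [Matrix.mulVec, dotProduct] at h1
      simp only [Pi.sub_apply, mul_sub, Finset.sum_sub_distrib]
      rw [h1, sub_self])
    exact sub_eq_zero.mp this
  have hu : IsUnit M := Matrix.mulVec_injective_iff_isUnit.mp hker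
  obtain ⟨N, hN⟩ : ∃ N : Matrix σ σ K, M * N = 1 := by
    obtain ⟨u, rfl⟩ := hu
    exact ⟨_, u.mul_inv⟩
  set phi : MvPolynomial σ K →ₐ[K] MvPolynomial σ K :=
    aeval (fun i => ∑ j, C (M i j) * X j : σ → MvPolynomial σ K) with hphi
  set psi : MvPolynomial σ K →ₐ[K] MvPolynomial σ K :=
    aeval (fun i => ∑ j, C (N i j) * X j : σ → MvPolynomial σ K) with hpsi
  have hid : psi.comp phi = AlgHom.id K _ := by
    refine MvPolynomial.algHom_ext fun i => ?_
    rw [AlgHom.comp_apply, hphi, aeval_X, map_sum]
    have h1 : ∀ j, psi (C (M i j) * X j) = ∑ k, C (M i j * N j k) * X k := by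
      intro j
      rw [map_mul, hpsi, aeval_X, Finset.mul_sum]
      refine Finset.sum_congr rfl fun k _ => ?_
      rw [aeval_C, map_mul, mul_assoc]
      rfl
    simp_rw [h1]
    rw [Finset.sum_comm]
    have h2 : ∀ k, (∑ j, C (M i j * N j k) * X k : MvPolynomial σ K)
        = C ((1 : Matrix σ σ K) i k) * X k := by
      intro k
      rw [← Finset.sum_mul, ← hN, Matrix.mul_apply, map_sum]
    simp_rw [h2]
    rw [Finset.sum_eq_single i]
    · simp
    · intro k _ hk
      rw [Matrix.one_apply_ne (fun h => hk h.symm)]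
      simp
    · intro h; exact absurd (Finset.mem_univ i) h
  have h3 : psi (phi Q) = Q := by
    rw [← AlgHom.comp_apply, hid]; rfl
  rw [← h3, hQ, map_zero]

end LowOrderAux

theorem low_order {σ K : Type} [Fintype σ] [DecidableEq σ] [Field K] (f : σ → MvPolynomial σ K)
    (P : σ → K) (hP : NZero f P) (Θ : MvPolynomial σ K) (s n : ℕ) (c : (σ → ℕ) → ℕ → K)
    (hrel : ∑ a ∈ Ex σ s, ∑ b ∈ Finset.range n, C (c a b) * (∏ i, f i ^ a i) * Θ ^ b = 0)
    (s0 : ℕ) (hs0 : ∀ a ∈ Ex σ s, ∑ i, a i < s0 → ∀ b ∈ Finset.range n, c a b = 0)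
    (a : σ → ℕ) (ha : a ∈ Ex σ s) (hsum : ∑ i, a i = s0) :
    ∑ b ∈ Finset.range n, c a b * (eval P Θ) ^ b = 0 := by
  classical
  set ℓ : σ → MvPolynomial σ K := fun i => ∑ j, C (eval P (pderiv j (f i))) * X j with hℓ
  -- factor `Ψ (f i)`
  have hfac : ∀ i, ∃ h : Polynomial (MvPolynomial σ K),
      LowOrderAux.Psi P (f i) = Polynomial.X * h ∧ h.coeff 0 = ℓ i := by
    intro i
    have h0 : (LowOrderAux.Psi P (f i)).coeff 0 = 0 := by
      rw [LowOrderAux.coeff_zero_Psi, hP.1 i, map_zero]
    obtain ⟨h, hh⟩ := Polynomial.X_dvd_iff.mpr h0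
    refine ⟨h, hh, ?_⟩
    have h1 := LowOrderAux.coeff_one_Psi P (f i)
    rw [hh] at h1
    have h2 : (Polynomial.X * h).coeff 1 = h.coeff 0 := Polynomial.coeff_X_mul h 0
    rw [h2] at h1
    exact h1
  choose h hh hc0 using hfac
  have hΨ := congrArg (LowOrderAux.Psi P) hrel
  rw [map_sum, map_zero] at hΨ
  have hterm : ∀ a ∈ Ex σ s, LowOrderAux.Psi P
      (∑ b ∈ Finset.range n, C (c a b) * (∏ i, f i ^ a i) * Θ ^ b)
      = Polynomial.X ^ (∑ i, a i) * ∑ b ∈ Finset.range n,
          Polynomial.C (C (c a b)) * (∏ i, h i ^ a i) * (LowOrderAux.Psi P Θ) ^ b := by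
    intro a _
    rw [map_sum, Finset.mul_sum]
    refine Finset.sum_congr rfl fun b _ => ?_
    rw [map_mul, map_mul, map_prod, map_pow, LowOrderAux.Psi_C]
    have : ∏ i, LowOrderAux.Psi P (f i ^ a i)
        = Polynomial.X ^ (∑ i, a i) * ∏ i, h i ^ a i := by
      rw [← Finset.prod_pow_eq_pow_sum, ← Finset.prod_mul_distrib]
      refine Finset.prod_congr rfl fun i _ => ?_
      rw [map_pow, hh i, mul_pow]
    rw [this]
    ring
  rw [Finset.sum_congr rfl hterm] at hΨ
  have hcoef := congrArg (fun q : Polynomial (MvPolynomial σ K) => q.coeff s0) hΨ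
  simp only [Polynomial.finset_sum_coeff, Polynomial.coeff_zero] at hcoef
  -- the coefficient of each term
  set d : (σ → ℕ) → K := fun a => ∑ b ∈ Finset.range n, c a b * (eval P Θ) ^ b with hd
  have hterm2 : ∀ a ∈ Ex σ s, (Polynomial.X ^ (∑ i, a i) * ∑ b ∈ Finset.range n,
      Polynomial.C (C (c a b)) * (∏ i, h i ^ a i) * (LowOrderAux.Psi P Θ) ^ b).coeff s0
      = if ∑ i, a i = s0 then C (d a) * ∏ i, ℓ i ^ a i else 0 := by
    intro a ha
    rw [Polynomial.coeff_X_pow_mul']
    by_cases h1 : ∑ i, a i = s0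
    · rw [if_pos h1, if_pos h1.le, h1, Nat.sub_self, Polynomial.finset_sum_coeff, hd, map_sum,
        Finset.sum_mul]
      refine Finset.sum_congr rfl fun b _ => ?_
      rw [Polynomial.mul_coeff_zero, Polynomial.mul_coeff_zero, Polynomial.coeff_C_zero]
      have e1 : (∏ i, h i ^ a i).coeff 0 = ∏ i, ℓ i ^ a i := by
        rw [← Polynomial.constantCoeff_apply, map_prod]
        refine Finset.prod_congr rfl fun i _ => ?_
        rw [map_pow, Polynomial.constantCoeff_apply, hc0 i]
      have e2 : ((LowOrderAux.Psi P Θ) ^ b).coeff 0 = C (eval P Θ) ^ b := by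
        rw [← Polynomial.constantCoeff_apply, map_pow, Polynomial.constantCoeff_apply,
          LowOrderAux.coeff_zero_Psi]
      rw [e1, e2, map_mul, map_pow]
      ring
    · rw [if_neg h1]
      by_cases h2 : ∑ i, a i ≤ s0
      · rw [if_pos h2]
        have h3 : ∑ b ∈ Finset.range n, Polynomial.C (C (c a b)) * (∏ i, h i ^ a i)
            * (LowOrderAux.Psi P Θ) ^ b = 0 := by
          refine Finset.sum_eq_zero fun b hb => ?_
          rw [hs0 a ha (lt_of_le_of_ne h2 h1) b hb]
          simp
        rw [h3, Polynomial.coeff_zero]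
      · rw [if_neg h2]
  rw [Finset.sum_congr rfl hterm2] at hcoef
  -- the homogeneous polynomial
  set Q : MvPolynomial σ K := ∑ a ∈ Ex σ s, if ∑ i, a i = s0 then
    monomial (Finsupp.equivFunOnFinite.symm a) (d a) else 0 with hQdef
  have hmon : ∀ a : σ → ℕ, (monomial (Finsupp.equivFunOnFinite.symm a) (d a) : MvPolynomial σ K)
      = C (d a) * ∏ i, X i ^ a i := by
    intro a
    rw [MvPolynomial.monomial_eq]
    congr 1
    rw [Finsupp.prod_fintype _ _ (fun i => pow_zero _)]
    refine Finset.prod_congr rfl fun i _ => ?_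
    simp
  have hQ0 : aeval ℓ Q = 0 := by
    rw [hQdef, map_sum]
    refine Eq.trans (Finset.sum_congr rfl fun a _ => ?_) hcoef
    split_ifs with h1
    · rw [hmon, map_mul, map_prod, aeval_C]
      congr 1
      refine Finset.prod_congr rfl fun i _ => ?_
      rw [map_pow, aeval_X]
    · rw [map_zero]
  have hQz : Q = 0 :=
    LowOrderAux.subst_inj (Matrix.of fun i j => eval P (pderiv j (f i))) hP.2 Q hQ0
  have hco := congrArg (coeff (Finsupp.equivFunOnFinite.symm a)) hQz
  rw [hQdef, coeff_sum, coeff_zero, Finset.sum_eq_single a] at hco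
  · rw [if_pos hsum, coeff_monomial, if_pos rfl] at hco
    exact hco
  · intro a' _ hne
    split_ifs with h1
    · rw [coeff_monomial, if_neg]
      intro h2
      exact hne (Finsupp.equivFunOnFinite.symm.injective h2)
    · exact coeff_zero _
  · intro h1; exact absurd ha h1

end Pool.Agent.Lib.P7ee
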