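import Pool.Agent.Lib.P7ee.Dep
import Pool.Agent.Lib.P7ee.LowOrder

/-!
# P7ee.MainRel: the elementary Bezout bound  (1 h)

`exists_rel`; let `s0` be the least `∑ a` of an `a ∈ Ex σ s` for which some `c a b ≠ 0`, `a0` such an `a`, `R = ∑ b, C (c a0 b) * X ^ b`: nonzero, degree `≤ 2 ^ (card σ - 1)`. For `φ` and `P` apply `MvPolynomial.map φ` to the relation and use `low_order` with `φ (c a b)` (it only needs that the coefficients with `∑ a < s0` vanish)
and `eval P (map φ Θ) = eval₂ φ P Θ`.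
-/

set_option autoImplicit false

open MvPolynomial

namespace Pool.Agent.Lib.P7ee

theorem main_rel {σ A : Type} [Fintype σ] [DecidableEq σ] [Nonempty σ] [CommRing A] [IsDomain A]
    (f : σ → MvPolynomial σ A) (hf : ∀ i, IsQuad (f i)) (Θ : MvPolynomial σ A) (hΘ : EvenP Θ) :
    ∃ R : Polynomial A, R ≠ 0 ∧ R.natDegree ≤ 2 ^ (Fintype.card σ - 1) ∧
      ∀ {K : Type} [Field K] (φ : A →+* K) (P : σ → K), NZero (fun i => map φ (f i)) P →
        Polynomial.eval₂ φ (eval₂ φ P Θ) R = 0 := by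
  classical
  obtain ⟨s, c, ⟨a1, ha1, b1, hb1, hc1⟩, hrel⟩ := exists_rel f hf Θ hΘ
  obtain ⟨n, hn⟩ : ∃ n, n = 2 ^ (Fintype.card σ - 1) := ⟨_, rfl⟩
  rw [← hn] at hrel hb1
  rw [← hn]
  -- the least degree of an exponent with a nonzero coefficient
  have hex : ∃ t : ℕ, ∃ a ∈ Ex σ s, ∑ i, a i = t ∧ ∃ b ∈ Finset.range (n + 1), c a b ≠ 0 :=
    ⟨_, a1, ha1, rfl, b1, hb1, hc1⟩
  obtain ⟨a0, ha0, hsum, b0, hb0, hc0⟩ := Nat.find_spec hex
  have hmin : ∀ a ∈ Ex σ s, ∑ i, a i < Nat.find hex → ∀ b ∈ Finset.range (n + 1),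
      c a b = 0 := by
    intro a ha hlt b hb
    by_contra hne
    exact Nat.find_min hex hlt ⟨a, ha, rfl, b, hb, hne⟩
  refine ⟨∑ b ∈ Finset.range (n + 1), Polynomial.monomial b (c a0 b), ?_, ?_, ?_⟩
  · intro h0
    have h1 := congrArg (fun q : Polynomial A => q.coeff b0) h0
    simp only [Polynomial.finset_sum_coeff, Polynomial.coeff_monomial, Polynomial.coeff_zero] at h1
    rw [Finset.sum_ite_eq' (Finset.range (n + 1)) b0, if_pos hb0] at h1
    exact hc0 h1
  · refine Polynomial.natDegree_sum_le_of_forall_le _ _ fun b hb => ?_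
    refine (Polynomial.natDegree_monomial_le _).trans ?_
    have := Finset.mem_range.1 hb
    omega
  · intro K _ φ P hP
    have hrel' : ∑ a ∈ Ex σ s, ∑ b ∈ Finset.range (n + 1),
        C (φ (c a b)) * (∏ i, (map φ (f i)) ^ a i) * (map φ Θ) ^ b = 0 := by
      have h1 := congrArg (map φ) hrel
      rw [map_zero, map_sum] at h1
      rw [← h1]
      refine Finset.sum_congr rfl fun a _ => ?_
      rw [map_sum]
      refine Finset.sum_congr rfl fun b _ => ?_
      rw [map_mul, map_mul, map_C, map_pow, map_prod]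
      simp only [map_pow]
    have h2 := low_order (fun i => map φ (f i)) P hP (map φ Θ) s (n + 1)
      (fun a b => φ (c a b)) hrel' (Nat.find hex)
      (fun a ha hlt b hb => by rw [hmin a ha hlt b hb, map_zero]) a0 ha0 hsum
    rw [Polynomial.eval₂_finset_sum]
    rw [eval_map] at h2
    refine Eq.trans (Finset.sum_congr rfl fun b _ => ?_) h2
    rw [Polynomial.eval₂_monomial]

end Pool.Agent.Lib.P7ee
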