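import Pool.Agent.Lib.P7ee.LDefs
import Pool.Agent.Lib.P7ee.MainRel
import Pool.Agent.Lib.P7ee.TQuad

/-!
# P7ee.Integral: denominators  (1.2 h)

`main_rel` with `A = Polynomial ℤ`, `f = psys k a Polynomial.X`, `Θ` mapped by `Polynomial.C` (`EvenP` is preserved by `map`): `R ≠ 0` in `(ℤ[ρ])[T]`. Let `J` be at least the degrees (in `ρ`) of all coefficients of `R`, `ℓ` the leading coefficient. `D = ` the polynomial with `D(m) = m^J ℓ(1/m)` (`∑ ℓ_i X^(J-i)`), nonzero; `m0` such that `D(m) ≠ 0` for `m ≥ m0` (and `m0 ≥ 1`). For `m ≥ m0` and a nonsingular zero `P`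
apply the statement with `φ = Polynomial.eval₂RingHom (Int.castRingHom ℝ) (1/m)`: `∑ b, φ (coeff R b) θ^b = 0`, `θ = evR Θ P`; multiplied by `m^J` all coefficients are integers and the leading one is `D(m) ≠ 0`: `D(m) θ` is integral (`isIntegral_leadingCoeff_smul`).
-/

set_option autoImplicit false



namespace Pool.Agent.Lib.P7ee

theorem integral_theta {k : ℕ} (hk : 0 < k) (a : ℕ → ℤ) (Θ : MvPolynomial (Fin k ⊕ Fin k) ℤ)
    (hΘ : EvenP Θ) :
    ∃ D : Polynomial ℤ, D ≠ 0 ∧ ∃ m0 : ℕ, ∀ m ≥ m0, ∀ P : Fin k ⊕ Fin k → ℝ,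
      NZero (psys k a (1 / (m : ℝ))) P →
        IsIntegral ℤ (((D.eval (m : ℤ) : ℤ) : ℝ) * evR Θ P) := by
  classical
  have : Nonempty (Fin k ⊕ Fin k) := ⟨Sum.inl ⟨0, hk⟩⟩
  have hΘ' : EvenP (MvPolynomial.map (Polynomial.C : ℤ →+* Polynomial ℤ) Θ) := by
    intro s hs
    exact hΘ s (MvPolynomial.support_map_subset _ _ hs)
  obtain ⟨R, hR0, -, hR⟩ := main_rel (psys k a (Polynomial.X : Polynomial ℤ))
    (fun i => by rw [psys]; exact tsys_quad _ _ _ _ i)
    (MvPolynomial.map (Polynomial.C : ℤ →+* Polynomial ℤ) Θ) hΘ'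
  set n := R.natDegree with hn
  let J : ℕ := (Finset.range (n + 1)).sup fun b => (R.coeff b).natDegree
  have hJ : ∀ b ∈ Finset.range (n + 1), (R.coeff b).natDegree ≤ J := fun b hb =>
    Finset.le_sup (f := fun b => (R.coeff b).natDegree) hb
  refine ⟨Polynomial.reflect J (R.coeff n), ?_, 1, ?_⟩
  · rw [Ne, Polynomial.reflect_eq_zero_iff]
    exact Polynomial.leadingCoeff_ne_zero.mpr hR0
  intro m hm P hP
  have hm0 : (m : ℝ) ≠ 0 := by
    have : 0 < m := hm
    exact_mod_cast this.ne'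
  by_cases hD : (Polynomial.reflect J (R.coeff n)).eval (m : ℤ) = 0
  · rw [hD]
    simp only [Int.cast_zero, zero_mul]
    exact isIntegral_zero
  set φ : Polynomial ℤ →+* ℝ := Polynomial.eval₂RingHom (Int.castRingHom ℝ) (1 / (m : ℝ)) with hφ
  have hφX : φ Polynomial.X = 1 / (m : ℝ) := by simp [hφ]
  have hmap : ∀ i, MvPolynomial.map φ (psys k a (Polynomial.X : Polynomial ℤ) i)
      = psys k a (1 / (m : ℝ)) i := by
    intro i
    rw [psys, tsys_map, psys]
    congr 1
    · funext c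
      rw [map_intCast]
    · funext c
      rw [map_one]
    · funext c c'
      rw [map_zero]
    · funext c c'
      rw [map_mul, hφX, map_sub]
      congr 2
      · split_ifs <;> simp
      · split_ifs <;> simp
  have hθ : MvPolynomial.eval₂ φ P (MvPolynomial.map (Polynomial.C : ℤ →+* Polynomial ℤ) Θ)
      = evR Θ P := by
    rw [MvPolynomial.eval₂_map, evR]
    congr 1
    exact RingHom.ext_int _ _
  have h0 := hR φ P (by
    have : (fun i => MvPolynomial.map φ (psys k a (Polynomial.X : Polynomial ℤ) i))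
        = psys k a (1 / (m : ℝ)) := funext hmap
    rw [this]
    exact hP)
  rw [hθ, Polynomial.eval₂_eq_sum_range] at h0
  set θ := evR Θ P with hθdef
  let Q : Polynomial ℤ := ∑ b ∈ Finset.range (n + 1),
    Polynomial.C ((Polynomial.reflect J (R.coeff b)).eval (m : ℤ)) * Polynomial.X ^ b
  have hcoeff : Q.coeff n = (Polynomial.reflect J (R.coeff n)).eval (m : ℤ) := by
    simp only [Q, Polynomial.finsetSum_coeff, Polynomial.coeff_C_mul_X_pow]
    rw [Finset.sum_eq_single n]
    · simp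
    · intro b _ hb
      rw [if_neg (fun h => hb h.symm)]
    · intro h
      exact absurd (Finset.mem_range.mpr (Nat.lt_succ_self n)) h
  have hdeg : Q.natDegree ≤ n := by
    apply Polynomial.natDegree_sum_le_of_forall_le
    intro b hb
    refine (Polynomial.natDegree_C_mul_X_pow_le _ _).trans ?_
    have := Finset.mem_range.mp hb
    omega
  have hlead : Q.leadingCoeff = (Polynomial.reflect J (R.coeff n)).eval (m : ℤ) := by
    have : Q.natDegree = n := le_antisymm hdeg
      (Polynomial.le_natDegree_of_ne_zero (by rw [hcoeff]; exact hD))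
    rw [Polynomial.leadingCoeff, this, hcoeff]
  have hinv : ∀ f : Polynomial ℤ, f.natDegree ≤ J →
      (((Polynomial.reflect J f).eval (m : ℤ) : ℤ) : ℝ) = (m : ℝ) ^ J * φ f := by
    intro f hf
    let _ : Invertible (1 / (m : ℝ)) := invertibleOfNonzero (one_div_ne_zero hm0)
    have h1 := Polynomial.eval₂_reflect_mul_pow (Int.castRingHom ℝ) (1 / (m : ℝ)) J f hf
    have h2 : ⅟(1 / (m : ℝ)) = ((m : ℤ) : ℝ) := by
      rw [invOf_eq_inv]
      simp
    rw [h2] at h1
    have h3 : Polynomial.eval₂ (Int.castRingHom ℝ) ((m : ℤ) : ℝ) (Polynomial.reflect J f)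
        = (((Polynomial.reflect J f).eval (m : ℤ) : ℤ) : ℝ) := by
      simp
    rw [h3] at h1
    have h4 : φ f = Polynomial.eval₂ (Int.castRingHom ℝ) (1 / (m : ℝ)) f := by simp [hφ]
    rw [h4, ← h1, one_div, inv_pow]
    field_simp
  have hroot : Polynomial.aeval θ Q = 0 := by
    have h1 : Polynomial.aeval θ Q = ∑ b ∈ Finset.range (n + 1),
        (((Polynomial.reflect J (R.coeff b)).eval (m : ℤ) : ℤ) : ℝ) * θ ^ b := by
      simp only [Q, map_sum, map_mul, map_pow, Polynomial.aeval_X, Polynomial.aeval_C]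
      rfl
    rw [h1]
    have h2 : ∑ b ∈ Finset.range (n + 1),
        (((Polynomial.reflect J (R.coeff b)).eval (m : ℤ) : ℤ) : ℝ) * θ ^ b
        = (m : ℝ) ^ J * ∑ b ∈ Finset.range (n + 1), φ (R.coeff b) * θ ^ b := by
      rw [Finset.mul_sum]
      refine Finset.sum_congr rfl fun b hb => ?_
      rw [hinv _ (hJ b hb)]
      ring
    rw [h2, h0, mul_zero]
  have hint := isIntegral_leadingCoeff_smul Q θ hroot
  rw [hlead] at hint
  simpa [zsmul_eq_mul] using hint

end Pool.Agent.Lib.P7ee
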