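import Mathlib

/-!
# P7ee.Kummer: independent square roots  (1.5 h)

Induction on `k`, for all fields `K ⊆ L` (and all `b`, `s`). `k = 0`: the adjoined set is empty. Step: `K1 = K⟮s 0⟯` (or the last one), of degree 2 since `b 0` is not a square in `K` (the minimal polynomial is `X² - b 0`). Over `K1` the remaining `b c` satisfy the hypothesis: if `γ ∈ K` (a nonempty product of the `b c`, `c ≥ 1`) is a square in `K1`, `γ = (u + v s)²`, then `2 u v = 0`, so `γ = u²` or `γ = v² b 0`,
i.e. `γ` or `γ * b 0 = (v b 0)²` is a square in `K`, and both are nonempty products of the `b c`. Tower formula, `adjoin K {s 0, ...} = (adjoin K1 {s 1, ...}).restrictScalars`.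
-/

set_option autoImplicit false



namespace Pool.Agent.Lib.P7ee

open Polynomial IntermediateField

namespace KummerAux

lemma mem_simple {K L : Type} [Field K] [Field L] [Algebra K L] (b0 : K) (s0 : L)
    (hs0 : s0 ^ 2 = algebraMap K L b0) (z : L) (hz : z ∈ adjoin K {s0}) :
    ∃ u v : K, z = algebraMap K L u + algebraMap K L v * s0 := by
  have hmon : (X ^ 2 - C b0 : K[X]).Monic := monic_X_pow_sub_C b0 (by norm_num)
  have hroot : aeval s0 (X ^ 2 - C b0 : K[X]) = 0 := by
    simp [hs0]
  have hint : IsIntegral K s0 := ⟨X ^ 2 - C b0, hmon, by rw [← aeval_def]; exact hroot⟩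
  have h1 : z ∈ (adjoin K {s0}).toSubalgebra := hz
  rw [IntermediateField.adjoin_simple_toSubalgebra_of_isAlgebraic hint.isAlgebraic,
    Algebra.adjoin_singleton_eq_range_aeval] at h1
  obtain ⟨p, hp⟩ := h1
  have h2 : aeval s0 (p %ₘ (X ^ 2 - C b0)) = aeval s0 p :=
    aeval_modByMonic_eq_self_of_root hroot
  have h3 : (p %ₘ (X ^ 2 - C b0)).natDegree ≤ 1 := by
    have hlt := natDegree_modByMonic_lt p hmon (by
      intro h
      have := congrArg natDegree h
      rw [natDegree_X_pow_sub_C] at this
      simp at this)
    rw [natDegree_X_pow_sub_C] at hlt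
    omega
  obtain ⟨v, u, huv⟩ := exists_eq_X_add_C_of_natDegree_le_one h3
  refine ⟨u, v, ?_⟩
  have h4 : aeval s0 p = z := hp
  rw [← h4, ← h2, huv]
  simp [add_comm]

lemma main (k : ℕ) : ∀ (K L : Type) [Field K] [Field L] [Algebra K L] (_ : (2 : K) ≠ 0)
    (b : ℕ → K) (s : ℕ → L) (_ : ∀ c < k, s c ^ 2 = algebraMap K L (b c))
    (_ : ∀ S : Finset ℕ, S.Nonempty → S ⊆ Finset.range k → ¬ IsSquare (∏ c ∈ S, b c)),
    Module.finrank K (IntermediateField.adjoin K {x : L | ∃ c < k, x = s c}) = 2 ^ k := by
  induction k with
  | zero =>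
    intro K L _ _ _ _ b s _ _
    have h0 : {x : L | ∃ c < 0, x = s c} = ∅ := by
      ext x; simp
    rw [h0, IntermediateField.adjoin_empty, pow_zero]
    exact IntermediateField.finrank_bot
  | succ k ih =>
    intro K L _ _ _ h2 b s hs hb
    have hs0 : s 0 ^ 2 = algebraMap K L (b 0) := hs 0 (Nat.succ_pos k)
    have hb0 : ¬ IsSquare (b 0) := by
      have := hb {0} (Finset.singleton_nonempty 0) (by simp)
      simpa using this
    have hs0not : ∀ t : K, algebraMap K L t ≠ s 0 := by
      intro t ht
      apply hb0
      refine ⟨t, ?_⟩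
      apply (algebraMap K L).injective
      rw [← hs0, ← ht, map_mul, sq]
    -- degree two
    have hdeg : Module.finrank K (adjoin K {s 0}) = 2 := by
      have hmon : (X ^ 2 - C (b 0) : K[X]).Monic := monic_X_pow_sub_C (b 0) (by norm_num)
      have hroot : aeval (s 0) (X ^ 2 - C (b 0) : K[X]) = 0 := by
        simp [hs0]
      have hint : IsIntegral K (s 0) :=
        ⟨X ^ 2 - C (b 0), hmon, by rw [← aeval_def]; exact hroot⟩
      rw [IntermediateField.adjoin.finrank hint]
      have hirr : Irreducible (X ^ 2 - C (b 0) : K[X]) := by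
        apply X_pow_sub_C_irreducible_of_prime Nat.prime_two
        intro t ht
        exact hb0 ⟨t, by rw [← ht, sq]⟩
      rw [← minpoly.eq_of_irreducible_of_monic hirr hroot hmon, natDegree_X_pow_sub_C]
    let K1 := adjoin K {s 0}
    have h2' : (2 : K1) ≠ 0 := by
      intro h
      apply h2
      apply (algebraMap K K1).injective
      rw [map_ofNat, h, map_zero]
    have hs1 : ∀ c < k, (fun c => s (c + 1)) c ^ 2
        = algebraMap K1 L ((fun c => algebraMap K K1 (b (c + 1))) c) := by
      intro c hc
      simp only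
      rw [hs (c + 1) (by omega), IsScalarTower.algebraMap_apply K K1 L]
    have hb1 : ∀ S : Finset ℕ, S.Nonempty → S ⊆ Finset.range k →
        ¬ IsSquare (∏ c ∈ S, (fun c => algebraMap K K1 (b (c + 1))) c) := by
      intro S hS hSk hsq
      obtain ⟨z, hz⟩ := hsq
      obtain ⟨u, v, huv⟩ := mem_simple (b 0) (s 0) hs0 (z : L) z.2
      have hz' : algebraMap K L (∏ c ∈ S, b (c + 1)) = (z : L) * (z : L) := by
        have h5 := congrArg (algebraMap K1 L) hz
        rw [map_mul, map_prod] at h5
        rw [map_prod]
        refine Eq.trans (Finset.prod_congr rfl fun c _ => ?_) h5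
        exact IsScalarTower.algebraMap_apply K K1 L _
      set γ : K := ∏ c ∈ S, b (c + 1) with hγ
      let S1 : Finset ℕ := S.map ⟨Nat.succ, Nat.succ_injective⟩
      have hS1 : ∏ c ∈ S1, b c = γ := by
        simp only [S1, Finset.prod_map, hγ]
        rfl
      have hS1ne : S1.Nonempty := by
        simpa [S1] using hS
      have hS1k : S1 ⊆ Finset.range (k + 1) := by
        intro c hc
        simp only [S1, Finset.mem_map, Function.Embedding.coeFn_mk] at hc
        obtain ⟨d, hd, rfl⟩ := hc
        have := Finset.mem_range.mp (hSk hd)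
        exact Finset.mem_range.mpr (by omega)
      have h0S1 : 0 ∉ S1 := by
        intro h0
        simp only [S1, Finset.mem_map, Function.Embedding.coeFn_mk] at h0
        obtain ⟨d, _, hd⟩ := h0
        omega
      have key : algebraMap K L γ = algebraMap K L (u * u + v * v * b 0)
          + algebraMap K L (2 * u * v) * s 0 := by
        rw [hz', huv]
        simp only [map_add, map_mul, map_ofNat]
        rw [← hs0]
        ring
      have huv0 : 2 * u * v = 0 := by
        by_contra hne
        apply hs0not ((γ - (u * u + v * v * b 0)) / (2 * u * v))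
        have hne' : algebraMap K L (2 * u * v) ≠ 0 := by
          intro h
          exact hne ((map_eq_zero _).mp h)
        rw [map_div₀, div_eq_iff hne', map_sub, key]
        ring
      rw [huv0, map_zero, zero_mul, add_zero] at key
      have key' : γ = u * u + v * v * b 0 := (algebraMap K L).injective key
      rcases mul_eq_zero.mp huv0 with h | h
      · have hu : u = 0 := by
          rcases mul_eq_zero.mp h with h' | h'
          · exact absurd h' h2
          · exact h'
        -- γ * b 0 is a square
        apply hb (insert 0 S1) (Finset.insert_nonempty 0 S1) (by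
          intro c hc
          rcases Finset.mem_insert.mp hc with h | h
          · subst h; exact Finset.mem_range.mpr (Nat.succ_pos k)
          · exact hS1k h)
        rw [Finset.prod_insert h0S1, hS1, key', hu]
        exact ⟨v * b 0, by ring⟩
      · apply hb S1 hS1ne hS1k
        rw [hS1, key', h]
        exact ⟨u, by ring⟩
    have hih := ih K1 L h2' (fun c => algebraMap K K1 (b (c + 1))) (fun c => s (c + 1)) hs1 hb1
    have hset : {x : L | ∃ c < k + 1, x = s c}
        = {s 0} ∪ {x : L | ∃ c < k, x = (fun c => s (c + 1)) c} := by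
      ext x
      simp only [Set.mem_ofPred_eq, Set.mem_union, Set.mem_singleton_iff]
      constructor
      · rintro ⟨c, hc, rfl⟩
        rcases Nat.eq_zero_or_pos c with h | h
        · left; rw [h]
        · right
          refine ⟨c - 1, by omega, ?_⟩
          congr 1
          omega
      · rintro (h | ⟨c, hc, rfl⟩)
        · exact ⟨0, Nat.succ_pos k, h⟩
        · exact ⟨c + 1, by omega, rfl⟩
    rw [hset, ← IntermediateField.adjoin_adjoin_left K {s 0}
      {x : L | ∃ c < k, x = (fun c => s (c + 1)) c}]
    have htower := Module.finrank_mul_finrank K K1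
      (adjoin K1 {x : L | ∃ c < k, x = (fun c => s (c + 1)) c})
    rw [hih, hdeg] at htower
    rw [pow_succ, mul_comm, htower]
    rfl

end KummerAux

theorem kummer {K L : Type} [Field K] [Field L] [Algebra K L] (h2 : (2 : K) ≠ 0) (k : ℕ)
    (b : ℕ → K) (s : ℕ → L) (hs : ∀ c < k, s c ^ 2 = algebraMap K L (b c))
    (hb : ∀ S : Finset ℕ, S.Nonempty → S ⊆ Finset.range k → ¬ IsSquare (∏ c ∈ S, b c)) :
    Module.finrank K (IntermediateField.adjoin K {x : L | ∃ c < k, x = s c}) = 2 ^ k :=
  KummerAux.main k K L h2 b s hs hb

end Pool.Agent.Lib.P7ee
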