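import Mathlib

/-!
# MP_7ee880_gt: definitions for the algebraic part

`Ex σ s`: exponent vectors of degree at most `s`; `Evs σ S`: those of even degree at most `2 S`.
`EvenP`: polynomials all of whose monomials have even degree. `IsQuad`: even polynomials of degree at most two.
`NZero f P`: `P` is a zero of the square system `f` at which the Jacobian matrix is injective.
`tsys a1 a2 b1 b2`: the quadrics of a torque system in the real coordinates `p c` (`inl c`), `q c` (`inr c`) of complex numbers
`t c = p c + q c i`: `p c ^ 2 + q c ^ 2 - 1` and `Im (A c * conj (t c) ^ 2) + ∑ c', Im (B c c' * conj (t c) * t c')`, where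
`A c = a1 c + a2 c i`, `B c c' = b1 c c' + b2 c c' i`.
-/

set_option autoImplicit false

namespace Pool.Agent.Lib.P7ee

open MvPolynomial

/-- exponent vectors of degree at most `s` -/
def Ex (σ : Type) [Fintype σ] [DecidableEq σ] (s : ℕ) : Finset (σ → ℕ) :=
  (Fintype.piFinset fun _ : σ => Finset.range (s + 1)).filter fun a => ∑ i, a i ≤ s

/-- exponent vectors of even degree at most `2 * S` -/
def Evs (σ : Type) [Fintype σ] [DecidableEq σ] (S : ℕ) : Finset (σ → ℕ) :=
  (Fintype.piFinset fun _ : σ => Finset.range (2 * S + 1)).filter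
    fun a => ∑ i, a i ≤ 2 * S ∧ Even (∑ i, a i)

/-- all monomials have even degree -/
def EvenP {σ A : Type} [CommRing A] (f : MvPolynomial σ A) : Prop :=
  ∀ s ∈ f.support, Even s.degree

/-- even polynomials of degree at most two -/
def IsQuad {σ A : Type} [CommRing A] (f : MvPolynomial σ A) : Prop :=
  f.totalDegree ≤ 2 ∧ EvenP f

/-- nonsingular zeros of a square system -/
def NZero {σ K : Type} [Fintype σ] [Field K] (f : σ → MvPolynomial σ K) (P : σ → K) : Prop :=
  (∀ i, eval P (f i) = 0) ∧
    ∀ z : σ → K, (∀ i, ∑ j, eval P (pderiv j (f i)) * z j = 0) → z = 0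

/-- the polynomials of a torque system -/
noncomputable def tsys {C A : Type} [Fintype C] [CommRing A] (a1 a2 : C → A) (b1 b2 : C → C → A) :
    C ⊕ C → MvPolynomial (C ⊕ C) A
  | .inl c => X (.inl c) ^ 2 + X (.inr c) ^ 2 - 1
  | .inr c => MvPolynomial.C (a2 c) * (X (.inl c) ^ 2 - X (.inr c) ^ 2)
      - MvPolynomial.C (2 * a1 c) * (X (.inl c) * X (.inr c))
      + ∑ c', (MvPolynomial.C (b2 c c') * (X (.inl c) * X (.inl c') + X (.inr c) * X (.inr c'))
        + MvPolynomial.C (b1 c c') * (X (.inl c) * X (.inr c') - X (.inr c) * X (.inl c')))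

end Pool.Agent.Lib.P7ee
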