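import Pool.Agent.Lib.P7ee.Defs
import Pool.Agent.Lib.P7ee.QDefs
import Pool.Agent.Lib.P7ee.InK

/-!
# MP_7ee880_gt: definitions for the lower bound

`zpt a j`: the points `z_0 = 0`, `z_(j+1) = z_j + (a j + i)`. The data points are `m * zpt a j`, `j ≤ k`, and `r = 1`.
`om x c`: direction from `x c` to `x (c+1)`. `Chain`: the equations satisfied by the energetic points.
`psys k a ρ`: the torque system of the chain, `ρ = 1/m`. `tl a l`: its solutions for `ρ = 0`; `Pt t`: real coordinates.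
-/

set_option autoImplicit false

namespace Pool.Agent.Lib.P7ee

/-- the points of the chain -/
noncomputable def zpt (a : ℕ → ℤ) (j : ℕ) : ℂ := ∑ c ∈ Finset.range j, ((a c : ℂ) + Complex.I)

/-- directions of a polygon -/
noncomputable def om (x : ℕ → ℂ) (c : ℕ) : ℂ := (x (c + 1) - x c) / (‖x (c + 1) - x c‖ : ℂ)

/-- the equations of the energetic points -/
def Chain (k : ℕ) (a : ℕ → ℤ) (m : ℕ) (x : ℕ → ℂ) : Prop :=
  (∀ c < k, x (c + 1) ≠ x c) ∧ x 0 = m * zpt a 0 + om x 0 ∧ x k = m * zpt a k - om x (k - 1) ∧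
    ∀ j, 0 < j → j < k → om x j ≠ om x (j - 1) ∧
      x j = m * zpt a j + (om x j - om x (j - 1)) / (‖om x j - om x (j - 1)‖ : ℂ)

/-- the torque system of the chain -/
noncomputable def psys (k : ℕ) (a : ℕ → ℤ) {A : Type} [CommRing A] (ρ : A) :
    Fin k ⊕ Fin k → MvPolynomial (Fin k ⊕ Fin k) A :=
  tsys (fun c => ((a c : ℤ) : A)) (fun _ => 1) (fun _ _ => 0)
    (fun c c' => ρ * ((if c'.val = c.val + 1 then 1 else 0) -
      (if c'.val + 1 = c.val then 1 else 0)))

/-- square root of the direction of `a c + i` -/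
noncomputable def base (a : ℕ → ℤ) (c : ℕ) : ℂ :=
  Complex.exp (((Complex.arg ((a c : ℂ) + Complex.I) / 2 : ℝ) : ℂ) * Complex.I)

/-- the solutions for `ρ = 0` -/
noncomputable def tl {k : ℕ} (a : ℕ → ℤ) (l : Fin k → Fin 4) (c : Fin k) : ℂ :=
  Complex.I ^ (l c : ℕ) * base a c

/-- real coordinates -/
def Pt {k : ℕ} (t : Fin k → ℂ) : Fin k ⊕ Fin k → ℝ :=
  Sum.elim (fun c => (t c).re) (fun c => (t c).im)

/-- the value of an integral polynomial at a real point -/
noncomputable def evR {σ : Type} (Θ : MvPolynomial σ ℤ) (P : σ → ℝ) : ℝ :=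
  MvPolynomial.eval₂ (Int.castRingHom ℝ) P Θ

end Pool.Agent.Lib.P7ee
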