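import Pool.Agent.Lib.P7ee.Kummer

/-!
# P7ee.Layer: the degree of the field at `ρ = 0`  (2.5 h)

`N c = a c ^ 2 + 1`. `K1 = ℚ(√N 0, ..., √N (k-1)) ≤ K` has degree `2^k` (`kummer`; an integer which is a square in `ℚ` is a square in `ℤ`). Over `K1`: `β c = 2 - 2 (a c a (c+1) + 1)/(√(N c) √(N (c+1)))`, `c + 1 < k`. Claim: no nonempty product of the `β c` is a square in `K1`; then `kummer` over `K1` with the `g c` gives degree `2^(k-1)` of a subfield of `K` over `K1`, total `2^(2k-1)`.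
Claim: let `∏_(c ∈ S) β c = γ²`, `M` the largest element of `S`, `N' = N (M+1)`, `K2 = ℚ(√N c : c < k, c ≠ M+1)`; `√N' ∉ K2` (degrees: `kummer` for `K1`, at most `2^(k-1)` for `K2`), `K1 = K2 ⊕ K2 √N'`, `γ = u + v √N'`. `A = ∏_(c ∈ S, c < M) β c ∈ K2`, nonzero, `κ = (a M a (M+1) + 1)/√(N M) ∈ K2`, `β M = 2 - 2 κ/√N' = 2 - (2 κ/N') √N'`. Comparing: `u² + v² N' = 2 A`, `2 u v = - 2 A κ/N'`, so
`(u² - v² N')² = 4 A² (1 - κ²/N') = 4 A² (a M - a (M+1))²/(N M * N')` (`N M * N' - (a M a (M+1) + 1)² = (a M - a (M+1))²`), a nonzero number; hence `N' = (2 A (a M - a (M+1)) / (√(N M) (u² - v² N')))²` is the square of an element of `K2`, i.e. `√N' ∈ K2`, contradiction. (`β c ≠ 0`: `κ² < N'`.)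
-/

set_option autoImplicit false



namespace Pool.Agent.Lib.P7ee

namespace LayerAux

open IntermediateField

/-- the square root -/
noncomputable def sN (a : ℕ → ℤ) (c : ℕ) : ℝ := √((a c : ℝ) ^ 2 + 1)

variable {a : ℕ → ℤ}

theorem sN_sq (c : ℕ) : sN a c ^ 2 = (a c : ℝ) ^ 2 + 1 := Real.sq_sqrt (by positivity)

theorem sN_pos (c : ℕ) : 0 < sN a c := Real.sqrt_pos.2 (by positivity)

theorem degQ {k k0 : ℕ} (σ : ℕ → ℕ) (hσ : Set.InjOn σ (Finset.range k)) (hσk : ∀ c < k, σ c < k0)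
    (hN : ∀ S : Finset ℕ, S.Nonempty → S ⊆ Finset.range k0 →
      ¬ IsSquare (∏ c ∈ S, (a c ^ 2 + 1))) :
    Module.finrank ℚ (adjoin ℚ {x : ℝ | ∃ c < k, x = sN a (σ c)}) = 2 ^ k := by
  apply kummer (by norm_num) k (fun c => ((a (σ c) : ℚ) ^ 2 + 1)) (fun c => sN a (σ c))
  · intro c hc
    rw [sN_sq]
    simp
  · intro S hS hSk hsq
    have h1 : IsSquare (∏ c ∈ S.image σ, (a c ^ 2 + 1)) := by
      rw [Finset.prod_image (fun x hx y hy h => hσ (hSk hx) (hSk hy) h)]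
      rw [← Rat.isSquare_intCast_iff]
      push_cast
      exact hsq
    refine hN (S.image σ) (hS.image σ) ?_ h1
    intro x hx
    obtain ⟨c, hc, rfl⟩ := Finset.mem_image.1 hx
    exact Finset.mem_range.2 (hσk c (Finset.mem_range.1 (hSk hc)))

/-- elements of a quadratic extension -/
theorem quad {K2 : IntermediateField ℚ ℝ} {s N : ℝ} (hs : s ^ 2 = N) (hNK : N ∈ K2)
    (hsK : s ∉ K2) {T : Set ℝ} (hT : ∀ x ∈ T, x ∈ K2 ∨ x = s) {x : ℝ} (hx : x ∈ adjoin ℚ T) :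
    ∃ u ∈ K2, ∃ v ∈ K2, x = u + v * s := by
  induction hx using adjoin_induction with
  | mem x hx =>
    rcases hT x hx with h | h
    · exact ⟨x, h, 0, K2.zero_mem, by ring⟩
    · exact ⟨0, K2.zero_mem, 1, K2.one_mem, by rw [h]; ring⟩
  | algebraMap r => exact ⟨_, K2.algebraMap_mem r, 0, K2.zero_mem, by ring⟩
  | add x y _ _ hx hy =>
    obtain ⟨u, hu, v, hv, rfl⟩ := hx
    obtain ⟨u', hu', v', hv', rfl⟩ := hy
    exact ⟨u + u', K2.add_mem hu hu', v + v', K2.add_mem hv hv', by ring⟩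
  | inv x _ hx =>
    obtain ⟨u, hu, v, hv, rfl⟩ := hx
    have hD : u ^ 2 - v ^ 2 * N ∈ K2 :=
      K2.sub_mem (pow_mem hu 2) (K2.mul_mem (pow_mem hv 2) hNK)
    by_cases h0 : u ^ 2 - v ^ 2 * N = 0
    · have hv0 : v = 0 := by
        by_contra hv0
        have h1 : (s - u / v) * (s + u / v) = 0 := by
          have : (s - u / v) * (s + u / v) = s ^ 2 - u ^ 2 / v ^ 2 := by ring
          rw [this, hs, sub_eq_zero, eq_div_iff (pow_ne_zero 2 hv0)]
          linarith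
        rcases mul_eq_zero.1 h1 with h | h
        · exact hsK (by rw [sub_eq_zero.1 h]; exact K2.div_mem hu hv)
        · exact hsK (by rw [eq_neg_of_add_eq_zero_left h]; exact K2.neg_mem (K2.div_mem hu hv))
      rw [hv0] at h0 ⊢
      have hu0 : u = 0 := by
        have : u ^ 2 = 0 := by linarith
        exact pow_eq_zero_iff (two_ne_zero) |>.1 this
      exact ⟨0, K2.zero_mem, 0, K2.zero_mem, by rw [hu0]; simp⟩
    · refine ⟨u / (u ^ 2 - v ^ 2 * N), K2.div_mem hu hD, -v / (u ^ 2 - v ^ 2 * N),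
        K2.div_mem (K2.neg_mem hv) hD, ?_⟩
      have h1 : (u + v * s) * (u - v * s) = u ^ 2 - v ^ 2 * N := by rw [← hs]; ring
      have h2 : u + v * s ≠ 0 := fun h => h0 (by rw [← h1, h, zero_mul])
      rw [inv_eq_iff_eq_inv, eq_comm, inv_eq_of_mul_eq_one_left]
      field_simp
      rw [← h1]
      ring
  | mul x y _ _ hx hy =>
    obtain ⟨u, hu, v, hv, rfl⟩ := hx
    obtain ⟨u', hu', v', hv', rfl⟩ := hy
    refine ⟨u * u' + v * v' * N, K2.add_mem (K2.mul_mem hu hu')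
      (K2.mul_mem (K2.mul_mem hv hv') hNK), u * v' + v * u',
      K2.add_mem (K2.mul_mem hu hv') (K2.mul_mem hv hu'), ?_⟩
    rw [← hs]; ring

theorem indep {K2 : IntermediateField ℚ ℝ} {s p r : ℝ} (hsK : s ∉ K2) (hp : p ∈ K2) (hr : r ∈ K2)
    (h : p + r * s = 0) : p = 0 ∧ r = 0 := by
  have hr0 : r = 0 := by
    by_contra hr0
    refine hsK ?_
    have : s = -p / r := by rw [eq_div_iff hr0]; linarith
    rw [this]; exact K2.div_mem (K2.neg_mem hp) hr
  exact ⟨by rw [hr0] at h; linarith, hr0⟩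

/-- beta -/
noncomputable def be (a : ℕ → ℤ) (c : ℕ) : ℝ :=
  2 - 2 * ((a c : ℝ) * a (c + 1) + 1) / (sN a c * sN a (c + 1))

theorem be_mem {K : IntermediateField ℚ ℝ} {c : ℕ} (h1 : sN a c ∈ K) (h2 : sN a (c + 1) ∈ K) :
    be a c ∈ K := by
  have h3 : ∀ n : ℤ, (n : ℝ) ∈ K := fun n => K.intCast_mem n
  have h4 : (2 : ℝ) ∈ K := by exact_mod_cast h3 2
  exact K.sub_mem h4 (K.div_mem (K.mul_mem h4 (K.add_mem (K.mul_mem (h3 _) (h3 _)) K.one_mem))
    (K.mul_mem h1 h2))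

theorem be_ne {c : ℕ} (h : a (c + 1) < a c) : be a c ≠ 0 := by
  intro h0
  have h1 := sN_pos (a := a) c
  have h2 := sN_pos (a := a) (c + 1)
  have h3 : sN a c * sN a (c + 1) = (a c : ℝ) * a (c + 1) + 1 := by
    unfold be at h0
    have h4 : 2 * ((a c : ℝ) * a (c + 1) + 1) / (sN a c * sN a (c + 1)) = 2 := by linarith
    rw [div_eq_iff (by positivity)] at h4
    linarith
  have h4 : (sN a c * sN a (c + 1)) ^ 2 = ((a c : ℝ) * a (c + 1) + 1) ^ 2 := by rw [h3]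
  rw [mul_pow, sN_sq, sN_sq] at h4
  have h5 : ((a c : ℝ) - a (c + 1)) ^ 2 = 0 := by nlinarith
  have h6 : (a c : ℝ) - a (c + 1) = 0 := by
    exact pow_eq_zero_iff (two_ne_zero) |>.1 h5
  have h7 : (a (c + 1) : ℝ) < a c := by exact_mod_cast h
  linarith

theorem key {k : ℕ} (hdec : ∀ c, c + 1 < k → a (c + 1) < a c)
    (hN : ∀ S : Finset ℕ, S.Nonempty → S ⊆ Finset.range k → ¬ IsSquare (∏ c ∈ S, (a c ^ 2 + 1)))
    {S : Finset ℕ} (hS : S.Nonempty) (hSk : S ⊆ Finset.range (k - 1)) {γ : ℝ}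
    (hγ : γ ∈ adjoin ℚ {x : ℝ | ∃ c < k, x = sN a c}) : ∏ c ∈ S, be a c ≠ γ ^ 2 := by
  intro hsq
  obtain ⟨M, hM, hmax⟩ : ∃ M ∈ S, ∀ c ∈ S, c ≤ M := ⟨S.max' hS, S.max'_mem hS, fun c hc => S.le_max' c hc⟩
  have hMk : M + 1 < k := by have := Finset.mem_range.1 (hSk hM); omega
  set σ : ℕ → ℕ := fun c => if c < M + 1 then c else c + 1 with hσ
  set T2 : Set ℝ := {x : ℝ | ∃ c < k - 1, x = sN a (σ c)} with hT2
  set K2 := adjoin ℚ T2 with hK2
  have hσi : Set.InjOn σ (Finset.range (k - 1)) := by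
    intro x _ y _ h
    simp only [hσ] at h
    split_ifs at h <;> omega
  have hd2 : Module.finrank ℚ K2 = 2 ^ (k - 1) :=
    degQ (k0 := k) σ hσi (fun c hc => by simp only [hσ]; split_ifs <;> omega) hN
  have hd1 : Module.finrank ℚ (adjoin ℚ {x : ℝ | ∃ c < k, x = sN a c}) = 2 ^ k :=
    degQ (k0 := k) id (Function.injective_id.injOn) (fun c hc => hc) hN
  have hmem : ∀ c < k, c ≠ M + 1 → sN a c ∈ K2 := by
    intro c hc hne
    apply subset_adjoin
    rcases lt_or_gt_of_ne hne with h | h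
    · exact ⟨c, by omega, by simp only [hσ]; rw [if_pos h]⟩
    · refine ⟨c - 1, by omega, ?_⟩
      simp only [hσ]
      rw [if_neg (by omega)]
      congr 1; omega
  have hsK : sN a (M + 1) ∉ K2 := by
    intro h
    have hle : adjoin ℚ {x : ℝ | ∃ c < k, x = sN a c} ≤ K2 := by
      rw [adjoin_le_iff]
      rintro x ⟨c, hc, rfl⟩
      by_cases hcM : c = M + 1
      · rw [hcM]; exact h
      · exact hmem c hc hcM
    have hfin : FiniteDimensional ℚ K2 := FiniteDimensional.of_finrank_pos (by rw [hd2]; positivity)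
    have h3 : Module.finrank ℚ (adjoin ℚ {x : ℝ | ∃ c < k, x = sN a c}) ≤ Module.finrank ℚ K2 :=
      LinearMap.finrank_le_finrank_of_injective
        (f := (IntermediateField.inclusion hle).toLinearMap)
        (IntermediateField.inclusion hle).injective
    rw [hd1, hd2] at h3
    have h4 : 2 ^ k = 2 * 2 ^ (k - 1) := by
      rw [← pow_succ']
      congr 1; omega
    have h5 : 0 < 2 ^ (k - 1) := by positivity
    omega
  -- numbers
  have hint : ∀ n : ℤ, (n : ℝ) ∈ K2 := fun n => K2.intCast_mem n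
  have hNK : ((a (M + 1) : ℝ) ^ 2 + 1) ∈ K2 := K2.add_mem (pow_mem (hint _) 2) K2.one_mem
  obtain ⟨u, hu, v, hv, huv⟩ := quad (K2 := K2) (s := sN a (M + 1)) (sN_sq (M + 1)) hNK hsK
    (T := {x : ℝ | ∃ c < k, x = sN a c}) (by
      rintro x ⟨c, hc, rfl⟩
      by_cases hcM : c = M + 1
      · right; rw [hcM]
      · left; exact hmem c hc hcM) hγ
  set A : ℝ := ∏ c ∈ S.erase M, be a c with hA
  have hAK : A ∈ K2 := by
    refine prod_mem fun c hc => ?_
    have hc1 := Finset.ne_of_mem_erase hc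
    have hc2 := hmax c (Finset.mem_of_mem_erase hc)
    exact be_mem (hmem c (by omega) (by omega)) (hmem (c + 1) (by omega) (by omega))
  have hA0 : A ≠ 0 := by
    refine Finset.prod_ne_zero_iff.2 fun c hc => ?_
    have hc2 := hmax c (Finset.mem_of_mem_erase hc)
    exact be_ne (hdec c (by omega))
  have hprod : ∏ c ∈ S, be a c = be a M * A := (Finset.mul_prod_erase S (be a) hM).symm
  have hMN : sN a M ∈ K2 := hmem M (by omega) (by omega)
  have hM0 := sN_pos (a := a) M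
  have hM1 := sN_pos (a := a) (M + 1)
  set s' := sN a (M + 1) with hs'
  set N' : ℝ := (a (M + 1) : ℝ) ^ 2 + 1 with hN'
  have hN'0 : N' ≠ 0 := by rw [hN']; positivity
  have hss : s' ^ 2 = N' := sN_sq (M + 1)
  set κ : ℝ := ((a M : ℝ) * a (M + 1) + 1) / sN a M with hκ
  have hκK : κ ∈ K2 := K2.div_mem (K2.add_mem (K2.mul_mem (hint _) (hint _)) K2.one_mem) hMN
  have hbM : be a M = 2 - 2 * κ / N' * s' := by
    unfold be
    rw [hκ, ← hss, ← hs']
    field_simp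
  have h2K : (2 : ℝ) ∈ K2 := by exact_mod_cast hint 2
  rw [hprod, hbM, huv] at hsq
  have hlin : (u ^ 2 + v ^ 2 * N' - 2 * A) + (2 * u * v + 2 * A * κ / N') * s' = 0 := by
    have h1 : (2 - 2 * κ / N' * s') * A = u ^ 2 + v ^ 2 * s' ^ 2 + 2 * u * v * s' := by
      rw [hsq]; ring
    rw [hss] at h1
    have h2 : (2 * u * v + 2 * A * κ / N') * s' = 2 * u * v * s' + A * (2 * κ / N' * s') := by
      ring
    rw [h2]
    linarith
  obtain ⟨e1, e2⟩ := indep (K2 := K2) hsK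
    (K2.sub_mem (K2.add_mem (pow_mem hu 2) (K2.mul_mem (pow_mem hv 2) hNK)) (K2.mul_mem h2K hAK))
    (K2.add_mem (K2.mul_mem (K2.mul_mem h2K hu) hv)
      (K2.div_mem (K2.mul_mem (K2.mul_mem h2K hAK) hκK) hNK)) hlin
  set D : ℝ := u ^ 2 - v ^ 2 * N' with hD
  have hDK : D ∈ K2 := K2.sub_mem (pow_mem hu 2) (K2.mul_mem (pow_mem hv 2) hNK)
  have hD2 : D ^ 2 * (sN a M ^ 2 * N') = (2 * A * ((a M : ℝ) - a (M + 1))) ^ 2 := by
    have f1 : u ^ 2 + v ^ 2 * N' = 2 * A := by linarith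
    have f2 : 2 * u * v * N' = - (2 * A * κ) := by
      have : (2 * u * v + 2 * A * κ / N') * N' = 0 := by rw [e2, zero_mul]
      have h3 : (2 * u * v + 2 * A * κ / N') * N' = 2 * u * v * N' + 2 * A * κ := by
        field_simp
      linarith
    have f3 : D ^ 2 = (2 * A) ^ 2 - (2 * u * v) ^ 2 * N' := by rw [hD, ← f1]; ring
    have f4 : κ * sN a M = (a M : ℝ) * a (M + 1) + 1 := by
      rw [hκ]; field_simp
    calc D ^ 2 * (sN a M ^ 2 * N')
        = (2 * A) ^ 2 * (sN a M ^ 2 * N') - (2 * u * v * N') ^ 2 * sN a M ^ 2 := by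
          rw [f3]; ring
      _ = (2 * A) ^ 2 * (sN a M ^ 2 * N' - (κ * sN a M) ^ 2) := by rw [f2]; ring
      _ = (2 * A * ((a M : ℝ) - a (M + 1))) ^ 2 := by
          rw [f4, sN_sq, hN']; ring
  have hdM : (a M : ℝ) - a (M + 1) ≠ 0 := by
    have : (a (M + 1) : ℝ) < a M := by exact_mod_cast hdec M hMk
    exact ne_of_gt (by linarith)
  have hD0 : D ≠ 0 := by
    intro h0
    rw [h0] at hD2
    have : 2 * A * ((a M : ℝ) - a (M + 1)) = 0 := by
      have h3 : (2 * A * ((a M : ℝ) - a (M + 1))) ^ 2 = 0 := by rw [← hD2]; ring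
      exact pow_eq_zero_iff (two_ne_zero) |>.1 h3
    exact (mul_ne_zero (mul_ne_zero two_ne_zero hA0) hdM) this
  set E : ℝ := 2 * A * ((a M : ℝ) - a (M + 1)) / (sN a M * D) with hE
  have hEK : E ∈ K2 := K2.div_mem (K2.mul_mem (K2.mul_mem h2K hAK)
    (K2.sub_mem (hint _) (hint _))) (K2.mul_mem hMN hDK)
  have hE2 : E ^ 2 = s' ^ 2 := by
    rw [hE, div_pow, ← hD2, hss]
    field_simp
  rcases sq_eq_sq_iff_eq_or_eq_neg.1 hE2 with h | h
  · exact hsK (by rw [← h]; exact hEK)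
  · exact hsK (by
      have h8 : s' = -E := by rw [h]; ring
      rw [h8]; exact K2.neg_mem hEK)

end LayerAux

open LayerAux IntermediateField

theorem layer_degree {k : ℕ} (hk : 0 < k) (a : ℕ → ℤ)
    (hdec : ∀ c, c + 1 < k → a (c + 1) < a c)
    (hN : ∀ S : Finset ℕ, S.Nonempty → S ⊆ Finset.range k → ¬ IsSquare (∏ c ∈ S, (a c ^ 2 + 1)))
    (K : IntermediateField ℚ ℝ) [FiniteDimensional ℚ K]
    (h1 : ∀ c < k, √((a c : ℝ) ^ 2 + 1) ∈ K)
    (h2 : ∀ c, c + 1 < k → ∃ g ∈ K, g ^ 2 = 2 - 2 * ((a c : ℝ) * a (c + 1) + 1) /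
      (√((a c : ℝ) ^ 2 + 1) * √((a (c + 1) : ℝ) ^ 2 + 1))) :
    2 ^ (2 * k - 1) ≤ Module.finrank ℚ K := by
  set K1 := adjoin ℚ {x : ℝ | ∃ c < k, x = sN a c} with hK1
  have hd1 : Module.finrank ℚ K1 = 2 ^ k :=
    degQ (k0 := k) id (Function.injective_id.injOn) (fun c hc => hc) hN
  have hmem : ∀ c < k, sN a c ∈ K1 := fun c hc => subset_adjoin _ _ ⟨c, hc, rfl⟩
  have hle : K1 ≤ K := by
    rw [hK1, adjoin_le_iff]
    rintro x ⟨c, hc, rfl⟩
    exact h1 c hc
  have h2' : ∀ c : ℕ, ∃ g : ℝ, c + 1 < k → g ∈ K ∧ g ^ 2 = be a c := by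
    intro c
    by_cases h : c + 1 < k
    · obtain ⟨g, hg, hg2⟩ := h2 c h
      exact ⟨g, fun _ => ⟨hg, hg2⟩⟩
    · exact ⟨0, fun h' => absurd h' h⟩
  choose g hg using h2'
  have hb : ∀ c : ℕ, ∃ b : K1, c + 1 < k → (b : ℝ) = be a c := by
    intro c
    by_cases h : c + 1 < k
    · exact ⟨⟨be a c, be_mem (hmem c (by omega)) (hmem (c + 1) h)⟩, fun _ => rfl⟩
    · exact ⟨0, fun h' => absurd h' h⟩
  choose b hb using hb
  have hkum := kummer (K := K1) (L := ℝ) two_ne_zero (k - 1) b g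
    (fun c hc => by rw [(hg c (by omega)).2, ← hb c (by omega)]; rfl)
    (fun S hS hSk hsq => by
      obtain ⟨r, hr⟩ := hsq
      refine key hdec hN hS hSk r.2 ?_
      have h3 : ((∏ c ∈ S, b c : K1) : ℝ) = ∏ c ∈ S, be a c := by
        rw [← hK1] at *
        push_cast
        exact Finset.prod_congr rfl fun c hc => hb c (by
          have := Finset.mem_range.1 (hSk hc)
          omega)
      rw [← h3, hr]
      push_cast
      ring)
  set F := adjoin K1 {x : ℝ | ∃ c < k - 1, x = g c} with hF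
  have hFK : ∀ x ∈ F, x ∈ K := by
    have : F ≤ extendScalars hle := by
      rw [hF, adjoin_le_iff]
      rintro x ⟨c, hc, rfl⟩
      exact (hg c (by omega)).1
    intro x hx
    exact this hx
  have hle2 : F.restrictScalars ℚ ≤ K := hFK
  have h3 : Module.finrank ℚ (F.restrictScalars ℚ) ≤ Module.finrank ℚ K :=
    LinearMap.finrank_le_finrank_of_injective
      (f := (IntermediateField.inclusion hle2).toLinearMap)
      (IntermediateField.inclusion hle2).injective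
  have h4 : Module.finrank ℚ (F.restrictScalars ℚ) = Module.finrank ℚ F := rfl
  have h5 := Module.finrank_mul_finrank ℚ K1 F
  rw [hd1, hkum] at h5
  rw [h4, ← h5, ← pow_add] at h3
  have h6 : 2 * k - 1 = k + (k - 1) := by omega
  rw [h6]
  exact h3

end Pool.Agent.Lib.P7ee
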