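import Pool.Agent.Lib.P7ee.LDefs
import Pool.Agent.Lib.P7ee.TNonsing
import Pool.Agent.Lib.P7ee.TQuad

/-!
# P7ee.PsysNZ: real zeros of the chain system are nonsingular  (1.2 h)

`t c = P (inl c) + P (inr c) i` has norm one by the equation `inl c`. `psys` is `tsys` for `A c = a c + i`, `B c c' = (b2 c c') i`, `b2 = ρ (± 1 or 0)`. For given `c` there are at most two `c'` with `b2 ≠ 0`, and `|b2| ≤ 1`. Equation `inr c`: `|Im (A c conj (t c)^2)| ≤ 2`, `‖A c‖² ≥ 101`, so `|Re (A c conj (t c)^2)| ≥ √97 > 9`.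
`tsys_nzero`: suppose `w ≠ 0` satisfies the linear equations; at an index `c` with `|w c|` maximal: `18 |w c| < |2 w c Re (..)| ≤ 2 * 2 |w c|`, contradiction. Complex version: the kernel of the real Jacobian matrix over `ℂ` is zero (real and imaginary part of a kernel vector); `psys k a (ρ : ℂ)` is the image of `psys k a ρ` (`tsys_map`), `eval` and `pderiv` commute with `map`.
-/

set_option autoImplicit false



namespace Pool.Agent.Lib.P7ee

namespace PsysNZAux

open MvPolynomial

/-- the coupling coefficient without the factor -/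
def bt {k : ℕ} (c c' : Fin k) : ℝ :=
  (if c'.val = c.val + 1 then 1 else 0) - (if c'.val + 1 = c.val then 1 else 0)

theorem sum_ind_le {k : ℕ} (f : Fin k → Prop) [DecidablePred f]
    (hf : ∀ c c', f c → f c' → c = c') : ∑ c, (if f c then (1 : ℝ) else 0) ≤ 1 := by
  by_cases h : ∃ c, f c
  · obtain ⟨c, hc⟩ := h
    rw [Finset.sum_eq_single c]
    · rw [if_pos hc]
    · intro c' _ hne
      rw [if_neg (fun h' => hne (hf _ _ h' hc))]
    · intro h'
      exact absurd (Finset.mem_univ c) h'
  · push Not at h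
    rw [Finset.sum_eq_zero]
    · exact zero_le_one
    · intro c _
      rw [if_neg (h c)]

theorem sum_bt {k : ℕ} (c : Fin k) : ∑ c', |bt c c'| ≤ 2 := by
  have h1 : ∀ c', |bt c c'| ≤ (if c'.val = c.val + 1 then (1 : ℝ) else 0) +
      (if c'.val + 1 = c.val then 1 else 0) := by
    intro c'
    unfold bt
    split_ifs <;> norm_num
  calc ∑ c', |bt c c'| ≤ ∑ c', ((if c'.val = c.val + 1 then (1 : ℝ) else 0) +
      (if c'.val + 1 = c.val then 1 else 0)) := Finset.sum_le_sum fun c' _ => h1 c'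
    _ = ∑ c', (if (c' : Fin k).val = c.val + 1 then (1 : ℝ) else 0) +
      ∑ c', (if (c' : Fin k).val + 1 = c.val then (1 : ℝ) else 0) := Finset.sum_add_distrib
    _ ≤ 1 + 1 := by
        apply add_le_add
        · exact sum_ind_le (fun c' : Fin k => c'.val = c.val + 1) (fun x y hx hy =>
            Fin.ext (by omega))
        · exact sum_ind_le (fun c' : Fin k => c'.val + 1 = c.val) (fun x y hx hy =>
            Fin.ext (by omega))
    _ = 2 := by norm_num

theorem ns {k : ℕ} (a : ℕ → ℤ) (ha : ∀ c < k, 10 ≤ a c) {ρ : ℝ} (hρ : |ρ| ≤ 1)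
    (t : Fin k → ℂ) (ht : ∀ c, ‖t c‖ = 1)
    (heq : ∀ c : Fin k, (((a c : ℂ) + Complex.I) * (starRingEnd ℂ) (t c) ^ 2).im +
      ∑ c', ((((ρ * bt c c' : ℝ) : ℂ) * Complex.I) * (starRingEnd ℂ) (t c) * t c').im = 0)
    (w : Fin k → ℝ)
    (hw : ∀ c : Fin k, -2 * w c * (((a c : ℂ) + Complex.I) * (starRingEnd ℂ) (t c) ^ 2).re +
      ∑ c', (w c' - w c) * ((((ρ * bt c c' : ℝ) : ℂ) * Complex.I) *
        (starRingEnd ℂ) (t c) * t c').re = 0) : w = 0 := by
  by_contra hne
  have hex : ∃ c0, w c0 ≠ 0 := by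
    by_contra h
    push Not at h
    exact hne (funext h)
  obtain ⟨c0, hc0⟩ := hex
  obtain ⟨c, -, hc⟩ := Finset.exists_max_image Finset.univ (fun c => |w c|) ⟨c0, Finset.mem_univ _⟩
  have hpos : 0 < |w c| := lt_of_lt_of_le (abs_pos.mpr hc0) (hc c0 (Finset.mem_univ _))
  -- norms
  have hB : ∀ c', ‖(((ρ * bt c c' : ℝ) : ℂ) * Complex.I) * (starRingEnd ℂ) (t c) * t c'‖
      ≤ |bt c c'| := by
    intro c'
    rw [norm_mul, norm_mul, norm_mul, Complex.norm_I, mul_one, Complex.norm_conj, ht, ht, mul_one,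
      mul_one, Complex.norm_real, Real.norm_eq_abs, abs_mul]
    calc |ρ| * |bt c c'| ≤ 1 * |bt c c'| := mul_le_mul_of_nonneg_right hρ (abs_nonneg _)
      _ = |bt c c'| := one_mul _
  set Q : ℂ := ((a c : ℂ) + Complex.I) * (starRingEnd ℂ) (t c) ^ 2 with hQ
  have hIm : |Q.im| ≤ 2 := by
    have h1 := heq c
    have h2 : Q.im = -∑ c', ((((ρ * bt c c' : ℝ) : ℂ) * Complex.I) *
        (starRingEnd ℂ) (t c) * t c').im := by linarith
    rw [h2, abs_neg]
    calc |∑ c', ((((ρ * bt c c' : ℝ) : ℂ) * Complex.I) * (starRingEnd ℂ) (t c) * t c').im|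
        ≤ ∑ c', |((((ρ * bt c c' : ℝ) : ℂ) * Complex.I) * (starRingEnd ℂ) (t c) * t c').im| :=
          Finset.abs_sum_le_sum_abs _ _
      _ ≤ ∑ c', |bt c c'| := Finset.sum_le_sum fun c' _ =>
          (Complex.abs_im_le_norm _).trans (hB c')
      _ ≤ 2 := sum_bt c
  have hnorm : ‖Q‖ ^ 2 = (a c : ℝ) ^ 2 + 1 := by
    rw [hQ, norm_mul, norm_pow, Complex.norm_conj, ht, one_pow, mul_one,
      ← Complex.normSq_eq_norm_sq, Complex.normSq_apply]
    simp
    ring
  have ha10 : (10 : ℝ) ≤ (a c : ℝ) := by exact_mod_cast ha c c.2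
  have hRe2 : 97 ≤ Q.re ^ 2 := by
    have h1 : ‖Q‖ ^ 2 = Q.re ^ 2 + Q.im ^ 2 := by
      rw [← Complex.normSq_eq_norm_sq, Complex.normSq_apply]
      ring
    have h2 : Q.im ^ 2 ≤ 4 := by
      have := abs_le.mp hIm
      nlinarith
    nlinarith
  have hRe : 9 ≤ |Q.re| := by
    by_contra h
    push Not at h
    have : Q.re ^ 2 < 81 := by
      rw [← sq_abs]
      nlinarith [abs_nonneg Q.re]
    linarith
  have hwc := hw c
  have h3 : 2 * |w c| * |Q.re| = |∑ c', (w c' - w c) * ((((ρ * bt c c' : ℝ) : ℂ) * Complex.I) *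
        (starRingEnd ℂ) (t c) * t c').re| := by
    have h4 : ∑ c', (w c' - w c) * ((((ρ * bt c c' : ℝ) : ℂ) * Complex.I) *
        (starRingEnd ℂ) (t c) * t c').re = 2 * w c * Q.re := by
      rw [← hQ] at hwc
      linarith
    rw [h4, abs_mul, abs_mul, abs_two]
  have h5 : |∑ c', (w c' - w c) * ((((ρ * bt c c' : ℝ) : ℂ) * Complex.I) *
        (starRingEnd ℂ) (t c) * t c').re| ≤ (2 * |w c|) * 2 := by
    calc |∑ c', (w c' - w c) * ((((ρ * bt c c' : ℝ) : ℂ) * Complex.I) *
        (starRingEnd ℂ) (t c) * t c').re|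
        ≤ ∑ c', |(w c' - w c) * ((((ρ * bt c c' : ℝ) : ℂ) * Complex.I) *
        (starRingEnd ℂ) (t c) * t c').re| := Finset.abs_sum_le_sum_abs _ _
      _ ≤ ∑ c', (2 * |w c|) * |bt c c'| := by
          apply Finset.sum_le_sum
          intro c' _
          rw [abs_mul]
          apply mul_le_mul _ ((Complex.abs_re_le_norm _).trans (hB c')) (abs_nonneg _)
            (by positivity)
          calc |w c' - w c| ≤ |w c'| + |w c| := abs_sub _ _
            _ ≤ |w c| + |w c| := by
              have := hc c' (Finset.mem_univ _)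
              linarith
            _ = 2 * |w c| := by ring
      _ = (2 * |w c|) * ∑ c', |bt c c'| := by rw [Finset.mul_sum]
      _ ≤ (2 * |w c|) * 2 := mul_le_mul_of_nonneg_left (sum_bt c) (by positivity)
  rw [← h3] at h5
  nlinarith

theorem psys_eq {k : ℕ} (a : ℕ → ℤ) (ρ : ℝ) :
    psys k a ρ = tsys (fun c : Fin k => ((a c : ℂ) + Complex.I).re)
      (fun c : Fin k => ((a c : ℂ) + Complex.I).im)
      (fun c c' : Fin k => (((ρ * bt c c' : ℝ) : ℂ) * Complex.I).re)
      (fun c c' : Fin k => (((ρ * bt c c' : ℝ) : ℂ) * Complex.I).im) := by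
  unfold psys
  congr 1
  · funext c
    simp
  · funext c
    simp
  · funext c c'
    simp
  · funext c c'
    simp only [Complex.mul_im, Complex.ofReal_re, Complex.ofReal_im, Complex.I_re, Complex.I_im,
      mul_one, mul_zero, add_zero, bt]

theorem eval_map' {σ : Type} (φ : ℝ →+* ℂ) (P : σ → ℝ) (p : MvPolynomial σ ℝ) :
    eval (fun i => φ (P i)) (map φ p) = φ (eval P p) := by
  induction p using MvPolynomial.induction_on with
  | C a => simp
  | add p q hp hq => rw [map_add, map_add, hp, hq, map_add, map_add]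
  | mul_X p i hp => rw [map_mul, map_mul, hp, map_mul, map_mul, map_X, eval_X, eval_X]

end PsysNZAux

open PsysNZAux in
theorem psys_nzero {k : ℕ} (a : ℕ → ℤ) (ha : ∀ c < k, 10 ≤ a c) {ρ : ℝ} (hρ : |ρ| ≤ 1)
    (P : Fin k ⊕ Fin k → ℝ) (hP : ∀ i, MvPolynomial.eval P (psys k a ρ i) = 0) :
    NZero (psys k a ρ) P ∧ NZero (psys k a (ρ : ℂ)) (fun i => (P i : ℂ)) := by
  set t : Fin k → ℂ := fun c => ⟨P (.inl c), P (.inr c)⟩ with htdef
  have hPt : P = Sum.elim (fun c => (t c).re) (fun c => (t c).im) := by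
    funext i
    rcases i with c | c <;> rfl
  have ht : ∀ c, ‖t c‖ = 1 := by
    intro c
    have h1 := hP (.inl c)
    simp only [psys, tsys, map_sub, map_add, map_pow, MvPolynomial.eval_X, map_one] at h1
    have h2 : ‖t c‖ ^ 2 = 1 := by
      rw [← Complex.normSq_eq_norm_sq, Complex.normSq_apply, htdef]
      simp only
      linarith
    have h3 : (‖t c‖ - 1) * (‖t c‖ + 1) = 0 := by ring_nf; linarith
    rcases mul_eq_zero.mp h3 with h4 | h4
    · linarith
    · have := norm_nonneg (t c)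
      linarith
  have heq : ∀ c : Fin k, (((a c : ℂ) + Complex.I) * (starRingEnd ℂ) (t c) ^ 2).im +
      ∑ c', ((((ρ * bt c c' : ℝ) : ℂ) * Complex.I) * (starRingEnd ℂ) (t c) * t c').im = 0 := by
    intro c
    have h1 := hP (.inr c)
    simp only [psys, tsys, map_sub, map_add, map_mul, map_pow, MvPolynomial.eval_X,
      MvPolynomial.eval_C, map_sum, map_zero, zero_mul, add_zero, map_one, one_mul] at h1
    have e1 : (((a c : ℂ) + Complex.I) * (starRingEnd ℂ) (t c) ^ 2).im
        = (P (.inl c) ^ 2 - P (.inr c) ^ 2) - 2 * (a c : ℝ) * (P (.inl c) * P (.inr c)) := by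
      rw [htdef]
      simp [pow_two, Complex.mul_im, Complex.mul_re]
      ring
    have e2 : ∀ c', ((((ρ * bt c c' : ℝ) : ℂ) * Complex.I) * (starRingEnd ℂ) (t c) * t c').im
        = ρ * bt c c' * (P (.inl c) * P (.inl c') + P (.inr c) * P (.inr c')) := by
      intro c'
      rw [htdef]
      simp [Complex.mul_im, Complex.mul_re]
      ring
    rw [e1, Finset.sum_congr rfl fun c' _ => e2 c']
    simp only [bt]
    convert h1 using 3
  have hreal : NZero (psys k a ρ) P := by
    rw [psys_eq, hPt]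
    apply tsys_nzero (fun c : Fin k => (a c : ℂ) + Complex.I)
      (fun c c' : Fin k => ((ρ * bt c c' : ℝ) : ℂ) * Complex.I) t ht heq
    intro w hw
    exact ns a ha hρ t ht heq w hw
  refine ⟨hreal, ?_⟩
  have hmap : ∀ i, psys k a (ρ : ℂ) i = MvPolynomial.map Complex.ofRealHom (psys k a ρ i) := by
    intro i
    unfold psys
    rw [tsys_map]
    have f1 : (fun c : Fin k => ((a c : ℤ) : ℂ))
        = fun c : Fin k => Complex.ofRealHom ((a c : ℤ) : ℝ) := by
      funext c
      simp
    have f2 : (fun _ : Fin k => (1 : ℂ)) = fun _ : Fin k => Complex.ofRealHom (1 : ℝ) := by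
      funext c
      simp
    have f3 : (fun _ _ : Fin k => (0 : ℂ)) = fun _ _ : Fin k => Complex.ofRealHom (0 : ℝ) := by
      funext c c'
      simp
    have f4 : (fun c c' : Fin k => (ρ : ℂ) * ((if c'.val = c.val + 1 then 1 else 0) -
        (if c'.val + 1 = c.val then 1 else 0))) = fun c c' : Fin k => Complex.ofRealHom
        (ρ * ((if c'.val = c.val + 1 then 1 else 0) - (if c'.val + 1 = c.val then 1 else 0))) := by
      funext c c'
      simp only [map_mul, map_sub, Complex.ofRealHom_eq_coe]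
      congr 2
      · split_ifs <;> simp
      · split_ifs <;> simp
    rw [f1, f2, f3, f4]
  constructor
  · intro i
    rw [hmap i]
    have := eval_map' Complex.ofRealHom P (psys k a ρ i)
    simp only [Complex.ofRealHom_eq_coe] at this
    rw [this, hP i]
    simp
  · intro z hz
    have key : ∀ i, ∑ j, ((MvPolynomial.eval P (MvPolynomial.pderiv j (psys k a ρ i)) : ℝ) : ℂ) * z j
        = 0 := by
      intro i
      rw [← hz i]
      apply Finset.sum_congr rfl
      intro j _
      rw [hmap i, MvPolynomial.pderiv_map]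
      have := eval_map' Complex.ofRealHom P (MvPolynomial.pderiv j (psys k a ρ i))
      simp only [Complex.ofRealHom_eq_coe] at this
      rw [this]
    have hre : (fun j => (z j).re) = (0 : Fin k ⊕ Fin k → ℝ) := by
      apply hreal.2
      intro i
      have h1 := congrArg Complex.re (key i)
      rw [Complex.re_sum] at h1
      simpa [Complex.mul_re] using h1
    have him : (fun j => (z j).im) = (0 : Fin k ⊕ Fin k → ℝ) := by
      apply hreal.2
      intro i
      have h1 := congrArg Complex.im (key i)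
      rw [Complex.im_sum] at h1
      simpa [Complex.mul_im] using h1
    funext j
    apply Complex.ext
    · exact congrFun hre j
    · exact congrFun him j

end Pool.Agent.Lib.P7ee
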