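import Pool.Agent.Lib.P7ee.LDefs
import Pool.Agent.Lib.P7ee.Layer
import Pool.Agent.Lib.P7ee.ConjZero
import Pool.Agent.Lib.P7ee.Zeros0
import Pool.Agent.Lib.P7ee.PsysNZ
import Pool.Agent.Lib.P7ee.EvenField
import Pool.Agent.Lib.P7ee.TQuad

/-!
# P7ee.Theta: a good even polynomial  (2 h)

`P = Pt (tl a l0)`, `l0 = 0`, a nonsingular zero of `psys k a 0` (`zero_tl`, `psys_nzero`). `K0 = adjoin ℚ {P i * P j}`: contained in the finite extension of `even_field` (with `F = ⊥`), so finite and `finrank ≤ 2^(2k-1)`. It contains `2 p q = Im (t c ^ 2) = 1/√(a c ^ 2 + 1)` and `g = 2 Im (conj (t c) t (c+1)) = 2 (p q' - q p')`, `g² = 2 - 2 Re (conj (t c)² t (c+1)²)`, which is the number in `layer_degree`.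
So `finrank ℚ K0 = 2^(2k-1)`. Primitive element `γ ∈ K0 = Algebra.adjoin ℚ {P i P j}`: `γ` is the value of a polynomial in the `X i X j` with rational coefficients; multiply by a common denominator: `Θ` integral, `EvenP`, `θ = evR Θ P` generates `K0`, so its minimal polynomial has degree `N = 2^(2k-1)`. Other `l`: the `N` complex roots of the minimal polynomial `μ` of `θ` are different (separable) and of the form
`Θ(P')` with `P'` a nonsingular complex zero of `psys k a 0` (`conj_zero`; `psys k a (0 : ℂ)` is the image of `psys k a (0 : ℚ)`, `tsys_map`), i.e. `Θ(Pt (tl a l'))` by `zeros_zero`, and we may take `l' 0 < 2` (`tl_exists_neg`, `tl_neg`, `Θ` even). There are only `N` such `l'`, so every `Θ(Pt (tl a l'))`, `l' 0 < 2`, is a root of `μ`, and up to sign every `l` is of this kind. A root of the irreducible `μ` has minimal polynomial `μ`.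
-/

set_option autoImplicit false



namespace Pool.Agent.Lib.P7ee

namespace ThetaAux

open MvPolynomial

theorem evenP_add {σ A : Type} [CommRing A] {f g : MvPolynomial σ A} (hf : EvenP f)
    (hg : EvenP g) : EvenP (f + g) := by
  classical
  intro s hs
  rcases Finset.mem_union.1 (MvPolynomial.support_add hs) with h | h
  · exact hf s h
  · exact hg s h

theorem evenP_C {σ A : Type} [CommRing A] (a : A) : EvenP (C a : MvPolynomial σ A) := by
  classical
  intro s hs
  rw [MvPolynomial.mem_support_iff, MvPolynomial.coeff_C] at hs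
  split_ifs at hs with h
  · rw [← h]; simp
  · exact absurd rfl hs

theorem evenP_mul {σ A : Type} [CommRing A] {f g : MvPolynomial σ A} (hf : EvenP f)
    (hg : EvenP g) : EvenP (f * g) := by
  classical
  intro s hs
  obtain ⟨a, ha, b, hb, hab⟩ := Finset.mem_add.1 (MvPolynomial.support_mul f g hs)
  rw [← hab, map_add]
  exact (hf a ha).add (hg b hb)

theorem evenP_XX {σ A : Type} [CommRing A] (i j : σ) :
    EvenP (X i * X j : MvPolynomial σ A) := by
  classical
  intro s hs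
  have h : (X i * X j : MvPolynomial σ A)
      = monomial (Finsupp.single i 1 + Finsupp.single j 1) 1 := by
    rw [X, X, monomial_mul, mul_one]
  rw [h] at hs
  have h2 := MvPolynomial.support_monomial_subset hs
  rw [Finset.mem_singleton] at h2
  rw [h2, map_add, Finsupp.degree_single, Finsupp.degree_single]
  exact ⟨1, rfl⟩

/-- naturality of the chain system at zero -/
theorem psys_map0 {k : ℕ} (a : ℕ → ℤ) {A A' : Type} [CommRing A] [CommRing A'] (φ : A →+* A')
    (i : Fin k ⊕ Fin k) : map φ (psys k a (0 : A) i) = psys k a (0 : A') i := by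
  unfold psys
  rw [tsys_map]
  have f1 : (fun c : Fin k => φ ((a c : ℤ) : A)) = fun c : Fin k => ((a c : ℤ) : A') := by
    funext c
    simp
  have f2 : (fun _ : Fin k => φ (1 : A)) = fun _ : Fin k => (1 : A') := by
    funext c
    simp
  have f3 : (fun _ _ : Fin k => φ (0 : A)) = fun _ _ : Fin k => (0 : A') := by
    funext c c'
    simp
  have f4 : (fun c c' : Fin k => φ ((0 : A) * ((if c'.val = c.val + 1 then 1 else 0) -
      (if c'.val + 1 = c.val then 1 else 0)))) = fun c c' : Fin k => (0 : A') *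
      ((if c'.val = c.val + 1 then 1 else 0) - (if c'.val + 1 = c.val then 1 else 0)) := by
    funext c c'
    simp
  rw [f1, f2, f3, f4]

/-- integral even polynomials with prescribed value up to a denominator -/
theorem clear_den {σ : Type} (P : σ → ℝ) (x : ℝ)
    (hx : x ∈ Algebra.adjoin ℚ (Set.range fun p : σ × σ => P p.1 * P p.2)) :
    ∃ (Θ : MvPolynomial σ ℤ) (d : ℤ), EvenP Θ ∧ d ≠ 0 ∧ evR Θ P = d * x := by
  refine Algebra.adjoin_induction (p := fun x _ => ∃ (Θ : MvPolynomial σ ℤ) (d : ℤ), EvenP Θ ∧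
    d ≠ 0 ∧ evR Θ P = d * x) ?_ ?_ ?_ ?_ hx
  · rintro x ⟨⟨i, j⟩, rfl⟩
    exact ⟨X i * X j, 1, evenP_XX i j, one_ne_zero, by simp [evR]⟩
  · intro r
    refine ⟨C r.num, r.den, evenP_C _, by exact_mod_cast r.den_ne_zero, ?_⟩
    rw [evR, eval₂_C, eq_intCast]
    have h := Rat.den_mul_eq_num r
    have h2 : ((r.den : ℚ) : ℝ) * (r : ℝ) = ((r.num : ℚ) : ℝ) := by exact_mod_cast h
    have h3 : (algebraMap ℚ ℝ) r = (r : ℝ) := by simp
    rw [h3]
    push_cast at h2 ⊢
    linarith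
  · rintro x y _ _ ⟨Θ1, d1, e1, n1, v1⟩ ⟨Θ2, d2, e2, n2, v2⟩
    refine ⟨C d2 * Θ1 + C d1 * Θ2, d1 * d2,
      evenP_add (evenP_mul (evenP_C _) e1) (evenP_mul (evenP_C _) e2), mul_ne_zero n1 n2, ?_⟩
    unfold evR at v1 v2 ⊢
    rw [eval₂_add, eval₂_mul, eval₂_mul, v1, v2, eval₂_C, eval₂_C]
    push_cast
    simp only [eq_intCast]
    ring
  · rintro x y _ _ ⟨Θ1, d1, e1, n1, v1⟩ ⟨Θ2, d2, e2, n2, v2⟩
    refine ⟨Θ1 * Θ2, d1 * d2, evenP_mul e1 e2, mul_ne_zero n1 n2, ?_⟩
    unfold evR at v1 v2 ⊢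
    rw [eval₂_mul, v1, v2]
    push_cast
    ring

theorem evR_neg' {σ : Type} (Θ : MvPolynomial σ ℤ) (hΘ : EvenP Θ) (P : σ → ℝ) :
    evR Θ (-P) = evR Θ P := by
  unfold evR
  rw [MvPolynomial.eval₂_eq, MvPolynomial.eval₂_eq]
  refine Finset.sum_congr rfl fun s hs => ?_
  congr 1
  have h1 : ∀ i ∈ s.support, (-P) i ^ s i = (-1) ^ s i * P i ^ s i := by
    intro i _
    rw [Pi.neg_apply, neg_pow]
  rw [Finset.prod_congr rfl h1, Finset.prod_mul_distrib, Finset.prod_pow_eq_pow_sum]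
  have h2 : ∑ i ∈ s.support, s i = s.degree := rfl
  rw [h2, (hΘ s hs).neg_one_pow, one_mul]

theorem base_sq' (a : ℕ → ℤ) (c : ℕ) :
    base a c ^ 2 * (‖(a c : ℂ) + Complex.I‖ : ℂ) = (a c : ℂ) + Complex.I := by
  have h := Complex.norm_mul_exp_arg_mul_I ((a c : ℂ) + Complex.I)
  have h2 : base a c ^ 2 = Complex.exp ((Complex.arg ((a c : ℂ) + Complex.I) : ℂ) * Complex.I) := by
    unfold base
    rw [← Complex.exp_nat_mul]
    congr 1
    push_cast
    ring
  rw [h2, mul_comm]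
  exact h

theorem base_norm (a : ℕ → ℤ) (c : ℕ) :
    (base a c).re ^ 2 + (base a c).im ^ 2 = 1 := by
  have h : base a c * (starRingEnd ℂ) (base a c) = 1 := by
    unfold base
    rw [Complex.mul_conj, Complex.normSq_eq_norm_sq, Complex.norm_exp_ofReal_mul_I]
    norm_num
  rw [Complex.mul_conj] at h
  have h' : Complex.normSq (base a c) = 1 := by exact_mod_cast h
  rw [Complex.normSq_apply] at h'
  linarith [h', sq (base a c).re, sq (base a c).im]

theorem norm_ai (a : ℕ → ℤ) (c : ℕ) : ‖(a c : ℂ) + Complex.I‖ = √((a c : ℝ) ^ 2 + 1) := by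
  rw [Complex.norm_def, Complex.normSq_apply]
  congr 1
  simp
  ring

/-- `Im` and `Re` of the square of the base -/
theorem base_coords (a : ℕ → ℤ) (c : ℕ) :
    2 * ((base a c).re * (base a c).im) * √((a c : ℝ) ^ 2 + 1) = 1 ∧
    ((base a c).re ^ 2 - (base a c).im ^ 2) * √((a c : ℝ) ^ 2 + 1) = a c := by
  have h := base_sq' a c
  rw [norm_ai] at h
  constructor
  · have h1 := congrArg Complex.im h
    simp [sq] at h1
    rw [sq]
    linarith
  · have h1 := congrArg Complex.re h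
    simp [sq] at h1
    rw [sq, sq, sq]
    linarith

theorem count_le (k : ℕ) (hk : 0 < k) :
    (Finset.univ.filter fun l : Fin k → Fin 4 => ((l ⟨0, hk⟩ : Fin 4) : ℕ) < 2).card
      = 2 ^ (2 * k - 1) := by
  classical
  obtain ⟨n, rfl⟩ : ∃ n, k = n + 1 := ⟨k - 1, by omega⟩
  have h1 : (Finset.univ.filter fun l : Fin (n + 1) → Fin 4 => ((l ⟨0, hk⟩ : Fin 4) : ℕ) < 2)
      = Fintype.piFinset (fun c : Fin (n + 1) => if c = 0 then ({0, 1} : Finset (Fin 4))
          else Finset.univ) := by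
    ext l
    simp only [Finset.mem_filter, Finset.mem_univ, true_and, Fintype.mem_piFinset]
    constructor
    · intro h c
      by_cases hc : c = 0
      · subst hc
        rw [if_pos rfl]
        have h' : ((l 0 : Fin 4) : ℕ) < 2 := h
        have : l 0 = 0 ∨ l 0 = 1 := by
          generalize l 0 = x at h' ⊢
          fin_cases x <;> simp at h' ⊢
        rcases this with h2 | h2 <;> rw [h2] <;> simp
      · rw [if_neg hc]
        exact Finset.mem_univ _
    · intro h
      have h0 := h 0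
      rw [if_pos rfl] at h0
      show ((l 0 : Fin 4) : ℕ) < 2
      simp only [Finset.mem_insert, Finset.mem_singleton] at h0
      rcases h0 with h2 | h2 <;> rw [h2] <;> simp
  rw [h1, Fintype.card_piFinset, Fin.prod_univ_succ]
  simp only [if_true]
  have h2 : ∀ i : Fin n, (if (Fin.succ i) = (0 : Fin (n + 1)) then ({0, 1} : Finset (Fin 4))
      else Finset.univ).card = 4 := by
    intro i
    rw [if_neg (Fin.succ_ne_zero i)]
    simp
  rw [Finset.prod_congr rfl fun i _ => h2 i]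
  simp only [Finset.prod_const, Finset.card_univ, Fintype.card_fin]
  have h3 : ({0, 1} : Finset (Fin 4)).card = 2 := rfl
  rw [h3]
  have h4 : (4 : ℕ) = 2 ^ 2 := rfl
  rw [h4, ← pow_mul, ← pow_succ']
  rfl

/-- the field generated by the products of two coordinates has degree `2 ^ (2k-1)` -/
theorem field_degree {k : ℕ} (hk : 0 < k) (a : ℕ → ℤ) (ha : ∀ c < k, 10 ≤ a c)
    (hdec : ∀ c, c + 1 < k → a (c + 1) < a c)
    (hN : ∀ S : Finset ℕ, S.Nonempty → S ⊆ Finset.range k →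
      ¬ IsSquare (∏ c ∈ S, (a c ^ 2 + 1))) (P : Fin k ⊕ Fin k → ℝ)
    (hP : P = Pt (tl a (fun _ => 0))) :
    ∃ γ : ℝ, γ ∈ Algebra.adjoin ℚ (Set.range fun p : (Fin k ⊕ Fin k) × (Fin k ⊕ Fin k) =>
      P p.1 * P p.2) ∧ IsIntegral ℚ γ ∧ (minpoly ℚ γ).natDegree = 2 ^ (2 * k - 1) := by
  classical
  haveI : Nonempty (Fin k ⊕ Fin k) := ⟨Sum.inl ⟨0, hk⟩⟩
  set S : Set ℝ := Set.range fun p : (Fin k ⊕ Fin k) × (Fin k ⊕ Fin k) => P p.1 * P p.2 with hS
  have hz := psys_nzero a ha (ρ := 0) (by simp) P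
    (by rw [hP]; exact fun i => zero_tl a ha _ i)
  have hz1 : NZero (fun i => map (algebraMap (⊥ : IntermediateField ℚ ℝ) ℝ)
      (psys k a (0 : (⊥ : IntermediateField ℚ ℝ)) i)) P := by
    have : (fun i => map (algebraMap (⊥ : IntermediateField ℚ ℝ) ℝ)
      (psys k a (0 : (⊥ : IntermediateField ℚ ℝ)) i)) = psys k a (0 : ℝ) := by
      funext i
      rw [psys_map0]
    rw [this]
    exact hz.1
  obtain ⟨K, -, hKf, hKd, hKm⟩ := even_field (⊥ : IntermediateField ℚ ℝ)
    (psys k a (0 : (⊥ : IntermediateField ℚ ℝ))) (fun i => tsys_quad _ _ _ _ i) P hz1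
  have hcard : Fintype.card (Fin k ⊕ Fin k) = 2 * k := by
    simp [two_mul]
  rw [hcard, IntermediateField.finrank_bot, mul_one] at hKd
  have halg : ∀ x ∈ S, IsAlgebraic ℚ x := by
    rintro x ⟨⟨i, j⟩, rfl⟩
    have h1 : IsIntegral ℚ (⟨P i * P j, hKm i j⟩ : K) := IsIntegral.of_finite ℚ _
    have h2 := h1.map (IsScalarTower.toAlgHom ℚ K ℝ)
    exact h2.isAlgebraic
  haveI hfin : Finite S := by
    rw [hS]; exact Set.finite_range _ |>.to_subtype
  set K0 : IntermediateField ℚ ℝ := IntermediateField.adjoin ℚ S with hK0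
  haveI hfd : FiniteDimensional ℚ K0 :=
    IntermediateField.finiteDimensional_adjoin fun x hx => (halg x hx).isIntegral
  have hle : K0 ≤ K := by
    rw [hK0, IntermediateField.adjoin_le_iff]
    rintro x ⟨⟨i, j⟩, rfl⟩
    exact hKm i j
  have hub : Module.finrank ℚ K0 ≤ 2 ^ (2 * k - 1) := by
    refine le_trans ?_ hKd
    have : K0.toSubalgebra.toSubmodule ≤ K.toSubalgebra.toSubmodule := hle
    exact Submodule.finrank_mono this
  have hmemS : ∀ i j, P i * P j ∈ K0 := fun i j => IntermediateField.subset_adjoin ℚ S ⟨(i, j), rfl⟩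
  have hPl : ∀ c : Fin k, P (Sum.inl c) = (base a c).re ∧ P (Sum.inr c) = (base a c).im := by
    intro c
    rw [hP]
    simp [Pt, tl]
  have h2m : (2 : ℝ) ∈ K0 := by
    have := K0.algebraMap_mem 2
    simpa using this
  have hlb : 2 ^ (2 * k - 1) ≤ Module.finrank ℚ K0 := by
    apply layer_degree hk a hdec hN K0
    · intro c hc
      obtain ⟨e1, -⟩ := base_coords a c
      have h1 := hPl ⟨c, hc⟩
      have h2 : (base a c).re * (base a c).im ∈ K0 := by
        rw [← h1.1, ← h1.2]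
        exact hmemS _ _
      have h3 : √((a c : ℝ) ^ 2 + 1) = (2 * ((base a c).re * (base a c).im))⁻¹ :=
        eq_inv_of_mul_eq_one_right e1
      rw [h3]
      exact K0.inv_mem (K0.mul_mem h2m h2)
    · intro c hc
      obtain ⟨e1, e2⟩ := base_coords a c
      obtain ⟨f1, f2⟩ := base_coords a (c + 1)
      have n1 := base_norm a c
      have n2 := base_norm a (c + 1)
      have h1 := hPl ⟨c, by omega⟩
      have h2 := hPl ⟨c + 1, hc⟩
      have m1 : (base a c).re * (base a (c + 1)).im ∈ K0 := by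
        have := hmemS (Sum.inl ⟨c, by omega⟩) (Sum.inr ⟨c + 1, hc⟩)
        rwa [h1.1, h2.2] at this
      have m2 : (base a c).im * (base a (c + 1)).re ∈ K0 := by
        have := hmemS (Sum.inr ⟨c, by omega⟩) (Sum.inl ⟨c + 1, hc⟩)
        rwa [h1.2, h2.1] at this
      refine ⟨2 * ((base a c).re * (base a (c + 1)).im - (base a c).im * (base a (c + 1)).re),
        K0.mul_mem h2m (K0.sub_mem m1 m2), ?_⟩
      set p := (base a c).re
      set q := (base a c).im
      set p' := (base a (c + 1)).re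
      set q' := (base a (c + 1)).im
      set s := √((a c : ℝ) ^ 2 + 1)
      set s' := √((a (c + 1) : ℝ) ^ 2 + 1)
      have hs : s ≠ 0 := by
        intro h; rw [h, mul_zero] at e1; exact zero_ne_one e1
      have hs' : s' ≠ 0 := by
        intro h; rw [h, mul_zero] at f1; exact zero_ne_one f1
      have hss : s * s' ≠ 0 := mul_ne_zero hs hs'
      have e : ((a c : ℝ) * a (c + 1) + 1) / (s * s') =
          (p ^ 2 - q ^ 2) * (p' ^ 2 - q' ^ 2) + 4 * p * q * p' * q' := by
        rw [div_eq_iff hss, ← e2, ← f2]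
        linear_combination (-(2 * (p' * q') * s')) * e1 - f1
      rw [mul_div_assoc, e]
      linear_combination 2 * (p' ^ 2 + q' ^ 2) * n1 + 2 * n2
  have heq : Module.finrank ℚ K0 = 2 ^ (2 * k - 1) := le_antisymm hub hlb
  obtain ⟨γ, hγ⟩ := Field.exists_primitive_element ℚ K0
  have hdeg : (minpoly ℚ γ).natDegree = Module.finrank ℚ K0 :=
    (Field.primitive_element_iff_minpoly_natDegree_eq ℚ γ).1 hγ
  refine ⟨γ, ?_, ?_, ?_⟩
  · rw [← IntermediateField.adjoin_toSubalgebra_of_isAlgebraic halg]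
    exact γ.2
  · exact (IsIntegral.of_finite ℚ γ).map (IsScalarTower.toAlgHom ℚ K0 ℝ)
  · rw [← heq, ← hdeg]
    congr 1
    exact minpoly.algebraMap_eq (algebraMap K0 ℝ).injective γ

/-- an integral even polynomial for the first zero -/
theorem theta_first {k : ℕ} (hk : 0 < k) (a : ℕ → ℤ) (ha : ∀ c < k, 10 ≤ a c)
    (hdec : ∀ c, c + 1 < k → a (c + 1) < a c)
    (hN : ∀ S : Finset ℕ, S.Nonempty → S ⊆ Finset.range k →
      ¬ IsSquare (∏ c ∈ S, (a c ^ 2 + 1))) :
    ∃ Θ : MvPolynomial (Fin k ⊕ Fin k) ℤ, EvenP Θ ∧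
      IsIntegral ℚ (evR Θ (Pt (tl a fun _ => 0))) ∧
      (minpoly ℚ (evR Θ (Pt (tl a fun _ => 0)))).natDegree = 2 ^ (2 * k - 1) := by
  obtain ⟨γ, h1, h2, h3⟩ := field_degree hk a ha hdec hN _ rfl
  obtain ⟨Θ, d, e1, e2, e3⟩ := clear_den _ γ h1
  refine ⟨Θ, e1, ?_, ?_⟩
  · rw [e3]
    have : IsIntegral ℚ ((d : ℚ) • γ) := h2.smul _
    simpa [Algebra.smul_def] using this
  · rw [e3, ← h3]
    have hd : (d : ℝ) ≠ 0 := by exact_mod_cast e2
    have hi : IsIntegral ℚ ((d : ℝ) * γ) := by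
      have : IsIntegral ℚ ((d : ℚ) • γ) := h2.smul _
      simpa [Algebra.smul_def] using this
    rw [← IntermediateField.adjoin.finrank hi, ← IntermediateField.adjoin.finrank h2]
    have : IntermediateField.adjoin ℚ {(d : ℝ) * γ} = IntermediateField.adjoin ℚ {γ} := by
      apply le_antisymm
      · rw [IntermediateField.adjoin_simple_le_iff]
        exact mul_mem (by simpa using (IntermediateField.adjoin ℚ {γ}).intCast_mem d)
          (IntermediateField.mem_adjoin_simple_self ℚ γ)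
      · rw [IntermediateField.adjoin_simple_le_iff]
        have h5 := IntermediateField.mem_adjoin_simple_self ℚ ((d : ℝ) * γ)
        have h6 : (d : ℝ)⁻¹ ∈ IntermediateField.adjoin ℚ {(d : ℝ) * γ} :=
          inv_mem (by simpa using (IntermediateField.adjoin ℚ {(d : ℝ) * γ}).intCast_mem d)
        have h7 := mul_mem h6 h5
        rwa [inv_mul_cancel_left₀ hd] at h7
    rw [this]

end ThetaAux

open ThetaAux

theorem theta_exists {k : ℕ} (hk : 0 < k) (a : ℕ → ℤ) (ha : ∀ c < k, 10 ≤ a c)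
    (hdec : ∀ c, c + 1 < k → a (c + 1) < a c)
    (hN : ∀ S : Finset ℕ, S.Nonempty → S ⊆ Finset.range k →
      ¬ IsSquare (∏ c ∈ S, (a c ^ 2 + 1))) :
    ∃ Θ : MvPolynomial (Fin k ⊕ Fin k) ℤ, EvenP Θ ∧ ∀ l : Fin k → Fin 4,
      (minpoly ℚ (evR Θ (Pt (tl a l)))).natDegree = 2 ^ (2 * k - 1) := by
  classical
  haveI : Nonempty (Fin k ⊕ Fin k) := ⟨Sum.inl ⟨0, hk⟩⟩
  obtain ⟨Θ, hΘ, hint, hdeg⟩ := theta_first hk a ha hdec hN
  refine ⟨Θ, hΘ, ?_⟩
  set P := Pt (tl a (fun _ : Fin k => (0 : Fin 4))) with hPdef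
  set θ := evR Θ P with hθ
  set μ := minpoly ℚ θ with hμ
  have hirr : Irreducible μ := minpoly.irreducible hint
  have hmonic : μ.Monic := minpoly.monic hint
  have hsep : μ.Separable := hirr.separable
  have hsplit : (μ.map (algebraMap ℚ ℂ)).Splits := IsAlgClosed.splits _
  have hrc : (μ.rootSet ℂ).ncard = 2 ^ (2 * k - 1) := by
    rw [← Nat.card_coe_set_eq, Nat.card_eq_fintype_card,
      Polynomial.card_rootSet_eq_natDegree hsep hsplit]
    exact hdeg
  have hz := psys_nzero a ha (ρ := 0) (by simp) P (fun i => zero_tl a ha _ i)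
  have hz2 : NZero (fun i => MvPolynomial.map (algebraMap ℚ ℂ) (psys k a (0 : ℚ) i))
      (fun i => (P i : ℂ)) := by
    have : (fun i => MvPolynomial.map (algebraMap ℚ ℂ) (psys k a (0 : ℚ) i))
        = psys k a (0 : ℂ) := by
      funext i
      rw [psys_map0]
    rw [this]
    have := hz.2
    rwa [Complex.ofReal_zero] at this
  set Θq : MvPolynomial (Fin k ⊕ Fin k) ℚ := MvPolynomial.map (Int.castRingHom ℚ) Θ with hΘq
  have hev : ∀ Q : Fin k ⊕ Fin k → ℝ,
      MvPolynomial.eval₂ (algebraMap ℚ ℂ) (fun i => (Q i : ℂ)) Θq = (evR Θ Q : ℂ) := by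
    intro Q
    rw [hΘq, MvPolynomial.eval₂_map]
    unfold evR
    have h1 := MvPolynomial.eval₂_comp_left Complex.ofRealHom (Int.castRingHom ℝ) Q Θ
    simp only [Complex.ofRealHom_eq_coe] at h1
    rw [h1]
    congr 1
  have hmin : minpoly ℚ (θ : ℂ) = μ := by
    have := minpoly.algebraMap_eq (A := ℚ) (B := ℝ) (B' := ℂ) (algebraMap ℝ ℂ).injective θ
    exact this
  -- every complex root is a value
  have hroot : ∀ ζ ∈ μ.rootSet ℂ, ∃ l : Fin k → Fin 4, ((l ⟨0, hk⟩ : Fin 4) : ℕ) < 2 ∧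
      ζ = (evR Θ (Pt (tl a l)) : ℂ) := by
    intro ζ hζ
    have h1 : Polynomial.aeval ζ μ = 0 := by
      rw [Polynomial.mem_rootSet] at hζ
      exact hζ.2
    obtain ⟨P', hP', hζ'⟩ := conj_zero (psys k a (0 : ℚ)) (fun i => tsys_quad _ _ _ _ i) Θq
      (fun i => (P i : ℂ)) hz2 ζ (by rw [hev P, ← hθ, hmin]; exact h1)
    obtain ⟨l, hl⟩ := zeros_zero a ha P' (by
      intro i
      have := hP'.1 i
      simp only at this
      rwa [psys_map0] at this)
    have hPl : P' = fun i => ((Pt (tl a l) i : ℝ) : ℂ) := funext hl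
    rw [hPl, hev] at hζ'
    by_cases hc : ((l ⟨0, hk⟩ : Fin 4) : ℕ) < 2
    · exact ⟨l, hc, hζ'⟩
    · obtain ⟨l', hl'⟩ := tl_exists_neg a l
      have h2 := tl_neg a hl' ⟨0, hk⟩
      refine ⟨l', h2.2 hc, ?_⟩
      rw [hl', evR_neg' Θ hΘ]
      exact hζ'
  set I : Finset (Fin k → Fin 4) :=
    Finset.univ.filter fun l : Fin k → Fin 4 => ((l ⟨0, hk⟩ : Fin 4) : ℕ) < 2 with hI
  set R : Finset ℂ := I.image fun l => (evR Θ (Pt (tl a l)) : ℂ) with hR
  have hsub : μ.rootSet ℂ ⊆ (R : Set ℂ) := by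
    intro ζ hζ
    obtain ⟨l, h1, h2⟩ := hroot ζ hζ
    rw [hR, Finset.mem_coe, Finset.mem_image]
    exact ⟨l, by rw [hI, Finset.mem_filter]; exact ⟨Finset.mem_univ _, h1⟩, h2.symm⟩
  have hRc : (R : Set ℂ).ncard ≤ (μ.rootSet ℂ).ncard := by
    rw [hrc, Set.ncard_coe_finset, ← count_le k hk]
    exact Finset.card_image_le
  have heq : μ.rootSet ℂ = (R : Set ℂ) := Set.eq_of_subset_of_ncard_le hsub hRc
  have main : ∀ l : Fin k → Fin 4, ((l ⟨0, hk⟩ : Fin 4) : ℕ) < 2 →
      (minpoly ℚ (evR Θ (Pt (tl a l)))).natDegree = 2 ^ (2 * k - 1) := by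
    intro l hl
    have h1 : (evR Θ (Pt (tl a l)) : ℂ) ∈ μ.rootSet ℂ := by
      rw [heq, hR, Finset.mem_coe, Finset.mem_image]
      exact ⟨l, by rw [hI, Finset.mem_filter]; exact ⟨Finset.mem_univ _, hl⟩, rfl⟩
    have h2 : Polynomial.aeval ((evR Θ (Pt (tl a l)) : ℝ) : ℂ) μ = 0 := by
      rw [Polynomial.mem_rootSet] at h1
      exact h1.2
    have h3 : μ = minpoly ℚ ((evR Θ (Pt (tl a l)) : ℝ) : ℂ) :=
      minpoly.eq_of_irreducible_of_monic hirr h2 hmonic
    have h4 : minpoly ℚ ((evR Θ (Pt (tl a l)) : ℝ) : ℂ) = minpoly ℚ (evR Θ (Pt (tl a l))) :=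
      minpoly.algebraMap_eq (A := ℚ) (B := ℝ) (B' := ℂ) (algebraMap ℝ ℂ).injective _
    rw [← h4, ← h3]
    exact hdeg
  intro l
  by_cases hc : ((l ⟨0, hk⟩ : Fin 4) : ℕ) < 2
  · exact main l hc
  · obtain ⟨l', hl'⟩ := tl_exists_neg a l
    have h2 := tl_neg a hl' ⟨0, hk⟩
    have h3 := main l' (h2.2 hc)
    rwa [hl', evR_neg' Θ hΘ] at h3

end Pool.Agent.Lib.P7ee
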