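import Pool.Agent.Lib.P7ee.LDefs

/-!
# P7ee.ThetaMem: values of even polynomials  (0.8 h)

`theta_mem`: `K` contains `P i * P j` for all `i`, `j`: `t c * t c'` and `conj (t c) * t c' = t c t c' / t c ^ 2` are in `K + i K`; `p p' = (Re (t t') + Re (conj t t'))/2`, `q q' = (Re (conj t t') - Re (t t'))/2`, `p q' = (Im (t t') + Im (conj t t'))/2`. A monomial of even degree is a product of products of two variables (induction on the degree, or: `P s` for the exponent `s` with `Even s.degree`). `evR_neg`: even degree.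
`deg_ge`: if `Module.rank` is infinite, `deg = ⊤`; otherwise `coordField S` is finite over `ℚ` and `ℚ⟮θ⟯ ≤ coordField S` has degree `N`.
-/

set_option autoImplicit false



namespace Pool.Agent.Lib.P7ee

namespace ThetaMemAux

theorem exists_split {σ : Type} (s : σ →₀ ℕ) (h : 0 < s.degree) :
    ∃ (i : σ) (s' : σ →₀ ℕ), s = s' + Finsupp.single i 1 := by
  classical
  have hne : s ≠ 0 := by
    rintro rfl
    simp at h
  obtain ⟨i, hi⟩ := Finsupp.ne_iff.mp hne
  refine ⟨i, s - Finsupp.single i 1, ?_⟩
  ext j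
  simp only [Finsupp.coe_add, Finsupp.coe_tsub, Pi.add_apply, Pi.sub_apply]
  by_cases hj : i = j
  · subst hj
    simp only [Finsupp.single_eq_same]
    have : s i ≠ 0 := by simpa using hi
    omega
  · simp [Finsupp.single_apply, hj]

theorem prod_mem {σ : Type} (K : IntermediateField ℚ ℝ) (P : σ → ℝ)
    (hP : ∀ i j, P i * P j ∈ K) (n : ℕ) :
    ∀ s : σ →₀ ℕ, s.degree = 2 * n → (s.prod fun i e => P i ^ e) ∈ K := by
  classical
  induction n with
  | zero =>
    intro s hs
    have h0 : s = 0 := by
      rw [← Finsupp.degree_eq_zero_iff]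
      omega
    rw [h0, Finsupp.prod_zero_index]
    exact K.one_mem
  | succ n ih =>
    intro s hs
    obtain ⟨i, s', rfl⟩ := exists_split s (by omega)
    rw [map_add, Finsupp.degree_single] at hs
    obtain ⟨j, s'', rfl⟩ := exists_split s' (by omega)
    rw [map_add, Finsupp.degree_single] at hs
    have h1 := ih s'' (by omega)
    rw [Finsupp.prod_add_index' (by intro; simp) (by intro a b c; exact pow_add _ _ _),
      Finsupp.prod_add_index' (by intro; simp) (by intro a b c; exact pow_add _ _ _),
      Finsupp.prod_single_index (by simp), Finsupp.prod_single_index (by simp), pow_one, pow_one,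
      mul_assoc]
    exact K.mul_mem h1 (hP j i)

end ThetaMemAux

open ThetaMemAux

theorem theta_mem {k : ℕ} (t : Fin k → ℂ) (ht : ∀ c, ‖t c‖ = 1) (K : IntermediateField ℚ ℝ)
    (hK : ∀ c c', InK K (t c * t c')) (Θ : MvPolynomial (Fin k ⊕ Fin k) ℤ) (hΘ : EvenP Θ) :
    evR Θ (Pt t) ∈ K := by
  classical
  have hinv : ∀ c, (starRingEnd ℂ) (t c) * t c = 1 := by
    intro c
    rw [← Complex.normSq_eq_conj_mul_self, Complex.normSq_eq_norm_sq, ht c]
    norm_num
  have hconj : ∀ c c', InK K ((starRingEnd ℂ) (t c) * t c') := by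
    intro c c'
    have h1 : (starRingEnd ℂ) (t c) * t c' = (t c * t c') / (t c * t c) := by
      have h0 : t c ≠ 0 := by
        intro h
        have := ht c
        rw [h, norm_zero] at this
        exact zero_ne_one this
      rw [eq_div_iff (mul_ne_zero h0 h0)]
      linear_combination (t c * t c') * hinv c
    rw [h1]
    exact (hK c c').div (hK c c)
  have h2 : (2 : ℝ) ∈ K := by
    have := InK.rat (K := K) 2
    simpa using this
  have hP : ∀ i j, Pt t i * Pt t j ∈ K := by
    have key : ∀ c c', (t c).re * (t c').re ∈ K ∧ (t c).im * (t c').im ∈ K ∧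
        (t c).re * (t c').im ∈ K := by
      intro c c'
      obtain ⟨a1, a2⟩ := hK c c'
      obtain ⟨b1, b2⟩ := hconj c c'
      simp only [Complex.mul_re, Complex.mul_im, Complex.conj_re, Complex.conj_im] at a1 a2 b1 b2
      refine ⟨?_, ?_, ?_⟩
      · have := K.div_mem (K.add_mem a1 b1) h2
        convert this using 1
        ring
      · have := K.div_mem (K.sub_mem b1 a1) h2
        convert this using 1
        ring
      · have := K.div_mem (K.add_mem a2 b2) h2
        convert this using 1
        ring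
    intro i j
    rcases i with c | c <;> rcases j with c' | c'
    · exact (key c c').1
    · exact (key c c').2.2
    · have := (key c' c).2.2
      simp only [Pt, Sum.elim_inl, Sum.elim_inr]
      rwa [mul_comm] at this
    · exact (key c c').2.1
  unfold evR
  rw [MvPolynomial.eval₂_eq]
  refine K.sum_mem fun s hs => ?_
  apply K.mul_mem
  · simpa using K.intCast_mem (MvPolynomial.coeff s Θ)
  · obtain ⟨n, hn⟩ := hΘ s hs
    have := prod_mem K (Pt t) hP n s (by omega)
    simpa [Finsupp.prod] using this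

theorem evR_neg {σ : Type} (Θ : MvPolynomial σ ℤ) (hΘ : EvenP Θ) (P : σ → ℝ) :
    evR Θ (-P) = evR Θ P := by
  unfold evR
  rw [MvPolynomial.eval₂_eq, MvPolynomial.eval₂_eq]
  refine Finset.sum_congr rfl fun s hs => ?_
  congr 1
  have h1 : ∀ i ∈ s.support, (-P) i ^ s i = (-1) ^ s i * P i ^ s i := by
    intro i _
    rw [Pi.neg_apply, neg_pow]
  rw [Finset.prod_congr rfl h1, Finset.prod_mul_distrib, Finset.prod_pow_eq_pow_sum]
  have h2 : ∑ i ∈ s.support, s i = s.degree := rfl
  rw [h2, (hΘ s hs).neg_one_pow, one_mul]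

theorem evR_contDiff {σ : Type} [Finite σ] (Θ : MvPolynomial σ ℤ) (X : ℝ → σ → ℝ) (n : ℕ)
    (hX : ∀ i, ContDiffAt ℝ n (fun ρ => X ρ i) 0) : ContDiffAt ℝ n (fun ρ => evR Θ (X ρ)) 0 := by
  unfold evR
  simp only [MvPolynomial.eval₂_eq]
  apply ContDiffAt.sum
  intro s _
  apply ContDiffAt.mul contDiffAt_const
  apply contDiffAt_prod
  intro i _
  exact (hX i).pow _

theorem deg_ge {S : Set ℂ} {θ : ℝ} (hθ : θ ∈ coordField S) {N : ℕ}
    (hN : (minpoly ℚ θ).natDegree = N) (h0 : 0 < N) : (N : ℕ∞) ≤ deg S := by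
  unfold deg
  by_cases hfin : FiniteDimensional ℚ (coordField S)
  · have h1 : Module.rank ℚ (coordField S) = (Module.finrank ℚ (coordField S) : Cardinal) :=
      (Module.finrank_eq_rank ℚ (coordField S)).symm
    rw [h1, Cardinal.toENat_nat]
    have h2 : minpoly ℚ (⟨θ, hθ⟩ : coordField S) = minpoly ℚ θ :=
      (minpoly.algebraMap_eq (algebraMap (coordField S) ℝ).injective (⟨θ, hθ⟩ : coordField S)).symm
    have h3 := minpoly.natDegree_le (A := ℚ) (⟨θ, hθ⟩ : coordField S)
    rw [h2, hN] at h3
    exact_mod_cast h3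
  · have h1 : Cardinal.aleph0 ≤ Module.rank ℚ (coordField S) := by
      by_contra h
      push Not at h
      exact hfin (Module.rank_lt_aleph0_iff.mp h)
    rw [Cardinal.toENat_eq_top.mpr h1]
    exact le_top

end Pool.Agent.Lib.P7ee
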