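import Pool.Agent.Lib.P7ee.LDefs

/-!
# P7ee.ToSystem: from the chain equations to the torque system  (1.5 h)

`ω c = om x c` (unit), `ν j = x j - m z_j` for `0 < j < k`: `ν j ^ 2 = - ω (j-1) * ω j` (`(α - β)²/‖α - β‖² = - α β` for different unit numbers). Choose `t 0` with `t 0 ^ 2 = ω 0`, `t j = ν j / (i t (j-1))`: then `‖t j‖ = 1`, `t j ^ 2 = - ν j²/ω (j-1) = ω j`, `ν j = i t (j-1) t j`. Equation `inl c`: norm one. Equation `inr c`: its value is
`Im (conj (t c)^2 (a c + i)) + ρ Re (conj (t c) t (c+1)) [c+1<k] - ρ Re (conj (t c) t (c-1)) [0<c]`, `ρ = 1/m`, which is `ρ Im (conj (ω c) (m (a c + i) + ν (c+1) - ν c))` with `ν 0 := 0`, `ν k := 0` (`conj (t c)^2 * i t c t (c+1) = i conj (t c) t (c+1)` has imaginary part `Re (conj (t c) t (c+1))`);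
`x (c+1) - x c = m (a c + i) + (x (c+1) - m z_(c+1)) - (x c - m z_c)`, its product with `conj (ω c)` is real, and the end points contribute real multiples of `ω c`. Fields: `K = coordField {x j}` contains the coordinates of all `x j`, `m z_j` is rational, so `InK K (t 0 ^ 2)` (`x 0 - m z_0 = ω 0`), `InK K (t (j-1) * t j)` (`= -i ν j`), hence `InK K (t j ^ 2)` by
induction (`t j ^ 2 = (t (j-1) t j)²/t (j-1)²`) and `InK K (t c * t c')` by induction on `c' - c` (`t c t (c'+1) = (t c t c') (t c' t (c'+1)) / t c' ^ 2`). For `k = 1` the only statement is `InK K (t 0 ^ 2)`.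
-/

set_option autoImplicit false



namespace Pool.Agent.Lib.P7ee

namespace ToSystemAux

theorem mul_conj_one {α : ℂ} (hα : ‖α‖ = 1) : α * (starRingEnd ℂ) α = 1 := by
  rw [Complex.mul_conj, Complex.normSq_eq_norm_sq, hα]; simp

theorem sq_dir {α β : ℂ} (hα : ‖α‖ = 1) (hβ : ‖β‖ = 1) (hne : α ≠ β) :
    ((α - β) / (‖α - β‖ : ℂ)) ^ 2 = -(β * α) := by
  have h0 : α - β ≠ 0 := sub_ne_zero.mpr hne
  have h1 : ((‖α - β‖ : ℝ) : ℂ) ^ 2 = (α - β) * (starRingEnd ℂ) (α - β) := by
    rw [Complex.mul_conj, Complex.normSq_eq_norm_sq]; push_cast; rfl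
  have h2 : ((‖α - β‖ : ℝ) : ℂ) ≠ 0 := by
    exact_mod_cast (norm_pos_iff.mpr h0).ne'
  have hα1 := mul_conj_one hα
  have hβ1 := mul_conj_one hβ
  rw [div_pow, div_eq_iff (pow_ne_zero 2 h2), h1, map_sub]
  linear_combination ((α - β) * β) * hα1 - ((α - β) * α) * hβ1

/-- square roots of the directions -/
noncomputable def tt (s0 : ℂ) (N : ℕ → ℂ) : ℕ → ℂ
  | 0 => s0
  | j + 1 => N (j + 1) / (Complex.I * tt s0 N j)

end ToSystemAux

theorem to_system {k : ℕ} (hk : 0 < k) (a : ℕ → ℤ) {m : ℕ} (hm : 0 < m) {x : ℕ → ℂ}
    (h : Chain k a m x) :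
    ∃ t : Fin k → ℂ, (∀ c, ‖t c‖ = 1) ∧
      (∀ i, MvPolynomial.eval (Pt t) (psys k a (1 / (m : ℝ)) i) = 0) ∧
      ∀ c c', InK (coordField {z | ∃ j ≤ k, z = x j}) (t c * t c') := by
  classical
  obtain ⟨hne, hx0, hxk, hmid⟩ := h
  have hmR : (0 : ℝ) < m := by exact_mod_cast hm
  set N : ℕ → ℂ := fun j => x j - m * zpt a j with hN
  have hom : ∀ c < k, ‖om x c‖ = 1 := by
    intro c hc
    have h0 : x (c + 1) - x c ≠ 0 := sub_ne_zero.mpr (hne c hc)
    have h1 : (0 : ℝ) < ‖x (c + 1) - x c‖ := norm_pos_iff.mpr h0
    rw [om, norm_div, Complex.norm_real, norm_norm, div_self h1.ne']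
  obtain ⟨s0, hs0⟩ := IsAlgClosed.exists_pow_nat_eq (om x 0) (n := 2) (by norm_num)
  set T : ℕ → ℂ := ToSystemAux.tt s0 N with hT
  have hT0 : T 0 = s0 := rfl
  have hTs : ∀ j, T (j + 1) = N (j + 1) / (Complex.I * T j) := fun j => rfl
  have hNmid : ∀ j, 0 < j → j < k →
      N j = (om x j - om x (j - 1)) / (‖om x j - om x (j - 1)‖ : ℂ) := by
    intro j hj hjk
    simp only [hN]
    rw [(hmid j hj hjk).2]
    ring
  have hfacts : ∀ j < k, ‖T j‖ = 1 ∧ T j ^ 2 = om x j := by
    intro j
    induction j with
    | zero =>
      intro _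
      refine ⟨?_, by rw [hT0, hs0]⟩
      have h1 : ‖T 0‖ ^ 2 = 1 := by rw [← norm_pow, hT0, hs0, hom 0 hk]
      exact (pow_eq_one_iff_of_nonneg (norm_nonneg _) (by norm_num)).mp h1
    | succ j ih =>
      intro hj
      obtain ⟨ih1, ih2⟩ := ih (by omega)
      have hne1 := (hmid (j + 1) (Nat.succ_pos j) hj).1
      have hNj := hNmid (j + 1) (Nat.succ_pos j) hj
      rw [Nat.add_sub_cancel] at hNj hne1
      have hTj0 : T j ≠ 0 := by
        rw [← norm_pos_iff, ih1]; exact one_pos
      have hn1 : ‖N (j + 1)‖ = 1 := by
        rw [hNj, norm_div, Complex.norm_real, norm_norm, div_self]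
        exact (norm_pos_iff.mpr (sub_ne_zero.mpr hne1)).ne'
      have hsq : N (j + 1) ^ 2 = -(om x j * om x (j + 1)) := by
        rw [hNj]
        exact ToSystemAux.sq_dir (hom (j + 1) hj) (hom j (by omega)) hne1
      refine ⟨?_, ?_⟩
      · rw [hTs, norm_div, norm_mul, Complex.norm_I, ih1, hn1]; norm_num
      · have h0 : om x j ≠ 0 := by
          rw [← norm_pos_iff, hom j (by omega)]; exact one_pos
        rw [hTs, div_pow, mul_pow, Complex.I_sq, ih2, hsq]
        field_simp
  have hT0' : ∀ j < k, T j ≠ 0 := by
    intro j hj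
    rw [← norm_pos_iff, (hfacts j hj).1]; exact one_pos
  have hNT : ∀ j, j + 1 < k → N (j + 1) = Complex.I * T j * T (j + 1) := by
    intro j hj
    rw [hTs]
    have := hT0' j (by omega)
    have hI := Complex.I_ne_zero
    field_simp
  refine ⟨fun c => T c, fun c => (hfacts c c.2).1, ?_, ?_⟩
  · -- the equations
    rintro (c | c)
    · have h1 := (hfacts c c.2).1
      have h2 : (T c).re ^ 2 + (T c).im ^ 2 = 1 := by
        have := Complex.sq_norm (T c)
        rw [h1, Complex.normSq_apply] at this
        nlinarith
      simp only [psys, tsys, Pt, map_sub, map_add, map_pow, MvPolynomial.eval_X, Sum.elim_inl,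
        Sum.elim_inr, map_one]
      linarith
    · have hc := c.2
      have h1 := (hfacts c hc).1
      have hTc := ToSystemAux.mul_conj_one h1
      set g : ℕ → ℝ := fun j => (T c).re * (T j).re + (T c).im * (T j).im with hg
      -- the value of the polynomial
      have hval : MvPolynomial.eval (Pt fun c : Fin k => T c)
          (psys k a (1 / (m : ℝ)) (Sum.inr c))
          = ((T c).re ^ 2 - (T c).im ^ 2) - 2 * (a c : ℝ) * ((T c).re * (T c).im)
            + (1 / (m : ℝ)) * ((if (c : ℕ) + 1 < k then g (c + 1) else 0)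
              - (if 0 < (c : ℕ) then g (c - 1) else 0)) := by
        have e1 : ∑ c' : Fin k, (1 / (m : ℝ)) * ((if c'.val = c.val + 1 then 1 else 0) -
            (if c'.val + 1 = c.val then 1 else 0)) * ((T c).re * (T c').re + (T c).im * (T c').im)
            = (1 / (m : ℝ)) * ((if (c : ℕ) + 1 < k then g (c + 1) else 0)
              - (if 0 < (c : ℕ) then g (c - 1) else 0)) := by
          rw [Fin.sum_univ_eq_sum_range (fun j : ℕ => (1 / (m : ℝ)) *
            ((if j = c.val + 1 then 1 else 0) - (if j + 1 = c.val then 1 else 0)) *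
              ((T c).re * (T j).re + (T c).im * (T j).im)) k]
          have e2 : ∀ j ∈ Finset.range k, (1 / (m : ℝ)) *
              ((if j = c.val + 1 then 1 else 0) - (if j + 1 = c.val then 1 else 0)) *
              ((T c).re * (T j).re + (T c).im * (T j).im)
              = (1 / (m : ℝ)) * ((if j = c.val + 1 then g j else 0) -
                (if j + 1 = c.val then g j else 0)) := by
            intro j _
            simp only [hg]
            split_ifs <;> ring
          rw [Finset.sum_congr rfl e2, ← Finset.mul_sum, Finset.sum_sub_distrib,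
            Finset.sum_ite_eq' (Finset.range k) ((c : ℕ) + 1) g]
          congr 2
          · simp only [Finset.mem_range]
          · by_cases hc0 : 0 < (c : ℕ)
            · rw [if_pos hc0, Finset.sum_eq_single ((c : ℕ) - 1)]
              · rw [if_pos (by omega)]
              · intro j _ hj
                rw [if_neg (by omega)]
              · intro hj
                exact absurd (Finset.mem_range.mpr (by omega)) hj
            · rw [if_neg hc0]
              refine Finset.sum_eq_zero fun j _ => ?_
              rw [if_neg (by omega)]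
        simp only [psys, tsys, Pt, map_sub, map_add, map_pow, map_mul, map_sum,
          MvPolynomial.eval_X, MvPolynomial.eval_C, Sum.elim_inl, Sum.elim_inr, one_mul, zero_mul,
          add_zero]
        rw [← e1]
      rw [hval]
      -- the geometric equation
      have hgeo : m * (((T c).re ^ 2 - (T c).im ^ 2) - 2 * (a c : ℝ) * ((T c).re * (T c).im))
          + ((if (c : ℕ) + 1 < k then g (c + 1) else 0)
              - (if 0 < (c : ℕ) then g (c - 1) else 0)) = 0 := by
        have hdiff : x (c + 1) - x c = m * ((a c : ℂ) + Complex.I) + N (c + 1) - N c := by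
          simp only [hN]
          rw [zpt, zpt, Finset.sum_range_succ]
          ring
        have hom2 : x (c + 1) - x c = (‖x (c + 1) - x c‖ : ℂ) * T c ^ 2 := by
          rw [(hfacts c hc).2, om]
          have h0 : ((‖x (c + 1) - x c‖ : ℝ) : ℂ) ≠ 0 := by
            exact_mod_cast (norm_pos_iff.mpr (sub_ne_zero.mpr (hne c hc))).ne'
          field_simp
        have hz : ((starRingEnd ℂ) (T c) ^ 2 * (x (c + 1) - x c)).im = 0 := by
          rw [hom2]
          have : (starRingEnd ℂ) (T c) ^ 2 * ((‖x (c + 1) - x c‖ : ℂ) * T c ^ 2)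
              = (‖x (c + 1) - x c‖ : ℂ) := by
            linear_combination ((‖x (c + 1) - x c‖ : ℂ) *
              (T c * (starRingEnd ℂ) (T c) + 1)) * hTc
          rw [this, Complex.ofReal_im]
        rw [hdiff, mul_sub, mul_add, Complex.sub_im, Complex.add_im] at hz
        have hA : ((starRingEnd ℂ) (T c) ^ 2 * (m * ((a c : ℂ) + Complex.I))).im
            = m * (((T c).re ^ 2 - (T c).im ^ 2) - 2 * (a c : ℝ) * ((T c).re * (T c).im)) := by
          simp only [pow_two, Complex.mul_im, Complex.mul_re, Complex.conj_re, Complex.conj_im,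
            Complex.add_re, Complex.add_im, Complex.I_re, Complex.I_im, Complex.natCast_re,
            Complex.natCast_im, Complex.intCast_re, Complex.intCast_im]
          ring
        have hgI : ∀ j, (Complex.I * ((starRingEnd ℂ) (T c) * T j)).im = g j := by
          intro j
          simp only [hg, Complex.mul_im, Complex.mul_re, Complex.conj_re, Complex.conj_im,
            Complex.I_re, Complex.I_im]
          ring
        have hB : ((starRingEnd ℂ) (T c) ^ 2 * N (c + 1)).im
            = if (c : ℕ) + 1 < k then g (c + 1) else 0 := by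
          by_cases hc1 : (c : ℕ) + 1 < k
          · rw [if_pos hc1, hNT c hc1, ← hgI]
            congr 1
            linear_combination (Complex.I * (starRingEnd ℂ) (T c) * T (c + 1)) * hTc
          · rw [if_neg hc1]
            have hck : (c : ℕ) + 1 = k := by omega
            have hNk : N (c + 1) = -(T c ^ 2) := by
              simp only [hN]
              rw [hck, hxk, (hfacts c hc).2]
              have : k - 1 = c := by omega
              rw [this]
              ring
            rw [hNk]
            have : (starRingEnd ℂ) (T c) ^ 2 * -(T c ^ 2) = -1 := by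
              linear_combination (-(T c * (starRingEnd ℂ) (T c) + 1)) * hTc
            rw [this]; simp
        have hC : ((starRingEnd ℂ) (T c) ^ 2 * N c).im
            = if 0 < (c : ℕ) then g (c - 1) else 0 := by
          by_cases hc0 : 0 < (c : ℕ)
          · rw [if_pos hc0]
            obtain ⟨j, hj⟩ : ∃ j, (c : ℕ) = j + 1 := ⟨c - 1, by omega⟩
            have h3 := hNT j (by omega)
            rw [← hj] at h3
            rw [h3, hj, Nat.add_sub_cancel, ← hgI, hj]
            congr 1
            rw [hj] at hTc
            linear_combination (Complex.I * (starRingEnd ℂ) (T (j + 1)) * T j) * hTc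
          · rw [if_neg hc0]
            have hc00 : (c : ℕ) = 0 := by omega
            have hN0 : N c = T c ^ 2 := by
              simp only [hN]
              rw [(hfacts c hc).2, hc00, hx0]
              ring
            rw [hN0]
            have : (starRingEnd ℂ) (T c) ^ 2 * (T c ^ 2) = 1 := by
              linear_combination (T c * (starRingEnd ℂ) (T c) + 1) * hTc
            rw [this]; simp
        rw [hA, hB, hC] at hz
        linarith
      have hm' : (m : ℝ) ≠ 0 := hmR.ne'
      field_simp
      linarith
  · -- the fields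
    set K : IntermediateField ℚ ℝ := coordField {z | ∃ j ≤ k, z = x j} with hK
    have hxK : ∀ j ≤ k, InK K (x j) := by
      intro j hj
      exact ⟨IntermediateField.subset_adjoin _ _ ⟨x j, ⟨j, hj, rfl⟩, Or.inl rfl⟩,
        IntermediateField.subset_adjoin _ _ ⟨x j, ⟨j, hj, rfl⟩, Or.inr rfl⟩⟩
    have hcast : ∀ n : ℤ, InK K (n : ℂ) := by
      intro n
      have h1 : ((n : ℚ) : ℝ) ∈ K := InK.rat (n : ℚ)
      have h2 := InK.ofReal h1
      have h3 : (((n : ℚ) : ℝ) : ℂ) = (n : ℂ) := by push_cast; rfl
      rwa [h3] at h2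
    have hzK : ∀ j, InK K (zpt a j) := by
      intro j
      rw [zpt]
      exact InK.sum _ _ fun i _ => (hcast (a i)).add InK.I
    have hNK : ∀ j ≤ k, InK K (N j) := by
      intro j hj
      have h1 : InK K ((m : ℤ) : ℂ) := hcast m
      have h2 : (((m : ℤ) : ℂ)) = (m : ℂ) := by push_cast; rfl
      rw [h2] at h1
      exact (hxK j hj).sub (h1.mul (hzK j))
    have hadj : ∀ j, j + 1 < k → InK K (T j * T (j + 1)) := by
      intro j hj
      have h1 := (hNK (j + 1) hj.le).div (K := K) InK.I
      rw [hNT j hj] at h1
      have h2 : Complex.I * T j * T (j + 1) / Complex.I = T j * T (j + 1) := by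
        have := Complex.I_ne_zero
        field_simp
      rwa [h2] at h1
    have hsq : ∀ j < k, InK K (T j ^ 2) := by
      intro j
      induction j with
      | zero =>
        intro _
        have h1 : T 0 ^ 2 = N 0 := by
          rw [(hfacts 0 hk).2]
          simp only [hN]
          rw [hx0]
          ring
        rw [h1]
        exact hNK 0 (Nat.zero_le k)
      | succ j ih =>
        intro hj
        have h1 := ((hadj j hj).pow 2).div (ih (by omega))
        have h2 : (T j * T (j + 1)) ^ 2 / T j ^ 2 = T (j + 1) ^ 2 := by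
          have := hT0' j (by omega)
          field_simp
        rwa [h2] at h1
    have hle : ∀ c d, c + d < k → InK K (T c * T (c + d)) := by
      intro c d
      induction d with
      | zero =>
        intro hc
        have := hsq c (by omega)
        rwa [pow_two] at this
      | succ d ih =>
        intro hc
        have h1 := ((ih (by omega)).mul (hadj (c + d) (by omega))).div (hsq (c + d) (by omega))
        have h2 : T c * T (c + d) * (T (c + d) * T (c + d + 1)) / T (c + d) ^ 2
            = T c * T (c + (d + 1)) := by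
          have := hT0' (c + d) (by omega)
          rw [← add_assoc]
          field_simp
        rwa [h2] at h1
    intro c c'
    rcases le_total (c : ℕ) (c' : ℕ) with h1 | h1
    · obtain ⟨d, hd⟩ := Nat.exists_eq_add_of_le h1
      have := hle c d (by rw [← hd]; exact c'.2)
      rwa [← hd] at this
    · obtain ⟨d, hd⟩ := Nat.exists_eq_add_of_le h1
      have := hle c' d (by rw [← hd]; exact c.2)
      rw [← hd] at this
      rw [mul_comm]
      exact this

end Pool.Agent.Lib.P7ee
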