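import Pool.Agent.Lib.P7ee.MinEnerg
import Pool.Agent.Lib.P7ee.ToSystem
import Pool.Agent.Lib.P7ee.Branch
import Pool.Agent.Lib.P7ee.Complete
import Pool.Agent.Lib.P7ee.ConjZero
import Pool.Agent.Lib.P7ee.Theta
import Pool.Agent.Lib.P7ee.Integral
import Pool.Agent.Lib.P7ee.Hit
import Pool.Agent.Lib.P7ee.Arith
import Pool.Agent.Lib.P7ee.ThetaMem

/-!
# P7ee.Lower: the lower bound  (2 h)

`a` from `arith_data k`, `Θ` from `theta_exists`, `X l` from `branches`, `I = {l : Fin k → Fin 4 // l 0 < 2}` (`card I = 2 * 4^(k-1) = 2^(2k-1)`), `θ l ρ = evR Θ (X l ρ)`. Hypotheses of `hit`: smoothness `evR_contDiff`; `h0` from `theta_exists` (`X l 0 = Pt (tl a l)`); `hint` from `integral_theta` and `psys_nzero` (`1/m` small); `hconj`: `conj_zero` for `f = psys k a (1/m : ℚ)` (`tsys_map`, `tsys_quad`; the complex point `X l (1/m)` is `NZero` by `psys_nzero`;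
`minpoly ℚ` of a real number and of its image in `ℂ` agree), `complete_zeros` at `ρ = 1/m`, `evR_neg`. Get `m` large (for `min_energ`, the eventual statements) with all degrees `2^(2k-1)`. `M = {m * zpt a j | j ≤ k}`, `r = 1`: admissible: finite, rational, not in a disc of radius `1` (`dist (m z_0) (m z_1) ≥ 10 m > 2`), `ncard = k+1` (`zpt` is injective on `j ≤ k`: imaginary part `j`).
For a minimizer `S`: `min_energ`, `to_system`: `P = Pt t` is a zero at `ρ = 1/m`, `NZero` over `ℂ` (`psys_nzero`), so `P = ± X l (1/m)` with `l 0 < 2` (`complete_zeros`), `evR Θ P = θ l (1/m)` has degree `2^(2k-1)` and lies in `coordField {x j} ≤ coordField (energetic ..)` (`theta_mem`); `deg_ge`.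
-/

set_option autoImplicit false



namespace Pool.Agent.Lib.P7ee

open MvPolynomial Filter Topology

namespace LowerAux

theorem card_I {k : ℕ} (hk : 0 < k) :
    Fintype.card {l : Fin k → Fin 4 // (l ⟨0, hk⟩ : ℕ) < 2} = 2 ^ (2 * k - 1) := by
  classical
  obtain ⟨n, rfl⟩ : ∃ n, k = n + 1 := ⟨k - 1, by omega⟩
  rw [Fintype.card_subtype]
  have h1 : (Finset.univ.filter fun l : Fin (n + 1) → Fin 4 => (l ⟨0, hk⟩ : ℕ) < 2) =
      Fintype.piFinset (fun c : Fin (n + 1) =>
        if c = 0 then (Finset.univ.filter fun v : Fin 4 => (v : ℕ) < 2) else Finset.univ) := by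
    ext l
    simp only [Finset.mem_filter, Finset.mem_univ, true_and, Fintype.mem_piFinset]
    constructor
    · intro h c
      split_ifs with hc
      · subst hc
        simpa using h
      · exact Finset.mem_univ _
    · intro h
      have := h 0
      simpa using this
  rw [h1, Fintype.card_piFinset, Fin.prod_univ_succ]
  have h2 : (Finset.univ.filter fun v : Fin 4 => (v : ℕ) < 2).card = 2 := by decide
  simp only [if_true, h2]
  have h3 : ∀ i : Fin n, (if Fin.succ i = (0 : Fin (n + 1)) then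
      (Finset.univ.filter fun v : Fin 4 => (v : ℕ) < 2) else Finset.univ).card = 4 := by
    intro i
    rw [if_neg (Fin.succ_ne_zero i)]
    simp
  rw [Finset.prod_congr rfl (fun i _ => h3 i), Finset.prod_const, Finset.card_univ,
    Fintype.card_fin]
  have h4 : (4 : ℕ) = 2 ^ 2 := by norm_num
  rw [h4, ← pow_mul, ← pow_succ']
  congr 1

theorem psys_map {k : ℕ} (a : ℕ → ℤ) {A A' : Type} [CommRing A] [CommRing A'] (φ : A →+* A')
    (ρ : A) (i : Fin k ⊕ Fin k) : map φ (psys k a ρ i) = psys k a (φ ρ) i := by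
  unfold psys
  rw [tsys_map]
  congr 1
  · funext c
    simp
  · funext c
    simp
  · funext c c'
    simp
  · funext c c'
    simp only [map_mul, map_sub]
    congr 2
    · split_ifs <;> simp
    · split_ifs <;> simp

theorem psys_quad {k : ℕ} (a : ℕ → ℤ) {A : Type} [CommRing A] (ρ : A) (i : Fin k ⊕ Fin k) :
    IsQuad (psys k a ρ i) := by
  unfold psys
  exact tsys_quad _ _ _ _ i

theorem eval_complex {σ : Type} (Θ : MvPolynomial σ ℤ) (P : σ → ℝ) :
    MvPolynomial.eval₂ (algebraMap ℚ ℂ) (fun i => (P i : ℂ)) (map (Int.castRingHom ℚ) Θ) =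
      ((evR Θ P : ℝ) : ℂ) := by
  rw [MvPolynomial.eval₂_map]
  unfold evR
  have h := MvPolynomial.hom_eval₂ Θ (Int.castRingHom ℝ) Complex.ofRealHom P
  change _ = Complex.ofRealHom _
  rw [h]
  congr 1

theorem evR_congr_pm {σ : Type} (Θ : MvPolynomial σ ℤ) (hΘ : EvenP Θ) {P Q : σ → ℝ}
    (h : (∀ i, P i = Q i) ∨ ∀ i, P i = -Q i) : evR Θ P = evR Θ Q := by
  rcases h with h | h
  · rw [funext h]
  · have : P = -Q := funext h
    rw [this, evR_neg Θ hΘ]

theorem zpt_re (a : ℕ → ℤ) (j : ℕ) : (zpt a j).re = ((∑ c ∈ Finset.range j, a c : ℤ) : ℝ) := by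
  unfold zpt
  rw [Complex.re_sum]
  push_cast
  exact Finset.sum_congr rfl fun c _ => by simp

theorem zpt_im (a : ℕ → ℤ) (j : ℕ) : (zpt a j).im = j := by
  unfold zpt
  rw [Complex.im_sum]
  simp

theorem admissible {k : ℕ} (hk : 0 < k) {a : ℕ → ℤ} (ha : ∀ c < k, 10 ≤ a c) {m : ℕ}
    (hm : 0 < m) : Admissible {z | ∃ j ≤ k, z = m * zpt a j} 1 := by
  have hmR : (1 : ℝ) ≤ m := by exact_mod_cast hm
  refine ⟨?_, ?_, one_pos, ⟨1, by norm_num⟩, ?_⟩
  · have h1 : {z : ℂ | ∃ j ≤ k, z = m * zpt a j} = (fun j : ℕ => (m : ℂ) * zpt a j) '' Set.Iic k := by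
      ext z
      constructor
      · rintro ⟨j, hj, rfl⟩
        exact ⟨j, hj, rfl⟩
      · rintro ⟨j, hj, rfl⟩
        exact ⟨j, hj, rfl⟩
    rw [h1]
    exact (Set.finite_Iic k).image _
  · rintro z ⟨j, -, rfl⟩
    refine ⟨⟨m * (∑ c ∈ Finset.range j, a c : ℤ), ?_⟩, ⟨m * j, ?_⟩⟩
    · rw [Complex.mul_re, Complex.natCast_re, Complex.natCast_im, zpt_re]
      push_cast
      ring
    · rw [Complex.mul_im, Complex.natCast_re, Complex.natCast_im, zpt_im]
      push_cast
      ring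
  · intro c hc
    have h0 := hc ⟨0, Nat.zero_le _, rfl⟩
    have h1 := hc ⟨1, hk, rfl⟩
    rw [Metric.mem_closedBall] at h0 h1
    have h2 : dist ((m : ℂ) * zpt a 1) (m * zpt a 0) ≤ 2 := by
      have := dist_triangle_right ((m : ℂ) * zpt a 1) (m * zpt a 0) c
      linarith
    rw [Complex.dist_eq] at h2
    have h3 := (Complex.abs_re_le_norm ((m : ℂ) * zpt a 1 - m * zpt a 0)).trans h2
    have h4 : ((m : ℂ) * zpt a 1 - m * zpt a 0).re = m * a 0 := by
      rw [Complex.sub_re, Complex.mul_re, Complex.mul_re, Complex.natCast_re, Complex.natCast_im,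
        zpt_re, zpt_re]
      simp
    rw [h4] at h3
    have h5 : (10 : ℝ) ≤ a 0 := by exact_mod_cast ha 0 hk
    have h6 := (abs_le.1 h3).2
    nlinarith

theorem ncard_M {k : ℕ} {a : ℕ → ℤ} {m : ℕ} (hm : 0 < m) :
    {z : ℂ | ∃ j ≤ k, z = m * zpt a j}.ncard = k + 1 := by
  have hmR : (m : ℝ) ≠ 0 := by
    have : (0 : ℝ) < m := by exact_mod_cast hm
    exact this.ne'
  have h1 : {z : ℂ | ∃ j ≤ k, z = m * zpt a j} =
      (fun j : ℕ => (m : ℂ) * zpt a j) '' (Finset.range (k + 1) : Set ℕ) := by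
    ext z
    constructor
    · rintro ⟨j, hj, rfl⟩
      exact ⟨j, by simp; omega, rfl⟩
    · rintro ⟨j, hj, rfl⟩
      simp only [Finset.coe_range, Set.mem_Iio] at hj
      exact ⟨j, by omega, rfl⟩
  rw [h1, Set.ncard_image_of_injective _ ?_, Set.ncard_coe_finset, Finset.card_range]
  intro i j hij
  have h2 := congrArg Complex.im hij
  simp only [Complex.mul_im, Complex.natCast_re, Complex.natCast_im, zpt_im] at h2
  have h3 : (m : ℝ) * i = m * j := by linarith
  have h4 := mul_left_cancel₀ hmR h3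
  exact_mod_cast h4

end LowerAux

open LowerAux in
theorem lower {k : ℕ} (hk : 0 < k) :
    ∃ (M : Set ℂ) (r : ℝ), Admissible M r ∧ M.ncard = k + 1 ∧
      ∀ S : Set ℂ, IsMinimizer M r S → (2 ^ (2 * k - 1) : ℕ∞) ≤ deg (energetic M r S) := by
  classical
  obtain ⟨a, ha, hdec, hN⟩ := arith_data k
  obtain ⟨Θ, hΘe, hΘ⟩ := theta_exists hk a ha hdec hN
  choose X hX0 hXs hXe using fun l : Fin k → Fin 4 => branches a ha l
  obtain ⟨m1, hm1, hmin⟩ := min_energ hk a ha hdec
  obtain ⟨D, hD, m2, hint⟩ := integral_theta hk a Θ hΘe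
  have hXc : ∀ l i, ContinuousAt (fun ρ => X l ρ i) 0 := fun l i => (hXs l i 0).continuousAt
  have hE1 : ∀ᶠ ρ in 𝓝 (0 : ℝ), ∀ l i, MvPolynomial.eval (X l ρ) (psys k a ρ i) = 0 :=
    Filter.eventually_all.2 hXe
  have hE2 := complete_zeros hk a ha X hX0 hXc hXe
  obtain ⟨m3, hm3⟩ := Filter.eventually_atTop.1
    (tendsto_one_div_atTop_nhds_zero_nat.eventually (hE1.and hE2))
  set M0 := m1 + m2 + m3 with hM0
  have hM0pos : 0 < M0 := by omega
  -- facts for `m ≥ M0`
  have hrho : ∀ m ≥ M0, |(1 / (m : ℝ))| ≤ 1 := by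
    intro m hm
    have h1 : (1 : ℝ) ≤ m := by
      have : 1 ≤ m := by omega
      exact_mod_cast this
    rw [abs_of_nonneg (by positivity), div_le_one (by linarith)]
    exact h1
  have hreal : ∀ m ≥ M0, ∀ P : Fin k ⊕ Fin k → ℝ,
      (∀ i, MvPolynomial.eval P (psys k a (1 / (m : ℝ)) i) = 0) →
      ∃ l : Fin k → Fin 4, (l ⟨0, hk⟩ : ℕ) < 2 ∧ evR Θ P = evR Θ (X l (1 / (m : ℝ))) := by
    intro m hm P hP
    have hnz := (psys_nzero a ha (hrho m hm) P hP).2
    obtain ⟨l, hl, h⟩ := (hm3 m (by omega)).2 _ hnz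
    refine ⟨l, hl, evR_congr_pm Θ hΘe ?_⟩
    rcases h with h | h
    · left
      intro i
      exact_mod_cast h i
    · right
      intro i
      exact_mod_cast h i
  set I := {l : Fin k → Fin 4 // (l ⟨0, hk⟩ : ℕ) < 2} with hI
  have hcard : Fintype.card I = 2 ^ (2 * k - 1) := card_I hk
  have key := hit (I := I) (fun l ρ => evR Θ (X l.1 ρ))
    (fun l n => evR_contDiff Θ (X l.1) n fun i => hXs l.1 i n)
    (fun l => by
      change (minpoly ℚ (evR Θ (X l.1 0))).natDegree = _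
      rw [hX0, hΘ, hcard])
    ⟨M0, fun m hm l ζ hζ => by
      change Polynomial.aeval ζ (minpoly ℚ (evR Θ (X l.1 (1 / (m : ℝ))))) = 0 at hζ
      set P := X l.1 (1 / (m : ℝ)) with hPdef
      have hP := (hm3 m (by omega)).1 l.1
      have hnz := (psys_nzero a ha (hrho m hm) P hP).2
      have hfeq : (fun i => map (algebraMap ℚ ℂ) (psys k a (1 / (m : ℚ)) i)) =
          psys k a (((1 / (m : ℝ) : ℝ)) : ℂ) := by
        funext i
        rw [psys_map]
        congr 1
        simp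
      have : Nonempty (Fin k ⊕ Fin k) := ⟨Sum.inl ⟨0, hk⟩⟩
      obtain ⟨P', hP'1, hP'2⟩ := conj_zero (σ := Fin k ⊕ Fin k) (psys k a (1 / (m : ℚ)))
        (fun i => psys_quad a _ i) (map (Int.castRingHom ℚ) Θ) (fun i => (P i : ℂ))
        (by rw [hfeq]; exact hnz) ζ (by
          rw [eval_complex]
          have : (((evR Θ P : ℝ)) : ℂ) = algebraMap ℝ ℂ (evR Θ P) := rfl
          rw [this, minpoly.algebraMap_eq (algebraMap ℝ ℂ).injective]
          exact hζ)
      rw [hfeq] at hP'1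
      obtain ⟨l', hl', h⟩ := (hm3 m (by omega)).2 _ hP'1
      refine ⟨⟨l', hl'⟩, ?_⟩
      change ζ = ((evR Θ (X l' (1 / (m : ℝ))) : ℝ) : ℂ)
      rw [hP'2]
      rcases h with h | h
      · have h' : P' = fun i => ((X l' (1 / (m : ℝ)) i : ℝ) : ℂ) := funext h
        rw [h', eval_complex]
      · have h' : P' = fun i => (((-X l' (1 / (m : ℝ))) i : ℝ) : ℂ) := by
          funext i
          rw [h i]
          simp
        rw [h', eval_complex, evR_neg Θ hΘe]⟩
    D hD
    ⟨M0, fun m hm l => by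
      refine hint m (by omega) _ ?_
      exact (psys_nzero a ha (hrho m hm) _ ((hm3 m (by omega)).1 l.1)).1⟩
  obtain ⟨m, hm, hdeg⟩ := key M0
  have hmpos : 0 < m := by omega
  refine ⟨{z | ∃ j ≤ k, z = m * zpt a j}, 1, admissible hk ha hmpos, ncard_M hmpos, ?_⟩
  intro S hS
  obtain ⟨x, hx, hch⟩ := hmin m (by omega) S hS
  obtain ⟨t, ht, hte, htK⟩ := to_system hk a hmpos hch
  obtain ⟨l, hl, hle⟩ := hreal m hm (Pt t) hte
  have hmem := theta_mem t ht _ htK Θ hΘe
  have hmem' : evR Θ (Pt t) ∈ coordField (energetic {z | ∃ j ≤ k, z = m * zpt a j} 1 S) := by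
    refine (IntermediateField.adjoin.mono ℚ _ _ ?_) hmem
    rintro u ⟨z, ⟨j, hj, rfl⟩, hu⟩
    exact ⟨x j, hx j hj, hu⟩
  have hd : (minpoly ℚ (evR Θ (Pt t))).natDegree = 2 ^ (2 * k - 1) := by
    rw [hle, ← hcard]
    exact hdeg ⟨l, hl⟩
  have := deg_ge hmem' hd (by positivity)
  exact_mod_cast this

end Pool.Agent.Lib.P7ee
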