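import Pool.Agent.Lib.P7ee.Upper
import Pool.Agent.Lib.P7ee.Lower

/-!
# P7ee.Main: the value of `D(n)`  (0.3 h)

`≤`: `iSup_le` and `delta_le`. `≥`: `lower` with `k = n - 1` (`2 k - 1 = 2 n - 3`), `le_iInf`, `le_iSup₂_of_le` etc.
-/

set_option autoImplicit false



namespace Pool.Agent.Lib.P7ee

theorem D_eq {n : ℕ} (hn : 2 ≤ n) : D n = 2 ^ (2 * n - 3) := by
  apply le_antisymm
  · unfold D
    refine iSup_le fun M => iSup_le fun r => iSup_le fun h => ?_
    exact delta_le h.1 hn h.2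
  · obtain ⟨M, r, hM, hc, hS⟩ := lower (k := n - 1) (by omega)
    have h1 : (2 ^ (2 * n - 3) : ℕ∞) ≤ delta M r := by
      unfold delta
      refine le_iInf fun S => le_iInf fun hmin => ?_
      have h2 := hS S hmin
      have h3 : 2 * (n - 1) - 1 = 2 * n - 3 := by omega
      rwa [h3] at h2
    refine h1.trans ?_
    unfold D
    exact le_iSup_of_le M (le_iSup_of_le r (le_iSup_of_le ⟨hM, by omega⟩ le_rfl))

end Pool.Agent.Lib.P7ee
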