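import Pool.Agent.Lib.P7ee.Defs

/-!
# P7ee.PolyPath: the polygon through a sequence of points as a competitor  (0.8 h)

Finite union of segments, consecutive ones share `x (c+1)` (induction on `k`, `IsConnected.union`); `MeasureTheory.hausdorffMeasure_segment`, finite subadditivity.
-/

set_option autoImplicit false

open MeasureTheory Set Metric Filter Topology

namespace Pool.Agent.Lib.P7ee

namespace PolyPathAux

/-- the polygon after `k + 1` steps is the polygon after `k` steps and one more segment -/
theorem union_succ (x : ℕ → ℂ) (k : ℕ) :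
    (⋃ c ∈ Finset.range (k + 1), segment ℝ (x c) (x (c + 1))) =
      (⋃ c ∈ Finset.range k, segment ℝ (x c) (x (c + 1))) ∪ segment ℝ (x k) (x (k + 1)) := by
  rw [Finset.range_add_one, Finset.set_biUnion_insert, Set.union_comm]

theorem isCompact_seg (a b : ℂ) : IsCompact (segment ℝ a b) := by
  rw [segment_eq_image_lineMap]
  exact isCompact_Icc.image (by fun_prop)

theorem mem_union (x : ℕ → ℂ) (k : ℕ) (hk : 0 < k) :
    ∀ j ≤ k, x j ∈ ⋃ c ∈ Finset.range k, segment ℝ (x c) (x (c + 1)) := by
  intro j hj
  simp only [Set.mem_iUnion, Finset.mem_range, exists_prop]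
  rcases Nat.lt_or_ge j k with h | h
  · exact ⟨j, h, left_mem_segment ℝ _ _⟩
  · have hjk : j = k := le_antisymm hj h
    refine ⟨k - 1, by omega, ?_⟩
    have : k - 1 + 1 = k := by omega
    rw [this, hjk]
    exact right_mem_segment ℝ _ _

theorem connected (x : ℕ → ℂ) (k : ℕ) (hk : 0 < k) :
    IsConnected (⋃ c ∈ Finset.range k, segment ℝ (x c) (x (c + 1))) := by
  induction k with
  | zero => exact absurd hk (lt_irrefl 0)
  | succ k ih =>
    rcases Nat.eq_zero_or_pos k with h0 | h0
    · subst h0
      rw [union_succ]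
      simp only [Finset.range_zero, Finset.notMem_empty, Set.iUnion_of_empty, Set.iUnion_empty,
        Set.empty_union]
      exact (convex_segment _ _).isConnected ⟨_, left_mem_segment ℝ _ _⟩
    · rw [union_succ]
      refine IsConnected.union ⟨x k, mem_union x k h0 k le_rfl, left_mem_segment ℝ _ _⟩ (ih h0) ?_
      exact (convex_segment _ _).isConnected ⟨_, left_mem_segment ℝ _ _⟩

end PolyPathAux

theorem poly_path {k : ℕ} (hk : 0 < k) (x : ℕ → ℂ) :
    IsConnected (⋃ c ∈ Finset.range k, segment ℝ (x c) (x (c + 1))) ∧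
      IsCompact (⋃ c ∈ Finset.range k, segment ℝ (x c) (x (c + 1))) ∧
      (∀ j ≤ k, x j ∈ ⋃ c ∈ Finset.range k, segment ℝ (x c) (x (c + 1))) ∧
      μH[1] (⋃ c ∈ Finset.range k, segment ℝ (x c) (x (c + 1))) ≤
        ENNReal.ofReal (∑ c ∈ Finset.range k, dist (x c) (x (c + 1))) := by
  refine ⟨PolyPathAux.connected x k hk, ?_, PolyPathAux.mem_union x k hk, ?_⟩
  · exact (Finset.range k).isCompact_biUnion fun c _ => PolyPathAux.isCompact_seg _ _
  · calc μH[1] (⋃ c ∈ Finset.range k, segment ℝ (x c) (x (c + 1)))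
        ≤ ∑ c ∈ Finset.range k, μH[1] (segment ℝ (x c) (x (c + 1))) :=
          measure_biUnion_finset_le _ _
      _ = ∑ c ∈ Finset.range k, ENNReal.ofReal (dist (x c) (x (c + 1))) := by
          refine Finset.sum_congr rfl fun c _ => ?_
          rw [MeasureTheory.hausdorffMeasure_segment, edist_dist]
      _ = ENNReal.ofReal (∑ c ∈ Finset.range k, dist (x c) (x (c + 1))) := by
          rw [ENNReal.ofReal_sum_of_nonneg fun c _ => dist_nonneg]

end Pool.Agent.Lib.P7ee
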