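import Mathlib

/-!
# P7ee.Zono: alternating sums of ordered unit vectors  (1.2 h)

`x c = Re (u c)`, `y c = Im (u c)`; `x` is decreasing (`x c = √(1 - y c²)`), `√3/2 ≤ x c ≤ 1`. Replacing `χ` by `1 - χ` changes the sign of the sum: assume `χ 0 = 0`. Let `v j` be the sum over `c < j`. Invariant for `j ≤ k`: (I1) if `χ j = 1`: `j ≥ 1`, `v j = (X, Y)` with `x (j-1) ≤ X ≤ 1`, `0 ≤ Y ≤ y (j-1)`, `X² + Y² ≤ 1`.
(I0) if `χ j = 0`: `v j = 0` or there is `c < j` with `v j + u c = (X, Y)`, `x c ≤ X ≤ 1`, `0 ≤ Y ≤ y c`, `X² + Y² ≤ 1`. Steps `1 → 1` (monotonicity), `1 → 0` (`c = j`), `0 → 0`, `0 → 1` from `v j = 0` (`v = u j`): clear. Step `0 → 1`, second case: `V = (X, Y)`, `D = u j - u c = (-p, q)`, `p, q ≥ 0`, `v (j+1) = V + D`; coordinates: `X - p ≥ x j`, `0 ≤ Y + q ≤ y j`;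
`|V + D|² = |V|² + 2⟨V, D⟩ + |D|²`, `⟨V, D⟩ = -pX + qY ≤ -p x c + q y c = ⟨u c, D⟩` and `|D|² = -2⟨u c, D⟩` (`|u c + D| = |u c| = 1`), so `|V + D|² ≤ |V|² ≤ 1`. End: (I1) clear; (I0): `v k = (X, Y) - u c` has coordinates at most `1 - √3/2` and `1/2` in absolute value.
-/

set_option autoImplicit false



namespace Pool.Agent.Lib.P7ee

namespace ZonoAux

/-- the region of a partial sum -/
def Good (w V : ℂ) : Prop :=
  w.re ≤ V.re ∧ V.re ≤ 1 ∧ 0 ≤ V.im ∧ V.im ≤ w.im ∧ V.re ^ 2 + V.im ^ 2 ≤ 1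

theorem sq_of_norm {w : ℂ} (h : ‖w‖ = 1) : w.re ^ 2 + w.im ^ 2 = 1 := by
  have h1 := Complex.sq_norm w
  rw [h, Complex.normSq_apply] at h1
  nlinarith

theorem Good.mono {w w' V : ℂ} (h : Good w V) (h1 : w'.re ≤ w.re) (h2 : w.im ≤ w'.im) :
    Good w' V :=
  ⟨h1.trans h.1, h.2.1, h.2.2.1, h.2.2.2.1.trans h2, h.2.2.2.2⟩

theorem good_self {w : ℂ} (h : w.re ^ 2 + w.im ^ 2 = 1) (h0 : 0 ≤ w.im) : Good w w := by
  refine ⟨le_rfl, ?_, h0, le_rfl, h.le⟩
  nlinarith [sq_nonneg (w.re - 1), sq_nonneg w.im]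

theorem good_step {w w' V : ℂ} (hw : w.re ^ 2 + w.im ^ 2 = 1) (hw' : w'.re ^ 2 + w'.im ^ 2 = 1)
    (h : Good w V) (h1 : w'.re ≤ w.re) (h2 : w.im ≤ w'.im) : Good w' (V + (w' - w)) := by
  obtain ⟨a1, a2, a3, a4, a5⟩ := h
  simp only [Good, Complex.add_re, Complex.sub_re, Complex.add_im, Complex.sub_im]
  refine ⟨by linarith, by linarith, by linarith, by linarith, ?_⟩
  nlinarith [mul_nonneg (sub_nonneg.2 h1) (sub_nonneg.2 a1),
    mul_nonneg (sub_nonneg.2 h2) (sub_nonneg.2 a4)]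

theorem main0 (k : ℕ) (u : ℕ → ℂ)
    (hu : ∀ c < k, ‖u c‖ = 1 ∧ 0 < (u c).re ∧ 0 ≤ (u c).im ∧ (u c).im ≤ 1 / 2)
    (hm : ∀ c, c + 1 < k → (u c).im ≤ (u (c + 1)).im) (χ : ℕ → ℝ)
    (hχ : ∀ j, χ j = 0 ∨ χ j = 1) (h0 : χ 0 = 0) :
    ‖∑ c ∈ Finset.range k, ((χ (c + 1) - χ c : ℝ) : ℂ) * u c‖ ≤ 1 := by
  have hsq : ∀ c < k, (u c).re ^ 2 + (u c).im ^ 2 = 1 := fun c hc => sq_of_norm (hu c hc).1
  have him : ∀ d c, c + d < k → (u c).im ≤ (u (c + d)).im := by
    intro d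
    induction d with
    | zero => intro c _; exact le_rfl
    | succ d ih =>
      intro c hc
      exact (ih c (by omega)).trans (hm (c + d) (by omega))
  have him' : ∀ c d, c ≤ d → d < k → (u c).im ≤ (u d).im := by
    intro c d hcd hd
    obtain ⟨e, rfl⟩ := Nat.exists_eq_add_of_le hcd
    exact him e c hd
  have hre : ∀ c d, c ≤ d → d < k → (u d).re ≤ (u c).re := by
    intro c d hcd hd
    have h1 := hsq c (by omega)
    have h2 := hsq d hd
    have h3 := him' c d hcd hd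
    have h4 := (hu c (by omega)).2.1
    have h5 := (hu c (by omega)).2.2.1
    nlinarith [(hu d hd).2.1]
  set v : ℕ → ℂ := fun j => ∑ c ∈ Finset.range j, ((χ (c + 1) - χ c : ℝ) : ℂ) * u c with hv
  have hvs : ∀ j, v (j + 1) = v j + ((χ (j + 1) - χ j : ℝ) : ℂ) * u j := by
    intro j
    simp only [hv, Finset.sum_range_succ]
  have inv : ∀ j, j ≤ k →
      (χ j = 1 → ∃ c, c + 1 = j ∧ Good (u c) (v j)) ∧
      (χ j = 0 → v j = 0 ∨ ∃ c, c < j ∧ Good (u c) (v j + u c)) := by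
    intro j
    induction j with
    | zero =>
      intro _
      refine ⟨fun h => ?_, fun _ => Or.inl (by simp [hv])⟩
      rw [h0] at h
      norm_num at h
    | succ j ih =>
      intro hj
      obtain ⟨i1, i0⟩ := ih (by omega)
      have hjk : j < k := by omega
      constructor
      · intro h1
        refine ⟨j, rfl, ?_⟩
        rcases hχ j with h | h
        · -- 0 to 1
          have hvj : v (j + 1) = v j + u j := by
            rw [hvs, h, h1]; simp
          rcases i0 h with hz | ⟨c, hc, hg⟩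
          · rw [hvj, hz, zero_add]
            exact good_self (hsq j hjk) (hu j hjk).2.2.1
          · have hck : c < k := by omega
            have := good_step (hsq c hck) (hsq j hjk) hg (hre c j hc.le hjk) (him' c j hc.le hjk)
            rw [hvj]
            have e : v j + u c + (u j - u c) = v j + u j := by ring
            rwa [e] at this
        · -- 1 to 1
          have hvj : v (j + 1) = v j := by
            rw [hvs, h, h1]; simp
          obtain ⟨c, hc, hg⟩ := i1 h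
          rw [hvj]
          exact hg.mono (hre c j (by omega) hjk) (him' c j (by omega) hjk)
      · intro h1
        rcases hχ j with h | h
        · have hvj : v (j + 1) = v j := by
            rw [hvs, h, h1]; simp
          rw [hvj]
          rcases i0 h with hz | ⟨c, hc, hg⟩
          · exact Or.inl hz
          · exact Or.inr ⟨c, by omega, hg⟩
        · have hvj : v (j + 1) = v j - u j := by
            rw [hvs, h, h1]; push_cast; ring
          obtain ⟨c, hc, hg⟩ := i1 h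
          refine Or.inr ⟨j, by omega, ?_⟩
          rw [hvj, sub_add_cancel]
          exact hg.mono (hre c j (by omega) hjk) (him' c j (by omega) hjk)
  have hfin := inv k le_rfl
  have hle : ∀ z : ℂ, z.re ^ 2 + z.im ^ 2 ≤ 1 → ‖z‖ ≤ 1 := by
    intro z hz
    have h1 := Complex.sq_norm z
    rw [Complex.normSq_apply] at h1
    nlinarith [norm_nonneg z]
  show ‖v k‖ ≤ 1
  rcases hχ k with h | h
  · rcases hfin.2 h with hz | ⟨c, hc, a1, a2, a3, a4, a5⟩
    · rw [hz, norm_zero]; norm_num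
    · apply hle
      simp only [Complex.add_re, Complex.add_im] at a1 a2 a3 a4 a5
      have h1 := hsq c hc
      obtain ⟨_, h2, h3, h4⟩ := hu c hc
      have hx : 1 / 2 ≤ (u c).re := by nlinarith
      nlinarith [mul_nonneg (show 0 ≤ (v k).re by linarith) (show 0 ≤ 1 - ((v k).re + (u c).re) by linarith),
        mul_nonneg (show 0 ≤ -(v k).im by linarith) (show 0 ≤ (v k).im + (u c).im by linarith)]
  · obtain ⟨c, _, hg⟩ := hfin.1 h
    exact hle _ hg.2.2.2.2

end ZonoAux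

theorem zono (k : ℕ) (u : ℕ → ℂ)
    (hu : ∀ c < k, ‖u c‖ = 1 ∧ 0 < (u c).re ∧ 0 ≤ (u c).im ∧ (u c).im ≤ 1 / 2)
    (hm : ∀ c, c + 1 < k → (u c).im ≤ (u (c + 1)).im) (χ : ℕ → ℝ)
    (hχ : ∀ j, χ j = 0 ∨ χ j = 1) :
    ‖∑ c ∈ Finset.range k, ((χ (c + 1) - χ c : ℝ) : ℂ) * u c‖ ≤ 1 := by
  rcases hχ 0 with h | h
  · exact ZonoAux.main0 k u hu hm χ hχ h
  · have h1 := ZonoAux.main0 k u hu hm (fun j => 1 - χ j)
      (fun j => by rcases hχ j with h | h <;> rw [h] <;> norm_num) (by simp [h])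
    have e : ∑ c ∈ Finset.range k, (((1 - χ (c + 1)) - (1 - χ c) : ℝ) : ℂ) * u c
        = -∑ c ∈ Finset.range k, ((χ (c + 1) - χ c : ℝ) : ℂ) * u c := by
      rw [← Finset.sum_neg_distrib]
      refine Finset.sum_congr rfl fun c _ => ?_
      push_cast
      ring
    rw [e, norm_neg] at h1
    exact h1

end Pool.Agent.Lib.P7ee
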