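import Pool.Agent.Lib.P7ee.LDefs
import Pool.Agent.Lib.P7ee.Zono
import Pool.Agent.Lib.P7ee.Calib
import Pool.Agent.Lib.P7ee.ChainDir
import Pool.Agent.Lib.P7ee.DiscOpt
import Pool.Agent.Lib.P7ee.PolyPath
import Pool.Agent.Lib.P7ee.GrowMain

/-!
# P7ee.MinChain: minimizers meet the discs in solutions of the chain equations  (1.5 h)

`m0` from `chain_dir`. `PL x = ∑_(c<k) dist (x c) (x (c+1))`, `y j = m * zpt a j`. (2) For all `x'` with `dist (x' j) (y j) ≤ 1` the polygon (`poly_path`) is a competitor, so `μH[1] S ≤ ENNReal.ofReal (PL x') < ⊤`. (1) For `x` as in the statement: `grow_of_continuum` with `X` the set of the `x j`, `ε > 0`, and `calib` with `u = om x` (`zono` with `chain_dir`; `‖om x c‖ = 1`),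
`ip (om x c) (x (c+1) - x c) = dist (x c) (x (c+1))`: `PL x ≤ (μH[1] S).toReal + ε`. So `PL x ≤ PL x'`. (3) Let `x'` differ from `x` only at `j`: `disc_opt` at `p = x j`, `c = y j` with the one or two neighbours (`ι = Unit` or `Bool`); `s = om x 0` for `j = 0`, `s = - om x (k-1)` for `j = k` (norm one), `s = om x j - om x (j-1)` for `0 < j < k`, nonzero because the imaginary parts are different.
-/

set_option autoImplicit false

open MeasureTheory Set Metric Filter Topology

namespace Pool.Agent.Lib.P7ee

namespace MinChainAux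

/-- length of the polygon -/
noncomputable def PL (k : ℕ) (x : ℕ → ℂ) : ℝ := ∑ c ∈ Finset.range k, dist (x c) (x (c + 1))

theorem norm_om {x : ℕ → ℂ} {c : ℕ} (h : x (c + 1) ≠ x c) : ‖om x c‖ = 1 := by
  unfold om
  have h1 : ‖x (c + 1) - x c‖ ≠ 0 := by
    rw [norm_ne_zero_iff]
    exact sub_ne_zero.mpr h
  rw [norm_div, Complex.norm_real, norm_norm, div_self h1]

theorem ip_om {x : ℕ → ℂ} {c : ℕ} (h : x (c + 1) ≠ x c) :
    ip (om x c) (x (c + 1) - x c) = dist (x c) (x (c + 1)) := by
  rw [dist_comm, dist_eq_norm]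
  unfold om ip
  set w := x (c + 1) - x c with hw
  have h1 : ‖w‖ ≠ 0 := by
    rw [norm_ne_zero_iff]
    exact sub_ne_zero.mpr h
  rw [Complex.div_ofReal_re, Complex.div_ofReal_im]
  have h2 : w.re * w.re + w.im * w.im = ‖w‖ ^ 2 := by
    rw [← Complex.normSq_apply, Complex.normSq_eq_norm_sq]
  have h3 : w.re / ‖w‖ * w.re + w.im / ‖w‖ * w.im = (w.re * w.re + w.im * w.im) / ‖w‖ := by
    ring
  rw [h3, h2]
  field_simp

theorem comp_poly {k : ℕ} (hk : 0 < k) (a : ℕ → ℤ) (m : ℕ) (x : ℕ → ℂ)
    (hx : ∀ j ≤ k, dist (x j) (m * zpt a j) ≤ 1) :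
    Comp {z | ∃ j ≤ k, z = m * zpt a j} 1
      (⋃ c ∈ Finset.range k, segment ℝ (x c) (x (c + 1))) := by
  obtain ⟨h1, h2, h3, _⟩ := poly_path hk x
  refine ⟨h1, h2, ?_⟩
  rintro z ⟨j, hj, rfl⟩
  exact Metric.mem_cthickening_of_dist_le _ (x j) _ _ (h3 j hj) (by rw [dist_comm]; exact hx j hj)

theorem le_PL {k : ℕ} (hk : 0 < k) (a : ℕ → ℤ) (m : ℕ) {S : Set ℂ}
    (hS : IsMinimizer {z | ∃ j ≤ k, z = m * zpt a j} 1 S) (x : ℕ → ℂ)
    (hx : ∀ j ≤ k, dist (x j) (m * zpt a j) ≤ 1) :
    μH[1] S ≤ ENNReal.ofReal (PL k x) :=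
  (hS.2 _ (comp_poly hk a m x hx)).trans (poly_path hk x).2.2.2

theorem PL_nonneg (k : ℕ) (x : ℕ → ℂ) : 0 ≤ PL k x :=
  Finset.sum_nonneg fun _ _ => dist_nonneg

theorem PL_le {k : ℕ} (hk : 0 < k) (a : ℕ → ℤ) (m : ℕ) {S : Set ℂ}
    (hS : IsMinimizer {z | ∃ j ≤ k, z = m * zpt a j} 1 S) (x : ℕ → ℂ)
    (hx : ∀ j ≤ k, x j ∈ S ∧ dist (x j) (m * zpt a j) ≤ 1)
    (hd : ∀ c < k, x (c + 1) ≠ x c ∧ 0 < (om x c).re ∧ 0 ≤ (om x c).im ∧ (om x c).im ≤ 1 / 2 ∧
        (c + 1 < k → (om x c).im < (om x (c + 1)).im)) :
    PL k x ≤ (μH[1] S).toReal := by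
  have hfin : μH[1] S < ⊤ :=
    lt_of_le_of_lt (le_PL hk a m hS x fun j hj => (hx j hj).2) ENNReal.ofReal_lt_top
  refine le_of_forall_pos_le_add fun ε hε => ?_
  classical
  obtain ⟨A, L, hG, hXA, hL⟩ := grow_of_continuum hS.1.1 hS.1.2.1 hfin
    ((Finset.range (k + 1)).image x) (by
      intro z hz
      rw [Finset.mem_image] at hz
      obtain ⟨j, hj, rfl⟩ := hz
      rw [Finset.mem_range] at hj
      exact (hx j (by omega)).1) hε
  have hcal := calib hG k (om x) (fun χ hχ => zono k (om x)
    (fun c hc => ⟨norm_om (hd c hc).1, (hd c hc).2.1, (hd c hc).2.2.1, (hd c hc).2.2.2.1⟩)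
    (fun c hc => ((hd c (by omega)).2.2.2.2 hc).le) χ hχ) x
    (fun j hj => hXA (Finset.mem_image_of_mem _ (Finset.mem_range.mpr (by omega))))
  have heq : ∑ c ∈ Finset.range k, ip (om x c) (x (c + 1) - x c) = PL k x := by
    unfold PL
    exact Finset.sum_congr rfl fun c hc => ip_om (hd c (Finset.mem_range.mp hc)).1
  rw [heq] at hcal
  exact hcal.trans hL

theorem PL_update {k : ℕ} (x : ℕ → ℂ) (j : ℕ) (z : ℂ) (t : Finset ℕ)
    (ht : t ⊆ Finset.range k) (hj : ∀ c < k, (c = j ∨ c + 1 = j) → c ∈ t) :
    PL k (Function.update x j z) - PL k x =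
      ∑ c ∈ t, (dist (Function.update x j z c) (Function.update x j z (c + 1)) -
        dist (x c) (x (c + 1))) := by
  unfold PL
  rw [← Finset.sum_sub_distrib]
  symm
  refine Finset.sum_subset ht ?_
  intro c hc hct
  have h1 : c ≠ j := fun h => hct (hj c (Finset.mem_range.mp hc) (Or.inl h))
  have h2 : c + 1 ≠ j := fun h => hct (hj c (Finset.mem_range.mp hc) (Or.inr h))
  rw [Function.update_of_ne h1, Function.update_of_ne h2, sub_self]

end MinChainAux

open MinChainAux in
theorem min_chain {k : ℕ} (hk : 0 < k) (a : ℕ → ℤ) (ha : ∀ c < k, 10 ≤ a c)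
    (hdec : ∀ c, c + 1 < k → a (c + 1) < a c) :
    ∃ m0 : ℕ, 0 < m0 ∧ ∀ m ≥ m0, ∀ S : Set ℂ,
      IsMinimizer {z | ∃ j ≤ k, z = m * zpt a j} 1 S →
      ∀ x : ℕ → ℂ, (∀ j ≤ k, x j ∈ S ∧ dist (x j) (m * zpt a j) ≤ 1) → Chain k a m x := by
  obtain ⟨m0, hm0, hdir⟩ := chain_dir k a ha hdec
  refine ⟨m0, hm0, fun m hm S hS x hx => ?_⟩
  have hd := hdir m hm x fun j hj => (hx j hj).2
  have hmin : ∀ j ≤ k, ∀ z : ℂ, dist z (m * zpt a j) ≤ 1 →
      0 ≤ PL k (Function.update x j z) - PL k x := by
    intro j hj z hz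
    have h1 := PL_le hk a m hS x hx hd
    have h2 := le_PL hk a m hS (Function.update x j z) (by
      intro i hi
      rcases eq_or_ne i j with h | h
      · subst h
        rw [Function.update_self]
        exact hz
      · rw [Function.update_of_ne h]
        exact (hx i hi).2)
    have h3 : (μH[1] S).toReal ≤ PL k (Function.update x j z) :=
      ENNReal.toReal_le_of_le_ofReal (PL_nonneg _ _) h2
    linarith
  refine ⟨fun c hc => (hd c hc).1, ?_, ?_, ?_⟩
  · -- the first point
    have hs : ∑ i : Unit, ((fun _ : Unit => x 1) i - x 0) / (‖(fun _ : Unit => x 1) i - x 0‖ : ℂ)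
        = om x 0 := by
      simp [om]
    have key := disc_opt (ι := Unit) (fun _ => x 1) (m * zpt a 0) (x 0) (hx 0 (by omega)).2
      (fun _ => (hd 0 hk).1)
      (by
        rw [hs]
        intro h
        have := norm_om (hd 0 hk).1
        rw [h, norm_zero] at this
        exact zero_ne_one this)
      (by
        intro z hz
        have h1 := hmin 0 (by omega) z hz
        rw [PL_update (k := k) x 0 z {0} (by simpa using hk) (by
          intro c _ hc
          rcases hc with h | h
          · simp [h]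
          · omega)] at h1
        rw [Finset.sum_singleton, Function.update_self, Function.update_of_ne (by omega)] at h1
        simp only [Finset.univ_unique, Finset.sum_const, Finset.card_singleton, one_smul]
        rw [dist_eq_norm, dist_eq_norm] at h1
        simpa using h1)
    rw [hs, norm_om (hd 0 hk).1, Complex.ofReal_one, div_one] at key
    exact key
  · -- the last point
    obtain ⟨l, rfl⟩ : ∃ l, k = l + 1 := ⟨k - 1, by omega⟩
    have hl : l + 1 - 1 = l := by omega
    rw [hl]
    have hne := (hd l (by omega)).1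
    have hs : ∑ i : Unit, ((fun _ : Unit => x l) i - x (l + 1)) /
        (‖(fun _ : Unit => x l) i - x (l + 1)‖ : ℂ) = - om x l := by
      simp only [Finset.univ_unique, Finset.sum_const, Finset.card_singleton, one_smul, om]
      rw [norm_sub_rev, ← neg_div, neg_sub]
    have key := disc_opt (ι := Unit) (fun _ => x l) (m * zpt a (l + 1)) (x (l + 1))
      (hx (l + 1) le_rfl).2
      (fun _ => hne.symm)
      (by
        rw [hs]
        intro h
        have := norm_om hne
        rw [neg_eq_zero.mp h, norm_zero] at this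
        exact zero_ne_one this)
      (by
        intro z hz
        have h1 := hmin (l + 1) le_rfl z hz
        rw [PL_update (k := l + 1) x (l + 1) z {l} (by simp) (by
          intro c hc hc'
          rcases hc' with h | h
          · omega
          · simp only [Finset.mem_singleton]
            omega)] at h1
        rw [Finset.sum_singleton, Function.update_self, Function.update_of_ne (by omega)] at h1
        simp only [Finset.univ_unique, Finset.sum_const, Finset.card_singleton, one_smul]
        rw [dist_comm (x l) z, dist_comm (x l) (x (l + 1)), dist_eq_norm, dist_eq_norm] at h1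
        simpa using h1)
    rw [hs, norm_neg, norm_om hne, Complex.ofReal_one, div_one] at key
    rw [key]
    ring
  · -- the points in the middle
    intro j hj0 hjk
    obtain ⟨i, rfl⟩ : ∃ i, j = i + 1 := ⟨j - 1, by omega⟩
    have hi : i + 1 - 1 = i := by omega
    rw [hi]
    have hne1 := (hd i (by omega)).1
    have hne2 := (hd (i + 1) (by omega)).1
    have him := (hd i (by omega)).2.2.2.2 (by omega)
    have hom : om x (i + 1) ≠ om x i := by
      intro h
      rw [h] at him
      exact lt_irrefl _ him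
    refine ⟨hom, ?_⟩
    let f : Bool → ℂ := fun b => if b then x (i + 1 + 1) else x i
    have hs : ∑ b : Bool, (f b - x (i + 1)) / (‖f b - x (i + 1)‖ : ℂ) = om x (i + 1) - om x i := by
      simp only [Fintype.sum_bool, f, om, if_true, Bool.false_eq_true, if_false]
      rw [norm_sub_rev (x i), sub_eq_add_neg (_ / _) (_ / _), ← neg_div, neg_sub]
    have key := disc_opt (ι := Bool) f (m * zpt a (i + 1)) (x (i + 1)) (hx (i + 1) (by omega)).2
      (by
        intro b
        cases b
        · simpa [f] using hne1.symm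
        · simpa [f] using hne2)
      (by
        rw [hs]
        exact sub_ne_zero.mpr hom)
      (by
        intro z hz
        have h1 := hmin (i + 1) (by omega) z hz
        rw [PL_update (k := k) x (i + 1) z {i, i + 1} (by
          intro c hc
          simp only [Finset.mem_insert, Finset.mem_singleton] at hc
          rw [Finset.mem_range]
          omega) (by
          intro c _ hc'
          simp only [Finset.mem_insert, Finset.mem_singleton]
          omega)] at h1
        rw [Finset.sum_pair (by omega), Function.update_self, Function.update_of_ne (by omega),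
          Function.update_of_ne (by omega)] at h1
        simp only [Fintype.sum_bool, f, if_true, Bool.false_eq_true, if_false]
        rw [dist_comm (x i) z, dist_comm (x i) (x (i + 1)), dist_eq_norm, dist_eq_norm,
          dist_eq_norm, dist_eq_norm] at h1
        linarith)
    rw [hs] at key
    exact key

end Pool.Agent.Lib.P7ee
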