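import Pool.Agent.Lib.P7ee.MinChain

/-!
# P7ee.MinEnerg: energetic points of the minimizers of the chain  (0.6 h)

`m0` from `min_chain`. Choose `x j ∈ S` with `dist (x j) (y j) ≤ 1` (`S` compact, `y j ∈ cthickening 1 S`: `IsCompact.cthickening_eq_biUnion_closedBall`). `Chain` gives `dist (x j) (y j) = 1` (unit vectors). If a point `z ∈ S` has `dist z (y j) < 1`, replace `x j` by `z`: again `Chain`, so `dist z (y j) = 1`, contradiction. So `x j` is energetic.
-/

set_option autoImplicit false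

open MeasureTheory Set Metric Filter Topology

namespace Pool.Agent.Lib.P7ee

namespace MinEnergAux

theorem norm_unit {w : ℂ} (hw : w ≠ 0) : ‖w / (‖w‖ : ℂ)‖ = 1 := by
  rw [norm_div, Complex.norm_real, norm_norm]
  exact div_self (norm_ne_zero_iff.mpr hw)

theorem om_norm {x : ℕ → ℂ} {c : ℕ} (h : x (c + 1) ≠ x c) : ‖om x c‖ = 1 :=
  norm_unit (sub_ne_zero.mpr h)

theorem dist_one {k : ℕ} (hk : 0 < k) {a : ℕ → ℤ} {m : ℕ} {x : ℕ → ℂ} (h : Chain k a m x) :
    ∀ j ≤ k, dist (x j) (m * zpt a j) = 1 := by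
  obtain ⟨hne, h0, hl, hmid⟩ := h
  intro j hj
  rw [dist_eq_norm]
  rcases Nat.eq_zero_or_pos j with rfl | hj0
  · have h1 : x 0 - m * zpt a 0 = om x 0 := by
      nth_rewrite 1 [h0]
      ring
    rw [h1]
    exact om_norm (hne 0 hk)
  · rcases hj.lt_or_eq with hjk | rfl
    · obtain ⟨h2, h3⟩ := hmid j hj0 hjk
      have h1 : x j - m * zpt a j =
          (om x j - om x (j - 1)) / (‖om x j - om x (j - 1)‖ : ℂ) := by
        nth_rewrite 1 [h3]
        ring
      rw [h1]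
      exact norm_unit (sub_ne_zero.mpr h2)
    · have h1 : x j - m * zpt a j = -om x (j - 1) := by
        nth_rewrite 1 [hl]
        ring
      rw [h1, norm_neg]
      apply om_norm
      exact hne (j - 1) (by omega)

end MinEnergAux

open MinEnergAux

theorem min_energ {k : ℕ} (hk : 0 < k) (a : ℕ → ℤ) (ha : ∀ c < k, 10 ≤ a c)
    (hdec : ∀ c, c + 1 < k → a (c + 1) < a c) :
    ∃ m0 : ℕ, 0 < m0 ∧ ∀ m ≥ m0, ∀ S : Set ℂ,
      IsMinimizer {z | ∃ j ≤ k, z = m * zpt a j} 1 S →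
      ∃ x : ℕ → ℂ, (∀ j ≤ k, x j ∈ energetic {z | ∃ j ≤ k, z = m * zpt a j} 1 S) ∧
        Chain k a m x := by
  classical
  obtain ⟨m0, hm0, H⟩ := min_chain hk a ha hdec
  refine ⟨m0, hm0, fun m hm S hS => ?_⟩
  have hcov : ∀ j ≤ k, ∃ z ∈ S, dist z (m * zpt a j) ≤ 1 := by
    intro j hj
    have h1 := hS.1.2.2 (⟨j, hj, rfl⟩ : (m : ℂ) * zpt a j ∈ {z | ∃ j ≤ k, z = m * zpt a j})
    rw [hS.1.2.1.cthickening_eq_biUnion_closedBall zero_le_one] at h1
    simp only [mem_iUnion, mem_closedBall] at h1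
    obtain ⟨z, hz, hd⟩ := h1
    exact ⟨z, hz, by rwa [dist_comm] at hd⟩
  choose! x hxS hxd using hcov
  have hch : Chain k a m x := H m hm S hS x fun j hj => ⟨hxS j hj, hxd j hj⟩
  refine ⟨x, fun j hj => ⟨hxS j hj, m * zpt a j, ⟨j, hj, rfl⟩, dist_one hk hch j hj, ?_⟩, hch⟩
  rw [Set.eq_empty_iff_forall_notMem]
  rintro z ⟨hz1, hz2⟩
  rw [mem_ball] at hz1
  let x' : ℕ → ℂ := fun i => if i = j then z else x i
  have hch' : Chain k a m x' := by
    apply H m hm S hS
    intro i hi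
    by_cases hij : i = j
    · simp only [x', hij, if_true]
      exact ⟨hz2, hz1.le⟩
    · simp only [x', hij, if_false]
      exact ⟨hxS i hi, hxd i hi⟩
  have h1 := dist_one hk hch' j hj
  simp only [x', if_true] at h1
  linarith

end Pool.Agent.Lib.P7ee
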