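import Pool.Agent.Lib.P7ee.LenBasic

/-!
# P7ee.Move: moving a vertex with at most two neighbours onto a neighbour  (1 h)

Write `2 len G P = ∑ over pairs without v + 2 * ∑ b adjacent to v, dist (P v) (P b)`; only the second sum changes. The neighbours of `v` are `u` and at most one more vertex `w` (`hdeg`). New second sum: `0 + dist (P u) (P w) ≤ dist (P v) (P u) + dist (P v) (P w)`.
-/

set_option autoImplicit false

open MeasureTheory Set Metric Filter Topology

namespace Pool.Agent.Lib.P7ee

open Classical in
private theorem MoveAux_split {V : Type} [Fintype V] [DecidableEq V] (G : SimpleGraph V) (P : V → ℂ) (v : V) :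
    len G P = (1 / 2) * ((∑ a, ∑ b, (if a = v ∨ b = v then 0 else
      (if G.Adj a b then dist (P a) (P b) else 0))) +
      2 * ∑ b, (if G.Adj v b then dist (P v) (P b) else 0)) := by
  unfold len
  congr 1
  have h1 : ∀ a b : V, (if G.Adj a b then dist (P a) (P b) else (0 : ℝ)) =
      ((if a = v ∨ b = v then 0 else (if G.Adj a b then dist (P a) (P b) else 0)) +
      (if a = v then (if G.Adj v b then dist (P v) (P b) else 0) else 0)) +
      (if b = v then (if G.Adj v a then dist (P v) (P a) else 0) else 0) := by
    intro a b
    by_cases ha : a = v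
    · subst ha
      by_cases hb : b = a
      · subst hb
        simp
      · simp [hb]
    · by_cases hb : b = v
      · subst hb
        simp [ha, G.adj_comm, dist_comm]
      · simp [ha, hb]
  have h2 : (∑ a, ∑ b, (if G.Adj a b then dist (P a) (P b) else (0 : ℝ))) =
      ∑ a, ∑ b, (((if a = v ∨ b = v then 0 else (if G.Adj a b then dist (P a) (P b) else 0)) +
      (if a = v then (if G.Adj v b then dist (P v) (P b) else 0) else 0)) +
      (if b = v then (if G.Adj v a then dist (P v) (P a) else 0) else 0)) :=
    Finset.sum_congr rfl fun a _ => Finset.sum_congr rfl fun b _ => h1 a b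
  rw [h2]
  simp only [Finset.sum_add_distrib]
  have h3 : (∑ a, ∑ b, (if a = v then (if G.Adj v b then dist (P v) (P b) else 0) else (0 : ℝ))) =
      ∑ b, (if G.Adj v b then dist (P v) (P b) else 0) := by
    rw [Fintype.sum_eq_single v]
    · simp
    · intro a ha
      simp [ha]
  have h4 : (∑ a, ∑ b, (if b = v then (if G.Adj v a then dist (P v) (P a) else 0) else (0 : ℝ))) =
      ∑ b, (if G.Adj v b then dist (P v) (P b) else 0) := by
    refine Finset.sum_congr rfl fun a _ => ?_
    rw [Fintype.sum_eq_single v]
    · simp
    · intro b hb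
      simp [hb]
  rw [h3, h4]
  ring

theorem move_le {V : Type} [Fintype V] [DecidableEq V] {G : SimpleGraph V} (P : V → ℂ) {v u : V}
    (hu : G.Adj v u)
    (hdeg : ∀ a b c, G.Adj v a → G.Adj v b → G.Adj v c → a = b ∨ a = c ∨ b = c) :
    len G (Function.update P v (P u)) ≤ len G P := by
  classical
  rw [MoveAux_split G P v, MoveAux_split G (Function.update P v (P u)) v]
  have hG : (∑ a, ∑ b, (if a = v ∨ b = v then 0 else
      (if G.Adj a b then dist (Function.update P v (P u) a) (Function.update P v (P u) b)
        else (0 : ℝ)))) =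
      ∑ a, ∑ b, (if a = v ∨ b = v then 0 else
      (if G.Adj a b then dist (P a) (P b) else 0)) := by
    refine Finset.sum_congr rfl fun a _ => Finset.sum_congr rfl fun b _ => ?_
    by_cases h : a = v ∨ b = v
    · simp [h]
    · have h' := not_or.1 h
      rw [Function.update_of_ne h'.1, Function.update_of_ne h'.2]
  rw [hG]
  have hS : (∑ b, (if G.Adj v b then dist (Function.update P v (P u) v)
      (Function.update P v (P u) b) else (0 : ℝ))) ≤
      ∑ b, (if G.Adj v b then dist (P v) (P b) else 0) := by
    have huv : u ≠ v := fun h => G.loopless.irrefl v (h ▸ hu)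
    by_cases h : ∃ w, w ≠ u ∧ G.Adj v w
    · obtain ⟨w, hwu, hw⟩ := h
      have hwv : w ≠ v := fun h => G.loopless.irrefl v (h ▸ hw)
      have hz : ∀ x, x ≠ u ∧ x ≠ w → ¬ G.Adj v x := by
        rintro x ⟨hx1, hx2⟩ hx
        rcases hdeg u w x hu hw hx with h | h | h
        · exact hwu h.symm
        · exact hx1 h.symm
        · exact hx2 h.symm
      rw [Fintype.sum_eq_add u w hwu.symm (fun x hx => by simp [hz x hx]),
        Fintype.sum_eq_add u w hwu.symm (fun x hx => by simp [hz x hx])]
      simp only [hu, hw, if_true, Function.update_self, Function.update_of_ne huv,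
        Function.update_of_ne hwv, dist_self, zero_add]
      have := dist_triangle (P u) (P v) (P w)
      rw [dist_comm (P u) (P v)] at this
      exact this
    · have hz : ∀ x, x ≠ u → ¬ G.Adj v x := fun x hx hx2 => h ⟨x, hx, hx2⟩
      rw [Fintype.sum_eq_single u (fun x hx => by simp [hz x hx]),
        Fintype.sum_eq_single u (fun x hx => by simp [hz x hx])]
      simp only [hu, if_true, Function.update_self, Function.update_of_ne huv, dist_self]
      exact dist_nonneg
  linarith

end Pool.Agent.Lib.P7ee
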