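import Pool.Agent.Lib.P7ee.NetSet
import Pool.Agent.Lib.P7ee.GrowMain
import Pool.Agent.Lib.P7ee.GrowNet

/-!
# P7ee.OptMin: optimal networks are minimizers  (1 h)

`netSet` is a competitor: `NetSet`, and `y j ∈ cthickening r` because `P (τ j)` is in it. Let `S'` be another competitor; if `μH[1] S' = ⊤` nothing to do. Otherwise each `y j` has a point `x j ∈ S'` with `dist (x j) (y j) ≤ r` (`S'` compact: `IsCompact.cthickening_eq_biUnion_closedBall`). For `ε > 0`: `grow_of_continuum` with `X` the set of the `x j`,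
`net_of_grow`, `τ' j` a vertex with position `x j`: feasible, so `len G P ≤ (μH[1] S').toReal + ε`. Let `ε → 0`, use `netSet_measure`.
-/

set_option autoImplicit false

open MeasureTheory Set Metric Filter Topology

namespace Pool.Agent.Lib.P7ee

theorem isMinimizer_netSet {n : ℕ} (hn : 0 < n) {y : Fin n → ℂ} {r : ℝ} (hr : 0 ≤ r) {N : ℕ}
    (hN : 2 ≤ N) {G : SimpleGraph (Fin N)} {P : Fin N → ℂ} {τ : Fin n → Fin N}
    (h : IsOpt y r G P τ) : IsMinimizer (Set.range y) r (netSet G P) := by
  classical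
  have h2 : 2 ≤ Fintype.card (Fin N) := by simpa using hN
  refine ⟨⟨netSet_connected h.1.1 h2 P, netSet_compact G P, ?_⟩, ?_⟩
  · rintro _ ⟨j, rfl⟩
    rw [(netSet_compact G P).cthickening_eq_biUnion_closedBall hr]
    refine Set.mem_iUnion₂.2 ⟨P (τ j), mem_netSet h.1.1 h2 P (τ j), ?_⟩
    rw [mem_closedBall, dist_comm]
    exact h.1.2 j
  · rintro S' ⟨hc, hk, hM⟩
    by_cases htop : μH[1] S' = ⊤
    · rw [htop]
      exact le_top
    have hex : ∀ j, ∃ x ∈ S', dist x (y j) ≤ r := by
      intro j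
      have h1 : y j ∈ cthickening r S' := hM ⟨j, rfl⟩
      rw [hk.cthickening_eq_biUnion_closedBall hr] at h1
      obtain ⟨x, hx, hx2⟩ := Set.mem_iUnion₂.1 h1
      rw [mem_closedBall, dist_comm] at hx2
      exact ⟨x, hx, hx2⟩
    choose x hxS hxd using hex
    have hlen : len G P ≤ (μH[1] S').toReal := by
      refine le_of_forall_pos_le_add fun ε hε => ?_
      obtain ⟨A, L, hG, hXA, hL⟩ := grow_of_continuum hc hk (lt_top_iff_ne_top.2 htop)
        (Finset.univ.image x) (by
          intro z hz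
          obtain ⟨j, _, rfl⟩ := Finset.mem_image.1 hz
          exact hxS j) hε
      obtain ⟨N', G', P', hcon, hlen', hA⟩ := net_of_grow hG
      have h3 : ∀ j, ∃ a, P' a = x j := fun j =>
        hA (x j) (hXA (Finset.mem_image_of_mem _ (Finset.mem_univ j)))
      choose τ' hτ' using h3
      have h4 : Feas y r G' P' τ' := ⟨hcon, fun j => by rw [hτ']; exact hxd j⟩
      exact ((h.2 _ G' P' τ' h4).trans hlen').trans hL
    calc μH[1] (netSet G P) ≤ ENNReal.ofReal (len G P) := netSet_measure G P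
      _ ≤ ENNReal.ofReal (μH[1] S').toReal := ENNReal.ofReal_le_ofReal hlen
      _ = μH[1] S' := ENNReal.ofReal_toReal htop

end Pool.Agent.Lib.P7ee
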