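import Pool.Agent.Lib.P7ee.Contract
import Pool.Agent.Lib.P7ee.Move
import Pool.Agent.Lib.P7ee.TreeCount

/-!
# P7ee.Reduce: reduction of the number of vertices  (1.5 h)

Among all feasible networks on some `Fin N` with length `≤ len G P` take one with minimal `N` (`Nat.find`; the given one is isomorphic to one on `Fin (card V)`, `len_comap`), and replace its graph by a spanning tree (`SimpleGraph.Connected.exists_isTree_le`, `len_mono`). If some vertex `v` outside the range of `τ` has no three
distinct neighbours and `N ≥ 2`, it has a neighbour `u`; `move_le` and then `contract` (the positions of `v` and `u` agree; `τ' = f ∘ τ`; the position of `τ j` was not changed because `τ j ≠ v`) give a smaller one, contradiction. So `tree_card_le` applies (case `N ≤ 1`: `n ≥ 1` is assumed).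
-/

set_option autoImplicit false

open MeasureTheory Set Metric Filter Topology

namespace Pool.Agent.Lib.P7ee

private theorem reduce_aux {n : ℕ} (hn : 0 < n) (y : Fin n → ℂ) {r : ℝ} (k : ℕ) :
    ∀ (V : Type) [Fintype V] (G : SimpleGraph V) (P : V → ℂ) (τ : Fin n → V),
      Fintype.card V ≤ k → Feas y r G P τ →
    ∃ N ≤ 2 * n, ∃ (G' : SimpleGraph (Fin N)) (P' : Fin N → ℂ) (τ' : Fin n → Fin N),
      Feas y r G' P' τ' ∧ len G' P' ≤ len G P := by
  classical
  induction k with
  | zero =>
    intro V _ G P τ hc _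
    have : 0 < Fintype.card V := Fintype.card_pos_iff.mpr ⟨τ ⟨0, hn⟩⟩
    omega
  | succ k ih =>
    intro V _ G P τ hc hF
    obtain ⟨T, hTG, hT⟩ := hF.1.exists_isTree_le
    have hlenT : len T P ≤ len G P := len_mono hTG P
    have hFT : Feas y r T P τ := ⟨hT.1, hF.2⟩
    by_cases hall : ∀ v, (∀ j, τ j ≠ v) → ∃ a b c, T.Adj v a ∧ T.Adj v b ∧ T.Adj v c ∧
      a ≠ b ∧ a ≠ c ∧ b ≠ c
    · have hcard := tree_card_le hT τ hall
      refine ⟨Fintype.card V, hcard, ?_⟩
      let e : Fin (Fintype.card V) ≃ V := (Fintype.equivFin V).symm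
      refine ⟨T.comap e, P ∘ e, e.symm ∘ τ, ⟨?_, ?_⟩, ?_⟩
      · exact (SimpleGraph.Iso.comap e T).connected_iff.mpr hT.1
      · intro j
        simpa using hF.2 j
      · exact le_trans (le_of_eq (len_comap e T P)) hlenT
    · push Not at hall
      obtain ⟨v, hv, hno⟩ := hall
      have hne : v ≠ τ ⟨0, hn⟩ := (hv _).symm
      obtain ⟨u, hu⟩ : ∃ u, T.Adj v u := by
        obtain ⟨p⟩ := hT.1.preconnected v (τ ⟨0, hn⟩)
        cases p with
        | nil => exact absurd rfl hne
        | cons h _ => exact ⟨_, h⟩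
      have hmove : len T (Function.update P v (P u)) ≤ len T P := by
        refine move_le P hu ?_
        intro a b c ha hb hc
        by_contra hcon
        push Not at hcon
        exact hcon.2.2 (hno a b c ha hb hc hcon.1 hcon.2.1)
      have huv : u ≠ v := hu.ne'
      obtain ⟨V', hV', G', P', f, hG', hP', hl', hc'⟩ :=
        contract (P := Function.update P v (P u)) hT.1 hu.symm
          (by rw [Function.update_of_ne huv, Function.update_self])
      have hF' : Feas y r G' P' (f ∘ τ) := by
        refine ⟨hG', fun j => ?_⟩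
        rw [Function.comp_apply, hP', Function.update_of_ne (hv j)]
        exact hF.2 j
      obtain ⟨N, hN, G2, P2, τ2, hF2, hl2⟩ := ih V' G' P' (f ∘ τ) (by omega) hF'
      exact ⟨N, hN, G2, P2, τ2, hF2, hl2.trans (hl'.trans (hmove.trans hlenT))⟩

theorem reduce {n : ℕ} (hn : 0 < n) (y : Fin n → ℂ) {r : ℝ} {V : Type} [Fintype V]
    {G : SimpleGraph V} {P : V → ℂ} {τ : Fin n → V} (h : Feas y r G P τ) :
    ∃ N ≤ 2 * n, ∃ (G' : SimpleGraph (Fin N)) (P' : Fin N → ℂ) (τ' : Fin n → Fin N),
      Feas y r G' P' τ' ∧ len G' P' ≤ len G P := by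
  exact reduce_aux hn y (Fintype.card V) V G P τ le_rfl h

end Pool.Agent.Lib.P7ee
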