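import Pool.Agent.Lib.P7ee.UDefs

/-!
# P7ee.Torque: torque and length of a component  (1.2 h)

Let `x ∈ c` range over the darts of the component `c`. (1) `∑_(x ∈ c) conj (dd x) * P x.fst`: pair `x` with `x.symm` (same component; `dd x.symm = - dd x`): twice the sum is `∑ conj (dd x) (P x.fst - P x.snd) = - ∑ dist` (`conj (dir) * (P b - P a) = ‖P b - P a‖`, `|dir| = 1`, `hne`). (2) The darts in `c` starting at a vertex `v` with `B v` are either all darts at `v` or none
(they are pairwise joined), and `∑_(darts at v) conj (dd x) * P v = conj (svec G P v) * P v = 0`. So these terms drop out.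
-/

set_option autoImplicit false

open Set Metric

namespace Pool.Agent.Lib.P7ee

namespace TorqueAux

theorem cc_symm {V : Type} {G : SimpleGraph V} (B : V → Prop) (x : G.Dart) :
    (dgr G B).connectedComponentMk x.symm = (dgr G B).connectedComponentMk x := by
  apply SimpleGraph.ConnectedComponent.sound
  apply SimpleGraph.Adj.reachable
  rw [dgr, SimpleGraph.fromRel_adj]
  refine ⟨x.symm_ne, Or.inr (Or.inl rfl)⟩

theorem cc_fst {V : Type} {G : SimpleGraph V} (B : V → Prop) (x x' : G.Dart)
    (h : x.fst = x'.fst) (hB : B x.fst) :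
    (dgr G B).connectedComponentMk x = (dgr G B).connectedComponentMk x' := by
  by_cases hx : x = x'
  · rw [hx]
  · apply SimpleGraph.ConnectedComponent.sound
    apply SimpleGraph.Adj.reachable
    rw [dgr, SimpleGraph.fromRel_adj]
    exact ⟨hx, Or.inl (Or.inr ⟨h, hB⟩)⟩

theorem dd_symm {V : Type} {G : SimpleGraph V} (P : V → ℂ) (x : G.Dart) :
    dd P x.symm = - dd P x := by
  have h1 : x.symm.fst = x.snd := rfl
  have h2 : x.symm.snd = x.fst := rfl
  rw [dd, dd, dir, dir, h1, h2, norm_sub_rev (P x.fst) (P x.snd), ← neg_div, neg_sub]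

theorem conj_dd_mul {V : Type} {G : SimpleGraph V} (P : V → ℂ)
    (hne : ∀ a b, G.Adj a b → P a ≠ P b) (x : G.Dart) :
    (starRingEnd ℂ) (dd P x) * (P x.fst - P x.snd) = -((dist (P x.fst) (P x.snd) : ℝ) : ℂ) := by
  have hx : P x.snd - P x.fst ≠ 0 := sub_ne_zero.2 (hne _ _ x.adj).symm
  have hn : ((‖P x.snd - P x.fst‖ : ℝ) : ℂ) ≠ 0 := by
    simpa using hx
  rw [dd, dir, map_div₀, Complex.conj_ofReal, dist_comm, dist_eq_norm,
    ← neg_sub (P x.snd) (P x.fst), mul_neg, neg_inj, div_mul_eq_mul_div,
    ← Complex.normSq_eq_conj_mul_self, Complex.normSq_eq_norm_sq, div_eq_iff hn]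
  push_cast
  ring

open Classical in
theorem sum_dd {V : Type} [Fintype V] (G : SimpleGraph V) (P : V → ℂ) (v : V) :
    ∑ x : G.Dart, (if x.fst = v then dd P x else 0) = svec G P v := by
  rw [svec, ← Finset.sum_filter, ← Finset.sum_filter]
  refine Finset.sum_bij (fun x _ => x.snd) ?_ ?_ ?_ ?_
  · intro x hx
    rw [Finset.mem_filter] at hx
    rw [Finset.mem_filter]
    refine ⟨Finset.mem_univ _, ?_⟩
    have := x.adj
    rw [hx.2] at this
    exact this
  · intro x hx x' hx' h
    rw [Finset.mem_filter] at hx hx'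
    apply SimpleGraph.Dart.ext
    exact Prod.ext (hx.2.trans hx'.2.symm) h
  · intro b hb
    rw [Finset.mem_filter] at hb
    exact ⟨⟨(v, b), hb.2⟩, by simp, rfl⟩
  · intro x hx
    rw [Finset.mem_filter] at hx
    rw [dd, hx.2]

end TorqueAux

open Classical in
theorem torque_sum {V : Type} [Fintype V] {G : SimpleGraph V} {P : V → ℂ}
    (hne : ∀ a b, G.Adj a b → P a ≠ P b) (B : V → Prop) (hB : ∀ v, B v → svec G P v = 0)
    (c : (dgr G B).ConnectedComponent) :
    ∑ x : G.Dart, (if (dgr G B).connectedComponentMk x = c ∧ ¬ B x.fst then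
      (starRingEnd ℂ) (dd P x) * P x.fst else 0) =
    -(((1 / 2) * ∑ x : G.Dart, (if (dgr G B).connectedComponentMk x = c then
      dist (P x.fst) (P x.snd) else 0) : ℝ) : ℂ) := by
  -- total sum
  have hsym : ∑ x : G.Dart, (if (dgr G B).connectedComponentMk x = c then
      (starRingEnd ℂ) (dd P x) * P x.fst else 0) =
      ∑ x : G.Dart, (if (dgr G B).connectedComponentMk x = c then
      -((starRingEnd ℂ) (dd P x) * P x.snd) else 0) := by
    refine Fintype.sum_equiv (SimpleGraph.Dart.symm_involutive (G := G)).toPerm _ _ ?_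
    intro x
    rw [Function.Involutive.coe_toPerm, TorqueAux.cc_symm, TorqueAux.dd_symm]
    have h2 : x.symm.snd = x.fst := rfl
    rw [h2, map_neg, neg_mul, neg_neg]
  have htot : 2 * ∑ x : G.Dart, (if (dgr G B).connectedComponentMk x = c then
      (starRingEnd ℂ) (dd P x) * P x.fst else 0) =
      -∑ x : G.Dart, (if (dgr G B).connectedComponentMk x = c then
      ((dist (P x.fst) (P x.snd) : ℝ) : ℂ) else 0) := by
    rw [two_mul]
    nth_rewrite 2 [hsym]
    rw [← Finset.sum_add_distrib, ← Finset.sum_neg_distrib]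
    refine Finset.sum_congr rfl ?_
    intro x _
    by_cases hx : (dgr G B).connectedComponentMk x = c
    · rw [if_pos hx, if_pos hx, if_pos hx, ← TorqueAux.conj_dd_mul P hne x]
      ring
    · rw [if_neg hx, if_neg hx, if_neg hx]
      ring
  -- balanced part
  have hbal : ∑ x : G.Dart, (if (dgr G B).connectedComponentMk x = c ∧ B x.fst then
      (starRingEnd ℂ) (dd P x) * P x.fst else 0) = 0 := by
    have h1 : ∀ x : G.Dart, (if (dgr G B).connectedComponentMk x = c ∧ B x.fst then
        (starRingEnd ℂ) (dd P x) * P x.fst else 0) =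
        ∑ v : V, (if x.fst = v then (if (dgr G B).connectedComponentMk x = c ∧ B x.fst then
        (starRingEnd ℂ) (dd P x) * P x.fst else 0) else 0) := by
      intro x
      rw [Finset.sum_ite_eq]
      simp
    rw [Finset.sum_congr rfl (fun x _ => h1 x), Finset.sum_comm]
    refine Finset.sum_eq_zero ?_
    intro v _
    by_cases hv : B v ∧ ∃ x₀ : G.Dart, x₀.fst = v ∧ (dgr G B).connectedComponentMk x₀ = c
    · obtain ⟨hBv, x₀, hx₀, hc⟩ := hv
      have h2 : ∀ x : G.Dart, (if x.fst = v then
          (if (dgr G B).connectedComponentMk x = c ∧ B x.fst then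
          (starRingEnd ℂ) (dd P x) * P x.fst else 0) else 0) =
          (starRingEnd ℂ) (if x.fst = v then dd P x else 0) * P v := by
        intro x
        by_cases hx : x.fst = v
        · have h3 : (dgr G B).connectedComponentMk x = c ∧ B x.fst := by
            refine ⟨?_, by rw [hx]; exact hBv⟩
            rw [← hc]
            exact TorqueAux.cc_fst B x x₀ (hx.trans hx₀.symm) (by rw [hx]; exact hBv)
          rw [if_pos hx, if_pos h3, if_pos hx, hx]
        · rw [if_neg hx, if_neg hx, map_zero, zero_mul]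
      rw [Finset.sum_congr rfl (fun x _ => h2 x), ← Finset.sum_mul, ← map_sum,
        TorqueAux.sum_dd, hB v hBv, map_zero, zero_mul]
    · refine Finset.sum_eq_zero ?_
      intro x _
      by_cases hx : x.fst = v
      · rw [if_pos hx, if_neg]
        rintro ⟨h4, h5⟩
        apply hv
        rw [hx] at h5
        exact ⟨h5, x, hx, h4⟩
      · rw [if_neg hx]
  have hsplit : ∑ x : G.Dart, (if (dgr G B).connectedComponentMk x = c then
      (starRingEnd ℂ) (dd P x) * P x.fst else 0) =
      ∑ x : G.Dart, (if (dgr G B).connectedComponentMk x = c ∧ ¬ B x.fst then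
      (starRingEnd ℂ) (dd P x) * P x.fst else 0) +
      ∑ x : G.Dart, (if (dgr G B).connectedComponentMk x = c ∧ B x.fst then
      (starRingEnd ℂ) (dd P x) * P x.fst else 0) := by
    rw [← Finset.sum_add_distrib]
    refine Finset.sum_congr rfl ?_
    intro x _
    by_cases hx : (dgr G B).connectedComponentMk x = c
    · by_cases hb : B x.fst
      · rw [if_pos hx, if_neg (fun h => h.2 hb), if_pos ⟨hx, hb⟩, zero_add]
      · rw [if_pos hx, if_pos ⟨hx, hb⟩, if_neg (fun h => hb h.2), add_zero]
    · rw [if_neg hx, if_neg (fun h => hx h.1), if_neg (fun h => hx h.1), add_zero]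
  rw [hbal, add_zero] at hsplit
  rw [← hsplit]
  have hcast : ((((1 / 2) * ∑ x : G.Dart, (if (dgr G B).connectedComponentMk x = c then
      dist (P x.fst) (P x.snd) else 0) : ℝ) : ℝ) : ℂ) =
      (1 / 2) * ∑ x : G.Dart, (if (dgr G B).connectedComponentMk x = c then
      ((dist (P x.fst) (P x.snd) : ℝ) : ℂ) else 0) := by
    push_cast
    congr 1
    refine Finset.sum_congr rfl ?_
    intro x _
    split_ifs <;> simp
  rw [hcast]
  linear_combination (1 / 2) * htot

end Pool.Agent.Lib.P7ee
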