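import Pool.Agent.Lib.P7ee.UDefs
import Pool.Agent.Lib.P7ee.VertexClass
import Pool.Agent.Lib.P7ee.DegThree

/-!
# P7ee.UnbInfo: the unbalanced vertices of an optimal network  (1.2 h)

`N ≥ 2` and connected: every vertex has a neighbour. `svec G P v ≠ 0` excludes three distinct neighbours (`three`), so `v` is `Leaf` or `Two`. `vertex_class`: not balanced, not a corner, so `P v - y j = svec/μ`, `‖P v - y j‖ = r`. Leaf: `svec = dir P v a`, norm one, so `μ r = 1` and `P v = y j + r * dir P v a`. Two neighbours: `s = d_a + d_b`, `ν = s/‖s‖ = (P v - y j)/r`;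
`ν² = d_a d_b` (for unit vectors `conj s = s/(d_a d_b)`, so `‖s‖² = s²/(d_a d_b)`); `ip d_a s = 1 + ip d_a d_b = ip d_b s`, which is `≥ 0`, so `ip d_a ν = ip d_b ν ≥ 0`. Every `v` with three neighbours is `Three` (`three`).
-/

set_option autoImplicit false



namespace Pool.Agent.Lib.P7ee

namespace UnbInfoAux

theorem exists_adj {V : Type} [Fintype V] {G : SimpleGraph V} (hG : G.Connected)
    (h2 : 2 ≤ Fintype.card V) (v : V) : ∃ a, G.Adj v a := by
  classical
  haveI : Nontrivial V := Fintype.one_lt_card_iff_nontrivial.1 (by omega)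
  obtain ⟨w, hw⟩ := exists_ne v
  obtain ⟨p⟩ := hG.preconnected v w
  cases p with
  | nil => exact absurd rfl hw
  | cons hadj _ => exact ⟨_, hadj⟩

open Classical in
theorem svec_one {V : Type} [Fintype V] {G : SimpleGraph V} (P : V → ℂ) {v a : V}
    (h : ∀ b, G.Adj v b ↔ b = a) : svec G P v = dir P v a := by
  unfold svec
  have e1 : ∀ x, (if G.Adj v x then dir P v x else 0) = (if x = a then dir P v x else 0) := by
    intro x
    by_cases hx : x = a
    · rw [if_pos ((h x).2 hx), if_pos hx]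
    · rw [if_neg (fun h' => hx ((h x).1 h')), if_neg hx]
  rw [Finset.sum_congr rfl (fun x _ => e1 x), Finset.sum_ite_eq' Finset.univ a (fun x => dir P v x),
    if_pos (Finset.mem_univ a)]

open Classical in
theorem svec_two {V : Type} [Fintype V] {G : SimpleGraph V} (P : V → ℂ) {v a b : V} (hab : a ≠ b)
    (h : ∀ e, G.Adj v e ↔ e = a ∨ e = b) : svec G P v = dir P v a + dir P v b := by
  unfold svec
  have hfil : ∀ x, G.Adj v x ↔ x ∈ ({a, b} : Finset V) := by
    intro x
    rw [h x]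
    simp
  have e1 : ∀ x, (if G.Adj v x then dir P v x else 0) =
      (if x ∈ ({a, b} : Finset V) then dir P v x else 0) := by
    intro x
    by_cases hx : G.Adj v x
    · rw [if_pos hx, if_pos ((hfil x).1 hx)]
    · rw [if_neg hx, if_neg (fun h' => hx ((hfil x).2 h'))]
  rw [Finset.sum_congr rfl (fun x _ => e1 x), Finset.sum_ite_mem, Finset.univ_inter,
    Finset.sum_insert (by simp [hab]), Finset.sum_singleton]

/-- one or two neighbours, or the sum of the directions is zero and there are three -/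
theorem cases3 {n : ℕ} {y : Fin n → ℂ} {r : ℝ} {V : Type} [Fintype V]
    {G : SimpleGraph V} {P : V → ℂ} {τ : Fin n → V} (h : IsOpt y r G P τ)
    (hne : ∀ a b, G.Adj a b → P a ≠ P b) (h2 : 2 ≤ Fintype.card V) (v : V) :
    (∃ a, ∀ b, G.Adj v b ↔ b = a) ∨ (∃ a b, a ≠ b ∧ ∀ e, G.Adj v e ↔ e = a ∨ e = b) ∨
      (svec G P v = 0 ∧
        ∃ a b c, a ≠ b ∧ a ≠ c ∧ b ≠ c ∧ ∀ e, G.Adj v e ↔ e = a ∨ e = b ∨ e = c) := by
  obtain ⟨a, ha⟩ := exists_adj h.1.1 h2 v
  by_cases h1 : ∃ b, G.Adj v b ∧ b ≠ a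
  · obtain ⟨b, hb, hba⟩ := h1
    by_cases h3 : ∃ c, G.Adj v c ∧ c ≠ a ∧ c ≠ b
    · obtain ⟨c, hc, hca, hcb⟩ := h3
      obtain ⟨h4, h5, h6⟩ := three h hne ha hb hc (Ne.symm hba) (Ne.symm hca) (Ne.symm hcb)
      refine Or.inr (Or.inr ⟨h4, a, b, c, Ne.symm hba, Ne.symm hca, Ne.symm hcb, fun e => ?_⟩)
      constructor
      · exact h5 e
      · rintro (rfl | rfl | rfl) <;> assumption
    · refine Or.inr (Or.inl ⟨a, b, Ne.symm hba, fun e => ?_⟩)
      constructor
      · intro he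
        by_contra hcon
        push Not at hcon
        exact h3 ⟨e, he, hcon.1, hcon.2⟩
      · rintro (rfl | rfl) <;> assumption
  · refine Or.inl ⟨a, fun b => ?_⟩
    constructor
    · intro hb
      by_contra hcon
      exact h1 ⟨b, hb, hcon⟩
    · rintro rfl
      exact ha

theorem nsq {z : ℂ} (h : ‖z‖ = 1) : z.re * z.re + z.im * z.im = 1 := by
  have h2 : Complex.normSq z = 1 := by
    rw [Complex.normSq_eq_norm_sq, h]
    norm_num
  rwa [Complex.normSq_apply] at h2

/-- the algebra for two neighbours -/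
theorem two_alg {p q w : ℂ} {μ r : ℝ} (hr : 0 < r) (hμ : 0 < μ) (hp : ‖p‖ = 1) (hq : ‖q‖ = 1)
    (hw : ‖w‖ = r) (hs : p + q = μ * w) :
    ‖w / r‖ = 1 ∧ (w / r) ^ 2 = p * q ∧ 0 ≤ ip p (w / r) ∧ ip p (w / r) = ip q (w / r) := by
  have hp2 := nsq hp
  have hq2 := nsq hq
  have hw1 : ‖w / r‖ = 1 := by
    rw [norm_div, hw, Complex.norm_real, Real.norm_of_nonneg hr.le, div_self hr.ne']
  have hw2 := nsq hw1
  set u := w / (r : ℂ) with hu
  have hr' : (r : ℂ) ≠ 0 := by exact_mod_cast hr.ne'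
  have hwu : w = r * u := by
    rw [hu]
    field_simp
  have hκ : p + q = ((μ * r : ℝ) : ℂ) * u := by
    rw [hs, hwu]
    push_cast
    ring
  have hκ0 : 0 < μ * r := mul_pos hμ hr
  set κ := μ * r with hκdef
  have hre : p.re + q.re = κ * u.re := by
    have := congrArg Complex.re hκ
    simpa using this
  have him : p.im + q.im = κ * u.im := by
    have := congrArg Complex.im hκ
    simpa using this
  -- κ ^ 2 = 2 + 2 p·q
  have hκ2 : κ * κ = 2 + 2 * (p.re * q.re + p.im * q.im) := by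
    have e1 : (κ * u.re) * (κ * u.re) + (κ * u.im) * (κ * u.im) = κ * κ := by
      calc (κ * u.re) * (κ * u.re) + (κ * u.im) * (κ * u.im)
          = κ * κ * (u.re * u.re + u.im * u.im) := by ring
        _ = κ * κ := by rw [hw2, mul_one]
    rw [← e1, ← hre, ← him]
    linear_combination hp2 + hq2
  have hip : κ * ip p u = 1 + (p.re * q.re + p.im * q.im) := by
    unfold ip
    have : κ * (p.re * u.re + p.im * u.im) = p.re * (κ * u.re) + p.im * (κ * u.im) := by ring
    rw [this, ← hre, ← him]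
    linear_combination hp2
  have hiq : κ * ip q u = 1 + (p.re * q.re + p.im * q.im) := by
    unfold ip
    have : κ * (q.re * u.re + q.im * u.im) = q.re * (κ * u.re) + q.im * (κ * u.im) := by ring
    rw [this, ← hre, ← him]
    linear_combination hq2
  have hx : κ * ip p u = κ * (κ / 2) := by
    rw [hip]
    linarith [hκ2]
  have hy : κ * ip q u = κ * (κ / 2) := by
    rw [hiq]
    linarith [hκ2]
  have hx' : ip p u = κ / 2 := mul_left_cancel₀ hκ0.ne' hx
  have hy' : ip q u = κ / 2 := mul_left_cancel₀ hκ0.ne' hy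
  refine ⟨hw1, ?_, by rw [hx']; positivity, by rw [hx', hy']⟩
  -- κ ^ 2 * u ^ 2 = (p + q) ^ 2 = κ ^ 2 * (p * q)
  have hpc : p * (starRingEnd ℂ) p = 1 := by
    rw [Complex.mul_conj, Complex.normSq_eq_norm_sq, hp]
    norm_num
  have hqc : q * (starRingEnd ℂ) q = 1 := by
    rw [Complex.mul_conj, Complex.normSq_eq_norm_sq, hq]
    norm_num
  have huc : u * (starRingEnd ℂ) u = 1 := by
    rw [Complex.mul_conj, Complex.normSq_eq_norm_sq, hw1]
    norm_num
  have hcc : (starRingEnd ℂ) p + (starRingEnd ℂ) q = (κ : ℂ) * (starRingEnd ℂ) u := by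
    rw [← map_add, hκ, map_mul, Complex.conj_ofReal]
  have hκC : (κ : ℂ) ≠ 0 := by exact_mod_cast hκ0.ne'
  -- p q (conj p + conj q) = p + q
  have h3 : p * q * ((κ : ℂ) * (starRingEnd ℂ) u) = (κ : ℂ) * u := by
    rw [← hcc, ← hκ]
    linear_combination q * hpc + p * hqc
  have h4 : p * q * (starRingEnd ℂ) u = u := by
    apply mul_left_cancel₀ hκC
    linear_combination h3
  calc u ^ 2 = u * u := by ring
    _ = (p * q * (starRingEnd ℂ) u) * u := by rw [h4]
    _ = p * q * (u * (starRingEnd ℂ) u) := by ring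
    _ = p * q := by rw [huc, mul_one]

end UnbInfoAux

open UnbInfoAux in
theorem unb_info {n : ℕ} {y : Fin n → ℂ} {r : ℝ} (hr : 0 < r) {V : Type} [Fintype V]
    {G : SimpleGraph V} {P : V → ℂ} {τ : Fin n → V} (h : IsOpt y r G P τ)
    (hne : ∀ a b, G.Adj a b → P a ≠ P b) (h2 : 2 ≤ Fintype.card V) {v : V}
    (hv : svec G P v ≠ 0) (hc : ¬ Corner y r P τ v) :
    (∃ a j, (∀ b, G.Adj v b ↔ b = a) ∧ τ j = v ∧ P v = y j + r * dir P v a) ∨
    ∃ a b j ν, a ≠ b ∧ (∀ e, G.Adj v e ↔ e = a ∨ e = b) ∧ τ j = v ∧ P v = y j + r * ν ∧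
      ‖ν‖ = 1 ∧ ν ^ 2 = dir P v a * dir P v b ∧ 0 ≤ ip (dir P v a) ν ∧
      ip (dir P v a) ν = ip (dir P v b) ν := by
  rcases vertex_class hr h hne v with h0 | ⟨j, hj, hd, μ, hμ, hs⟩ | hcor
  · exact absurd h0 hv
  · have hw : ‖P v - y j‖ = r := by rw [← dist_eq_norm]; exact hd
    rcases cases3 h hne h2 v with ⟨a, ha⟩ | ⟨a, b, hab, hE⟩ | ⟨h0, _⟩
    · left
      refine ⟨a, j, ha, hj, ?_⟩
      have hadj : G.Adj v a := (ha a).2 rfl
      have hn := norm_dir (hne v a hadj)
      have hsv := svec_one P ha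
      rw [hsv] at hs
      have h1 : μ * r = 1 := by
        have := congrArg (fun z => ‖z‖) hs
        simp only [norm_mul, hn, hw, Complex.norm_real, Real.norm_of_nonneg hμ.le] at this
        exact this.symm
      have h1' : (r : ℂ) * (μ : ℂ) = 1 := by
        rw [mul_comm]
        exact_mod_cast h1
      rw [hs]
      linear_combination -(P v - y j) * h1'
    · right
      have na := norm_dir (hne v a ((hE a).2 (Or.inl rfl)))
      have nb := norm_dir (hne v b ((hE b).2 (Or.inr rfl)))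
      rw [svec_two P hab hE] at hs
      obtain ⟨q1, q2, q3, q4⟩ := two_alg hr hμ na nb hw hs
      refine ⟨a, b, j, (P v - y j) / r, hab, hE, hj, ?_, q1, q2, q3, q4⟩
      have hr' : (r : ℂ) ≠ 0 := by exact_mod_cast hr.ne'
      field_simp
      ring
    · exact absurd h0 hv
  · exact absurd hcor hc

open UnbInfoAux in
theorem unb_deg {n : ℕ} {y : Fin n → ℂ} {r : ℝ} {V : Type} [Fintype V]
    {G : SimpleGraph V} {P : V → ℂ} {τ : Fin n → V} (h : IsOpt y r G P τ)
    (hne : ∀ a b, G.Adj a b → P a ≠ P b) (h2 : 2 ≤ Fintype.card V) (v : V) :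
    (svec G P v ≠ 0 → Leaf G v ∨ Two G v) ∧ (svec G P v = 0 → Two G v ∨ Three G v) := by
  rcases cases3 h hne h2 v with ⟨a, ha⟩ | ⟨a, b, hab, hE⟩ | ⟨h0, a, b, c, hab, hac, hbc, hE⟩
  · refine ⟨fun _ => Or.inl ⟨a, ha⟩, fun h0 => ?_⟩
    exfalso
    have hn := norm_dir (hne v a ((ha a).2 rfl))
    rw [svec_one P ha] at h0
    rw [h0, norm_zero] at hn
    exact zero_ne_one hn
  · exact ⟨fun _ => Or.inr ⟨a, b, hab, hE⟩, fun _ => Or.inl ⟨a, b, hab, hE⟩⟩
  · exact ⟨fun h1 => absurd h0 h1, fun _ => Or.inr ⟨a, b, c, hab, hac, hbc, hE⟩⟩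

end Pool.Agent.Lib.P7ee
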