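import Pool.Agent.Lib.P7ee.BdDegree
import Pool.Agent.Lib.P7ee.UnbInfo
import Pool.Agent.Lib.P7ee.Torque
import Pool.Agent.Lib.P7ee.DirPow
import Pool.Agent.Lib.P7ee.CompCount
import Pool.Agent.Lib.P7ee.SqrtField

/-!
# P7ee.SysField: the field of an optimal network

`B v := svec G P v = 0`, `C` the set of connected components of `dgr G B`, `X = {x : G.Dart // ¬ B x.fst}`. For `c : C` choose a dart in `c`
and `t c` with `t c ^ 2` its direction. For a dart `x` in `c`: `ε x = dd x / t c ^ 2`, a root of unity. The boundary data of the network are assembled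
and `bd_degree` is applied.
-/

set_option autoImplicit false

namespace Pool.Agent.Lib.P7ee

namespace SysFieldAux

/-- information at an unbalanced vertex -/
structure VI {V : Type} (G : SimpleGraph V) (P : V → ℂ) (r : ℝ) (F : IntermediateField ℚ ℝ)
    (v : V) (k : Fin 3) (z ν : ℂ) : Prop where
  hz : InK F z
  h0 : k = 0 → P v = z
  h1 : k = 1 → (∃ x : G.Dart, x.fst = v) ∧ ∀ x : G.Dart, x.fst = v → P v = z + r * dd P x
  h2 : k = 2 → (∃ a b, a ≠ b ∧ ∀ e, G.Adj v e ↔ e = a ∨ e = b) ∧ P v = z + r * ν ∧ ‖ν‖ = 1 ∧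
    ∀ x x' : G.Dart, x.fst = v → x'.fst = v → x ≠ x' →
      ν ^ 2 = dd P x * dd P x' ∧ 0 ≤ ip (dd P x) ν ∧ ip (dd P x) ν = ip (dd P x') ν

theorem inK_ratPt {F : IntermediateField ℚ ℝ} {z : ℂ} (h : RatPt z) : InK F z := by
  obtain ⟨⟨q, hq⟩, ⟨q', hq'⟩⟩ := h
  exact ⟨by rw [hq]; exact InK.rat q, by rw [hq']; exact InK.rat q'⟩

theorem dart_eq {V : Type} {G : SimpleGraph V} {x x' : G.Dart} (h : x.fst = x'.fst)
    (h' : x.snd = x'.snd) : x = x' := by
  apply SimpleGraph.Dart.ext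
  exact Prod.ext h h'

theorem vertex_info {n : ℕ} {y : Fin n → ℂ} {r : ℝ} (hr : 0 < r) (hy : ∀ j, RatPt (y j))
    {V : Type} [Fintype V]
    {G : SimpleGraph V} {P : V → ℂ} {τ : Fin n → V} (h : IsOpt y r G P τ)
    (hne : ∀ a b, G.Adj a b → P a ≠ P b) (h2 : 2 ≤ Fintype.card V)
    (F : IntermediateField ℚ ℝ)
    (hF : ∀ v, svec G P v ≠ 0 → Corner y r P τ v → InK F (P v)) (v : V) :
    ∃ (k : Fin 3) (z ν : ℂ), svec G P v ≠ 0 → VI G P r F v k z ν := by
  by_cases hv : svec G P v = 0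
  · exact ⟨0, 0, 0, fun h' => absurd hv h'⟩
  by_cases hc : Corner y r P τ v
  · refine ⟨0, P v, 0, fun _ => ⟨hF v hv hc, fun _ => rfl, fun h' => ?_, fun h' => ?_⟩⟩
    · exact absurd h' (by decide)
    · exact absurd h' (by decide)
  rcases unb_info hr h hne h2 hv hc with ⟨a, j, ha, _, hP⟩ | ⟨a, b, j, ν, hab, hadj, _, hP, hν, hsq, hip, hip'⟩
  · refine ⟨1, y j, 0, fun _ => ⟨inK_ratPt (hy j), fun h' => absurd h' (by decide), fun _ => ?_,
      fun h' => absurd h' (by decide)⟩⟩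
    have hva : G.Adj v a := (ha a).2 rfl
    refine ⟨⟨⟨(v, a), hva⟩, rfl⟩, ?_⟩
    rintro ⟨⟨v', b⟩, hx⟩ rfl
    have : b = a := (ha b).1 hx
    subst this
    exact hP
  · refine ⟨2, y j, ν, fun _ => ⟨inK_ratPt (hy j), fun h' => absurd h' (by decide),
      fun h' => absurd h' (by decide), fun _ => ⟨⟨a, b, hab, hadj⟩, hP, hν, ?_⟩⟩⟩
    rintro ⟨⟨v', e⟩, hx⟩ ⟨⟨v'', e'⟩, hx'⟩ h1 h1' hxx
    have h1 : v' = v := h1
    have h1' : v'' = v := h1'
    subst h1
    subst h1'
    have hee : e ≠ e' := by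
      rintro rfl
      exact hxx rfl
    rcases (hadj e).1 hx with rfl | rfl <;> rcases (hadj e').1 hx' with rfl | rfl
    · exact absurd rfl hee
    · exact ⟨hsq, hip, hip'⟩
    · have hip2 := hip
      rw [hip'] at hip2
      exact ⟨by rw [hsq]; exact mul_comm _ _, hip2, hip'.symm⟩
    · exact absurd rfl hee

theorem other_dart {V : Type} {G : SimpleGraph V} {B : V → Prop}
    (x : {x : G.Dart // ¬ B x.fst})
    (h : ∃ a b, a ≠ b ∧ ∀ e, G.Adj x.1.fst e ↔ e = a ∨ e = b) :
    ∃ x' : {x : G.Dart // ¬ B x.fst}, x'.1.fst = x.1.fst ∧ x' ≠ x ∧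
      ∀ x'' : {x : G.Dart // ¬ B x.fst}, x''.1.fst = x.1.fst → x'' ≠ x → x'' = x' := by
  obtain ⟨⟨⟨⟨v, e⟩, hx⟩, hB⟩, hxe⟩ : ∃ w, w = x := ⟨x, rfl⟩
  subst hxe
  obtain ⟨a, b, hab, hadj⟩ := h
  have key : ∃ e', G.Adj v e' ∧ e' ≠ e ∧ ∀ e'', G.Adj v e'' → e'' ≠ e → e'' = e' := by
    rcases (hadj e).1 hx with rfl | rfl
    · exact ⟨b, (hadj b).2 (Or.inr rfl), hab.symm, fun e'' h1 h2 =>
        ((hadj e'').1 h1).resolve_left h2⟩
    · exact ⟨a, (hadj a).2 (Or.inl rfl), hab, fun e'' h1 h2 =>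
        ((hadj e'').1 h1).resolve_right h2⟩
  obtain ⟨e', he', hee, huniq⟩ := key
  refine ⟨⟨⟨(v, e'), he'⟩, hB⟩, rfl, ?_, ?_⟩
  · intro h'
    apply hee
    exact congrArg (fun w : {x : G.Dart // ¬ B x.fst} => w.1.snd) h'
  · rintro ⟨⟨⟨v', e''⟩, hx''⟩, hB''⟩ h1 h2
    have h1 : v' = v := h1
    subst h1
    have : e'' = e' := huniq e'' hx'' (by rintro rfl; exact h2 rfl)
    subst this
    rfl

theorem conj_mul_self' {z : ℂ} (h : ‖z‖ = 1) : (starRingEnd ℂ) z * z = 1 := by
  rw [← Complex.normSq_eq_conj_mul_self, Complex.normSq_eq_norm_sq, h]; norm_num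

theorem re_conj_mul (z w : ℂ) : ((starRingEnd ℂ) z * w).re = ip z w := by
  simp [ip]

theorem root_inK {G : Prop} {F : IntermediateField ℚ ℝ} (h3 : G → √3 ∈ F) {η : ℂ}
    (h12 : η ^ 12 = 1) (h4 : ¬ G → η ^ 4 = 1) : InK F η := by
  by_cases hG : G
  · exact root12 h12 F (h3 hG)
  · exact root4 (h4 hG) F

theorem sum_sub {A : Type} [Fintype A] (p q : A → Prop) [Fintype {x // p x}]
    [DecidablePred q] [∀ x, Decidable (q x ∧ p x)] (f : A → ℂ) :
    ∑ x : A, (if q x ∧ p x then f x else 0) = ∑ x : {x // p x}, if q x.1 then f x.1 else 0 := by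
  classical
  have h1 : ∀ x, (if q x ∧ p x then f x else 0) = if p x then (if q x then f x else 0) else 0 := by
    intro x
    by_cases h : p x <;> by_cases h' : q x <;> simp [h, h']
  rw [Finset.sum_congr rfl fun x _ => h1 x, ← Finset.sum_filter]
  exact Finset.sum_subtype _ (by simp) _

end SysFieldAux

open SysFieldAux in
theorem sys_field {n : ℕ} {y : Fin n → ℂ} {r : ℝ} (hr : 0 < r) (hy : ∀ j, RatPt (y j))
    (hrq : ∃ q : ℚ, r = q) {V : Type} [Fintype V]
    {G : SimpleGraph V} {P : V → ℂ} {τ : Fin n → V} (h : IsOpt y r G P τ) (hT : G.IsTree)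
    (hne : ∀ a b, G.Adj a b → P a ≠ P b) (h2 : 2 ≤ Fintype.card V)
    (F : IntermediateField ℚ ℝ) [FiniteDimensional ℚ F]
    (hF : ∀ v, svec G P v ≠ 0 → Corner y r P τ v → InK F (P v))
    (h3 : (∃ v, Three G v) → √3 ∈ F) :
    ∃ K : IntermediateField ℚ ℝ, F ≤ K ∧ FiniteDimensional ℚ K ∧
      Module.finrank ℚ K ≤
        2 ^ (2 * Nat.card {v : V // ¬ svec G P v = 0 ∧ Two G v} + 1) * Module.finrank ℚ F ∧
      (∀ a b, G.Adj a b → InK K (dir P a b)) ∧ ∀ v, svec G P v ≠ 0 → InK K (P v) := by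
  classical
  obtain ⟨q, hq⟩ := hrq
  have hrF : r ∈ F := by rw [hq]; exact InK.rat q
  -- the balanced vertices
  obtain ⟨B, hB⟩ : ∃ B : V → Prop, B = fun v => svec G P v = 0 := ⟨_, rfl⟩
  have hBv : ∀ v, ¬ B v → svec G P v ≠ 0 := by
    intro v hv; rw [hB] at hv; exact hv
  have hBv' : ∀ v, svec G P v ≠ 0 → ¬ B v := by
    intro v hv; rw [hB]; exact hv
  have hBz : ∀ v, B v → svec G P v = 0 := by
    intro v hv; rw [hB] at hv; exact hv
  have hdp : ∀ x x' : G.Dart, (dgr G B).Reachable x x' → dd P x' ^ 6 = dd P x ^ 6 ∧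
      ((∀ v, ¬ Three G v) → dd P x' ^ 2 = dd P x ^ 2) := by
    rw [hB]
    exact fun x x' => dir_pow h hne x x'
  -- an edge
  have hdart : Nonempty G.Dart := by
    obtain ⟨a, b, hab⟩ := Fintype.exists_pair_of_one_lt_card (α := V) (by omega)
    obtain ⟨w⟩ := h.1.1.preconnected a b
    cases w with
    | nil => exact absurd rfl hab
    | cons hadj _ => exact ⟨⟨(_, _), hadj⟩⟩
  have : Fintype (dgr G B).ConnectedComponent := Fintype.ofFinite _
  have : Nonempty (dgr G B).ConnectedComponent := hdart.map (dgr G B).connectedComponentMk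
  -- representatives and square roots
  have hrep : ∀ c : (dgr G B).ConnectedComponent, ∃ x, (dgr G B).connectedComponentMk x = c :=
    fun c => Quot.exists_rep c
  choose rep hrep using hrep
  have hsq : ∀ c : (dgr G B).ConnectedComponent, ∃ t : ℂ, t ^ 2 = dd P (rep c) :=
    fun c => IsAlgClosed.exists_pow_nat_eq _ (by norm_num)
  choose t ht2 using hsq
  have hdn : ∀ x : G.Dart, ‖dd P x‖ = 1 := fun x => norm_dir (hne _ _ x.adj)
  have hdd0 : ∀ x : G.Dart, dd P x ≠ 0 := by
    intro x h0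
    have := hdn x
    rw [h0, norm_zero] at this
    exact zero_ne_one this
  have htn : ∀ c, ‖t c‖ = 1 := by
    intro c
    have h1 : ‖t c‖ ^ 2 = 1 := by rw [← norm_pow, ht2, hdn]
    have h0 := norm_nonneg (t c)
    nlinarith [sq_nonneg (‖t c‖ - 1)]
  have ht0 : ∀ c, t c ≠ 0 := by
    intro c h0
    have := htn c
    rw [h0, norm_zero] at this
    exact zero_ne_one this
  have hconj : ∀ c, (starRingEnd ℂ) (t c) * t c = 1 := fun c => conj_mul_self' (htn c)
  -- the components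
  obtain ⟨cp, hcp⟩ : ∃ cp : G.Dart → (dgr G B).ConnectedComponent,
    cp = fun x => (dgr G B).connectedComponentMk x := ⟨_, rfl⟩
  -- the roots of unity
  obtain ⟨ε, hε⟩ : ∃ ε : G.Dart → ℂ, ∀ x, ε x = dd P x / t (cp x) ^ 2 := ⟨_, fun x => rfl⟩
  have hεd : ∀ x, dd P x = ε x * t (cp x) ^ 2 := by
    intro x
    rw [hε, div_mul_cancel₀]
    exact pow_ne_zero 2 (ht0 _)
  have hε6 : ∀ x, ε x ^ 6 = 1 ∧ ((¬ ∃ v, Three G v) → ε x ^ 2 = 1) := by
    intro x
    have hreach : (dgr G B).Reachable (rep (cp x)) x := by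
      have h1 := hrep (cp x)
      have h2 : (dgr G B).connectedComponentMk (rep (cp x)) = (dgr G B).connectedComponentMk x :=
        h1.trans (by rw [hcp])
      exact SimpleGraph.ConnectedComponent.exact h2
    obtain ⟨h6, h2'⟩ := hdp _ _ hreach
    rw [hε, ht2]
    refine ⟨?_, fun hn => ?_⟩
    · rw [div_pow, h6, div_self]
      exact pow_ne_zero 6 (hdd0 _)
    · rw [div_pow, h2' (fun v hv => hn ⟨v, hv⟩), div_self]
      exact pow_ne_zero 2 (hdd0 _)
  have hεK : ∀ x, InK F (ε x) := by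
    intro x
    refine root_inK h3 ?_ fun hn => ?_
    · calc ε x ^ 12 = (ε x ^ 6) ^ 2 := by ring
        _ = 1 := by rw [(hε6 x).1]; norm_num
    · calc ε x ^ 4 = (ε x ^ 2) ^ 2 := by ring
        _ = 1 := by rw [(hε6 x).2 hn]; norm_num
  have hεe : ∀ x, (starRingEnd ℂ) (dd P x) = (starRingEnd ℂ) (ε x) * (starRingEnd ℂ) (t (cp x)) ^ 2 := by
    intro x
    rw [hεd x, map_mul, map_pow]
  -- vertices
  choose k z ν hVI using vertex_info hr hy h hne h2 F hF
  have hX : ∀ x : {x : G.Dart // ¬ B x.fst}, VI G P r F x.1.fst (k x.1.fst) (z x.1.fst) (ν x.1.fst) :=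
    fun x => hVI _ (hBv _ x.2)
  have hoth : ∀ x : {x : G.Dart // ¬ B x.fst}, ∃ x' : {x : G.Dart // ¬ B x.fst},
      k x.1.fst = 2 → x'.1.fst = x.1.fst ∧ x' ≠ x ∧
      ∀ x'' : {x : G.Dart // ¬ B x.fst}, x''.1.fst = x.1.fst → x'' ≠ x → x'' = x' := by
    intro x
    by_cases hk : k x.1.fst = 2
    · obtain ⟨x', hx'⟩ := other_dart x ((hX x).h2 hk).1
      exact ⟨x', fun _ => hx'⟩
    · exact ⟨x, fun h' => absurd h' hk⟩
  choose oth hoth using hoth
  obtain ⟨η, hη⟩ : ∃ η : {x : G.Dart // ¬ B x.fst} → ℂ, ∀ x, η x = if k x.1.fst = 2 then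
    ν x.1.fst / (t (cp x.1) * t (cp (oth x).1)) else 0 := ⟨_, fun x => rfl⟩
  have hηK : ∀ x, InK F (η x) := by
    intro x
    by_cases hk : k x.1.fst = 2
    · have h1 := ((hX x).h2 hk).2.2.2 x.1 (oth x).1 rfl (hoth x hk).1 (fun hh =>
        (hoth x hk).2.1 (Subtype.ext hh).symm)
      have hsq : η x ^ 2 = ε x.1 * ε (oth x).1 := by
        rw [hη, if_pos hk, div_pow, h1.1, hε, hε, mul_pow]
        have e1 := ht0 (cp x.1)
        have e2 := ht0 (cp (oth x).1)
        field_simp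
      refine root_inK h3 ?_ fun hn => ?_
      · calc η x ^ 12 = (η x ^ 2) ^ 6 := by ring
          _ = 1 := by rw [hsq, mul_pow, (hε6 _).1, (hε6 _).1]; norm_num
      · calc η x ^ 4 = (η x ^ 2) ^ 2 := by ring
          _ = 1 := by rw [hsq, mul_pow, (hε6 _).2 hn, (hε6 _).2 hn]; norm_num
    · rw [hη, if_neg hk]; exact InK.zero
  obtain ⟨g, hg⟩ : ∃ g : {x : G.Dart // ¬ B x.fst} → ℂ, ∀ x, g x = if k x.1.fst = 2 then
    (starRingEnd ℂ) (dd P x.1) * ν x.1.fst else 0 := ⟨_, fun x => rfl⟩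
  obtain ⟨mate, hmate⟩ : ∃ mate : {x : G.Dart // ¬ B x.fst} → Option {x : G.Dart // ¬ B x.fst},
    ∀ x, mate x = if k x.1.fst = 2 then some (oth x) else none := ⟨_, fun x => rfl⟩
  have hmate' : ∀ x x', mate x = some x' → k x.1.fst = 2 ∧ x' = oth x := by
    intro x x' hx
    rw [hmate] at hx
    by_cases hk : k x.1.fst = 2
    · rw [if_pos hk] at hx
      exact ⟨hk, (Option.some.inj hx).symm⟩
    · rw [if_neg hk] at hx
      exact absurd hx (by simp)
  obtain ⟨e, he⟩ : ∃ e : {x : G.Dart // ¬ B x.fst} → ℝ, ∀ x, e x = if k x.1.fst = 1 then r else 0 :=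
    ⟨_, fun x => rfl⟩
  obtain ⟨L, hL⟩ : ∃ L : (dgr G B).ConnectedComponent → ℝ, ∀ c, L c =
      (1 / 2) * ∑ x : G.Dart, (if (dgr G B).connectedComponentMk x = c then
      dist (P x.fst) (P x.snd) else 0) := ⟨_, fun x => rfl⟩
  have hLpos : ∀ c, 0 < L c := by
    intro c
    rw [hL]
    apply mul_pos (by norm_num)
    apply Finset.sum_pos'
    · intro x _
      split_ifs
      · exact dist_nonneg
      · exact le_rfl
    · refine ⟨rep c, Finset.mem_univ _, ?_⟩
      rw [if_pos (hrep c)]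
      exact dist_pos.2 (hne _ _ (rep c).adj)
  -- the key identity
  have hkey : ∀ x : {x : G.Dart // ¬ B x.fst}, (starRingEnd ℂ) (dd P x.1) * P x.1.fst =
      (starRingEnd ℂ) (ε x.1) * (starRingEnd ℂ) (t (cp x.1)) ^ 2 * z x.1.fst + (e x : ℂ) + r * g x := by
    intro x
    rw [← hεe]
    have hk := hX x
    have hcases : k x.1.fst = 0 ∨ k x.1.fst = 1 ∨ k x.1.fst = 2 := by
      generalize k x.1.fst = m
      fin_cases m <;> simp
    rcases hcases with h0 | h0 | h0
    · rw [hg, he, h0, hk.h0 h0]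
      simp
    · rw [hg, he, h0, (hk.h1 h0).2 x.1 rfl]
      have := conj_mul_self' (hdn x.1)
      simp only [if_true, show ¬ ((1 : Fin 3) = 2) by decide, if_false]
      linear_combination (r : ℂ) * this
    · rw [hg, he, h0, (hk.h2 h0).2.1]
      simp only [if_true, show ¬ ((2 : Fin 3) = 1) by decide, if_false]
      push_cast
      ring
  have hsum : ∀ c, ∑ x : {x : G.Dart // ¬ B x.fst}, (if cp x.1 = c then
      ((starRingEnd ℂ) (ε x.1) * (starRingEnd ℂ) (t c) ^ 2 * z x.1.fst + (e x : ℂ) + r * g x) else 0)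
      = -((L c : ℝ) : ℂ) := by
    intro c
    have h1 := torque_sum (P := P) hne B hBz c
    rw [hL]
    rw [← h1, sum_sub]
    refine Finset.sum_congr rfl fun x _ => ?_
    by_cases hx : cp x.1 = c
    · have hx' : (dgr G B).connectedComponentMk x.1 = c := by rw [← hx, hcp]
      rw [if_pos hx, if_pos hx', hkey, hx]
    · have hx' : ¬ (dgr G B).connectedComponentMk x.1 = c := by rw [hcp] at hx; exact hx
      rw [if_neg hx, if_neg hx']
  -- the boundary data
  obtain ⟨D, hD⟩ : ∃ D : Bd F r (dgr G B).ConnectedComponent {x : G.Dart // ¬ B x.fst}, D.t = t := by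
    refine ⟨{ comp := fun x => cp x.1
              t := t
              ht := htn
              ε := fun x => ε x.1
              hε := fun x => hεK x.1
              z := fun x => z x.1.fst
              hz := fun x => (hX x).hz
              mate := mate
              mate_symm := ?_
              η := η
              hη := hηK
              e := e
              he := ?_
              L := L
              hL := hLpos
              g := g
              hg := ?_
              hg0 := ?_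
              gpos := ?_
              gsymm := ?_
              torque := ?_
              length := ?_ }, rfl⟩
    · intro x x' hx
      obtain ⟨hk, hx'⟩ := hmate' x x' hx
      obtain ⟨o1, o2, o3⟩ := hoth x hk
      rw [← hx'] at o1 o2 o3
      have hk' : k x'.1.fst = 2 := by rw [o1]; exact hk
      rw [hmate, if_pos hk']
      congr 1
      obtain ⟨p1, p2, p3⟩ := hoth x' hk'
      exact (p3 x o1.symm o2.symm).symm
    · intro x
      rw [he]
      split_ifs
      · exact hr.le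
      · exact le_rfl
    · intro x x' hx
      obtain ⟨hk, hx'⟩ := hmate' x x' hx
      rw [hg, if_pos hk, hεe, hη, if_pos hk, hx']
      have e1 := ht0 (cp x.1)
      have e2 := ht0 (cp (oth x).1)
      have e3 := hconj (cp x.1)
      field_simp
      linear_combination ((starRingEnd ℂ) (ε x.1) * ν x.1.fst * (starRingEnd ℂ) (t (cp x.1))) * e3
    · intro x hx
      rw [hmate] at hx
      rw [hg]
      by_cases hk : k x.1.fst = 2
      · rw [if_pos hk] at hx
        exact absurd hx (by simp)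
      · rw [if_neg hk]
    · intro x
      rw [hg]
      by_cases hk : k x.1.fst = 2
      · rw [if_pos hk, re_conj_mul]
        exact (((hX x).h2 hk).2.2.2 x.1 (oth x).1 rfl (hoth x hk).1 (fun hh =>
          (hoth x hk).2.1 (Subtype.ext hh).symm)).2.1
      · rw [if_neg hk]
        exact le_rfl
    · intro x x' hx
      obtain ⟨hk, hx'⟩ := hmate' x x' hx
      obtain ⟨o1, o2, o3⟩ := hoth x hk
      have h4 := ((hX x).h2 hk).2.2.2 x.1 (oth x).1 rfl (hoth x hk).1 (fun hh =>
          (hoth x hk).2.1 (Subtype.ext hh).symm)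
      rw [← hx'] at o1 o2 o3 h4
      have hk' : k x'.1.fst = 2 := by rw [o1]; exact hk
      rw [hg, hg, if_pos hk, if_pos hk', re_conj_mul, re_conj_mul, o1]
      exact h4.2.2.symm
    · intro c
      have h1 := congrArg Complex.im (hsum c)
      rw [Complex.im_sum, Complex.neg_im, Complex.ofReal_im, neg_zero] at h1
      refine Eq.trans ?_ h1
      refine Finset.sum_congr rfl fun x _ => ?_
      by_cases hx : cp x.1 = c
      · rw [if_pos hx, if_pos hx]
        simp only [Complex.add_im, Complex.ofReal_im, Complex.im_ofReal_mul]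
        ring
      · rw [if_neg hx, if_neg hx]
        rfl
    · intro c
      have h1 := congrArg Complex.re (hsum c)
      rw [Complex.re_sum, Complex.neg_re, Complex.ofReal_re] at h1
      refine Eq.trans ?_ h1
      refine Finset.sum_congr rfl fun x _ => ?_
      by_cases hx : cp x.1 = c
      · rw [if_pos hx, if_pos hx]
        simp only [Complex.add_re, Complex.ofReal_re, Complex.re_ofReal_mul]
      · rw [if_neg hx, if_neg hx]
        rfl
  obtain ⟨K, hFK, hfin, hdeg, hK⟩ := bd_degree F hr.le hrF D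
  rw [hD] at hK
  refine ⟨K, hFK, hfin, hdeg.trans ?_, ?_, ?_⟩
  · apply Nat.mul_le_mul_right
    apply Nat.pow_le_pow_right (by norm_num)
    have hcc := comp_card_le (G := G) h.1.1 B ?_
    · rw [Nat.card_eq_fintype_card] at hcc
      have h5 : Nat.card {v : V // ¬ B v ∧ Two G v} =
        Nat.card {v : V // ¬ svec G P v = 0 ∧ Two G v} := by rw [hB]
      rw [h5] at hcc
      omega
    · intro v hv a b c ha hb hc
      rcases (unb_deg h hne h2 v).1 (hBv v hv) with ⟨a', ha'⟩ | ⟨a', b', _, hab⟩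
      · left
        rw [(ha' a).1 ha, (ha' b).1 hb]
      · rcases (hab a).1 ha with rfl | rfl <;> rcases (hab b).1 hb with rfl | rfl <;>
          rcases (hab c).1 hc with rfl | rfl <;> simp
  · intro a b hab
    have h1 := hεd ⟨(a, b), hab⟩
    have h2 : dd P (⟨(a, b), hab⟩ : G.Dart) = dir P a b := rfl
    rw [← h2, h1, pow_two]
    exact ((hεK _).mono hFK).mul (hK _ _)
  · intro v hv
    have hI := hVI v hv
    have hcases : k v = 0 ∨ k v = 1 ∨ k v = 2 := by
      generalize k v = m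
      fin_cases m <;> simp
    have hzK : InK K (z v) := hI.hz.mono hFK
    have hrK : InK K (r : ℂ) := InK.ofReal (hFK hrF)
    rcases hcases with h0 | h0 | h0
    · rw [hI.h0 h0]; exact hzK
    · obtain ⟨⟨x, hx⟩, h4⟩ := hI.h1 h0
      rw [h4 x hx, hεd x, pow_two]
      exact hzK.add (hrK.mul (((hεK _).mono hFK).mul (hK _ _)))
    · obtain ⟨⟨a, b, hab, hadj⟩, hP, hν, _⟩ := hI.h2 h0
      obtain ⟨x, hx⟩ : ∃ x : {x : G.Dart // ¬ B x.fst}, x.1.fst = v :=
        ⟨⟨⟨(v, a), (hadj a).2 (Or.inl rfl)⟩, hBv' v hv⟩, rfl⟩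
      have h5 := hη x
      rw [hx, if_pos h0] at h5
      have h6 : ν v = η x * (t (cp x.1) * t (cp (oth x).1)) := by
        rw [h5, div_mul_cancel₀]
        exact mul_ne_zero (ht0 _) (ht0 _)
      rw [hP, h6]
      exact hzK.add (hrK.mul (((hηK x).mono hFK).mul (hK _ _)))

end Pool.Agent.Lib.P7ee
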