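import Pool.Agent.Lib.P7ee.ExistsOpt
import Pool.Agent.Lib.P7ee.OptMin
import Pool.Agent.Lib.P7ee.CountLe
import Pool.Agent.Lib.P7ee.BaseField
import Pool.Agent.Lib.P7ee.SysField
import Pool.Agent.Lib.P7ee.EnergIn

/-!
# P7ee.Upper: the upper bound  (1 h)

`M` finite with `n` elements: `M = Set.range y` for an injective `y : Fin n → ℂ` (`Set.Finite.toFinset`, `Finset.equivFin`). `exists_opt`; `N ≥ 2`, since for `N ≤ 1` all `y j` would be within `r` of one point. `isMinimizer_netSet`; `base_field`, `sys_field`, `energ_in`: `coordField (energetic ..) ≤ K`, so `deg ≤ finrank ℚ K ≤ 2 ^ (2 m2 + 1 + q + min 1 n3)` and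
`2 m2 + 1 + q + min 1 n3 ≤ 2 n - 3` by `count_le`. `rank` of a subfield of `K` over `ℚ` is at most `finrank ℚ K` (`IntermediateField.finrank_le_of_le_right` / `Submodule.rank_mono`), `Cardinal.toENat`.
-/

set_option autoImplicit false



namespace Pool.Agent.Lib.P7ee

namespace UpperAux

theorem two_le {n : ℕ} (hn : 2 ≤ n) {y : Fin n → ℂ} {r : ℝ} {N : ℕ} {G : SimpleGraph (Fin N)}
    {P : Fin N → ℂ} {τ : Fin n → Fin N} (hf : Feas y r G P τ)
    (hb : ∀ c : ℂ, ¬ Set.range y ⊆ Metric.closedBall c r) : 2 ≤ N := by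
  by_contra hN
  push Not at hN
  have h0 : 0 < N := by
    have := (τ ⟨0, by omega⟩).isLt
    omega
  have h1 : N = 1 := by omega
  subst h1
  apply hb (P 0)
  rintro _ ⟨j, rfl⟩
  have h2 := hf.2 j
  have h3 : τ j = 0 := Subsingleton.elim _ _
  rw [h3] at h2
  rw [Metric.mem_closedBall, dist_comm]
  exact h2

theorem deg_le {S : Set ℂ} {K : IntermediateField ℚ ℝ} [FiniteDimensional ℚ K]
    (h : ∀ x ∈ S, InK K x) : deg S ≤ (Module.finrank ℚ K : ℕ∞) := by
  have h1 : coordField S ≤ K := by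
    unfold coordField
    rw [IntermediateField.adjoin_le_iff]
    rintro t ⟨x, hx, rfl | rfl⟩
    · exact (h x hx).1
    · exact (h x hx).2
  have h2 : Module.rank ℚ (coordField S) ≤ Module.rank ℚ K :=
    Submodule.rank_mono (s := (coordField S).toSubalgebra.toSubmodule)
      (t := K.toSubalgebra.toSubmodule) h1
  unfold deg
  calc Cardinal.toENat (Module.rank ℚ (coordField S)) ≤ Cardinal.toENat (Module.rank ℚ K) :=
        OrderHomClass.mono Cardinal.toENat h2
    _ = (Module.finrank ℚ K : ℕ∞) := by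
        rw [← Module.finrank_eq_rank, Cardinal.toENat_nat]

end UpperAux

theorem delta_le {M : Set ℂ} {r : ℝ} (h : Admissible M r) {n : ℕ} (hn : 2 ≤ n)
    (hM : M.ncard = n) : delta M r ≤ 2 ^ (2 * n - 3) := by
  classical
  obtain ⟨hfin, hrat, hr, hrq, hball⟩ := h
  have : Finite M := hfin
  have hcard : Nat.card M = n := by
    rw [Nat.card_coe_set_eq, hM]
  let e : M ≃ Fin n := Finite.equivFinOfCardEq hcard
  let y : Fin n → ℂ := fun j => (e.symm j : ℂ)
  have hy : Set.range y = M := by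
    ext z
    constructor
    · rintro ⟨j, rfl⟩
      exact (e.symm j).2
    · intro hz
      refine ⟨e ⟨z, hz⟩, ?_⟩
      simp [y]
  have hyrat : ∀ j, RatPt (y j) := fun j => hrat _ (e.symm j).2
  obtain ⟨N, G, P, τ, hopt, hT, hne⟩ := exists_opt (by omega : 0 < n) y hr.le
  have hN : 2 ≤ N := UpperAux.two_le hn hopt.1 (by rw [hy]; exact hball)
  have hmin := isMinimizer_netSet (by omega : 0 < n) hr.le hN hopt
  have h2 : 2 ≤ Fintype.card (Fin N) := by
    rw [Fintype.card_fin]
    exact hN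
  obtain ⟨F, hFfd, hFrank, hF, h3⟩ := base_field hyrat hrq G P τ
  have := hFfd
  obtain ⟨K, -, hKfd, hKrank, hd, hv⟩ := sys_field hr hyrat hrq hopt hT hne h2 F hF h3
  have := hKfd
  have hen := energ_in hr hyrat hopt hT hne h2 K hd hv
  have hdeg := UpperAux.deg_le hen
  have hcount := count_le hr hopt hT hne h2
  rw [hy] at hmin hdeg
  have hle : delta M r ≤ deg (energetic M r (netSet G P)) := by
    unfold delta
    exact iInf₂_le _ hmin
  refine hle.trans (hdeg.trans ?_)
  have hnat : Module.finrank ℚ K ≤ 2 ^ (2 * n - 3) := by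
    refine hKrank.trans ?_
    refine (Nat.mul_le_mul_left _ hFrank).trans ?_
    rw [← pow_add]
    refine Nat.pow_le_pow_right (by norm_num) ?_
    have hmin1 : min 1 (Nat.card {v : Fin N // Three G v}) ≤
        Nat.card {v : Fin N // Three G v} := min_le_right _ _
    omega
  calc (Module.finrank ℚ K : ℕ∞) ≤ ((2 ^ (2 * n - 3) : ℕ) : ℕ∞) := by exact_mod_cast hnat
    _ = 2 ^ (2 * n - 3) := by push_cast; rfl

end Pool.Agent.Lib.P7ee
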